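import Pool.Agent.Lib_CI.Iter

/-!
# Piece AX: the simple axioms of iterations
-/

set_option autoImplicit false

namespace Pool.Agent.CIt

open Pool.Agent.GGen Pool.Agent.HMod Pool.Agent.SOU Pool.Agent.SOUi Pool.Agent.CSI

/-! ### block sequences (elementary) -/

theorem BS.le_refl' (A : BS) : BS.le A A := by
  exact ⟨0, fun b hb _ => hb⟩

theorem BS.le_trans' {A B C : BS} (h : BS.le A B) (h' : BS.le B C) : BS.le A C := by
  obtain ⟨k, hk⟩ := h
  obtain ⟨k', hk'⟩ := h'
  refine ⟨max k k', fun b hb hLo => ?_⟩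
  refine hk' b (hk b hb fun j hj => ?_) fun j hj => ?_
  · exact (le_max_left _ _).trans (hLo j hj)
  · exact (le_max_right _ _).trans (hLo j hj)

/-- the sequence `n ↦ {n}` is the largest one -/
theorem BS.le_top' {A B : BS} (h : ∀ n, B.1 n = {n}) : BS.le A B := by
  refine ⟨0, fun b hb _ => ?_⟩
  obtain ⟨I, hI, rfl⟩ := hb
  refine ⟨I.biUnion A.1, ?_, ?_⟩
  · obtain ⟨i, hi⟩ := hI
    obtain ⟨x, hx⟩ := A.2.ne i
    exact ⟨x, Finset.mem_biUnion.mpr ⟨i, hi, hx⟩⟩
  · ext x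
    simp only [Finset.mem_biUnion, h, Finset.mem_singleton]
    constructor
    · rintro ⟨i, hi, hx⟩
      exact ⟨x, ⟨i, hi, hx⟩, rfl⟩
    · rintro ⟨y, ⟨i, hi, hy⟩, rfl⟩
      exact ⟨i, hi, hy⟩

variable {K : Type} [Field K] [DecidableEq K] [Countable K] (cd : Codes K)

/-- the recursion equation. PROOF. `WellFounded.fix_eq`; the two relations `LeOf _ β` are equal (`funext`, only the coordinates `γ < β` are used). -/
theorem atC_eq (β : Ordinal.{0}) : AtC cd β = stepAt cd β (LeOf (AtC cd) (β : Stg)) := by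
  have h1 : LeOf (fun γ => if _h : γ < β then AtC cd γ else fun _ _ _ => True) (β : Stg) =
      LeOf (AtC cd) (β : Stg) := by
    funext p q
    refine propext (forall_congr' fun γ => forall_congr' fun hγ => ?_)
    have h2 : (fun γ => if _h : γ < β then AtC cd γ else fun _ _ _ => True) γ = AtC cd γ := by
      beta_reduce
      exact dif_pos (WithTop.coe_lt_coe.mp hγ)
    rw [h2]
  rw [← h1]
  exact WellFounded.fix_eq _ _ _

/-- the four axioms at the coordinate `β` -/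
def AxAt (β : Ordinal.{0}) : Prop :=
  (∀ r x, AtC cd β r x x) ∧
  (∀ r x y z, AtC cd β r x y → AtC cd β r y z → AtC cd β r x z) ∧
  (∀ r r' x y, LeOf (AtC cd) (β : Stg) r' r → AtC cd β r x y → AtC cd β r' x y) ∧
  (∀ r x, AtC cd β r x ∅)

theorem preOK_of (δ : Stg) (h : ∀ γ : Ordinal.{0}, (γ : Stg) < δ → AxAt cd γ) :
    PreOK (LeOf (AtC cd) δ) := by
  refine ⟨fun p γ hγ => (h γ hγ).1 p _, fun p q r h1 h2 γ hγ => ?_, fun p γ hγ => (h γ hγ).2.2.2 p _⟩
  refine (h γ hγ).2.1 p _ _ _ (h1 γ hγ) ((h γ hγ).2.2.1 q p _ _ ?_ (h2 γ hγ))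
  exact fun γ' hγ' => h1 γ' (hγ'.trans hγ)

theorem stepAt_eq {β : Ordinal.{0}} (hβ : β ≠ 0) (h : PreOK (LeOf (AtC cd) (β : Stg)))
    (r : CC) (x y : XX) : AtC cd β r x y ↔
      SemLe cd β ⟨LeOf (AtC cd) (β : Stg), h.1, h.2.1, h.2.2⟩ r x y := by
  rw [atC_eq, stepAt, if_neg hβ, dif_pos h]

theorem stepAt_zero (r : CC) (x y : XX) : AtC cd 0 r x y ↔ BS.le (cd.decB x) (cd.decB y) := by
  rw [atC_eq, stepAt, if_pos rfl]

theorem axAt (β : Ordinal.{0}) : AxAt cd β := by
  induction β using WellFoundedLT.induction with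
  | ind β ih =>
    have hP : PreOK (LeOf (AtC cd) (β : Stg)) :=
      preOK_of cd _ fun γ hγ => ih γ (WithTop.coe_lt_coe.mp hγ)
    by_cases hβ : β = 0
    · subst hβ
      refine ⟨fun r x => ?_, fun r x y z h1 h2 => ?_, fun r r' x y _ h1 => ?_, fun r x => ?_⟩
      · rw [stepAt_zero]
        exact BS.le_refl' _
      · rw [stepAt_zero] at h1 h2 ⊢
        exact BS.le_trans' h1 h2
      · rw [stepAt_zero] at h1 ⊢
        exact h1
      · rw [stepAt_zero]
        exact BS.le_top' cd.decB0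
    · refine ⟨fun r x => ?_, fun r x y z h1 h2 => ?_, fun r r' x y hr h1 => ?_, fun r x => ?_⟩
      · rw [stepAt_eq cd hβ hP]
        exact Filter.Eventually.of_forall fun g _ => le_rfl
      · rw [stepAt_eq cd hβ hP] at h1 h2 ⊢
        exact (h1.and h2).mono fun g hg hr => (hg.1 hr).trans (hg.2 hr)
      · rw [stepAt_eq cd hβ hP] at h1 ⊢
        refine h1.mono fun g hg hr' => hg ?_
        let sP : PreS := ⟨LeOf (AtC cd) (β : Stg), hP.1, hP.2.1, hP.2.2⟩
        exact mem_up (P := sP.T) hr' hr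
      · rw [stepAt_eq cd hβ hP]
        let sP : PreS := ⟨LeOf (AtC cd) (β : Stg), hP.1, hP.2.1, hP.2.2⟩
        refine Filter.Eventually.of_forall fun g _ => ?_
        have h1 : EvG (P := sP.T) (cd.bk β) (cd.dec ∅) g = Full :=
          evG_empty (P := sP.T) (S := cd.dec ∅) cd.dec0
        show EvG (P := sP.T) (cd.bk β) (cd.dec x) g ⊆ EvG (P := sP.T) (cd.bk β) (cd.dec ∅) g
        rw [h1]
        exact evG_sub (P := sP.T)

/-- PROOF. By strong induction on `β` show for all `γ < β` the four axioms (`refl`, `trans`, `mono`, `top`) for `AtC cd γ`, which give `PreOK (LeOf (AtC cd) β)`. If `LeOf .. β` is a preorder, `AtC cd β` is `SemLe` (or `BS.le` for `β = 0`) : `mono` because `r' ≤ r`, `r' ∈ g` imply `r ∈ g` (`mem_up`), `top` by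
`evG_sub`, `evG_empty`, `dec0`. -/
theorem preOK (δ : Stg) : PreOK (LeOf (AtC cd) δ) := by
  exact preOK_of cd δ fun γ _ => axAt cd γ

/-- the preorder of the stage `δ` -/
def preS (δ : Stg) : PreS := ⟨LeOf (AtC cd) δ, (preOK cd δ).1, (preOK cd δ).2.1, (preOK cd δ).2.2⟩

theorem atC_zero (r : CC) (x y : XX) : AtC cd 0 r x y ↔ BS.le (cd.decB x) (cd.decB y) := by
  exact stepAt_zero cd r x y

theorem atC_iff {β : Ordinal.{0}} (hβ : β ≠ 0) (r : CC) (x y : XX) :
    AtC cd β r x y ↔ SemLe cd β (preS cd (β : Stg)) r x y := by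
  exact stepAt_eq cd hβ (preOK cd (β : Stg)) r x y

theorem atC_refl (β : Ordinal.{0}) (r : CC) (x : XX) : AtC cd β r x x := by
  exact (axAt cd β).1 r x

theorem atC_trans (β : Ordinal.{0}) (r : CC) (x y z : XX) (h : AtC cd β r x y)
    (h' : AtC cd β r y z) : AtC cd β r x z := by
  exact (axAt cd β).2.1 r x y z h h'

theorem atC_mono (β : Ordinal.{0}) (r r' : CC) (x y : XX) (h : LeOf (AtC cd) (β : Stg) r' r)
    (h' : AtC cd β r x y) : AtC cd β r' x y := by
  exact (axAt cd β).2.2.1 r r' x y h h'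

theorem atC_top (β : Ordinal.{0}) (r : CC) (x : XX) : AtC cd β r x ∅ := by
  exact (axAt cd β).2.2.2 r x

end Pool.Agent.CIt
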