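import Pool.Agent.Lib_CI.Prop0
import Pool.Agent.Lib_CSI.PDefs
import Pool.Agent.Lib_MP_a0d45a_lc.Hin

/-!
# Piece CIBASE: the generic stable ordered-union ultrafilter of the coordinate `0`
-/

set_option autoImplicit false

namespace Pool.Agent.CIt

open Pool.Agent.GGen Pool.Agent.HMod Pool.Agent.SOU Pool.Agent.SOUi Pool.Agent.CSI

theorem cibase_le_refl (A : BS) : BS.le A A := ⟨0, fun _ h _ => h⟩

theorem cibase_le_trans {A B C : BS} (h1 : BS.le A B) (h2 : BS.le B C) : BS.le A C := by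
  obtain ⟨k, hk⟩ := h1
  obtain ⟨l, hl⟩ := h2
  refine ⟨max k l, fun b hb hlo => ?_⟩
  exact hl b (hk b hb fun j hj => (le_max_left k l).trans (hlo j hj))
    fun j hj => (le_max_right k l).trans (hlo j hj)

theorem cibase_le_of_fu {A B : BS} (h : fu A.1 ⊆ fu B.1) : BS.le A B := ⟨0, fun _ hb _ => h hb⟩

/-- the tails of a block sequence -/
def cibaseTail (A : BS) (k : ℕ) : BS :=
  ⟨fun n => A.1 (n + k), ⟨fun n => A.2.ne _, fun n => by
    have h := A.2.lt (n + k)
    have e : n + k + 1 = n + 1 + k := by omega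
    rw [e] at h
    exact h⟩⟩

theorem cibaseTail_sub (A : BS) (k : ℕ) : fu (cibaseTail A k).1 ⊆ fu A.1 :=
  fu_mono fun n => self_mem_fu A.1 (n + k)

theorem cibaseTail_lo (A : BS) (k : ℕ) {b : Finset ℕ} (hb : b ∈ fu (cibaseTail A k).1) : Lo k b := by
  obtain ⟨I, _, rfl⟩ := hb
  intro j hj
  obtain ⟨n, _, hj⟩ := Finset.mem_biUnion.1 hj
  have h := A.2.ge (n + k) j hj
  omega

theorem cibase_le_tail (A : BS) (k : ℕ) : BS.le A (cibaseTail A k) := by
  classical
  refine ⟨(Finset.range k).sup (fun i => mx (A.1 i)) + 1, ?_⟩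
  rintro b ⟨I, hI, rfl⟩ hlo
  have hk : ∀ i ∈ I, k ≤ i := by
    intro i hi
    by_contra hcon
    push Not at hcon
    have h1 := finU_mx_mem (A.2.ne i)
    have h2 := hlo _ (Finset.mem_biUnion.2 ⟨i, hi, h1⟩)
    have h3 : mx (A.1 i) ≤ (Finset.range k).sup (fun i => mx (A.1 i)) :=
      Finset.le_sup (f := fun i => mx (A.1 i)) (Finset.mem_range.2 hcon)
    omega
  refine ⟨I.image (fun i => i - k), hI.image _, ?_⟩
  ext j
  simp only [Finset.mem_biUnion, Finset.mem_image]
  constructor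
  · rintro ⟨i, hi, hj⟩
    refine ⟨i - k, ⟨i, hi, rfl⟩, ?_⟩
    show j ∈ A.1 (i - k + k)
    rw [Nat.sub_add_cancel (hk i hi)]
    exact hj
  · rintro ⟨_, ⟨i, hi, rfl⟩, hj⟩
    refine ⟨i, hi, ?_⟩
    have hj' : j ∈ A.1 (i - k + k) := hj
    rw [Nat.sub_add_cancel (hk i hi)] at hj'
    exact hj'

variable {K : Type} [Field K] [DecidableEq K] [Countable K] (cd : Codes K)

/-- the name of the generic ultrafilter: the sets `fu (decB x)`, with the condition `(x, ∅, ∅, ...)` -/
def U0 : FN (Finset ℕ) (iter cd).C :=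
  {q | ∃ x : XX, q = (fun b => {c | c = (iter cd).one ∧ b ∈ fu (cd.decB x).1},
    (iter cd).put (iter cd).one 0 x)}

/-- the stage `1` -/
theorem le_one_iff {p q : (iter cd).C} :
    (iter cd).le ((1 : Ordinal.{0}) : Stg) p q ↔ BS.le (cd.decB (p.1 0)) (cd.decB (q.1 0)) := by
  constructor
  · intro h
    have h1 := h 0 (by exact_mod_cast (zero_lt_one : (0 : Ordinal.{0}) < 1))
    exact (it_at0 cd _ _ _).1 h1
  · intro h γ hγ
    have h1 : γ < 1 := by exact_mod_cast hγ
    have h2 : γ = 0 := Order.lt_one_iff.1 h1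
    subst h2
    exact (it_at0 cd _ _ _).2 h

/-- no new reals. PROOF. σ-closure: decide `i ∈ X` for the (countably many) `i` one after another. -/
theorem decide_all {ι : Type} [Countable ι] (X : ι → Set (iter cd).C) (p : (iter cd).C) :
    ∃ q, (iter cd).le ((1 : Ordinal.{0}) : Stg) q p ∧ ∃ S : Set ι,
      Fo (P := (iter cd).PP ((1 : Ordinal.{0}) : Stg)) q
        (fun g => ev (P := (iter cd).PP ((1 : Ordinal.{0}) : Stg)) X g = S) := by
  classical
  rcases isEmpty_or_nonempty ι with hι | hι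
  · refine ⟨p, (iter cd).le_refl' _ p, ∅, ?_⟩
    refine fo_of_eventually (Filter.Eventually.of_forall fun g => ?_)
    ext i
    exact (hι.false i).elim
  · obtain ⟨e, he⟩ := exists_surjective_nat ι
    have hd : ∀ (n : ℕ) (c : (iter cd).PP ((1 : Ordinal.{0}) : Stg)), ∃ d ≤ c,
        Fo d (fun g => e n ∈ ev (P := (iter cd).PP ((1 : Ordinal.{0}) : Stg)) X g) ∨
        Fo d (fun g => ¬ e n ∈ ev (P := (iter cd).PP ((1 : Ordinal.{0}) : Stg)) X g) :=
      fun n c => dec_ev (P := (iter cd).PP ((1 : Ordinal.{0}) : Stg)) X (e n) c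
    choose f hf1 hf2 using hd
    let d : ℕ → (iter cd).PP ((1 : Ordinal.{0}) : Stg) := fun n => Nat.rec p (fun n c => f n c) n
    have hd0 : d 0 = p := rfl
    have hds : ∀ n, d (n + 1) = f n (d n) := fun n => rfl
    have hanti : ∀ n, BS.le (cd.decB ((d (n + 1)).1 0)) (cd.decB ((d n).1 0)) := by
      intro n
      refine (le_one_iff cd).1 ?_
      rw [hds]
      exact hf1 n (d n)
    obtain ⟨B, hB⟩ := BS.pseudo (fun n => cd.decB ((d n).1 0)) hanti
    obtain ⟨x, hx⟩ := cd.surjB B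
    let q : (iter cd).PP ((1 : Ordinal.{0}) : Stg) := (iter cd).put (iter cd).one 0 x
    have hq0 : (q : (iter cd).C).1 0 = x := put_same
    have hq : ∀ n, q ≤ d n := by
      intro n
      refine (le_one_iff cd).2 ?_
      rw [hq0, hx]
      exact hB n
    refine ⟨q, hq 0, {i | ∃ n, e n = i ∧
      Fo q (fun g => i ∈ ev (P := (iter cd).PP ((1 : Ordinal.{0}) : Stg)) X g)}, ?_⟩
    have h1 : Fo q (fun g => ∀ n, (e n ∈ ev (P := (iter cd).PP ((1 : Ordinal.{0}) : Stg)) X g ↔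
        Fo q (fun g => e n ∈ ev (P := (iter cd).PP ((1 : Ordinal.{0}) : Stg)) X g))) := by
      refine fo_all fun n => ?_
      have h2 : q ≤ f n (d n) := by
        rw [← hds]
        exact hq (n + 1)
      rcases hf2 n (d n) with h3 | h3
      · have h4 := h3.mono h2
        refine h4.imp (fo_of_eventually (Filter.Eventually.of_forall fun g hg => ?_))
        exact ⟨fun _ => h4, fun _ => hg⟩
      · have h4 := h3.mono h2
        refine h4.imp (fo_of_eventually (Filter.Eventually.of_forall fun g hg => ?_))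
        refine ⟨fun h5 => absurd h5 hg, fun h5 => ?_⟩
        exfalso
        exact fo_false (h5.imp (h4.imp (fo_of_eventually (Filter.Eventually.of_forall
          fun g h6 h7 => h6 h7))))
    refine h1.imp (fo_of_eventually (Filter.Eventually.of_forall fun g hg => ?_))
    ext i
    obtain ⟨n, rfl⟩ := he i
    constructor
    · intro h5
      exact ⟨n, rfl, (hg n).1 h5⟩
    · rintro ⟨m, _, h5⟩
      exact (hg n).2 h5

/-- the stage -/
abbrev cibP : Type 1 := (iter cd).PP ((1 : Ordinal.{0}) : Stg)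

/-- the name of `fu (decB x)` -/
def cibN (x : XX) : Finset ℕ → Set (cibP cd) :=
  fun b => {c | c = (iter cd).one ∧ b ∈ fu (cd.decB x).1}

/-- the condition with `x` at `0` -/
noncomputable def cibC (x : XX) : cibP cd := (iter cd).put (iter cd).one 0 x

/-- the block sequence of a condition -/
def cibA (c : cibP cd) : BS := cd.decB (Subtype.val (p := fun f : Ordinal.{0} → XX => {β | f β ≠ (iter cd).x₀}.Countable) c 0)

theorem cibA_eq (c : (iter cd).C) : cibA cd c = cd.decB (c.1 0) := rfl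

theorem cib_le {p q : cibP cd} : p ≤ q ↔ BS.le (cibA cd p) (cibA cd q) :=
  le_one_iff cd

theorem cibC_0 (x : XX) : cibA cd (cibC cd x) = cd.decB x :=
  congrArg cd.decB (put_same (I := iter cd) (p := (iter cd).one) (γ := 0) (x := x))

theorem cib_decide {ι : Type} [Countable ι] (X : ι → Set (cibP cd)) (p : cibP cd) :
    ∃ q : cibP cd, q ≤ p ∧ ∃ S : Set ι, Fo q (fun g => ev X g = S) := decide_all cd X p

theorem cib_ev (x : XX) (g : GG (cibP cd)) : ev (cibN cd x) g = fu (cd.decB x).1 := by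
  ext b
  constructor
  · rintro ⟨c, ⟨_, h⟩, _⟩
    exact h
  · intro h
    exact ⟨(iter cd).one, ⟨rfl, h⟩, top_mem g⟩

theorem cib_live {g : GG (cibP cd)} {X : Finset ℕ → Set (cibP cd)}
    (h : Live (P := cibP cd) (U0 cd) g X) : ∃ x, X = cibN cd x ∧ cibC cd x ∈ g := by
  obtain ⟨_, c, ⟨x, hx⟩, hc⟩ := h
  obtain ⟨h1, h2⟩ := Prod.ext_iff.1 hx
  refine ⟨x, h1, ?_⟩
  have h3 : c = cibC cd x := h2
  rw [← h3]
  exact hc

theorem cib_live' {g : GG (cibP cd)} {x : XX} (h : g.has (cibN cd x)) (hc : cibC cd x ∈ g) :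
    Live (P := cibP cd) (U0 cd) g (cibN cd x) :=
  ⟨h, cibC cd x, ⟨x, rfl⟩, hc⟩

theorem cib_mem_of {g : GG (cibP cd)} {p : cibP cd} (hp : p ∈ g) {x : XX}
    (h : BS.le (cibA cd p) (cd.decB x)) : cibC cd x ∈ g := by
  refine mem_up hp ((cib_le cd).2 ?_)
  rw [cibC_0]
  exact h

/-- the directedness -/
theorem cib_dir : ∀ᶠ g in GC (cibP cd), Dir (P := cibP cd) (U0 cd) g := by
  choose tl htl using fun (c : cibP cd) (k : ℕ) => cd.surjB (cibaseTail (cibA cd c) k)
  have h1 : ∀ᶠ g in GC (cibP cd), ∀ k : ℕ, ∀ c : cibP cd, g.has c →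
      g.has (cibN cd (tl c k)) :=
    eventually_countable_forall.2 fun k =>
      GC_op (P := cibP cd) (fun c : cibP cd => cibN cd (tl c k))
  filter_upwards [h1] with g h2
  have h3 : ∀ (n k : ℕ), Live (P := cibP cd) (U0 cd) g
      (cibN cd (tl (g.gen.G n) k)) := by
    intro n k
    refine cib_live' cd (h2 k _ (g.cond n)) (cib_mem_of cd (G_mem g n) ?_)
    rw [htl]
    exact cibase_le_tail _ _
  refine ⟨⟨_, h3 0 0⟩, ?_⟩
  intro X Y hX hY
  obtain ⟨x, rfl, hx⟩ := cib_live cd hX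
  obtain ⟨y, rfl, hy⟩ := cib_live cd hY
  obtain ⟨n, hn⟩ := hx
  obtain ⟨m, hm⟩ := hy
  have hn' : g.gen.G (max n m) ≤ cibC cd x := (g.gen.anti (le_max_left n m)).trans hn
  have hm' : g.gen.G (max n m) ≤ cibC cd y := (g.gen.anti (le_max_right n m)).trans hm
  rw [cib_le, cibC_0] at hn' hm'
  obtain ⟨k, hk⟩ := hn'
  obtain ⟨l, hl⟩ := hm'
  refine ⟨_, h3 (max n m) (max k l), ?_⟩
  rw [cib_ev, cib_ev, cib_ev, htl]
  intro b hb
  have hb1 := cibaseTail_sub _ _ hb
  have hb2 := cibaseTail_lo _ _ hb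
  exact ⟨hk b hb1 fun j hj => (le_max_left k l).trans (hb2 j hj),
    hl b hb1 fun j hj => (le_max_right k l).trans (hb2 j hj)⟩

/-- membership in the generic ultrafilter -/
theorem cib_mem : ∀ᶠ g in GC (cibP cd), ∀ S : Set (Finset ℕ),
    S ∈ evF (P := cibP cd) (U0 cd) g → ∃ x, g.has (cibN cd x) ∧ cibC cd x ∈ g ∧
      fu (cd.decB x).1 ⊆ S := by
  filter_upwards [cib_dir cd] with g hD S hS
  obtain ⟨X, hX, hXS⟩ := (mem_evF hD).1 hS
  have hX1 := hX.1
  obtain ⟨x, rfl, hx⟩ := cib_live cd hX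
  rw [cib_ev] at hXS
  exact ⟨x, hX1, hx, hXS⟩

theorem cib_in {g : GG (cibP cd)} {x : XX} (h : g.has (cibN cd x)) (hc : cibC cd x ∈ g)
    {S : Set (Finset ℕ)} (hS : fu (cd.decB x).1 ⊆ S) : S ∈ evF (P := cibP cd) (U0 cd) g := by
  refine Filter.mem_of_superset (Filter.mem_generate_of_mem ⟨_, cib_live' cd h hc, rfl⟩) ?_
  rw [cib_ev]
  exact hS

theorem cib_ultra : ∀ᶠ g in GC (cibP cd), ∀ S : Set (Finset ℕ), Int g.M (fun b => b ∈ S) →
    S ∈ evF (P := cibP cd) (U0 cd) g ∨ Sᶜ ∈ evF (P := cibP cd) (U0 cd) g := by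
  have h1 : ∀ X : Finset ℕ → Set (cibP cd), ∀ᶠ g in GC (cibP cd),
      ev X g ∈ evF (P := cibP cd) (U0 cd) g ∨ (ev X g)ᶜ ∈ evF (P := cibP cd) (U0 cd) g := by
    intro X
    refine fo_top (fo_dense fun q _ => ?_)
    obtain ⟨q', hq', T, hT⟩ := cib_decide cd X q
    obtain ⟨B, hB, hBA, hBT⟩ := hindman_block (cibA cd q').2 T
    obtain ⟨x, hx⟩ := cd.surjB ⟨B, hB⟩
    have hle : (cibC cd x : cibP cd) ≤ q' := by
      rw [cib_le, cibC_0, hx]
      exact cibase_le_of_fu hBA
    refine ⟨cibC cd x, hle.trans hq', ?_⟩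
    have hT' : Fo (cibC cd x : cibP cd) (fun g => ev (P := cibP cd) X g = T) := Fo.mono hT hle
    filter_upwards [hT', GC_has (P := cibP cd) (cibN cd x)] with g h2 h3 hc
    have h4 : ev (P := cibP cd) X g = T := h2 hc
    have hxB : fu (cd.decB x).1 = fu B := by rw [hx]
    rw [h4]
    rcases hBT with hBT | hBT
    · left
      refine cib_in cd h3 hc ?_
      rw [hxB]
      exact hBT
    · right
      refine cib_in cd h3 hc ?_
      rw [hxB]
      exact hBT
  filter_upwards [GC_normalH h1, rep_ev (P := cibP cd) (ι := Finset ℕ)] with g h2 h3 S hS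
  obtain ⟨X, hX, rfl⟩ := h3 S hS
  exact h2 X hX

theorem cib_int : ∀ᶠ g in GC (cibP cd), ∀ x : XX, g.has (cibN cd x) →
    ∃ A : ℕ → Finset ℕ, IntF g.M A ∧ BlkF A ∧ fu A = fu (cd.decB x).1 := by
  have h1 : ∀ X : Finset ℕ → Set (cibP cd), ∀ᶠ g in GC (cibP cd), ∀ x : XX, X = cibN cd x →
      ∃ A : ℕ → Finset ℕ, IntF g.M A ∧ BlkF A ∧ fu A = fu (cd.decB x).1 := by
    intro X
    by_cases h : ∃ x, X = cibN cd x
    · obtain ⟨x, rfl⟩ := h
      filter_upwards [GC_club (P := cibP cd) (club_intF.{2} (cd.decB x).1)] with g hg y hy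
      refine ⟨(cd.decB x).1, hg, (cd.decB x).2, ?_⟩
      rw [← cib_ev cd x g, hy, cib_ev]
    · exact Filter.Eventually.of_forall fun g x hx => absurd ⟨x, hx⟩ h
  filter_upwards [GC_normalH h1] with g h2 x hx
  exact h2 _ hx x rfl

theorem cib_stable : ∀ᶠ g in GC (cibP cd), ∀ A : ℕ → ℕ → Finset ℕ,
    IntF g.M (fun q : ℕ × ℕ => A q.1 q.2) →
    (∀ n, BlkF (A n) ∧ fu (A n) ∈ evF (P := cibP cd) (U0 cd) g) →
      ∃ B, IntF g.M B ∧ BlkF B ∧ fu B ∈ evF (P := cibP cd) (U0 cd) g ∧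
        ∀ n, ∃ k, ∀ b ∈ fu B, (∀ j ∈ b, k < j) → b ∈ fu (A n) := by
  have h1 : ∀ X : (ℕ × ℕ) × Finset ℕ → Set (cibP cd), ∀ᶠ g in GC (cibP cd),
      ∀ A : ℕ → ℕ → Finset ℕ, ev X g = {q | A q.1.1 q.1.2 = q.2} →
      (∀ n, BlkF (A n) ∧ fu (A n) ∈ evF (P := cibP cd) (U0 cd) g) →
      ∃ B, IntF g.M B ∧ BlkF B ∧ fu B ∈ evF (P := cibP cd) (U0 cd) g ∧
        ∀ n, ∃ k, ∀ b ∈ fu B, (∀ j ∈ b, k < j) → b ∈ fu (A n) := by
    intro X
    refine fo_top (fo_dense fun q _ => ?_)
    obtain ⟨q', hq', T, hT⟩ := cib_decide cd X q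
    by_cases hA : ∃ A : ℕ → ℕ → Finset ℕ, T = {q | A q.1.1 q.1.2 = q.2} ∧ ∀ n, BlkF (A n)
    · obtain ⟨A, rfl, hAb⟩ := hA
      have huniq : ∀ A' : ℕ → ℕ → Finset ℕ,
          {q : (ℕ × ℕ) × Finset ℕ | A q.1.1 q.1.2 = q.2} = {q | A' q.1.1 q.1.2 = q.2} →
            A' = A := by
        intro A' h
        funext n m
        have h3 : ((n, m), A n m) ∈ {q : (ℕ × ℕ) × Finset ℕ | A q.1.1 q.1.2 = q.2} := rfl
        rw [h] at h3
        exact h3
      by_cases hr : ∃ (r : cibP cd) (n : ℕ), r ≤ q' ∧ ∀ D : BS,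
          BS.le D (cibA cd r) → ¬ BS.le D ⟨A n, hAb n⟩
      · obtain ⟨r, n, hr, hD⟩ := hr
        refine ⟨r, hr.trans hq', ?_⟩
        have hT' : Fo r (fun g => ev (P := cibP cd) X g = {q | A q.1.1 q.1.2 = q.2}) :=
          Fo.mono hT hr
        filter_upwards [hT', cib_mem cd] with g h2 h3 hc A' hA' hU
        exfalso
        have h4 : ev (P := cibP cd) X g = {q | A q.1.1 q.1.2 = q.2} := h2 hc
        rw [h4] at hA'
        have h5 := huniq A' hA'
        subst h5
        obtain ⟨x, _, hx, hxs⟩ := h3 _ (hU n).2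
        obtain ⟨s, _, _, hs1, hs2⟩ := mem_common hc hx
        rw [cib_le] at hs1 hs2
        rw [cibC_0] at hs2
        exact hD _ hs1 (cibase_le_trans hs2 (cibase_le_of_fu (B := ⟨A' n, hAb n⟩) hxs))
      · push Not at hr
        refine ⟨q', hq', ?_⟩
        obtain ⟨x, hx⟩ := cd.surjB (cibA cd q')
        have hle : ∀ n, BS.le (cibA cd q') ⟨A n, hAb n⟩ := by
          intro n
          refine BS.sep fun C hC => ?_
          obtain ⟨y, hy⟩ := cd.surjB C
          have h3 : (cibC cd y : cibP cd) ≤ q' := by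
            rw [cib_le, cibC_0, hy]
            exact hC
          obtain ⟨D, hD1, hD2⟩ := hr (cibC cd y) n h3
          rw [cibC_0, hy] at hD1
          exact ⟨D, hD1, hD2⟩
        filter_upwards [hT, GC_has (P := cibP cd) (cibN cd x),
          GC_club (P := cibP cd) (club_intF.{2} (cibA cd q').1)] with g h2 h3 h4 hc A' hA' hU
        have h5 : ev (P := cibP cd) X g = {q | A q.1.1 q.1.2 = q.2} := h2 hc
        rw [h5] at hA'
        have h6 := huniq A' hA'
        subst h6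
        refine ⟨(cibA cd q').1, h4, (cibA cd q').2,
          cib_in cd h3 (cib_mem_of cd hc (by rw [hx]; exact cibase_le_refl _)) (by rw [hx]),
          fun n => ?_⟩
        obtain ⟨k, hk⟩ := hle n
        exact ⟨k, fun b hb hj => hk b hb fun j hjb => (hj j hjb).le⟩
    · refine ⟨q', hq', ?_⟩
      filter_upwards [hT] with g h2 hc A' hA' hU
      exfalso
      have h4 : ev (P := cibP cd) X g = T := h2 hc
      exact hA ⟨A', by rw [← h4, hA'], fun n => (hU n).1⟩
  filter_upwards [GC_normalH h1, rep_fun (P := cibP cd) (ι := ℕ × ℕ) (ι' := Finset ℕ)]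
    with g h2 h3 A hA hU
  obtain ⟨X, hX, hXA⟩ := h3 _ hA
  exact h2 X hX A hXA hU

/-- PROOF. `Dir` : two elements of the generic have a common lower bound `C` in it, and a tail `C'` of `C` is equivalent to `C`, with `fu C' ⊆ fu A ∩ fu B`. In the model of a good `g` a set is in the filter iff it includes `fu (decB x)` for a condition of the hull in `g`. `ultra` : by `decide_all` the internal set `S` is a set `T` of the ground, and by HINDMAN's theorem (stage A: `Lib_MP_a0d45a_lc`, `hindman`-type theorem for block sequences) the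
conditions `A` with `fu A ⊆ T` or `fu A ⊆ Tᶜ` are dense. `base` : clear (`fu` of an internal sequence: ground sequences are internal: `int_of_dec`, `dec_const`). `stable` : the sequence `A` of block sequences is decided by some condition of `g` (`decide_all` for a name of its graph), equal to a ground sequence `A'`, all `fu (A' n)` are forced into the ultrafilter by `q ∈ g`; so `decB (q 0) ≤ A' n` : otherwise by separativity (`BS.sep`) there is a condition
below `q` incompatible with `A' n`, which forces that `fu (A' n)` is not in the filter. Take `B = decB (q 0)`. `fil` : `evF_isIFil`. `ne` : the sets `fu A` are nonempty. -/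
theorem iter_base : (iter cd).SouAt ((1 : Ordinal.{0}) : Stg) (U0 cd) (iter cd).one := by
  show ∀ᶠ g in GC (cibP cd), _
  filter_upwards [cib_dir cd, cib_mem cd, cib_ultra cd, cib_int cd, cib_stable cd,
    evF_isIFil (P := cibP cd) (ι := Finset ℕ) (U0 cd)] with g h1 h2 h3 h4 h5 h6 _
  refine ⟨h1, ⟨h6 h1, ?_, h3, ?_, h5⟩⟩
  · refine ⟨fun hbot => ?_⟩
    have h7 : (∅ : Set (Finset ℕ)) ∈ evF (P := cibP cd) (U0 cd) g := by
      have h8 : evF (P := cibP cd) (U0 cd) g = ⊥ := hbot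
      rw [h8]
      trivial
    obtain ⟨x, _, _, hx⟩ := h2 _ h7
    exact hx (self_mem_fu (cd.decB x).1 0)
  · intro S hS
    obtain ⟨x, hx1, hx2, hx3⟩ := h2 S hS
    obtain ⟨A, hA1, hA2, hA3⟩ := h4 x hx1
    refine ⟨A, hA1, hA2, ?_, ?_⟩
    · rw [hA3]
      exact cib_in cd hx1 hx2 subset_rfl
    · rw [hA3]
      exact hx3

end Pool.Agent.CIt
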