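import Pool.Agent.Lib_CI.IFace

/-!
# Piece CIBD: bounded names
-/

set_option autoImplicit false

namespace Pool.Agent.CIt

open Pool.Agent.GGen Pool.Agent.HMod Pool.Agent.SOU Pool.Agent.SOUi Pool.Agent.CSI

/-- the condition is bounded by `β` -/
def BdC (β : Ordinal.{0}) (c : CC) : Prop := ∀ γ, β ≤ γ → c.1 γ = ∅

/-- the name is bounded by `β` -/
def Bd {ι : Type*} (β : Ordinal.{0}) (S : ι → Set CC) : Prop := ∀ i, ∀ c ∈ S i, BdC β c

/-- the filter name is bounded by `β` -/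
def BdF {ι : Type} (β : Ordinal.{0}) (𝓕 : FN ι CC) : Prop := ∀ q ∈ 𝓕, Bd β q.1 ∧ BdC β q.2

variable {K : Type} [Field K] [DecidableEq K] [Countable K] (cd : Codes K)

/-- the condition `p` forces (stage `δ`) that `𝓕` is (generates) a (p+)-filter -/
def PPAt (δ : Stg) (𝓕 : FN (ℕ →₀ K) (iter cd).C) (p : (iter cd).C) : Prop :=
  Fo (P := (iter cd).PP δ) p
    (fun g => Dir (P := (iter cd).PP δ) 𝓕 g ∧ IsPPlusi g.M (evF (P := (iter cd).PP δ) 𝓕 g))

variable {cd} {β β' : Ordinal.{0}} {δ : Stg}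

theorem bdC_iff {c : (iter cd).C} : BdC β c ↔ (iter cd).cut (β : Stg) c = c := by
  constructor
  · intro h
    refine cond_ext fun γ => ?_
    by_cases hγ : (γ : Stg) < (β : Stg)
    · exact cut_lt hγ
    · rw [cut_ge (not_lt.1 hγ)]
      exact (h γ (WithTop.coe_le_coe.1 (not_lt.1 hγ))).symm
  · intro h γ hγ
    have h1 : ((iter cd).cut (β : Stg) c).1 γ = (iter cd).x₀ := cut_ge (WithTop.coe_le_coe.2 hγ)
    rw [h] at h1
    exact h1

theorem bdC_mono (h : β ≤ β') {c : CC} (hc : BdC β c) : BdC β' c := by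
  exact fun γ hγ => hc γ (h.trans hγ)

theorem bdC_DD {c : CC} (hc : c ∈ DD cd β) : BdC β c := by
  exact hc.1

theorem bd_DD {ι : Type*} {S : ι → Set CC} (h : ∀ i, S i ⊆ DD cd β) : Bd β S := by
  exact fun i c hc => (h i hc).1

theorem exists_bdC (c : (iter cd).C) : ∃ β : Ordinal.{0}, BdC β c := by
  exact exists_bound c

theorem cutN_bd {ι : Type*} {S : ι → Set (iter cd).C} (h : Bd β S) :
    (iter cd).cutN (β : Stg) S = S := by
  funext i
  ext c
  constructor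
  · rintro ⟨c', hc', rfl⟩
    rw [bdC_iff.1 (h i c' hc')]
    exact hc'
  · intro hc
    exact ⟨c, hc, bdC_iff.1 (h i c hc)⟩

theorem cutF_bd {ι : Type} {𝓕 : FN ι (iter cd).C} (h : BdF β 𝓕) :
    (iter cd).cutF (β : Stg) 𝓕 = 𝓕 := by
  have key : ∀ q ∈ 𝓕, (((iter cd).cutN (β : Stg) q.1, (iter cd).cut (β : Stg) q.2) :
      (ι → Set (iter cd).C) × (iter cd).C) = q := by
    intro q hq
    rw [cutN_bd (h q hq).1, bdC_iff.1 (h q hq).2]
  ext q
  constructor
  · rintro ⟨q', hq', rfl⟩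
    have h1 := key q' hq'
    rw [← h1] at hq'
    exact hq'
  · intro hq
    exact ⟨q, hq, key q hq⟩

theorem mem_bd (h : (β : Stg) ≤ δ) {g : GG ((iter cd).PP δ)} {g' : GG ((iter cd).PP (β : Stg))}
    (hr : (iter cd).IsRes g g') {c : (iter cd).C} (hc : BdC β c) :
    (c : (iter cd).PP δ) ∈ g ↔ (c : (iter cd).PP (β : Stg)) ∈ g' := by
  have h1 := isRes_mem_cut (I := iter cd) h hr (p := c)
  rw [bdC_iff.1 hc] at h1
  exact h1

theorem ev_bd {ι : Type*} (h : (β : Stg) ≤ δ) {g : GG ((iter cd).PP δ)}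
    {g' : GG ((iter cd).PP (β : Stg))} (hr : (iter cd).IsRes g g') {S : ι → Set (iter cd).C}
    (hS : Bd β S) : ev (P := (iter cd).PP δ) S g = ev (P := (iter cd).PP (β : Stg)) S g' := by
  have h1 := isRes_ev (I := iter cd) h hr S
  rw [cutN_bd hS] at h1
  exact h1

theorem evF_bd {ι : Type} (h : (β : Stg) ≤ δ) {𝓕 : FN ι (iter cd).C} (hS : BdF β 𝓕) :
    ∀ᶠ g in GC ((iter cd).PP δ),
      evF (P := (iter cd).PP δ) 𝓕 g = evF (P := (iter cd).PP (β : Stg)) 𝓕 ((iter cd).res (β : Stg) g) ∧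
      (Dir (P := (iter cd).PP δ) 𝓕 g ↔
        Dir (P := (iter cd).PP (β : Stg)) 𝓕 ((iter cd).res (β : Stg) g)) := by
  have h1 := res_evF (I := iter cd) h 𝓕
  rw [cutF_bd hS] at h1
  exact h1

/-- names at the stage `β` are equivalent to names with canonical conditions of the stage `β` (`name_DD`, `dec_ev`) -/
theorem name_can {ι : Type} [Countable ι] (β : Ordinal.{0}) (S : ι → Set (iter cd).C) :
    ∃ S' : ι → Set (iter cd).C, (∀ i, S' i ⊆ DD cd β) ∧
      ∀ᶠ g in GC ((iter cd).PP (β : Stg)),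
        ev (P := (iter cd).PP (β : Stg)) S' g = ev (P := (iter cd).PP (β : Stg)) S g := by
  exact name_DD cd β (T := fun i g => i ∈ ev (P := (iter cd).PP (β : Stg)) S g)
    (fun i => dec_ev (P := (iter cd).PP (β : Stg)) S i)

end Pool.Agent.CIt
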