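import Pool.Agent.Lib_CI.Plain
import Pool.Agent.Lib_HM.ToHM
import Pool.Agent.Lib_MP_a0d45a_int.Defs

/-!
# Piece CIBR1: sets and sequences of the model
-/

set_option autoImplicit false

namespace Pool.Agent.SOUp

open Pool.Agent.Forcing Pool.Agent.SOU Pool.Agent.SOUi Pool.Agent.HMod

universe w

variable {𝔐 : HM.{w}} {ι : Type} [Cod 𝔐 ι] {c : ι ≃ ℕ}

theorem CIBR_mem_natTrace (a : 𝔐.M) (n : ℕ) : n ∈ natTrace 𝔐.E a ↔ 𝔐.E (𝔐.nu n) a := by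
  constructor
  · rintro ⟨z, hz, hza⟩
    rw [isNum_nu] at hz
    rw [← hz]
    exact hza
  · intro h
    exact ⟨𝔐.nu n, (isNum_nu 𝔐 n _).2 rfl, h⟩

/-- `IsNum 𝔐.E n x ↔ x = 𝔐.nu n` (`isNum_nu`) -/
theorem coded_iff (S : Set ℕ) : Coded 𝔐.E S ↔ Int 𝔐 (fun n => n ∈ S) := by
  constructor
  · rintro ⟨a, ha⟩
    refine ⟨⟨a, fun n => ?_⟩⟩
    rw [← ha, CIBR_mem_natTrace]
    exact Iff.rfl
  · rintro ⟨⟨s, hs⟩⟩
    refine ⟨s, ?_⟩
    ext n
    rw [CIBR_mem_natTrace]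
    exact hs n

theorem CIBR_mem_image (c : ι ≃ ℕ) (S : Set ι) (i : ι) : c i ∈ c '' S ↔ i ∈ S := by
  constructor
  · rintro ⟨j, hj, hji⟩
    rw [← c.injective hji]
    exact hj
  · intro h
    exact ⟨i, h, rfl⟩

theorem CIBR_mem_image' (c : ι ≃ ℕ) (S : Set ι) (n : ℕ) : n ∈ c '' S ↔ c.symm n ∈ S := by
  have h := CIBR_mem_image c S (c.symm n)
  rw [Equiv.apply_symm_apply] at h
  exact h

theorem CIBR_natTrace_code (S : ISet 𝔐 ℕ) : natTrace 𝔐.E (Cod.c S) = S.1 := by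
  ext n
  rw [CIBR_mem_natTrace, mem_code]
  constructor
  · rintro ⟨a, h1, h2⟩
    have h3 : n = a := 𝔐.nu_inj h1
    rw [h3]
    exact h2
  · intro h
    exact ⟨n, rfl, h⟩

/-- the inverse of an internal bijection is internal -/
theorem intF_symm (hc : IntF 𝔐 (fun i : ι => c i)) : IntF 𝔐 (fun n : ℕ => c.symm n) := by
  refine intF_of_graph (R := fun (n : ℕ) (i : ι) => c i = n) ?_ ?_
  · exact int_eqF (intF_comp hc intF_snd) intF_fst
  · intro n i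
    constructor
    · intro h
      rw [← h, Equiv.symm_apply_apply]
    · intro h
      rw [← h, Equiv.apply_symm_apply]

theorem setIn_iff (hc : IntF 𝔐 (fun i : ι => c i)) (S : Set ι) :
    SetIn 𝔐.E c S ↔ Int 𝔐 (fun i => i ∈ S) := by
  unfold SetIn
  rw [coded_iff]
  constructor
  · intro h
    exact int_congr (fun i => CIBR_mem_image c S i)
      (int_comp (p := fun n : ℕ => n ∈ c '' S) h hc)
  · intro h
    exact int_congr (fun n => (CIBR_mem_image' c S n).symm)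
      (int_comp (p := fun i : ι => i ∈ S) h (intF_symm hc))

/-- (the graph of the pairing function is in the model: `HM.pg`) -/
theorem seqIn_iff (hc : IntF 𝔐 (fun i : ι => c i))
    (hp : IntF 𝔐 (fun q : ℕ × ℕ => Nat.pair q.1 q.2)) (A : ℕ → ι) :
    SeqIn 𝔐.E c A ↔ IntF 𝔐 A := by
  unfold SeqIn
  rw [coded_iff]
  constructor
  · intro h
    refine intF_of_graph
      (R := fun (k : ℕ) (i : ι) => Nat.pair k (c i) ∈ {n | ∃ k, n = Nat.pair k (c (A k))}) ?_ ?_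
    · exact int_comp (p := fun n : ℕ => n ∈ {n | ∃ k, n = Nat.pair k (c (A k))}) h
        (intF_comp2 (F := fun m n => Nat.pair m n) hp intF_fst (intF_comp hc intF_snd))
    · intro k i
      constructor
      · rintro ⟨k', hk⟩
        obtain ⟨h1, h2⟩ := Nat.pair_eq_pair.1 hk
        rw [h1]
        exact (c.injective h2).symm
      · intro h1
        exact ⟨k, by rw [h1]⟩
  · intro h
    refine int_ex (R := fun n k => n = Nat.pair k (c (A k))) (int_eqF intF_fst ?_)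
    exact intF_comp2 (F := fun m n => Nat.pair m n) hp intF_snd
      (intF_comp hc (intF_comp h intF_snd))

theorem seq2In_iff (hc : IntF 𝔐 (fun i : ι => c i))
    (hp : IntF 𝔐 (fun q : ℕ × ℕ => Nat.pair q.1 q.2)) (A : ℕ → ℕ → ι) :
    Seq2In 𝔐.E c A ↔ IntF 𝔐 (fun q : ℕ × ℕ => A q.1 q.2) := by
  unfold Seq2In
  rw [coded_iff]
  constructor
  · intro h
    refine intF_of_graph (R := fun (q : ℕ × ℕ) (i : ι) => Nat.pair (Nat.pair q.1 q.2) (c i) ∈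
      {n | ∃ k l, n = Nat.pair (Nat.pair k l) (c (A k l))}) ?_ ?_
    · exact int_comp (p := fun n : ℕ => n ∈ {n | ∃ k l, n = Nat.pair (Nat.pair k l) (c (A k l))}) h
        (intF_comp2 (F := fun m n => Nat.pair m n) hp (intF_comp hp intF_fst)
          (intF_comp hc intF_snd))
    · intro q i
      constructor
      · rintro ⟨k, l, hk⟩
        obtain ⟨h1, h2⟩ := Nat.pair_eq_pair.1 hk
        obtain ⟨h3, h4⟩ := Nat.pair_eq_pair.1 h1
        rw [h3, h4]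
        exact (c.injective h2).symm
      · intro h1
        exact ⟨q.1, q.2, by rw [h1]⟩
  · intro h
    refine int_ex (R := fun n k => ∃ l, n = Nat.pair (Nat.pair k l) (c (A k l)))
      (int_ex (R := fun (q : ℕ × ℕ) l => q.1 = Nat.pair (Nat.pair q.2 l) (c (A q.2 l)))
        (int_eqF (intF_fst' intF_fst) ?_))
    exact intF_comp2 (F := fun m n => Nat.pair m n) hp
      (intF_comp2 (F := fun m n => Nat.pair m n) hp (intF_snd' intF_fst) intF_snd)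
      (intF_comp hc (intF_comp2 (F := fun m n => A m n) h (intF_snd' intF_fst) intF_snd))

/-- PROOF. The predicate `c ⁻¹' S' ∈ F` of `S' : ISet 𝔐 ℕ` is internal (`IsIFil.def'`, `intF_mkS`), let `u` be the set of the codes of these `S'` (`Int.exact`). The code of `S'` is the element of the model with exactly the elements `nu n`, `n ∈ S'`. -/
theorem fam_of_fil (hc : IntF 𝔐 (fun i : ι => c i)) {F : Filter ι} (hF : IsIFil 𝔐 F) :
    ∃ u : 𝔐.M, ∀ S, S ∈ FamIn 𝔐.E c u ↔ (Int 𝔐 (fun i => i ∈ S) ∧ S ∈ F) := by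
  have h1 : Int 𝔐 (fun q : ISet 𝔐 ℕ × ι => c q.2 ∈ q.1.1) :=
    int_memF (f := fun q : ISet 𝔐 ℕ × ι => c q.2) (S := fun q => q.1)
      (intF_comp hc intF_snd) intF_fst
  have h2 : Int 𝔐 (fun S' : ISet 𝔐 ℕ =>
      (mkS (R := fun (S' : ISet 𝔐 ℕ) (i : ι) => c i ∈ S'.1) h1 S').1 ∈ F) :=
    int_comp (p := fun S : ISet 𝔐 ι => S.1 ∈ F) hF.def'
      (intF_mkS (R := fun (S' : ISet 𝔐 ℕ) (i : ι) => c i ∈ S'.1) h1)
  obtain ⟨u, hu⟩ := h2.exact
  refine ⟨u, fun S => ?_⟩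
  constructor
  · rintro ⟨s, hs, hsS⟩
    obtain ⟨S', rfl, hS'⟩ := (hu s).1 hs
    rw [CIBR_natTrace_code] at hsS
    have h3 : ∀ i, c i ∈ S'.1 ↔ i ∈ S := fun i => by rw [hsS, CIBR_mem_image]
    have h4 : (mkS (R := fun (S' : ISet 𝔐 ℕ) (i : ι) => c i ∈ S'.1) h1 S').1 = S := by
      ext i
      exact h3 i
    rw [h4] at hS'
    refine ⟨?_, hS'⟩
    exact int_congr h3 (int_comp (p := fun n : ℕ => n ∈ S'.1) S'.2 hc)
  · rintro ⟨hS, hSF⟩
    have h3 : Int 𝔐 (fun n : ℕ => n ∈ c '' S) :=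
      int_congr (fun n => (CIBR_mem_image' c S n).symm)
        (int_comp (p := fun i : ι => i ∈ S) hS (intF_symm hc))
    obtain ⟨S', hS'⟩ : ∃ S' : ISet 𝔐 ℕ, S'.1 = c '' S := ⟨⟨c '' S, h3⟩, rfl⟩
    refine ⟨Cod.c S', (hu _).2 ⟨S', rfl, ?_⟩, ?_⟩
    · have h4 : (mkS (R := fun (S' : ISet 𝔐 ℕ) (i : ι) => c i ∈ S'.1) h1 S').1 = S := by
        ext i
        change c i ∈ S'.1 ↔ i ∈ S
        rw [hS']
        exact CIBR_mem_image c S i
      rw [h4]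
      exact hSF
    · rw [CIBR_natTrace_code, hS']

open Pool.Agent.Inner in
/-- PROOF. The predicate `∃ s, E s u ∧ natTrace E s = S'` of `S' : ISet 𝔐 ℕ` is internal (`int_of_FO`), hence also the predicate `S ∈ FamIn 𝔐.E c u` of `S : ISet 𝔐 ι`; use `exists_IFil`. (By `hup` and `hu` there is a member.) -/
theorem fil_of_fam (hc : IntF 𝔐 (fun i : ι => c i)) (u : 𝔐.M) (hu : (FamIn 𝔐.E c u).Nonempty)
    (hinter : ∀ S ∈ FamIn 𝔐.E c u, ∀ T ∈ FamIn 𝔐.E c u, S ∩ T ∈ FamIn 𝔐.E c u)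
    (hup : ∀ S ∈ FamIn 𝔐.E c u, ∀ T, SetIn 𝔐.E c T → S ⊆ T → T ∈ FamIn 𝔐.E c u) :
    ∃ F : Filter ι, IsIFil 𝔐 F ∧ ∀ S, Int 𝔐 (fun i => i ∈ S) → (S ∈ F ↔ S ∈ FamIn 𝔐.E c u) := by
  -- the predicate on internal sets of numbers
  have h1 : Int 𝔐 (fun S' : ISet 𝔐 ℕ => ∃ s, 𝔐.E s u ∧ natTrace 𝔐.E s = S'.1) := by
    refine int_of_FO (R := fun M E v => ∃ s, E s (v 1) ∧ ∀ z, E z (v 2) → (E z s ↔ E z (v 0)))
      (FO.ex (R := fun M E s v => E s (v 1) ∧ ∀ z, E z (v 2) → (E z s ↔ E z (v 0)))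
        (FO.and (FO.mem 0 2)
          (FO.all (R := fun M E z v => E z (v 3) → (E z (v 0) ↔ E z (v 1)))
            (FO.imp (FO.mem 0 4) (FO.iff (FO.mem 0 1) (FO.mem 0 2))))))
      (cons u (fun _ => 𝔐.om)) ?_
    intro S'
    change (∃ s, 𝔐.E s u ∧ natTrace 𝔐.E s = S'.1) ↔
      ∃ s, 𝔐.E s u ∧ ∀ z, 𝔐.E z 𝔐.om → (𝔐.E z s ↔ 𝔐.E z (Cod.c S'))
    refine exists_congr fun s => and_congr_right fun _ => ?_
    rw [← CIBR_natTrace_code]
    constructor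
    · intro h z hz
      obtain ⟨n, rfl⟩ := (𝔐.mem_om z).1 hz
      rw [← CIBR_mem_natTrace, ← CIBR_mem_natTrace, h]
    · intro h
      ext n
      rw [CIBR_mem_natTrace, CIBR_mem_natTrace]
      exact h _ ((𝔐.mem_om _).2 ⟨n, rfl⟩)
  have h2 : Int 𝔐 (fun q : ISet 𝔐 ι × ℕ => c.symm q.2 ∈ q.1.1) :=
    int_memF (f := fun q : ISet 𝔐 ι × ℕ => c.symm q.2) (S := fun q => q.1)
      (intF_comp (intF_symm hc) intF_snd) intF_fst
  have h3 : Int 𝔐 (fun S : ISet 𝔐 ι => S.1 ∈ FamIn 𝔐.E c u) := by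
    refine int_congr (fun S => ?_) (int_comp
      (p := fun S' : ISet 𝔐 ℕ => ∃ s, 𝔐.E s u ∧ natTrace 𝔐.E s = S'.1) h1
      (intF_mkS (R := fun (S : ISet 𝔐 ι) (n : ℕ) => c.symm n ∈ S.1) h2))
    have h4 : (mkS (R := fun (S : ISet 𝔐 ι) (n : ℕ) => c.symm n ∈ S.1) h2 S).1 = c '' S.1 := by
      ext n
      exact (CIBR_mem_image' c S.1 n).symm
    rw [h4]
    exact Iff.rfl
  have hint : ∀ S ∈ FamIn 𝔐.E c u, Int 𝔐 (fun i => i ∈ S) := by
    rintro S ⟨s, hs, hsS⟩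
    exact (setIn_iff hc S).1 ⟨s, hsS⟩
  obtain ⟨F, hF, hF2⟩ := exists_IFil (𝔐 := 𝔐) (α := ι)
    (⟨{S : ISet 𝔐 ι | S.1 ∈ FamIn 𝔐.E c u}, h3⟩ : ISet 𝔐 (ISet 𝔐 ι))
    (by
      obtain ⟨S, hS⟩ := hu
      exact ⟨⟨S, hint S hS⟩, hS⟩)
    (by
      intro S hS T hT
      exact ⟨⟨S.1 ∩ T.1, int_and S.2 T.2⟩, hinter _ hS _ hT, rfl⟩)
    (by
      intro S hS T hST
      exact hup _ hS _ ((setIn_iff hc T.1).2 T.2) hST)
  refine ⟨F, hF, fun S hS => ?_⟩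
  exact hF2 ⟨S, hS⟩

end Pool.Agent.SOUp
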