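import Pool.Agent.Lib_CI.Bridge1
import Pool.Agent.Lib_MP_a0d45a_int.BFi
import Pool.Agent.Lib_MP_a0d45a_int.FinUi

/-!
# Piece CIBR2: ultrafilters and (p+)-filters of the model
-/

set_option autoImplicit false

namespace Pool.Agent.SOUp

open Pool.Agent.Forcing Pool.Agent.SOU Pool.Agent.SOUi Pool.Agent.HMod

universe w

variable {𝔐 : HM.{w}}

/-- (`fu A` is internal for internal `A`) -/
theorem souIn_of [StdF 𝔐] (hc : IntF 𝔐 (fun i : Finset ℕ => cF i))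
    (hp : IntF 𝔐 (fun q : ℕ × ℕ => Nat.pair q.1 q.2)) {U : Filter (Finset ℕ)}
    (hU : IsSOUi 𝔐 U) : ∃ u, IsSOUIn 𝔐.E u := by
  obtain ⟨u, hu⟩ := fam_of_fil hc hU.fil
  refine ⟨u, ?_, ?_, ?_, ?_, ?_, ?_⟩
  · intro h
    haveI := hU.ne
    exact Filter.empty_notMem U ((hu _).1 h).2
  · intro S hS T hT
    obtain ⟨h1, h2⟩ := (hu _).1 hS
    obtain ⟨h3, h4⟩ := (hu _).1 hT
    exact (hu _).2 ⟨int_and h1 h3, Filter.inter_mem h2 h4⟩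
  · intro S hS T hT hST
    obtain ⟨h1, h2⟩ := (hu _).1 hS
    exact (hu _).2 ⟨(setIn_iff hc T).1 hT, Filter.mem_of_superset h2 hST⟩
  · intro S hS
    have h1 := (setIn_iff hc S).1 hS
    rcases hU.ultra S h1 with h2 | h2
    · exact Or.inl ((hu _).2 ⟨h1, h2⟩)
    · exact Or.inr ((hu _).2 ⟨int_not h1, h2⟩)
  · intro S hS
    obtain ⟨A, h1, h2, h3, h4⟩ := hU.base S ((hu _).1 hS).2
    exact ⟨A, (seqIn_iff hc hp A).2 h1, h2, (hu _).2 ⟨int_fu h1, h3⟩, h4⟩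
  · intro A hA hA'
    obtain ⟨B, h1, h2, h3, h4⟩ := hU.stable A ((seq2In_iff hc hp A).1 hA)
      (fun n => ⟨(hA' n).1, ((hu _).1 (hA' n).2).2⟩)
    exact ⟨B, (seqIn_iff hc hp B).2 h1, h2, (hu _).2 ⟨int_fu h1, h3⟩, h4⟩

/-- (`bs X` is internal for internal `X`) -/
theorem pp_of_In {K : Type} [Field K] [DecidableEq K] [Countable K] [Std 𝔐 K]
    {c : (ℕ →₀ K) ≃ ℕ} (hc : IntF 𝔐 (fun i : ℕ →₀ K => c i))
    (hp : IntF 𝔐 (fun q : ℕ × ℕ => Nat.pair q.1 q.2)) {f : 𝔐.M} (hf : IsPPlusIn 𝔐.E c f) :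
    ∃ F : Filter (ℕ →₀ K), IsPPlusi 𝔐 F := by
  obtain ⟨F, hF, hFf⟩ := fil_of_fam hc f ⟨_, hf.nz⟩ hf.inter hf.up
  have hin : ∀ S, S ∈ FamIn 𝔐.E c f → Int 𝔐 (fun i => i ∈ S) := by
    intro S hS
    obtain ⟨s, _, hs⟩ := hS
    exact (setIn_iff hc S).1 ⟨s, hs⟩
  have hmem : ∀ S, S ∈ FamIn 𝔐.E c f → S ∈ F := fun S hS => (hFf S (hin S hS)).2 hS
  refine ⟨F, ⟨⟨⟨hF, ?_, hmem _ hf.nz, ?_, ?_⟩, ?_⟩, ?_⟩⟩
  · refine ⟨fun h => hf.ne ?_⟩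
    refine (hFf ∅ (int_const False)).1 ?_
    rw [h]
    exact Filter.mem_bot
  · intro V hV hfin
    exact hmem _ (hf.cofin V ((setIn_iff hc {v | v ∈ V}).2 hV) hfin)
  · intro S hS
    obtain ⟨T, hT, hTi, hTS⟩ := hF.gen S hS
    obtain ⟨X, h1, h2, h3, h4⟩ := hf.base T ((hFf T hTi).1 hT)
    exact ⟨X, (seqIn_iff hc hp X).1 h1, h2, hmem _ h3, h4.trans hTS⟩
  · intro D hD hdense
    refine hmem _ (hf.full D ((setIn_iff hc D).2 hD) ?_)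
    intro X hX hblk hbs
    obtain ⟨V, hV, h1, h2⟩ := hdense X ((seqIn_iff hc hp X).1 hX) hblk (hmem _ hbs)
    exact ⟨V, (setIn_iff hc {v | v ∈ V}).2 hV, h1, h2⟩
  · intro X hX hX'
    obtain ⟨Y, h1, h2, h3, h4⟩ := hf.pfil X ((seq2In_iff hc hp X).2 hX)
      (fun n => ⟨(hX' n).1, (hFf _ (int_bs (hX.slice n))).1 (hX' n).2⟩)
    exact ⟨Y, (seqIn_iff hc hp Y).1 h1, h2, hmem _ h3, h4⟩

end Pool.Agent.SOUp
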