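import Pool.Agent.Lib_CI.SemD
import Pool.Agent.Lib_CSI.Defs
import Pool.Agent.Lib_MP_a0d45a_lc.Defs
import Mathlib.SetTheory.ZFC.Basic
import Mathlib.SetTheory.ZFC.VonNeumann
import Mathlib.SetTheory.ZFC.Cardinal

/-!
# Piece CODES: codes of names by sets

The codes are the sets `ZFSet.{0}`. All small (`Small.{0}`) objects built from conditions have codes.
-/

set_option autoImplicit false

namespace Pool.Agent.CIt

open Pool.Agent.GGen Pool.Agent.CSI Pool.Agent.SOU

/-- the codes -/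
abbrev XX : Type 1 := ZFSet.{0}

/-- the conditions of the iteration -/
abbrev CC : Type 1 := Cond ZFSet.{0} ∅

/-- the largest condition -/
def oneC : CC := ⟨fun _ => ∅, by simp⟩

/-- small-valued names -/
def SmN {ι : Type*} (S : ι → Set CC) : Prop := ∀ i, Small.{0} (S i)

/-- block sequences -/
def BS : Type := {A : ℕ → Finset ℕ // BlkF A}

/-- almost condensation -/
def BS.le (A B : BS) : Prop := ∃ k, ∀ b ∈ fu A.1, Lo k b → b ∈ fu B.1

/-- codes for names, block sequences, tasks -/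
structure Codes (K : Type) [Field K] where
  dec : XX → Node → Set CC
  dec0 : ∀ s, dec ∅ s = ∅
  surj : ∀ S : Node → Set CC, SmN S → ∃ x, dec x = S
  decB : XX → BS
  decB0 : ∀ n, (decB ∅).1 n = {n}
  surjB : Function.Surjective decB
  bk : Ordinal.{0} → CC × FN (ℕ →₀ K) CC
  bk_spec : ∀ t : CC × FN (ℕ →₀ K) CC, Small.{0} t.2 → (∀ q ∈ t.2, SmN q.1) → ∀ α : Ordinal.{0}, ∃ β, α < β ∧ bk β = t

/-- every small set of sets is a set -/
theorem exists_zf (T : Set ZFSet.{0}) [Small.{0} T] : ∃ x : ZFSet.{0}, ∀ y, y ∈ x ↔ y ∈ T := by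
  refine ⟨ZFSet.range (fun t : T => t.1), fun y => ?_⟩
  rw [ZFSet.mem_range]
  constructor
  · rintro ⟨i, rfl⟩
    exact i.2
  · intro h
    exact ⟨⟨y, h⟩, rfl⟩

/-- the type of conditions embeds into the sets: `p` is coded by the set of the pairs `(γ, p γ)` (`γ` as a von Neumann ordinal) for `γ` in the support -/
theorem exists_encC : ∃ e : CC → ZFSet.{0}, Function.Injective e := by
  have hsm : ∀ p : CC, Small.{0} {β : Ordinal.{0} | p.1 β ≠ ∅} := fun p => by
    have : Countable {β : Ordinal.{0} | p.1 β ≠ ∅} := p.2.to_subtype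
    exact Countable.toSmall _
  refine ⟨fun p => @ZFSet.range _ (hsm p)
    (fun γ : {β : Ordinal.{0} | p.1 β ≠ ∅} => ZFSet.pair γ.1.toZFSet (p.1 γ.1)), ?_⟩
  have key : ∀ p q : CC, (@ZFSet.range _ (hsm p)
      (fun γ : {β : Ordinal.{0} | p.1 β ≠ ∅} => ZFSet.pair γ.1.toZFSet (p.1 γ.1))) =
      (@ZFSet.range _ (hsm q)
      (fun γ : {β : Ordinal.{0} | q.1 β ≠ ∅} => ZFSet.pair γ.1.toZFSet (q.1 γ.1))) →
      ∀ γ, p.1 γ ≠ ∅ → q.1 γ = p.1 γ := by
    intro p q h γ hγ
    have h1 : ZFSet.pair γ.toZFSet (p.1 γ) ∈ @ZFSet.range _ (hsm p)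
      (fun γ : {β : Ordinal.{0} | p.1 β ≠ ∅} => ZFSet.pair γ.1.toZFSet (p.1 γ.1)) := by
      rw [@ZFSet.mem_range _ (hsm p)]
      exact ⟨⟨γ, hγ⟩, rfl⟩
    rw [h, @ZFSet.mem_range _ (hsm q)] at h1
    obtain ⟨⟨δ, hδ⟩, h2⟩ := h1
    obtain ⟨h3, h4⟩ := ZFSet.pair_injective h2
    have h5 : δ = γ := Ordinal.toZFSet_injective h3
    subst h5
    exact h4
  intro p q h
  apply Subtype.ext
  funext γ
  by_cases h1 : p.1 γ = ∅
  · by_cases h2 : q.1 γ = ∅
    · rw [h1, h2]
    · exact (key q p h.symm γ h2)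
  · exact (key p q h γ h1).symm

/-- every small subset of a type that embeds into the sets is coded by a set; small families indexed by a countable type similarly -/
theorem exists_decS {Y : Type 1} {e : Y → ZFSet.{0}} (he : Function.Injective e) (ι : Type) [Countable ι] :
    ∃ d : ZFSet.{0} → ι → Set Y, (∀ i, d ∅ i = ∅) ∧
      ∀ S : ι → Set Y, (∀ i, Small.{0} (S i)) → ∃ x, d x = S := by
  obtain ⟨f, hf⟩ := Countable.exists_injective_nat ι
  set g : ι → ZFSet.{0} := fun i => Ordinal.toZFSet ((f i : ℕ) : Ordinal.{0}) with hg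
  have hginj : Function.Injective g := by
    intro i j h
    have h1 : ((f i : ℕ) : Ordinal.{0}) = ((f j : ℕ) : Ordinal.{0}) := Ordinal.toZFSet_injective h
    exact hf (by exact_mod_cast h1)
  refine ⟨fun x i => {y | ZFSet.pair (g i) (e y) ∈ x}, ?_, ?_⟩
  · intro i
    ext y
    simp
  · intro S hS
    have : Small.{0} (Σ i, S i) := small_sigma _
    refine ⟨ZFSet.range (fun z : Σ i, S i => ZFSet.pair (g z.1) (e z.2.1)), ?_⟩
    funext i
    ext y
    rw [Set.mem_ofPred_eq, ZFSet.mem_range]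
    constructor
    · rintro ⟨⟨j, y', hy'⟩, h⟩
      obtain ⟨h1, h2⟩ := ZFSet.pair_injective h
      have h3 := hginj h1
      have h4 := he h2
      subst h3
      simp only at h4
      rw [← h4]
      exact hy'
    · intro hy
      exact ⟨⟨i, y, hy⟩, rfl⟩

/-- the cardinality of the class of all sets -/
theorem codes_card : Cardinal.mk ZFSet.{0} ≤ Cardinal.mk Ordinal.{0} := by
  have h1 : Cardinal.mk ZFSet.{0} ≤ Cardinal.mk (Σ o : Ordinal.{0}, (ZFSet.vonNeumann o : Set ZFSet.{0})) := by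
    have hs : Function.Surjective
        (fun z : (Σ o : Ordinal.{0}, (ZFSet.vonNeumann o : Set ZFSet.{0})) => z.2.1) := by
      intro x
      obtain ⟨o, ho⟩ := ZFSet.exists_mem_vonNeumann x
      exact ⟨⟨o, x, ho⟩, rfl⟩
    exact Cardinal.mk_le_of_surjective hs
  refine h1.trans ?_
  rw [Cardinal.mk_sigma]
  have h2 : ∀ o : Ordinal.{0}, Cardinal.mk (ZFSet.vonNeumann o : Set ZFSet.{0}) ≤ Cardinal.mk Ordinal.{0} := by
    intro o
    rw [Cardinal.mk_ordinal]
    have : Small.{0} (ZFSet.vonNeumann o : Set ZFSet.{0}) := ZFSet.small_coe _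
    exact (Cardinal.small_iff_lift_mk_lt_univ.1 this |> fun h => by simpa using h.le)
  refine (Cardinal.sum_le_sum _ _ h2).trans ?_
  rw [Cardinal.sum_const']
  apply le_of_eq
  apply Cardinal.mul_eq_self
  exact Cardinal.infinite_iff.1 inferInstance

/-- there are as many sets as ordinals: `ZFSet.{0}` is the union of the `V_ β` -/
theorem exists_list : ∃ f : Ordinal.{0} → ZFSet.{0}, ∀ x, ∀ α : Ordinal.{0}, ∃ β, α < β ∧ f β = x := by
  have h1 : Cardinal.mk (ZFSet.{0} × Ordinal.{0}) ≤ Cardinal.mk Ordinal.{0} := by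
    rw [Cardinal.mk_prod, Cardinal.lift_id, Cardinal.lift_id]
    calc Cardinal.mk ZFSet.{0} * Cardinal.mk Ordinal.{0}
        ≤ Cardinal.mk Ordinal.{0} * Cardinal.mk Ordinal.{0} := by gcongr; exact codes_card
      _ = Cardinal.mk Ordinal.{0} := Cardinal.mul_eq_self (Cardinal.infinite_iff.1 inferInstance)
  obtain ⟨j⟩ := (Cardinal.le_def _ _).1 h1
  have : Nonempty (ZFSet.{0} × Ordinal.{0}) := ⟨(∅, 0)⟩
  refine ⟨fun β => (Function.invFun j β).1, fun x α => ?_⟩
  by_contra hcon
  push Not at hcon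
  have h2 : ∀ γ : Ordinal.{0}, j (x, γ) ≤ α := by
    intro γ
    by_contra h3
    push Not at h3
    apply hcon _ h3
    rw [Function.leftInverse_invFun j.injective]
  have h3 : Function.Injective (fun γ : Ordinal.{0} => (⟨j (x, γ), h2 γ⟩ : Set.Iic α)) := by
    intro γ δ h
    have h4 := Subtype.ext_iff.1 h
    have h5 := j.injective h4
    exact (Prod.ext_iff.1 h5).2
  have h4 : Small.{0} Ordinal.{0} := small_of_injective h3
  exact not_small_ordinal.{0} h4

/-- PROOF. `dec` : `exists_decS` for `ι = Node`. `decB` : `BS : Type` embeds into the sets; the empty set must be a code of the sequence `n ↦ {n}`. `bk` : tasks `(p, 𝓕)` with `𝓕` a small set of pairs (small-valued name, condition): code small-valued names by sets (a right inverse of `exists_decS` for `ι = ℕ →₀ K`), so pairs, so small sets of pairs, so tasks; then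
use `exists_list`. -/
theorem exists_codes (K : Type) [Field K] [Countable K] : Nonempty (Codes K) := by
  classical
  obtain ⟨eC, heC⟩ := exists_encC
  obtain ⟨dN, dN0, hdN⟩ := exists_decS heC Node
  obtain ⟨dV, -, hdV⟩ := exists_decS heC (ℕ →₀ K)
  obtain ⟨fl, hfl⟩ := exists_list
  -- block sequences
  have hB0 : BlkF (fun n => {n}) := ⟨fun n => ⟨n, Finset.mem_singleton_self n⟩, fun n i hi j hj => by
    rw [Finset.mem_singleton] at hi hj; omega⟩
  set b0 : BS := ⟨fun n => {n}, hB0⟩ with hb0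
  have hjB : Function.Injective (fun b : BS =>
      ({(Ordinal.typein (WellOrderingRel : BS → BS → Prop) b).toZFSet} : ZFSet.{0})) := by
    intro b b' h
    have h1 := ZFSet.singleton_injective h
    exact Ordinal.typein_injective _ (Ordinal.toZFSet_injective h1)
  set jB : BS → ZFSet.{0} := fun b : BS =>
      ({(Ordinal.typein (WellOrderingRel : BS → BS → Prop) b).toZFSet} : ZFSet.{0}) with hjBd
  -- small-valued names
  let W : Type 1 := {S : (ℕ →₀ K) → Set CC // SmN S}
  have hW : ∀ S : W, ∃ x, dV x = S.1 := fun S => hdV S.1 S.2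
  choose eW heW using hW
  have heWi : Function.Injective eW := by
    intro S T h
    apply Subtype.ext
    rw [← heW S, ← heW T, h]
  have he2 : Function.Injective (fun w : W × CC => ZFSet.pair (eW w.1) (eC w.2)) := by
    rintro ⟨S, p⟩ ⟨T, q⟩ h
    obtain ⟨h1, h2⟩ := ZFSet.pair_injective h
    exact Prod.ext (heWi h1) (heC h2)
  obtain ⟨d2, -, hd2⟩ := exists_decS he2 Unit
  let ST : Type 1 := {t : CC × FN (ℕ →₀ K) CC // Small.{0} t.2 ∧ ∀ q ∈ t.2, SmN q.1}
  have hA : ∀ t : ST, ∃ x, d2 x = fun _ => {w : W × CC | (w.1.1, w.2) ∈ t.1.2} := by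
    intro t
    apply hd2
    intro _
    have : Small.{0} t.1.2 := t.2.1
    have hi : Function.Injective (fun w : {w : W × CC | (w.1.1, w.2) ∈ t.1.2} =>
        (⟨(w.1.1.1, w.1.2), w.2⟩ : t.1.2)) := by
      rintro ⟨⟨S, p⟩, hw⟩ ⟨⟨T, q⟩, hw'⟩ h
      have h1 := Subtype.ext_iff.1 h
      obtain ⟨h2, h3⟩ := Prod.ext_iff.1 h1
      apply Subtype.ext
      apply Prod.ext
      · exact Subtype.ext h2
      · exact h3
    exact small_of_injective hi
  choose eA heA using hA
  have hinj : Function.Injective (fun t : ST => ZFSet.pair (eC t.1.1) (eA t)) := by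
    intro t t' h
    obtain ⟨h1, h2⟩ := ZFSet.pair_injective h
    have h3 : (fun _ : Unit => {w : W × CC | (w.1.1, w.2) ∈ t.1.2}) =
        (fun _ : Unit => {w : W × CC | (w.1.1, w.2) ∈ t'.1.2}) := by
      rw [← heA t, ← heA t', h2]
    have h4 := congrFun h3 ()
    apply Subtype.ext
    apply Prod.ext
    · exact heC h1
    · ext q
      constructor
      · intro hq
        have h5 : ((⟨q.1, t.2.2 q hq⟩, q.2) : W × CC) ∈ {w : W × CC | (w.1.1, w.2) ∈ t.1.2} := hq
        rw [h4] at h5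
        exact h5
      · intro hq
        have h5 : ((⟨q.1, t'.2.2 q hq⟩, q.2) : W × CC) ∈ {w : W × CC | (w.1.1, w.2) ∈ t'.1.2} := hq
        rw [← h4] at h5
        exact h5
  refine ⟨{
    dec := dN
    dec0 := dN0
    surj := fun S hS => hdN S hS
    decB := fun x => if h : ∃ b, jB b = x then h.choose else b0
    decB0 := ?_
    surjB := ?_
    bk := fun β => if h : ∃ t : ST, ZFSet.pair (eC t.1.1) (eA t) = fl β then h.choose.1 else (oneC, ∅)
    bk_spec := ?_ }⟩
  · intro n
    have h : ¬ ∃ b, jB b = ∅ := by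
      rintro ⟨b, hb⟩
      have h1 : (Ordinal.typein (WellOrderingRel : BS → BS → Prop) b).toZFSet ∈ jB b := by
        rw [hjBd, ZFSet.mem_singleton]
      rw [hb] at h1
      exact ZFSet.notMem_empty _ h1
    rw [dif_neg h]
  · intro b
    refine ⟨jB b, ?_⟩
    have h : ∃ b', jB b' = jB b := ⟨b, rfl⟩
    simp only [dif_pos h]
    exact hjB h.choose_spec
  · intro t ht1 ht2 α
    obtain ⟨β, hβ, h⟩ := hfl (ZFSet.pair (eC t.1) (eA ⟨t, ht1, ht2⟩)) α
    refine ⟨β, hβ, ?_⟩
    have h' : ∃ t : ST, ZFSet.pair (eC t.1.1) (eA t) = fl β := ⟨⟨t, ht1, ht2⟩, h.symm⟩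
    simp only [dif_pos h']
    have h2 : h'.choose = ⟨t, ht1, ht2⟩ := hinj (h'.choose_spec.trans h)
    rw [h2]

end Pool.Agent.CIt
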