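import Pool.Agent.Lib_CI.IFace

/-!
# Piece CIPROP0: properness of the coordinate `0`
-/

set_option autoImplicit false

namespace Pool.Agent.CIt

open Pool.Agent.GGen Pool.Agent.HMod Pool.Agent.SOU Pool.Agent.SOUi Pool.Agent.CSI

/-- block sequences are σ-closed. PROOF. For every `n` there is `k n` such that all `b ∈ fu (A n)` with `Lo (k n) b` are in `fu (A i)` for all `i ≤ n`; let `B n` be an entry of `A n` above `k n` and above `B (n - 1)`. -/
theorem BS.pseudo (A : ℕ → BS) (h : ∀ n, BS.le (A (n + 1)) (A n)) : ∃ B : BS, ∀ n, BS.le B (A n) := by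
  have h1 : ∀ n i, i ≤ n → BS.le (A n) (A i) := by
    intro n
    induction n with
    | zero =>
      intro i hi
      have hi0 : i = 0 := by omega
      subst hi0
      exact ⟨0, fun b hb _ => hb⟩
    | succ n ih =>
      intro i hi
      rcases Nat.eq_or_lt_of_le hi with rfl | hi
      · exact ⟨0, fun b hb _ => hb⟩
      · obtain ⟨k1, hk1⟩ := h n
        obtain ⟨k2, hk2⟩ := ih i (by omega)
        refine ⟨max k1 k2, fun b hb hlo => hk2 b (hk1 b hb fun j hj => ?_) fun j hj => ?_⟩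
        · exact le_trans (le_max_left _ _) (hlo j hj)
        · exact le_trans (le_max_right _ _) (hlo j hj)
  obtain ⟨B, hB, hBA⟩ := exists_blkF (P := fun n b => ∀ i, i ≤ n → b ∈ fu (A i).1) (by
    intro n N
    choose! k hk using fun i (hi : i ≤ n) => h1 n i hi
    obtain ⟨M, hM⟩ : ∃ M, ∀ i, i ≤ n → k i ≤ M := by
      refine ⟨(Finset.range (n + 1)).sup k, fun i hi => ?_⟩
      exact Finset.le_sup (f := k) (Finset.mem_range.2 (by omega))
    refine ⟨(A n).1 (max M N), (A n).2.ne _, fun j hj => ?_, fun i hi => ?_⟩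
    · exact le_trans (le_max_right _ _) ((A n).2.ge _ j hj)
    · refine hk i hi _ (self_mem_fu _ _) fun j hj => ?_
      exact le_trans (hM i hi) (le_trans (le_max_left _ _) ((A n).2.ge _ j hj)))
  refine ⟨⟨B, hB⟩, fun i => ⟨mn (B i), fun b hb hlo => ?_⟩⟩
  have h2 : b ∈ fu (fun n => B (n + i)) := by
    rw [mem_fu_tail hB]
    refine ⟨hb, fun n hn x hx y hy => ?_⟩
    exact lt_of_lt_of_le (hB.bef hn x hx _ (mn_mem (hB.ne i))) (hlo y hy)
  exact fu_mono (fun n => hBA (n + i) i (by omega)) h2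

theorem BS.trans' {A B C : BS} (h1 : BS.le A B) (h2 : BS.le B C) : BS.le A C := by
  obtain ⟨k1, hk1⟩ := h1
  obtain ⟨k2, hk2⟩ := h2
  refine ⟨max k1 k2, fun b hb hlo => hk2 b (hk1 b hb fun j hj => ?_) fun j hj => ?_⟩
  · exact le_trans (le_max_left _ _) (hlo j hj)
  · exact le_trans (le_max_right _ _) (hlo j hj)

variable {K : Type} [Field K] [DecidableEq K] [Countable K] (cd : Codes K)

/-- the coordinate `0` is proper. PROOF. Stage `0` is trivial, stage `1` is `BS.le` for the coordinate `0` (`le_add_one_iff`, `it_at0`). Let `N` be a hull with `Cl N`, closed under an operation giving for `D`, `p` (with `D` dense at stage `1`) an element `d ∈ D` with `d ≤_1 p` (`Obj.dset D`, `Obj.cond p` ↦ `Obj.cond d`; `cs_normal`, `cs_mem`, `cs_lift`). Enumerate the dense sets `D n` of `N`; take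
`p = d 0`, `d (n+1) ∈ D n ∩ N`, `d (n+1) ≤_1 d n`. By `BS.pseudo` and `cd.surjB` there is `x` with `decB x ≤ decB ((d n) 0)` for all `n`. (If `N` has no dense set the statement `NGen` is trivial.) -/
theorem prop_zero : ∀ᶠ N in ClubS (Obj (iter cd).C), ∀ q p : (iter cd).C,
    (iter cd).NGen N ((0 : Ordinal.{0}) : Stg) q → Obj.cond p ∈ N →
      (iter cd).le ((0 : Ordinal.{0}) : Stg) q p → ∃ x, (iter cd).At 0 q x (p.1 0) ∧
        (iter cd).NGen N (((0 : Ordinal.{0}) + 1 : Ordinal.{0}) : Stg) ((iter cd).upd 0 q x) := by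
  have hop : ∀ᶠ N in ClubS (Obj (iter cd).C), ∀ D : Set (iter cd).C, Obj.dset D ∈ N →
      ∀ p, Obj.cond p ∈ N →
        ((∀ p, ∃ d ∈ D, (iter cd).le (((0 : Ordinal.{0}) + 1 : Ordinal.{0}) : Stg) d p) →
          ∃ d ∈ D, Obj.cond d ∈ N ∧
            (iter cd).le (((0 : Ordinal.{0}) + 1 : Ordinal.{0}) : Stg) d p) := by
    refine cs_lift dset_inj (T := fun D N => ∀ p, Obj.cond p ∈ N →
        ((∀ p, ∃ d ∈ D, (iter cd).le (((0 : Ordinal.{0}) + 1 : Ordinal.{0}) : Stg) d p) →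
          ∃ d ∈ D, Obj.cond d ∈ N ∧
            (iter cd).le (((0 : Ordinal.{0}) + 1 : Ordinal.{0}) : Stg) d p)) fun D => ?_
    refine cs_lift cond_inj (T := fun p N =>
        ((∀ p, ∃ d ∈ D, (iter cd).le (((0 : Ordinal.{0}) + 1 : Ordinal.{0}) : Stg) d p) →
          ∃ d ∈ D, Obj.cond d ∈ N ∧
            (iter cd).le (((0 : Ordinal.{0}) + 1 : Ordinal.{0}) : Stg) d p)) fun p => ?_
    by_cases hD : ∀ p, ∃ d ∈ D, (iter cd).le (((0 : Ordinal.{0}) + 1 : Ordinal.{0}) : Stg) d p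
    · obtain ⟨d, hd, hdp⟩ := hD p
      filter_upwards [cs_mem (Obj.cond d : Obj (iter cd).C)] with N hN _
      exact ⟨d, hd, hN, hdp⟩
    · exact Filter.Eventually.of_forall fun N h => absurd h hD
  filter_upwards [hop, cs_countable (W := Obj (iter cd).C)] with N hN hc q p _ hp _
  by_cases hne : ∃ D : Set (iter cd).C, Obj.dset D ∈ N
  swap
  · exact ⟨p.1 0, (iter cd).refl _ _ _, fun D hD => absurd ⟨D, hD⟩ hne⟩
  have hc2 : {D : Set (iter cd).C | Obj.dset D ∈ N}.Countable :=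
    hc.preimage (f := (Obj.dset : Set (iter cd).C → Obj (iter cd).C)) dset_inj
  obtain ⟨f, hf⟩ := hc2.exists_eq_range hne
  have hfN : ∀ n, Obj.dset (f n) ∈ N := by
    intro n
    have h1 : f n ∈ {D : Set (iter cd).C | Obj.dset D ∈ N} := by
      rw [hf]
      exact ⟨n, rfl⟩
    exact h1
  have hstep : ∀ (n : ℕ) (c : {c : (iter cd).C // Obj.cond c ∈ N}),
      ∃ c' : {c : (iter cd).C // Obj.cond c ∈ N},
        (iter cd).le (((0 : Ordinal.{0}) + 1 : Ordinal.{0}) : Stg) c'.1 c.1 ∧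
        ((∀ p, ∃ d ∈ f n, (iter cd).le (((0 : Ordinal.{0}) + 1 : Ordinal.{0}) : Stg) d p) →
          c'.1 ∈ f n) := by
    intro n c
    by_cases hD : ∀ p, ∃ d ∈ f n, (iter cd).le (((0 : Ordinal.{0}) + 1 : Ordinal.{0}) : Stg) d p
    · obtain ⟨d, hd, hdN, hdc⟩ := hN (f n) (hfN n) c.1 c.2 hD
      exact ⟨⟨d, hdN⟩, hdc, fun _ => hd⟩
    · exact ⟨c, (iter cd).le_refl' _ _, fun h => absurd h hD⟩
  choose F hF1 hF2 using hstep
  obtain ⟨d, hd0, hd1⟩ : ∃ d : ℕ → {c : (iter cd).C // Obj.cond c ∈ N}, d 0 = ⟨p, hp⟩ ∧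
      ∀ n, d (n + 1) = F n (d n) :=
    ⟨fun n => Nat.rec ⟨p, hp⟩ (fun n c => F n c) n, rfl, fun _ => rfl⟩
  obtain ⟨B, hB⟩ := BS.pseudo (fun n => cd.decB ((d n).1.1 0)) (fun n => by
    have h1 := hF1 n (d n)
    rw [← hd1] at h1
    exact (it_at0 cd _ _ _).1 (le_add_one_iff.1 h1).2)
  obtain ⟨x, rfl⟩ := cd.surjB B
  refine ⟨x, ?_, fun D hD hdense r hr => ?_⟩
  · have h1 := hB 0
    rw [hd0] at h1
    exact (it_at0 cd _ _ _).2 h1
  · obtain ⟨n, rfl⟩ : ∃ n, f n = D := by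
      have h1 : D ∈ {D : Set (iter cd).C | Obj.dset D ∈ N} := hD
      rw [hf] at h1
      exact h1
    refine ⟨(d (n + 1)).1, ?_, (d (n + 1)).2, r, (iter cd).le_refl' _ _, ?_⟩
    · rw [hd1]
      exact hF2 n (d n) hdense
    · rw [le_add_one_iff]
      refine ⟨fun γ hγ => absurd (WithTop.coe_lt_coe.1 hγ) (not_lt_bot), ?_⟩
      have h1 := (le_add_one_iff.1 hr).2
      rw [upd_same] at h1
      exact (it_at0 cd _ _ _).2 (BS.trans' ((it_at0 cd _ _ _).1 h1) (hB (n + 1)))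

end Pool.Agent.CIt
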