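import Pool.Agent.Lib_CI.PropA
import Pool.Agent.Lib_CI.Prop0

/-!
# Piece CIPROPB: the concrete iteration is proper
-/

set_option autoImplicit false

namespace Pool.Agent.CIt

open Pool.Agent.GGen Pool.Agent.HMod Pool.Agent.SOU Pool.Agent.SOUi Pool.Agent.CSI

variable {K : Type} [Field K] [DecidableEq K] [Countable K] (cd : Codes K)

/-- the order of the coordinate is trivial below `q'`: a common lower bound at stage `β` gives one at stage `β + 1`. PROOF (of genericity below such a condition). Let `D` be a dense set of the hull, `r ≤_{β+1} q'`. `{c | (∃ d ∈ D, d ≤_{β+1} one ∧ c ≤_β d) ∨ c incompatible with one}` is in the hull (`Cl.eset`) and dense at stage `β`; `NGen` at `β` gives `c` in it, in `N`, with a common lower bound `s ≤_β r, c`, and `d ∈ D ∩ N`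
with `c ≤_β d` (`Cl.epick`). `s` is below `q'` at stage `β`, so `s ≤_{β+1} r`, `s ≤_{β+1} d` (`le_add_one_iff`, hypothesis `htriv`). -/
theorem ngen_triv {N : Set (Obj (iter cd).C)} (hN : (iter cd).Cl N) {β : Ordinal.{0}}
    (hβN : Obj.ord (β : Stg) ∈ N) {q : (iter cd).C} (hq : (iter cd).NGen N (β : Stg) q)
    (htriv : ∀ s, (iter cd).le (β : Stg) s q → ∀ x y, (iter cd).At β s x y) :
    (iter cd).NGen N ((β + 1 : Ordinal.{0}) : Stg) q := by
  intro D hD hd r hr
  have hlt : (β : Stg) ≤ ((β + 1 : Ordinal.{0}) : Stg) :=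
    le_of_lt (WithTop.coe_lt_coe.mpr (Order.lt_add_one_iff.mpr le_rfl))
  have hE := hN.eset D hD (iter cd).one hN.one _ hβN _ (hN.succ β hβN)
  obtain ⟨c, hcE, hcN, s, hs1, hs2⟩ := hq _ hE (fun p => by
    obtain ⟨d, hd1, hd2⟩ := hd p
    exact ⟨d, Or.inl ⟨d, hd1, (iter cd).le_one _ _, (iter cd).le_refl' _ _⟩,
      (iter cd).le_stage hlt hd2⟩) r ((iter cd).le_stage hlt hr)
  have hsq : (iter cd).le (β : Stg) s q :=
    (iter cd).le_trans' _ hs1 ((iter cd).le_stage hlt hr)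
  rcases hcE with hcE | hcE
  · obtain ⟨d, hdD, hdN, _, hcd⟩ := hN.epick D hD (iter cd).one hN.one _ hβN _
      (hN.succ β hβN) c hcN hcE
    exact ⟨d, hdD, hdN, s, le_add_one_iff.2 ⟨hs1, htriv s hsq _ _⟩,
      le_add_one_iff.2 ⟨(iter cd).le_trans' _ hs2 hcd, htriv s hsq _ _⟩⟩
  · exact absurd ((iter cd).le_one _ _) (hcE s hs2)

/-- PROOF. If the task is not active the order of the coordinate is trivial (`it_at_triv`): take `x = p β` and `ngen_triv` for `upd β q x` (it agrees with `q` below `β`). Otherwise let `h` be data, `p = e n₀`, `S` from `exists_good`, `x` a code of `S` (`it_code_ev`). `At β q x (p β)` : in `g ∋ q` with `t.1 ∈ g`, `Ev x = ev S g ⊆ Ev (p β)` (`evG_eq`). Genericity: let `D = h.D k`, `r ≤_{β+1} upd β q x`,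
so `r ≤_β q`, `At β r (r β) x`. Take a good `g ∋ r` (stage `β`). If `t.1 ∉ g`, some `r' ≤_β r` forces `t.1 ∉ g`, apply `ngen_triv` to `r'` (`ngen_mono`) for the condition `put`: with `r''`, equal to `r'` below `β` and to `r` at `β`. If `t.1 ∈ g` : `R = Ev (r β)` is a condition of the model (`evG_cd`), `R ⊆ Ev x = ev S g`; `GoodP` gives `m` with `e m ∈ D k`, `e m ∈ g` and a condition
`R' ⊆ R`, `R' ⊆ Ev (e m β)` of the model, `R' = ev S' g` (`cd_rep`). The statement `t.1 ∈ g ∧ IsCdT (ev S' g) ∧ ev S' g ⊆ Ev (r β) ∧ ev S' g ⊆ Ev (e m β)` is decided, so it is forced by some `s₀ ∈ g` below `r` and `e m` at stage `β`. Let `y` be a code of `S'`, `s = upd β s₀ y`; `s ≤_{β+1} r` and `s ≤_{β+1} e m`. -/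
theorem prop_succ (hK : ∃ a : K, a ≠ 0 ∧ a ≠ 1) {β : Ordinal.{0}} (hβ : β ≠ 0) :
    ∀ᶠ N in ClubS (Obj (iter cd).C), ∀ q p : (iter cd).C,
      (iter cd).NGen N (β : Stg) q → Obj.cond p ∈ N → (iter cd).le (β : Stg) q p →
        ∃ x, (iter cd).At β q x (p.1 β) ∧
          (iter cd).NGen N ((β + 1 : Ordinal.{0}) : Stg) ((iter cd).upd β q x) := by
  by_cases hact : ActI cd β
  swap
  · filter_upwards [cs_cl (I := iter cd), cs_mem (Obj.ord (β : Stg) : Obj (iter cd).C)]
      with N hN hβN q p hq _ _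
    refine ⟨p.1 β, (iter cd).refl _ _ _, ngen_triv cd hN hβN (ngen_congr hq fun γ hγ =>
      upd_lt (WithTop.coe_lt_coe.1 hγ)) fun s _ x y => it_at_triv cd hβ (Or.inl hact) x y⟩
  filter_upwards [cs_cl (I := iter cd), cs_mem (Obj.ord (β : Stg) : Obj (iter cd).C),
    exists_hdata cd β, exists_good cd hK hβ hact] with N hN hβN hh hgood q p hq hp hqp
  obtain ⟨h⟩ := hh
  obtain ⟨n₀, hn₀⟩ := (h.he p).1 hp
  obtain ⟨S, hS⟩ := hgood h q n₀ hq (by rw [hn₀]; exact hqp)
  obtain ⟨x, hx⟩ := it_code_ev cd (β := β) S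
  have hactG : Act (P := (iter cd).PP (β : Stg)) (cd.bk β) := hact
  -- the value of a code of a name of a condition
  have hcode : ∀ (z : XX) (S' : Node → Set (iter cd).C) (g : GG ((iter cd).PP (β : Stg))),
      ev (P := (iter cd).PP (β : Stg)) (cd.dec z) g = ev (P := (iter cd).PP (β : Stg)) S' g →
      ((cd.bk β).1 : (iter cd).PP (β : Stg)) ∈ g →
      IsCdT (tF (P := (iter cd).PP (β : Stg)) (cd.bk β) g)
        (ev (P := (iter cd).PP (β : Stg)) S' g) →
      Ev cd β g z = ev (P := (iter cd).PP (β : Stg)) S' g := by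
    intro z S' g h1 h2 h3
    have h4 : EvG (P := (iter cd).PP (β : Stg)) (cd.bk β) (cd.dec z) g =
        ev (P := (iter cd).PP (β : Stg)) (cd.dec z) g :=
      evG_eq (P := (iter cd).PP (β : Stg)) hactG h2 (by rw [h1]; exact h3)
    exact h4.trans h1
  refine ⟨x, ?_, ?_⟩
  · rw [it_at cd hβ]
    filter_upwards [hS, hx] with g h1 h2 hg
    by_cases htg : ((cd.bk β).1 : (iter cd).PP (β : Stg)) ∈ g
    · obtain ⟨hc1, hc2, _⟩ := h1 hg htg
      rw [hcode x S g h2 htg hc1.2, ← hn₀]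
      exact hc2
    · unfold Ev
      rw [evG_notMem (P := (iter cd).PP (β : Stg)) htg,
        evG_notMem (P := (iter cd).PP (β : Stg)) htg]
  · intro D hD hd r hr
    obtain ⟨k, hk⟩ := (h.hD D).1 ⟨hD, hd⟩
    obtain ⟨hrq, hrx⟩ := le_upd_iff.1 hr
    have hrx' : ∀ᶠ g in GC ((iter cd).PP (β : Stg)), (r : (iter cd).PP (β : Stg)) ∈ g →
        Ev cd β g (r.1 β) ⊆ Ev cd β g x := (it_at cd hβ _ _ _).1 hrx
    -- the decided statements
    let TT : ℕ → (Node → Set ((iter cd).PP (β : Stg))) → GG ((iter cd).PP (β : Stg)) → Prop :=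
      fun m S' g => (((cd.bk β).1 : (iter cd).PP (β : Stg)) ∈ g ∧
        IsCdT (tF (P := (iter cd).PP (β : Stg)) (cd.bk β) g)
          (ev (P := (iter cd).PP (β : Stg)) S' g)) ∧
        (ev (P := (iter cd).PP (β : Stg)) S' g ⊆
          EvG (P := (iter cd).PP (β : Stg)) (cd.bk β) (cd.dec (r.1 β)) g ∧
        ev (P := (iter cd).PP (β : Stg)) S' g ⊆
          EvG (P := (iter cd).PP (β : Stg)) (cd.bk β) (h.c m).2 g)
    have hTT : ∀ m S', Dec (TT m S') := fun m S' =>
      (dec_isCdT hactG (T := fun s g => s ∈ ev (P := (iter cd).PP (β : Stg)) S' g)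
        (fun s => dec_ev S' s)).and
      ((semdec_sub_evG (P := (iter cd).PP (β : Stg)) (cd.bk β) S' (cd.dec (r.1 β))).and
        (semdec_sub_evG (P := (iter cd).PP (β : Stg)) (cd.bk β) S' (h.c m).2))
    have hTT1 : ∀ᶠ g in GC ((iter cd).PP (β : Stg)), ∀ m, ∀ S', g.has S' → TT m S' g →
        ∃ n, Fo (g.gen.G n) (TT m S') :=
      eventually_countable_forall.2 fun m => Dec.truthH (hTT m)
    have hnot : ∀ᶠ g in GC ((iter cd).PP (β : Stg)),
        ¬ ((cd.bk β).1 : (iter cd).PP (β : Stg)) ∈ g →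
        ∃ n, Fo (P := (iter cd).PP (β : Stg)) (g.gen.G n)
          (fun g => ¬ ((cd.bk β).1 : (iter cd).PP (β : Stg)) ∈ g) :=
      (dec_mem (P := (iter cd).PP (β : Stg)) (cd.bk β).1).not.truth
    have hS' : ∀ᶠ g in GC ((iter cd).PP (β : Stg)), (q : (iter cd).PP (β : Stg)) ∈ g →
        ((cd.bk β).1 : (iter cd).PP (β : Stg)) ∈ g →
        GoodP (P := (iter cd).PP (β : Stg)) (cd.bk β) h.c h.R n₀ S g := hS
    have hall := hS'.and (hx.and (Filter.Eventually.and hrx'
      ((evG_cd (P := (iter cd).PP (β : Stg)) hactG).and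
      ((cd_rep (P := (iter cd).PP (β : Stg)) hactG).and (hTT1.and (hnot.and
        (GC_has (P := (iter cd).PP (β : Stg)) (Y := Node → Set ((iter cd).PP (β : Stg)))
          (cd.dec (r.1 β)))))))))
    obtain ⟨g, ⟨g1, g2, g3, g4, g5, g6, g7, g8⟩, hrg⟩ := GC_exists' hall
      (r : (iter cd).PP (β : Stg))
    by_cases htg : ((cd.bk β).1 : (iter cd).PP (β : Stg)) ∈ g
    · have hqg : (q : (iter cd).PP (β : Stg)) ∈ g :=
        mem_up (P := (iter cd).PP (β : Stg)) (p := r) (q := q) hrg hrq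
      have hgood' := g1 hqg htg
      obtain ⟨hc1, hc2, hc3⟩ := hgood'
      have hR : CdG (P := (iter cd).PP (β : Stg)) (cd.bk β) g (Ev cd β g (r.1 β)) :=
        g4 htg _ g8
      have hRx : Ev cd β g (r.1 β) ⊆ ev (P := (iter cd).PP (β : Stg)) S g := by
        have h5 := g3 hrg
        rw [hcode x S g g2 htg hc1.2] at h5
        exact h5
      obtain ⟨m, hm, hmg, T', hT', hT'1, hT'2⟩ := hc3 k _ hR hRx
      obtain ⟨S', hS'h, hS'e, _⟩ := g5 htg T' hT'
      obtain ⟨n, hn⟩ := g6 m S' hS'h ⟨⟨htg, by rw [hS'e]; exact hT'.2⟩,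
        by rw [hS'e]; exact hT'1, by rw [hS'e]; exact hT'2⟩
      obtain ⟨s₁, hs₁g, _, hs₁r, hs₁n⟩ := mem_common hrg (G_mem g n)
      obtain ⟨s₀, hs₀g, _, hs₀1, hs₀m⟩ := mem_common hs₁g hmg
      obtain ⟨y, hy⟩ := it_code_ev cd (β := β) S'
      have hf : Fo s₀ (TT m S') := hn.mono (hs₀1.trans hs₁n)
      refine ⟨h.e m, ?_, (h.he _).2 ⟨m, rfl⟩, (iter cd).upd β s₀ y, ?_, ?_⟩
      · rw [← hk]
        exact hm
      · rw [upd_le_iff]
        refine ⟨(iter cd).le_trans' _ hs₀1 hs₁r, ?_⟩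
        rw [it_at cd hβ]
        filter_upwards [hf, hy] with g' h6 h7 h8
        obtain ⟨⟨h9, h10⟩, h11, h12⟩ := h6 h8
        rw [hcode y S' g' h7 h9 h10]
        exact h11
      · rw [upd_le_iff]
        refine ⟨hs₀m, ?_⟩
        rw [it_at cd hβ]
        filter_upwards [hf, hy] with g' h6 h7 h8
        obtain ⟨⟨h9, h10⟩, h11, h12⟩ := h6 h8
        rw [hcode y S' g' h7 h9 h10]
        exact h12
    · obtain ⟨n, hn⟩ := g7 htg
      obtain ⟨r', _, _, hr'r, hr'n⟩ := mem_common hrg (G_mem g n)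
      have hr'2 : (iter cd).le (β : Stg) r' r := hr'r
      have hgl : (iter cd).le (β : Stg) ((iter cd).glue (β : Stg) r' r) r' := glue_le_left
      have hN' : (iter cd).NGen N ((β + 1 : Ordinal.{0}) : Stg)
          ((iter cd).glue (β : Stg) r' r) := by
        refine ngen_triv cd hN hβN (ngen_mono hq ((iter cd).le_trans' _ hgl
          ((iter cd).le_trans' _ hr'2 hrq))) fun s hs x y =>
            it_at_triv cd hβ (Or.inr ?_) x y
        have hsn : (iter cd).le (β : Stg) s (g.gen.G n) :=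
          (iter cd).le_trans' _ ((iter cd).le_trans' _ hs hgl) hr'n
        exact Fo.mono (P := (iter cd).PP (β : Stg)) hn hsn
      obtain ⟨d, hdD, hdN, s, hs1, hs2⟩ := hN' D hD hd _ ((iter cd).le_refl' _ _)
      exact ⟨d, hdD, hdN, s, (iter cd).le_trans' _ hs1 (glue_le hr'2), hs2⟩

theorem iter_proper (hK : ∃ a : K, a ≠ 0 ∧ a ≠ 1) : (iter cd).Proper := by
  intro β
  by_cases hβ : β = 0
  · subst hβ
    exact prop_zero cd
  · exact prop_succ cd hK hβ

end Pool.Agent.CIt
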