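import Pool.Agent.Lib_CI.Sem
import Pool.Agent.Lib_MP_a0d45a_int.Presi

/-!
# Piece PRESG: preservation of ultrafilters by the iterand over a good generic
-/

set_option autoImplicit false

namespace Pool.Agent.CIt

open Pool.Agent.GGen Pool.Agent.HMod Pool.Agent.SOU Pool.Agent.SOUi

universe u

variable {K : Type} [Field K] [DecidableEq K] [Countable K] {P : Type u} [Preorder P] [OrderTop P]
  {t : Task K P}

/-- the evaluated name is internal. PROOF. The ground sort of the pairs `y` with `y.1 ∈ g` (`GC_gsok` for `Y = P × (Node → Set P)`, `K y = {y.1}`); the relation `y ∈ Z b` is a ground relation (`gs_relB`), the relation `s ∈ EvG t y.2 g` is decided (`gs_decB`, `dec_evG`), and `ZQ t Z g b T` iff there is `y` in the sort with `y ∈ Z b` and `∀ s ∈ T, s ∈ EvG t y.2 g`. -/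
theorem int_zq (t : Task K P) (Z : Finset ℕ → Set (P × (Node → Set P))) : ∀ᶠ g in GC P,
    ∀ [Std g.M K] [Fact (IsIFil g.M (tF t g))],
      Int g.M (fun q : Finset ℕ × CdI g.M (tF t g) => ZQ t Z g q.1 q.2.1.T) := by
  let Kc : P × (Node → Set P) → Set P := fun y => {y.1}
  filter_upwards [GC_gsok Kc, gs_relB (ι := Finset ℕ) Kc (fun y b => y ∈ Z b),
    gs_decB (ι := Node) Kc (T := fun y s g => s ∈ EvG t y.2 g) (fun y s => dec_evG t y.2 s)]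
    with g h1 h2 h3
  intro _ _
  have : Fact (GSok g Kc) := ⟨h1⟩
  have h2' := h2
  have h3' := h3
  refine int_congr (p := fun q : Finset ℕ × CdI g.M (tF t g) => ∃ y : GS g Kc, y.1 ∈ Z q.1 ∧
    ∀ s : Node, s ∈ q.2.1.T → s ∈ EvG t y.1.2 g) ?_ ?_
  · intro q
    constructor
    · rintro ⟨y, hy, hs⟩
      obtain ⟨c, hc, hcg⟩ := y.2.2
      have hc' : c = y.1.1 := hc
      rw [hc'] at hcg
      exact ⟨y.1, hy, y.2.1, hcg, hs⟩
    · rintro ⟨y, hy, hh, hg, hs⟩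
      exact ⟨⟨y, hh, y.1, rfl, hg⟩, hy, hs⟩
  · refine int_ex (R := fun (q : Finset ℕ × CdI g.M (tF t g)) (y : GS g Kc) => y.1 ∈ Z q.1 ∧
      ∀ s : Node, s ∈ q.2.1.T → s ∈ EvG t y.1.2 g) (int_and ?_ ?_)
    · exact int_comp2 (R := fun (y : GS g Kc) (b : Finset ℕ) => y.1 ∈ Z b) h2'
        (intF_snd' intF_id) (intF_fst' (intF_fst' intF_id))
    · refine int_all (R := fun (q : (Finset ℕ × CdI g.M (tF t g)) × GS g Kc) (s : Node) =>
        s ∈ q.1.2.1.T → s ∈ EvG t q.2.1.2 g) (int_imp ?_ ?_)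
      · exact cbi_memF (intF_snd' intF_id) (intF_snd' (intF_fst' (intF_fst' intF_id)))
      · exact int_comp2 (R := fun (y : GS g Kc) (s : Node) => s ∈ EvG t y.1.2 g) h3'
          (intF_snd' (intF_fst' intF_id)) (intF_snd' intF_id)

/-- PROOF. `pres_i` for `Z' b = {T | ZQ t Z g b T.1.T}` (an open name), the filters `tF t g` and `evF 𝒲 g` and the condition `EvG t S₀ g` (`evG_cd`). The set `S ∈ evF 𝒲 g` contains `ev B g` for a live `B` (`mem_evF`). `FrIn`, `FrOut` for `CdI` are `FrInG`, `FrOutG`. -/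
theorem pres_g (hK : ∃ a : K, a ≠ 0 ∧ a ≠ 1) (ht : Act t) (𝒲 : FN (Finset ℕ) P)
    (Z : Finset ℕ → Set (P × (Node → Set P))) : ∀ᶠ g in GC P, t.1 ∈ g → Dir 𝒲 g →
      IsSOUi g.M (evF 𝒲 g) → ∀ S₀ : Node → Set P, g.has S₀ →
        ∃ (S : Node → Set P) (B : Finset ℕ → Set P), g.has S ∧ Live 𝒲 g B ∧ CdG t g (ev S g) ∧
          ev S g ⊆ EvG t S₀ g ∧ ((∀ b ∈ ev B g, FrInG t Z g b (ev S g)) ∨
            (∀ b ∈ ev B g, FrOutG t Z g b (ev S g))) := by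
  have hact : ∀ᶠ g in GC P, t.1 ∈ g → Dir t.2 g ∧ IsPPlusi g.M (tF t g) := ht
  filter_upwards [int_zq t Z, gc_std (K := K) (P := P), evG_cd ht, evF_isIFil t.2, hact,
    rep_ev (P := P) (ι := Node)] with g h1 h2 h3 h4 h5 h6
  intro htg hDW hU S₀ hS₀
  obtain ⟨hD, hF⟩ := h5 htg
  have : Std g.M K := h2
  have : Fact (IsIFil g.M (tF t g)) := ⟨h4 hD⟩
  obtain ⟨hp1, p0, hp0⟩ := h3 htg S₀ hS₀
  let Z' : Finset ℕ → Set (CdI g.M (tF t g)) := fun b => {T | ZQ t Z g b T.1.T}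
  have hZi : Int g.M (fun q : Finset ℕ × CdI g.M (tF t g) => q.2 ∈ Z' q.1) := h1
  have hZ : OpenName Z' := by
    rintro b T ⟨q, hq, hh, hg, hs⟩ T' hT'
    exact ⟨q, hq, hh, hg, (cdI_le_iff.1 hT').trans hs⟩
  have hp0i : Int g.M (fun s => s ∈ p0.T) := by rw [hp0]; exact hp1
  obtain ⟨q, hq, S', hS', _, hfr⟩ := pres_i hK hF hU hZi hZ (⟨p0, hp0i⟩ : CdI g.M (tF t g))
  obtain ⟨B, hB, hBS⟩ := (mem_evF hDW).1 hS'
  obtain ⟨S, hS, hSq⟩ := h6 q.1.T q.2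
  have hcd : CdG t g (ev S g) := by
    rw [hSq]
    exact ⟨q.2, q.1, rfl⟩
  refine ⟨S, B, hS, hB, hcd, ?_, ?_⟩
  · rw [hSq, ← hp0]
    exact cdI_le_iff.1 hq
  · rcases hfr with hfr | hfr
    · left
      rintro b hb R ⟨hR1, R0, rfl⟩ hR2
      rw [hSq] at hR2
      obtain ⟨r, hr, hrZ⟩ := hfr b (hBS hb) (⟨R0, hR1⟩ : CdI g.M (tF t g)) (cdI_le_iff.2 hR2)
      exact ⟨r.1.T, ⟨r.2, r.1, rfl⟩, cdI_le_iff.1 hr, hrZ⟩
    · right
      rintro b hb R ⟨hR1, R0, rfl⟩ hR2 hZQ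
      rw [hSq] at hR2
      exact hfr b (hBS hb) (⟨R0, hR1⟩ : CdI g.M (tF t g)) (cdI_le_iff.2 hR2) hZQ

end Pool.Agent.CIt
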