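import Pool.Agent.Lib_CI.Sem

/-!
# Piece SEMDEC: decided properties of conditions
-/

set_option autoImplicit false

namespace Pool.Agent.CIt

open Pool.Agent.GGen Pool.Agent.HMod Pool.Agent.SOU Pool.Agent.SOUi

universe u w

variable {K : Type} [Field K] [DecidableEq K] [Countable K] {P : Type u} [Preorder P] [OrderTop P]
  {t : Task K P}

/-- being a condition is decided -/
theorem semdec_cdG (h : Act t) (S : Node → Set P) : Dec (fun g => t.1 ∈ g ∧ CdG t g (ev S g)) := by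
  refine (dec_isCdT h (T := fun s g => s ∈ ev S g) (fun s => dec_ev S s)).congr ?_
  filter_upwards [int_ev (P := P) (ι := Node), GC_has (P := P) S] with g h1 h2
  constructor
  · rintro ⟨h3, h4⟩
    exact ⟨h3, h1 S h2, h4⟩
  · rintro ⟨h3, _, h4⟩
    exact ⟨h3, h4⟩

theorem semdec_sub_ev (S S' : Node → Set P) : Dec (fun g => ev S g ⊆ ev S' g) :=
  dec_sub (T := fun s g => s ∈ ev S g) (T' := fun s g => s ∈ ev S' g) (fun s => dec_ev S s)
    (fun s => dec_ev S' s)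

theorem semdec_sub_evG (t : Task K P) (S S' : Node → Set P) :
    Dec (fun g => ev S g ⊆ EvG t S' g) :=
  dec_sub (T := fun s g => s ∈ ev S g) (T' := fun s g => s ∈ EvG t S' g) (fun s => dec_ev S s)
    (fun s => dec_evG t S' s)

theorem dec_goodP (h : Act t) (c : ℕ → P × (Node → Set P)) (R : ℕ → ℕ → Prop) (n₀ : ℕ)
    (S : Node → Set P) : Dec (fun g => t.1 ∈ g ∧ GoodP t c R n₀ S g) := by
  have h1 : ∀ (m : ℕ) (S' : Node → Set P), Dec (fun g => t.1 ∈ g ∧ ∃ T', CdG t g T' ∧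
      (T' ⊆ ev S' g ∧ T' ⊆ EvG t (c m).2 g)) := fun m S' =>
    dec_exCd h (T := fun Q g => Q ⊆ ev S' g ∧ Q ⊆ EvG t (c m).2 g)
      (fun S'' => (semdec_sub_ev S'' S').and (semdec_sub_evG t S'' (c m).2))
  have h2 : ∀ (k : ℕ), Dec (fun g => t.1 ∈ g ∧ ∀ Q, CdG t g Q → (Q ⊆ ev S g →
      ∃ m, R k m ∧ ((c m).1 ∈ g ∧ (t.1 ∈ g ∧ ∃ T', CdG t g T' ∧
        (T' ⊆ Q ∧ T' ⊆ EvG t (c m).2 g))))) := fun k =>
    dec_allCd h (T := fun Q g => Q ⊆ ev S g →
      ∃ m, R k m ∧ ((c m).1 ∈ g ∧ (t.1 ∈ g ∧ ∃ T', CdG t g T' ∧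
        (T' ⊆ Q ∧ T' ⊆ EvG t (c m).2 g))))
      (fun S' => (semdec_sub_ev S' S).imp (dec_ex fun m => (dec_const (R k m)).and
        ((dec_mem (c m).1).and (h1 m S'))))
  refine (((semdec_cdG h S).and (semdec_sub_evG t S (c n₀).2)).and
    (dec_all h2)).congr (Filter.Eventually.of_forall fun g => ?_)
  constructor
  · rintro ⟨⟨⟨h3, h4⟩, h5⟩, h6⟩
    refine ⟨h3, h4, h5, fun k T hT hTS => ?_⟩
    obtain ⟨m, hm, hc, _, T', hT', h7, h8⟩ := (h6 k).2 T hT hTS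
    exact ⟨m, hm, hc, T', hT', h7, h8⟩
  · rintro ⟨h3, h4, h5, h6⟩
    refine ⟨⟨⟨h3, h4⟩, h5⟩, fun k => ⟨h3, fun T hT hTS => ?_⟩⟩
    obtain ⟨m, hm, hc, T', hT', h7, h8⟩ := h6 k T hT hTS
    exact ⟨m, hm, hc, h3, T', hT', h7, h8⟩

/-- `dec_exH` for `Y = P × (Node → Set P)` -/
theorem dec_zq {ι : Type*} (t : Task K P) (Z : ι → Set (P × (Node → Set P))) (b : ι)
    (S : Node → Set P) : Dec (fun g => ZQ t Z g b (ev S g)) := by
  refine (dec_exH (Y := P × (Node → Set P)) (T := fun q g => q ∈ Z b ∧ (q.1 ∈ g ∧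
    ev S g ⊆ EvG t q.2 g)) (fun q => (dec_const _).and ((dec_mem q.1).and
      (semdec_sub_evG t S q.2)))).congr (Filter.Eventually.of_forall fun g => ?_)
  constructor
  · rintro ⟨q, h1, h2, h3, h4⟩
    exact ⟨q, h2, h1, h3, h4⟩
  · rintro ⟨q, h2, h1, h3, h4⟩
    exact ⟨q, h1, h2, h3, h4⟩

theorem dec_frInG {ι : Type*} (h : Act t) (Z : ι → Set (P × (Node → Set P))) (b : ι)
    (S : Node → Set P) : Dec (fun g => t.1 ∈ g ∧ FrInG t Z g b (ev S g)) := by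
  have h1 : ∀ S' : Node → Set P, Dec (fun g => t.1 ∈ g ∧ ∃ R', CdG t g R' ∧
      (R' ⊆ ev S' g ∧ ZQ t Z g b R')) := fun S' =>
    dec_exCd h (T := fun Q g => Q ⊆ ev S' g ∧ ZQ t Z g b Q)
      (fun S'' => (semdec_sub_ev S'' S').and (dec_zq t Z b S''))
  have h2 := dec_allCd h (T := fun Q g => Q ⊆ ev S g → (t.1 ∈ g ∧ ∃ R', CdG t g R' ∧
      (R' ⊆ Q ∧ ZQ t Z g b R'))) (fun S' => (semdec_sub_ev S' S).imp (h1 S'))
  refine h2.congr (Filter.Eventually.of_forall fun g => ?_)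
  constructor
  · rintro ⟨h3, h4⟩
    refine ⟨h3, fun Q hQ hQS => ?_⟩
    exact (h4 Q hQ hQS).2
  · rintro ⟨h3, h4⟩
    refine ⟨h3, fun Q hQ hQS => ?_⟩
    exact ⟨h3, h4 Q hQ hQS⟩

theorem dec_frOutG {ι : Type*} (h : Act t) (Z : ι → Set (P × (Node → Set P))) (b : ι)
    (S : Node → Set P) : Dec (fun g => t.1 ∈ g ∧ FrOutG t Z g b (ev S g)) := by
  have h2 := dec_allCd h (T := fun Q g => Q ⊆ ev S g → ¬ ZQ t Z g b Q)
    (fun S' => (semdec_sub_ev S' S).imp (dec_zq t Z b S').not)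
  refine h2.congr (Filter.Eventually.of_forall fun g => ?_)
  exact Iff.rfl

theorem dec_wIn (t : Task K P) (S : Node → Set P) (v : ℕ →₀ K) :
    Dec (fun g => WIn (EvG t S g) v) := by
  refine (dec_all (ι := Node) fun s => (dec_evG t S s).imp
    (dec_const (Hi s.1 v.support → ty v ∈ s.2))).congr (Filter.Eventually.of_forall fun g => ?_)
  exact Iff.rfl

theorem dec_wOut (h : Act t) (S : Node → Set P) (v : ℕ →₀ K) :
    Dec (fun g => t.1 ∈ g ∧ WOut t g (ev S g) v) := by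
  have h1 : ∀ S' : Node → Set P, Dec (fun g => WIn (ev S' g) v) := fun S' => by
    refine (dec_all (ι := Node) fun s => (dec_ev S' s).imp
      (dec_const (Hi s.1 v.support → ty v ∈ s.2))).congr (Filter.Eventually.of_forall fun g => ?_)
    exact Iff.rfl
  have h2 := dec_allCd h (T := fun Q g => Q ⊆ ev S g → ¬ WIn Q v)
    (fun S' => (semdec_sub_ev S' S).imp (h1 S').not)
  refine h2.congr (Filter.Eventually.of_forall fun g => ?_)
  exact Iff.rfl

end Pool.Agent.CIt
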