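import Pool.Agent.Lib_CI.IFace
import Pool.Agent.Lib_CI.PresG
import Pool.Agent.Lib_CI.SemDec
import Pool.Agent.Lib_CSI.PMain

/-!
# Piece CISUCC: the iterands preserve stable ordered-union ultrafilters
-/

set_option autoImplicit false

namespace Pool.Agent.CIt

open Pool.Agent.GGen Pool.Agent.HMod Pool.Agent.SOU Pool.Agent.SOUi Pool.Agent.CSI

variable {K : Type} [Field K] [DecidableEq K] [Countable K] (cd : Codes K)

/-- the conclusion of `PresAt` for the stage `δ`, `Z`, `p` -/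
def PresC (I : It) (α : Stg) (𝒰 : FN (Finset ℕ) I.C) (δ : Stg) (Z : Finset ℕ → Set I.C) (p : I.C) : Prop :=
  ∃ q, I.le δ q p ∧ ∃ S, I.InU α 𝒰 q S ∧
    ((∀ b r, I.le δ r q → (∃ c ∈ S b, I.le α r c) → ∃ s, I.le δ s r ∧ ∃ c ∈ Z b, I.le δ s c) ∨
     (∀ b r, I.le δ r q → (∃ c ∈ S b, I.le α r c) → ∀ c ∈ Z b, ¬ I.le δ r c))

/-- trivial coordinates. PROOF. `presAt_of_souAt` gives `PresAt α 𝒰 p₀ β`; apply it to `Z` and `p`; below `p` (at stage `β`) the orders of the stages `β` and `β + 1` are the same (`it_at_triv`, `le_add_one_iff`); take `glue β q p` for the `q` obtained. -/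
theorem succ_triv {β : Ordinal.{0}} (hβ : β ≠ 0) {α : Stg} (hα : α ≤ (β : Stg))
    {𝒰 : FN (Finset ℕ) (iter cd).C} {p₀ p : (iter cd).C} (h : (iter cd).SouAt α 𝒰 p₀)
    (h' : (iter cd).SouAt (β : Stg) ((iter cd).cutF α 𝒰) p₀) (Z : Finset ℕ → Set (iter cd).C)
    (hp : (iter cd).le ((β + 1 : Ordinal.{0}) : Stg) p p₀)
    (ht : ¬ ActI cd β ∨ Fo (P := (iter cd).PP (β : Stg)) p
      (fun g => ((cd.bk β).1 : (iter cd).PP (β : Stg)) ∉ g)) :
    PresC (iter cd) α 𝒰 ((β + 1 : Ordinal.{0}) : Stg) Z p := by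
  have hlt : (β : Stg) ≤ ((β + 1 : Ordinal.{0}) : Stg) :=
    le_of_lt (WithTop.coe_lt_coe.mpr (Order.lt_add_one_iff.mpr le_rfl))
  have htriv : ∀ s, (iter cd).le (β : Stg) s p → ∀ x y, (iter cd).At β s x y := by
    intro s hs x y
    refine it_at_triv cd hβ ?_ x y
    rcases ht with ht | ht
    · exact Or.inl ht
    · exact Or.inr (Fo.mono (P := (iter cd).PP (β : Stg)) ht hs)
  obtain ⟨q, hq, S, hS, halt⟩ := presAt_of_souAt hα h h' Z p ((iter cd).le_stage hlt hp)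
  have hgl : (iter cd).le (β : Stg) ((iter cd).glue (β : Stg) q p) q := glue_le_left
  have hg : (iter cd).le ((β + 1 : Ordinal.{0}) : Stg) ((iter cd).glue (β : Stg) q p) p :=
    glue_le hq
  refine ⟨(iter cd).glue (β : Stg) q p, hg, S, ?_, ?_⟩
  · exact Fo.mono (P := (iter cd).PP α) hS ((iter cd).le_stage hα hgl)
  · rcases halt with halt | halt
    · left
      intro b r hr hrc
      have hrq : (iter cd).le (β : Stg) r q :=
        (iter cd).le_trans' _ ((iter cd).le_stage hlt hr) hgl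
      obtain ⟨s, hs, c, hc, hsc⟩ := halt b r hrq hrc
      have hsp : (iter cd).le (β : Stg) s p :=
        (iter cd).le_trans' _ hs ((iter cd).le_trans' _ hrq hq)
      exact ⟨s, le_add_one_iff.2 ⟨hs, htriv s hsp _ _⟩, c, hc,
        le_add_one_iff.2 ⟨hsc, htriv s hsp _ _⟩⟩
    · right
      intro b r hr hrc c hc hrc'
      have hrq : (iter cd).le (β : Stg) r q :=
        (iter cd).le_trans' _ ((iter cd).le_stage hlt hr) hgl
      exact halt b r hrq hrc c hc ((iter cd).le_stage hlt hrc')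

/-- PROOF. Let `Z' b = {(c, dec (c β)) | c ∈ Z b}`, `𝒲 = cutF α 𝒰`. Take a good `g ∋ p` at stage `β`. `pres_g` for `S₀ = dec (p β)` gives `S` and a live `B = cutN α B'`, `(B', c) ∈ 𝒰`. The statement (of `g`) that `t.1 ∈ g`, `ev S g` is a condition `⊆ Ev (p β)`, `ev B g ∈ evF 𝒲 g` and the first (or the second) alternative of `pres_g` is decided
(`dec_isCdT`, `dec_evG`, `dec_frInG`, `dec_frOutG`, `dec_memEvF`, `dec_all` over the finite sets `b`), so it is forced by some `q₀ ∈ g`, `q₀ ≤_β p`. Let `y` be a code of `S` (`it_code_ev`) and `q = upd β q₀ y`: `q ≤_{β+1} p`. `InU α 𝒰 q B'` : `fo_res_down`, `res_evF`, `isRes_ev` (`dec_mem_evF`-like: `Dir` holds below `p₀`). FIRST ALTERNATIVE: let `r ≤_{β+1} q`, `r ≤_α c' ∈ B' b`; so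
`r ≤_β cut α c'` and `b ∈ ev B g` for `g ∋ r`. Take a good `g ∋ r`; `R = Ev (r β)` is a condition of the model, `R ⊆ Ev y = ev S g`. There are a condition `R' ⊆ R` and `c ∈ Z b` of the hull with `c ∈ g`, `R' ⊆ Ev (c β)`; `R' = ev S' g`; as in `prop_succ` some `s₀ ∈ g` below `r` and `c` forces `ev S' g` is a condition below `Ev (r β)`, `Ev (c β)`; `s = upd β s₀ y'`, `y'` a code of `S'`, is
below `r` and `c` at stage `β + 1`. SECOND ALTERNATIVE: let `r ≤_{β+1} q`, `r ≤_α c' ∈ B' b`, `c ∈ Z b`, `r ≤_{β+1} c`. In `g ∋ r` (good, with `c` in the hull) `R = Ev (r β) ⊆ ev S g` and `R ⊆ Ev (c β)`, so `ZQ`, contradiction to `FrOutG`. -/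
theorem succ_act (hK : ∃ a : K, a ≠ 0 ∧ a ≠ 1) {β : Ordinal.{0}} (hβ : β ≠ 0) {α : Stg}
    (hα : α ≤ (β : Stg)) {𝒰 : FN (Finset ℕ) (iter cd).C} {p₀ p : (iter cd).C}
    (h : (iter cd).SouAt α 𝒰 p₀) (h' : (iter cd).SouAt (β : Stg) ((iter cd).cutF α 𝒰) p₀)
    (Z : Finset ℕ → Set (iter cd).C) (hp : (iter cd).le ((β + 1 : Ordinal.{0}) : Stg) p p₀)
    (hact : ActI cd β) (ht : Fo (P := (iter cd).PP (β : Stg)) p
      (fun g => ((cd.bk β).1 : (iter cd).PP (β : Stg)) ∈ g)) :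
    PresC (iter cd) α 𝒰 ((β + 1 : Ordinal.{0}) : Stg) Z p := by
  have hlt : (β : Stg) ≤ ((β + 1 : Ordinal.{0}) : Stg) :=
    le_of_lt (WithTop.coe_lt_coe.mpr (Order.lt_add_one_iff.mpr le_rfl))
  have hactG : Act (P := (iter cd).PP (β : Stg)) (cd.bk β) := hact
  -- the value of a code of a name of a condition
  have hcode : ∀ (z : XX) (S' : Node → Set (iter cd).C) (g : GG ((iter cd).PP (β : Stg))),
      ev (P := (iter cd).PP (β : Stg)) (cd.dec z) g = ev (P := (iter cd).PP (β : Stg)) S' g →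
      ((cd.bk β).1 : (iter cd).PP (β : Stg)) ∈ g →
      IsCdT (tF (P := (iter cd).PP (β : Stg)) (cd.bk β) g)
        (ev (P := (iter cd).PP (β : Stg)) S' g) →
      Ev cd β g z = ev (P := (iter cd).PP (β : Stg)) S' g := by
    intro z S' g h1 h2 h3
    have h4 : EvG (P := (iter cd).PP (β : Stg)) (cd.bk β) (cd.dec z) g =
        ev (P := (iter cd).PP (β : Stg)) (cd.dec z) g :=
      evG_eq (P := (iter cd).PP (β : Stg)) hactG h2 (by rw [h1]; exact h3)
    exact h4.trans h1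
  -- the name of the pairs
  let Z' : Finset ℕ → Set ((iter cd).PP (β : Stg) × (Node → Set ((iter cd).PP (β : Stg)))) :=
    fun b => {w | ∃ c : (iter cd).C, c ∈ Z b ∧ w = (c, cd.dec (c.1 β))}
  -- the decided statements
  let CD : (Node → Set ((iter cd).PP (β : Stg))) → GG ((iter cd).PP (β : Stg)) → Prop :=
    fun S g => (((cd.bk β).1 : (iter cd).PP (β : Stg)) ∈ g ∧
      IsCdT (tF (P := (iter cd).PP (β : Stg)) (cd.bk β) g)
        (ev (P := (iter cd).PP (β : Stg)) S g)) ∧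
      ev (P := (iter cd).PP (β : Stg)) S g ⊆
        EvG (P := (iter cd).PP (β : Stg)) (cd.bk β) (cd.dec (p.1 β)) g
  have hCD : ∀ S, Dec (CD S) := fun S =>
    (dec_isCdT hactG (T := fun s g => s ∈ ev (P := (iter cd).PP (β : Stg)) S g)
      (fun s => dec_ev S s)).and
    (semdec_sub_evG (P := (iter cd).PP (β : Stg)) (cd.bk β) S (cd.dec (p.1 β)))
  let T1 : (Node → Set ((iter cd).PP (β : Stg))) → (Finset ℕ → Set ((iter cd).PP (β : Stg))) →
      GG ((iter cd).PP (β : Stg)) → Prop :=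
    fun S B g => CD S g ∧ ∀ b, b ∈ ev (P := (iter cd).PP (β : Stg)) B g →
      (((cd.bk β).1 : (iter cd).PP (β : Stg)) ∈ g ∧
        FrInG (P := (iter cd).PP (β : Stg)) (cd.bk β) Z' g b
          (ev (P := (iter cd).PP (β : Stg)) S g))
  let T2 : (Node → Set ((iter cd).PP (β : Stg))) → (Finset ℕ → Set ((iter cd).PP (β : Stg))) →
      GG ((iter cd).PP (β : Stg)) → Prop :=
    fun S B g => CD S g ∧ ∀ b, b ∈ ev (P := (iter cd).PP (β : Stg)) B g →
      (((cd.bk β).1 : (iter cd).PP (β : Stg)) ∈ g ∧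
        FrOutG (P := (iter cd).PP (β : Stg)) (cd.bk β) Z' g b
          (ev (P := (iter cd).PP (β : Stg)) S g))
  have hT1 : ∀ S B, Dec (T1 S B) := fun S B => (hCD S).and (dec_all fun b =>
    (dec_ev (P := (iter cd).PP (β : Stg)) B b).imp
      (dec_frInG (P := (iter cd).PP (β : Stg)) hactG Z' b S))
  have hT2 : ∀ S B, Dec (T2 S B) := fun S B => (hCD S).and (dec_all fun b =>
    (dec_ev (P := (iter cd).PP (β : Stg)) B b).imp
      (dec_frOutG (P := (iter cd).PP (β : Stg)) hactG Z' b S))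
  have hT1' : ∀ᶠ g in GC ((iter cd).PP (β : Stg)),
      ∀ S : Node → Set ((iter cd).PP (β : Stg)), g.has S →
      ∀ B : Finset ℕ → Set ((iter cd).PP (β : Stg)), g.has B → T1 S B g →
        ∃ n, Fo (g.gen.G n) (T1 S B) :=
    GC_normalH (P := (iter cd).PP (β : Stg)) fun S =>
      Dec.truthH (P := (iter cd).PP (β : Stg)) (hT1 S)
  have hT2' : ∀ᶠ g in GC ((iter cd).PP (β : Stg)),
      ∀ S : Node → Set ((iter cd).PP (β : Stg)), g.has S →
      ∀ B : Finset ℕ → Set ((iter cd).PP (β : Stg)), g.has B → T2 S B g →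
        ∃ n, Fo (g.gen.G n) (T2 S B) :=
    GC_normalH (P := (iter cd).PP (β : Stg)) fun S =>
      Dec.truthH (P := (iter cd).PP (β : Stg)) (hT2 S)
  have h'' : ∀ᶠ g in GC ((iter cd).PP (β : Stg)), (p₀ : (iter cd).PP (β : Stg)) ∈ g →
      Dir (P := (iter cd).PP (β : Stg)) ((iter cd).cutF α 𝒰) g ∧
        IsSOUi g.M (evF (P := (iter cd).PP (β : Stg)) ((iter cd).cutF α 𝒰) g) := h'
  have ht' : ∀ᶠ g in GC ((iter cd).PP (β : Stg)), (p : (iter cd).PP (β : Stg)) ∈ g →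
      ((cd.bk β).1 : (iter cd).PP (β : Stg)) ∈ g := ht
  have hpg := pres_g (P := (iter cd).PP (β : Stg)) hK hactG ((iter cd).cutF α 𝒰) Z'
  obtain ⟨g, ⟨g1, g2, g3, g4, g5, g6⟩, hpg⟩ := GC_exists' (P := (iter cd).PP (β : Stg))
    (hpg.and (h''.and (ht'.and (Filter.Eventually.and hT1' (Filter.Eventually.and hT2'
      (GC_has (P := (iter cd).PP (β : Stg)) (Y := Node → Set ((iter cd).PP (β : Stg)))
        (cd.dec (p.1 β))))))))
    (p : (iter cd).PP (β : Stg))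
  have hpβ : (iter cd).le (β : Stg) p p₀ := (iter cd).le_stage hlt hp
  have hp₀g : (p₀ : (iter cd).PP (β : Stg)) ∈ g :=
    mem_up (P := (iter cd).PP (β : Stg)) (p := p) (q := p₀) hpg hpβ
  have htg := g3 hpg
  obtain ⟨hD, hU⟩ := g2 hp₀g
  obtain ⟨S, B, hSh, hBl, hScd, hSsub, halt⟩ := g1 htg hD hU (cd.dec (p.1 β)) g6
  obtain ⟨hBh, c', hc', hc'g⟩ := hBl
  obtain ⟨⟨B', c⟩, hBc, he⟩ := hc'
  have he1 : (iter cd).cutN α B' = B := congrArg Prod.fst he
  have he2 : (iter cd).cut α c = c' := congrArg Prod.snd he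
  have hCDg : CD S g := ⟨⟨htg, hScd.2⟩, hSsub⟩
  obtain ⟨y, hy⟩ := it_code_ev cd (β := β) S
  -- the common part of the two alternatives
  have key : ∀ (TT : GG ((iter cd).PP (β : Stg)) → Prop), (∀ g, TT g → CD S g) →
      (∃ n, Fo (g.gen.G n) TT) →
      ∃ q₀ : (iter cd).C, Fo (P := (iter cd).PP (β : Stg)) q₀ TT ∧
        (iter cd).le ((β + 1 : Ordinal.{0}) : Stg) ((iter cd).upd β q₀ y) p ∧
        (iter cd).InU α 𝒰 ((iter cd).upd β q₀ y) B' := by
    rintro TT hTT ⟨n, hn⟩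
    obtain ⟨q₁, hq₁g, _, hq₁p, hq₁n⟩ := mem_common (P := (iter cd).PP (β : Stg)) hpg (G_mem g n)
    obtain ⟨q₀, _, _, hq₀1, hq₀c⟩ := mem_common (P := (iter cd).PP (β : Stg)) hq₁g hc'g
    have hf : Fo (P := (iter cd).PP (β : Stg)) q₀ TT :=
      Fo.mono (P := (iter cd).PP (β : Stg)) hn (hq₀1.trans hq₁n)
    refine ⟨q₀, hf, ?_, ?_⟩
    · rw [upd_le_iff]
      refine ⟨(iter cd).le_trans' _ hq₀1 hq₁p, ?_⟩
      rw [it_at cd hβ]
      filter_upwards [hf, hy] with g' h6 h7 h8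
      obtain ⟨⟨h9, h10⟩, h11⟩ := hTT g' (h6 h8)
      rw [hcode y S g' h7 h9 h10]
      exact h11
    · have h1 : (iter cd).le α q₀ c := by
        have h2 : (iter cd).le (β : Stg) q₀ c' := hq₀c
        rw [← he2] at h2
        exact (le_cut_iff hα).1 h2
      have h3 : (iter cd).le α ((iter cd).upd β q₀ y) c :=
        (iter cd).le_trans' _ ((iter cd).le_stage hα upd_le_left) h1
      show ∀ᶠ g' in GC ((iter cd).PP α), ((iter cd).upd β q₀ y : (iter cd).PP α) ∈ g' → _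
      filter_upwards [GC_has (P := (iter cd).PP α) (Y := Finset ℕ → Set ((iter cd).PP α)) B']
        with g' h4 h5
      refine Filter.GenerateSets.basic ⟨B', ⟨h4, c, hBc, ?_⟩, rfl⟩
      exact mem_up (P := (iter cd).PP α) h5 h3
  -- membership of `b` in the value of `B`
  have hbB : ∀ (g' : GG ((iter cd).PP (β : Stg))) (b : Finset ℕ) (r : (iter cd).C),
      (r : (iter cd).PP (β : Stg)) ∈ g' → (∃ c ∈ B' b, (iter cd).le α r c) →
      b ∈ ev (P := (iter cd).PP (β : Stg)) B g' := by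
    rintro g' b r hr ⟨c₁, hc₁, hrc₁⟩
    rw [← he1]
    refine ⟨(iter cd).cut α c₁, ⟨c₁, hc₁, rfl⟩, ?_⟩
    have h1 : (iter cd).le (β : Stg) r ((iter cd).cut α c₁) := le_cut_of_le hrc₁
    exact mem_up (P := (iter cd).PP (β : Stg)) hr h1
  rcases halt with halt | halt
  · obtain ⟨q₀, hq₀, hqp, hqU⟩ := key (T1 S B) (fun g' hg' => hg'.1)
      (g4 S hSh B hBh ⟨hCDg, fun b hb => ⟨htg, halt b hb⟩⟩)
    refine ⟨(iter cd).upd β q₀ y, hqp, B', hqU, Or.inl ?_⟩
    intro b r hr hrB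
    obtain ⟨hrq, hry⟩ := le_upd_iff.1 hr
    have hry' : ∀ᶠ g in GC ((iter cd).PP (β : Stg)), (r : (iter cd).PP (β : Stg)) ∈ g →
        Ev cd β g (r.1 β) ⊆ Ev cd β g y := (it_at cd hβ _ _ _).1 hry
    have hq₀' : ∀ᶠ g in GC ((iter cd).PP (β : Stg)), (q₀ : (iter cd).PP (β : Stg)) ∈ g →
        T1 S B g := hq₀
    let T3 : ((iter cd).PP (β : Stg) × (Node → Set ((iter cd).PP (β : Stg)))) →
        (Node → Set ((iter cd).PP (β : Stg))) → GG ((iter cd).PP (β : Stg)) → Prop :=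
      fun w S' g => (((cd.bk β).1 : (iter cd).PP (β : Stg)) ∈ g ∧
        IsCdT (tF (P := (iter cd).PP (β : Stg)) (cd.bk β) g)
          (ev (P := (iter cd).PP (β : Stg)) S' g)) ∧
        (ev (P := (iter cd).PP (β : Stg)) S' g ⊆
          EvG (P := (iter cd).PP (β : Stg)) (cd.bk β) (cd.dec (r.1 β)) g ∧
        ev (P := (iter cd).PP (β : Stg)) S' g ⊆
          EvG (P := (iter cd).PP (β : Stg)) (cd.bk β) w.2 g)
    have hT3 : ∀ w S', Dec (T3 w S') := fun w S' =>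
      (dec_isCdT hactG (T := fun s g => s ∈ ev (P := (iter cd).PP (β : Stg)) S' g)
        (fun s => dec_ev S' s)).and
      ((semdec_sub_evG (P := (iter cd).PP (β : Stg)) (cd.bk β) S' (cd.dec (r.1 β))).and
        (semdec_sub_evG (P := (iter cd).PP (β : Stg)) (cd.bk β) S' w.2))
    have hT3' : ∀ᶠ g in GC ((iter cd).PP (β : Stg)),
        ∀ w : (iter cd).PP (β : Stg) × (Node → Set ((iter cd).PP (β : Stg))), g.has w →
        ∀ S' : Node → Set ((iter cd).PP (β : Stg)), g.has S' → T3 w S' g →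
          ∃ n, Fo (g.gen.G n) (T3 w S') :=
      GC_normalH (P := (iter cd).PP (β : Stg)) fun w =>
        Dec.truthH (P := (iter cd).PP (β : Stg)) (hT3 w)
    obtain ⟨g', ⟨a1, a2, a3, a4, a5, a6, a7⟩, hrg⟩ := GC_exists' (P := (iter cd).PP (β : Stg))
      (hq₀'.and (hy.and (Filter.Eventually.and hry'
        ((evG_cd (P := (iter cd).PP (β : Stg)) hactG).and
        ((cd_rep (P := (iter cd).PP (β : Stg)) hactG).and (Filter.Eventually.and hT3'
          (GC_has (P := (iter cd).PP (β : Stg)) (Y := Node → Set ((iter cd).PP (β : Stg)))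
            (cd.dec (r.1 β)))))))))
      (r : (iter cd).PP (β : Stg))
    have hq₀g : (q₀ : (iter cd).PP (β : Stg)) ∈ g' :=
      mem_up (P := (iter cd).PP (β : Stg)) (p := r) (q := q₀) hrg hrq
    obtain ⟨⟨⟨htg', hcd'⟩, _⟩, hfr⟩ := a1 hq₀g
    obtain ⟨_, hfr'⟩ := hfr b (hbB g' b r hrg hrB)
    have hR : CdG (P := (iter cd).PP (β : Stg)) (cd.bk β) g' (Ev cd β g' (r.1 β)) :=
      a4 htg' _ a7
    have hRS : Ev cd β g' (r.1 β) ⊆ ev (P := (iter cd).PP (β : Stg)) S g' := by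
      have h5 := a3 hrg
      rw [hcode y S g' a2 htg' hcd'] at h5
      exact h5
    obtain ⟨R', hR'1, hR'2, w, ⟨c₂, hc₂Z, rfl⟩, hwh, hc₂g, hR'3⟩ := hfr' _ hR hRS
    obtain ⟨S', hS'h, hS'e, _⟩ := a5 htg' R' hR'1
    obtain ⟨n, hn⟩ := a6 _ hwh S' hS'h ⟨⟨htg', by rw [hS'e]; exact hR'1.2⟩,
      by rw [hS'e]; exact hR'2, by rw [hS'e]; exact hR'3⟩
    obtain ⟨s₁, hs₁g, _, hs₁r, hs₁n⟩ := mem_common (P := (iter cd).PP (β : Stg)) hrg (G_mem g' n)
    obtain ⟨s₀, _, _, hs₀1, hs₀c⟩ := mem_common (P := (iter cd).PP (β : Stg)) hs₁g hc₂g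
    obtain ⟨y', hy'⟩ := it_code_ev cd (β := β) S'
    have hf : Fo (P := (iter cd).PP (β : Stg)) s₀
        (T3 ((c₂ : (iter cd).PP (β : Stg)), cd.dec (c₂.1 β)) S') :=
      Fo.mono (P := (iter cd).PP (β : Stg)) hn (hs₀1.trans hs₁n)
    refine ⟨(iter cd).upd β s₀ y', ?_, c₂, hc₂Z, ?_⟩
    · rw [upd_le_iff]
      refine ⟨(iter cd).le_trans' _ hs₀1 hs₁r, ?_⟩
      rw [it_at cd hβ]
      filter_upwards [hf, hy'] with g₂ h6 h7 h8
      obtain ⟨⟨h9, h10⟩, h11, h12⟩ := h6 h8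
      rw [hcode y' S' g₂ h7 h9 h10]
      exact h11
    · rw [upd_le_iff]
      refine ⟨hs₀c, ?_⟩
      rw [it_at cd hβ]
      filter_upwards [hf, hy'] with g₂ h6 h7 h8
      obtain ⟨⟨h9, h10⟩, h11, h12⟩ := h6 h8
      rw [hcode y' S' g₂ h7 h9 h10]
      exact h12
  · obtain ⟨q₀, hq₀, hqp, hqU⟩ := key (T2 S B) (fun g' hg' => hg'.1)
      (g5 S hSh B hBh ⟨hCDg, fun b hb => ⟨htg, halt b hb⟩⟩)
    refine ⟨(iter cd).upd β q₀ y, hqp, B', hqU, Or.inr ?_⟩
    intro b r hr hrB c₂ hc₂Z hrc₂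
    obtain ⟨hrq, hry⟩ := le_upd_iff.1 hr
    obtain ⟨hrc, hrcβ⟩ := le_add_one_iff.1 hrc₂
    have hry' : ∀ᶠ g in GC ((iter cd).PP (β : Stg)), (r : (iter cd).PP (β : Stg)) ∈ g →
        Ev cd β g (r.1 β) ⊆ Ev cd β g y := (it_at cd hβ _ _ _).1 hry
    have hrc' : ∀ᶠ g in GC ((iter cd).PP (β : Stg)), (r : (iter cd).PP (β : Stg)) ∈ g →
        Ev cd β g (r.1 β) ⊆ Ev cd β g (c₂.1 β) := (it_at cd hβ _ _ _).1 hrcβ
    have hq₀' : ∀ᶠ g in GC ((iter cd).PP (β : Stg)), (q₀ : (iter cd).PP (β : Stg)) ∈ g →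
        T2 S B g := hq₀
    obtain ⟨g', ⟨a1, a2, a3, a4, a5, a6, a7⟩, hrg⟩ := GC_exists' (P := (iter cd).PP (β : Stg))
      (hq₀'.and (hy.and (Filter.Eventually.and hry' (Filter.Eventually.and hrc'
        ((evG_cd (P := (iter cd).PP (β : Stg)) hactG).and
          ((GC_has (P := (iter cd).PP (β : Stg)) (Y := Node → Set ((iter cd).PP (β : Stg)))
            (cd.dec (r.1 β))).and
          (GC_has (P := (iter cd).PP (β : Stg))
            (Y := (iter cd).PP (β : Stg) × (Node → Set ((iter cd).PP (β : Stg))))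
            ((c₂ : (iter cd).PP (β : Stg)), cd.dec (c₂.1 β)))))))))
      (r : (iter cd).PP (β : Stg))
    have hq₀g : (q₀ : (iter cd).PP (β : Stg)) ∈ g' :=
      mem_up (P := (iter cd).PP (β : Stg)) (p := r) (q := q₀) hrg hrq
    obtain ⟨⟨⟨htg', hcd'⟩, _⟩, hfr⟩ := a1 hq₀g
    obtain ⟨_, hfr'⟩ := hfr b (hbB g' b r hrg hrB)
    have hR : CdG (P := (iter cd).PP (β : Stg)) (cd.bk β) g' (Ev cd β g' (r.1 β)) :=
      a5 htg' _ a6
    have hRS : Ev cd β g' (r.1 β) ⊆ ev (P := (iter cd).PP (β : Stg)) S g' := by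
      have h5 := a3 hrg
      rw [hcode y S g' a2 htg' hcd'] at h5
      exact h5
    refine hfr' _ hR hRS ⟨((c₂ : (iter cd).PP (β : Stg)), cd.dec (c₂.1 β)), ⟨c₂, hc₂Z, rfl⟩, a7,
      ?_, a4 hrg⟩
    exact mem_up (P := (iter cd).PP (β : Stg)) (p := r) (q := c₂) hrg hrc

/-- PROOF. Given `Z`, `p`; extend `p` (at stage `β`, then `glue`) to decide `t.1 ∈ g` (`dec_mem`). -/
theorem iter_succPres (hK : ∃ a : K, a ≠ 0 ∧ a ≠ 1) : (iter cd).SuccPres 1 := by
  intro β hβ1 α _ hα 𝒰 p₀ h h' Z p hp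
  have hβ : β ≠ 0 := by
    rintro rfl
    exact absurd hβ1 (not_le.2 zero_lt_one)
  by_cases hact : ActI cd β
  swap
  · exact succ_triv cd hβ hα h h' Z hp (Or.inl hact)
  obtain ⟨q, hq, hqt⟩ := dec_mem (P := (iter cd).PP (β : Stg)) (cd.bk β).1 p
  have hgl : (iter cd).le (β : Stg) ((iter cd).glue (β : Stg) q p) q := glue_le_left
  have hg : (iter cd).le ((β + 1 : Ordinal.{0}) : Stg) ((iter cd).glue (β : Stg) q p) p :=
    glue_le hq
  have hC : PresC (iter cd) α 𝒰 ((β + 1 : Ordinal.{0}) : Stg) Z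
      ((iter cd).glue (β : Stg) q p) := by
    rcases hqt with hqt | hqt
    · exact succ_act cd hK hβ hα h h' Z ((iter cd).le_trans' _ hg hp) hact
        (Fo.mono (P := (iter cd).PP (β : Stg)) hqt hgl)
    · exact succ_triv cd hβ hα h h' Z ((iter cd).le_trans' _ hg hp)
        (Or.inr (Fo.mono (P := (iter cd).PP (β : Stg)) hqt hgl))
  obtain ⟨q', hq', S, hS⟩ := hC
  exact ⟨q', (iter cd).le_trans' _ hq' hg, S, hS⟩

end Pool.Agent.CIt
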