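import Pool.Agent.Lib_GG.Filt
import Pool.Agent.Lib_MP_a0d45a_int.USFi

/-!
# Piece CISUPP: the name of the support ultrafilter
-/

set_option autoImplicit false

namespace Pool.Agent.CIt

open Pool.Agent.GGen Pool.Agent.HMod Pool.Agent.SOU Pool.Agent.SOUi

universe u

variable {K : Type} [Field K] [DecidableEq K] [Countable K] {P : Type u} [Preorder P] [OrderTop P]

/-- the image of a shallow name under the support map -/
def suppS (X : (ℕ →₀ K) → Set P) : Finset ℕ → Set P := fun b => {c | ∃ v, v.support = b ∧ c ∈ X v}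

/-- the name of the image of the filter under the support map -/
def suppN (𝓕 : FN (ℕ →₀ K) P) : FN (Finset ℕ) P := (fun q => (suppS q.1, q.2)) '' 𝓕

omit [DecidableEq K] [Countable K] in
theorem ev_suppS (X : (ℕ →₀ K) → Set P) (g : GG P) :
    ev (suppS X) g = Finsupp.support '' ev X g := by
  ext b
  constructor
  · rintro ⟨c, ⟨v, hv, hc⟩, hg⟩
    exact ⟨v, ⟨c, hc, hg⟩, hv⟩
  · rintro ⟨v, ⟨c, hc, hg⟩, hv⟩
    exact ⟨c, ⟨v, hv, hc⟩, hg⟩

open Classical in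
/-- choice of a preimage -/
noncomputable def suppF (𝓕 : FN (ℕ →₀ K) P) (Y : Finset ℕ → Set P) (p : P) : (ℕ →₀ K) → Set P :=
  if h : ∃ X, ∃ c, (X, c) ∈ 𝓕 ∧ p ≤ c ∧ suppS X = Y then h.choose else fun _ => ∅

omit [DecidableEq K] [Countable K] in
theorem suppF_spec {𝓕 : FN (ℕ →₀ K) P} {Y : Finset ℕ → Set P} {p : P}
    (h : ∃ X, ∃ c, (X, c) ∈ 𝓕 ∧ p ≤ c ∧ suppS X = Y) :
    ∃ c, (suppF 𝓕 Y p, c) ∈ 𝓕 ∧ p ≤ c ∧ suppS (suppF 𝓕 Y p) = Y := by
  have h1 : suppF 𝓕 Y p = h.choose := dif_pos h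
  rw [h1]
  exact h.choose_spec

/-- PROOF. `ev (suppS X) g = support '' ev X g`. A live member of `suppN 𝓕` is `suppS X` with `(X, c) ∈ 𝓕`, `c ∈ g`; an `X` in the hull can be found: choose `X` by an operation from `suppS X` and a condition of the sequence below `c`. -/
theorem suppN_evF (𝓕 : FN (ℕ →₀ K) P) : ∀ᶠ g in GC P, Dir 𝓕 g →
    Dir (suppN 𝓕) g ∧ evF (suppN 𝓕) g = (evF 𝓕 g).map Finsupp.support := by
  filter_upwards [GC_op (P := P) (suppS (K := K) (P := P)), GC_op2 (P := P) (suppF 𝓕)]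
    with g h1 h2 hD
  have ha : ∀ X, Live 𝓕 g X → Live (suppN 𝓕) g (suppS X) := by
    rintro X ⟨hX, c, hc, hg⟩
    exact ⟨h1 X hX, c, ⟨(X, c), hc, rfl⟩, hg⟩
  have hb : ∀ Y, Live (suppN 𝓕) g Y → ∃ X, Live 𝓕 g X ∧ suppS X = Y := by
    rintro Y ⟨hY, c, ⟨⟨X, c'⟩, hc, he⟩, n, hn⟩
    have e1 : suppS X = Y := congrArg Prod.fst he
    have e2 : c' = c := congrArg Prod.snd he
    subst e2
    obtain ⟨c'', h3, h4, h5⟩ := suppF_spec ⟨X, c', hc, hn, e1⟩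
    exact ⟨suppF 𝓕 Y (g.gen.G n), ⟨h2 Y _ hY (g.cond n), c'', h3, n, h4⟩, h5⟩
  have hD' : Dir (suppN 𝓕) g := by
    constructor
    · obtain ⟨X, hX⟩ := hD.1
      exact ⟨suppS X, ha X hX⟩
    · intro Y Y' hY hY'
      obtain ⟨X, hX, rfl⟩ := hb Y hY
      obtain ⟨X', hX', rfl⟩ := hb Y' hY'
      obtain ⟨Z, hZ, hZ'⟩ := hD.2 X X' hX hX'
      refine ⟨suppS Z, ha Z hZ, ?_⟩
      rw [ev_suppS, ev_suppS, ev_suppS]
      exact Set.subset_inter (Set.image_mono fun v hv => (hZ' hv).1)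
        (Set.image_mono fun v hv => (hZ' hv).2)
  refine ⟨hD', ?_⟩
  ext S
  rw [mem_evF hD', Filter.mem_map, mem_evF hD]
  constructor
  · rintro ⟨Y, hY, hYS⟩
    obtain ⟨X, hX, rfl⟩ := hb Y hY
    refine ⟨X, hX, ?_⟩
    rw [ev_suppS] at hYS
    exact Set.image_subset_iff.1 hYS
  · rintro ⟨X, hX, hXS⟩
    refine ⟨suppS X, ha X hX, ?_⟩
    rw [ev_suppS]
    exact Set.image_subset_iff.2 hXS

end Pool.Agent.CIt
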