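import Pool.Agent.Lib_CI.ReflB
import Pool.Agent.Lib_CI.Supp
import Pool.Agent.Lib_CSI.PMain
import Pool.Agent.Lib_MP_a0d45a_int.KillKi

/-!
# Piece CIUP: the reflected filter at the last stage and at the later stages
-/

set_option autoImplicit false

namespace Pool.Agent.CIt

open Pool.Agent.GGen Pool.Agent.HMod Pool.Agent.SOU Pool.Agent.SOUi Pool.Agent.CSI

variable {K : Type} [Field K] [DecidableEq K] [Countable K] (cd : Codes K)
  {p : (iter cd).C} {𝓕 : FN (ℕ →₀ K) (iter cd).C}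

/-! ### auxiliary lemmas -/

omit [DecidableEq K] [Countable K] in
/-- the values at two good generics of the same stage with the same hull and sequence -/
theorem up_same {I : It} {δ : Stg} {g g' : GG (I.PP δ)} (hr : I.IsRes g g')
    (𝓕 : FN (ℕ →₀ K) I.C) :
    evF (P := I.PP δ) 𝓕 g = evF (P := I.PP δ) 𝓕 g' ∧
      (Dir (P := I.PP δ) 𝓕 g ↔ Dir (P := I.PP δ) 𝓕 g') := by
  have hm : ∀ c : I.C, (c : I.PP δ) ∈ g ↔ (c : I.PP δ) ∈ g' := by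
    intro c
    have e : ∀ n, (g'.gen.G n : I.C) = g.gen.G n := fun n => congrFun hr.2 n
    constructor
    · rintro ⟨n, hn⟩
      refine ⟨n, ?_⟩
      show I.le δ (g'.gen.G n : I.C) c
      rw [e n]
      exact hn
    · rintro ⟨n, hn⟩
      refine ⟨n, ?_⟩
      have hn' : I.le δ (g'.gen.G n : I.C) c := hn
      rw [e n] at hn'
      exact hn'
  have he : ∀ X : (ℕ →₀ K) → Set I.C, ev (P := I.PP δ) X g = ev (P := I.PP δ) X g' := by
    intro X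
    ext v
    constructor
    · rintro ⟨c, hc, hg⟩
      exact ⟨c, hc, (hm c).1 hg⟩
    · rintro ⟨c, hc, hg⟩
      exact ⟨c, hc, (hm c).2 hg⟩
  have hl : ∀ X, Live (P := I.PP δ) 𝓕 g X ↔ Live (P := I.PP δ) 𝓕 g' X := by
    intro X
    constructor
    · rintro ⟨h1, c, hc, hg⟩
      exact ⟨(isRes_has hr X).2 h1, c, hc, (hm c).1 hg⟩
    · rintro ⟨h1, c, hc, hg⟩
      exact ⟨(isRes_has hr X).1 h1, c, hc, (hm c).2 hg⟩
  constructor
  · unfold evF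
    congr 1
    ext S
    constructor
    · rintro ⟨X, hX, rfl⟩
      exact ⟨X, (hl X).1 hX, he X⟩
    · rintro ⟨X, hX, rfl⟩
      exact ⟨X, (hl X).2 hX, (he X).symm⟩
  · constructor
    · rintro ⟨⟨X, hX⟩, h4⟩
      refine ⟨⟨X, (hl X).1 hX⟩, fun X₁ X₂ hX₁ hX₂ => ?_⟩
      obtain ⟨Z, hZ, hZ'⟩ := h4 _ _ ((hl X₁).2 hX₁) ((hl X₂).2 hX₂)
      refine ⟨Z, (hl Z).1 hZ, ?_⟩
      rw [← he, ← he, ← he]
      exact hZ'
    · rintro ⟨⟨X, hX⟩, h4⟩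
      refine ⟨⟨X, (hl X).2 hX⟩, fun X₁ X₂ hX₁ hX₂ => ?_⟩
      obtain ⟨Z, hZ, hZ'⟩ := h4 _ _ ((hl X₁).1 hX₁) ((hl X₂).1 hX₂)
      refine ⟨Z, (hl Z).2 hZ, ?_⟩
      rw [he, he, he]
      exact hZ'

/-- the value of the reflected filter at the stages from `β` on -/
theorem up_evF (β : Ordinal.{0}) {γ : Stg} (hγ : (β : Stg) ≤ γ) :
    ∀ᶠ g in GC ((iter cd).PP ⊤),
      evF (P := (iter cd).PP ⊤) (FR cd p 𝓕 β) g =
        evF (P := (iter cd).PP γ) (FR cd p 𝓕 β) ((iter cd).res γ g) ∧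
      (Dir (P := (iter cd).PP ⊤) (FR cd p 𝓕 β) g ↔
        Dir (P := (iter cd).PP γ) (FR cd p 𝓕 β) ((iter cd).res γ g)) := by
  induction γ using WithTop.recTopCoe with
  | top =>
    filter_upwards [res_club (I := iter cd) (α := ⊤) (δ := ⊤) le_rfl
      (Filter.Eventually.of_forall (f := GC ((iter cd).PP ⊤)) fun _ => trivial)] with g h1
    exact up_same h1.1 _
  | coe c =>
    refine evF_bd (cd := cd) (β := c) (δ := ⊤) le_top ?_
    intro q hq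
    have h1 := fr_bd cd (p := p) (𝓕 := 𝓕) β q hq
    have h2 : β ≤ c := WithTop.coe_le_coe.1 hγ
    exact ⟨fun i x hx => bdC_mono h2 (h1.1 i x hx), bdC_mono h2 h1.2⟩

/-- a base of blocks of the stage `γ` -/
theorem up_base (hI : (iter cd).Proper) (hp : PPAt cd ⊤ 𝓕 p)
    {β : Ordinal.{0}} (hβ : RPt cd p 𝓕 β) {γ : Stg} (hγ : (β : Stg) ≤ γ) :
    ∀ᶠ g in GC ((iter cd).PP ⊤), (p : (iter cd).PP ⊤) ∈ g →
      ∀ S ∈ evF (P := (iter cd).PP ⊤) (FR cd p 𝓕 β) g,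
        ∃ X : ℕ → ℕ →₀ K, IntF ((iter cd).res γ g).M X ∧ Blk X ∧
          bs X ∈ evF (P := (iter cd).PP ⊤) (FR cd p 𝓕 β) g ∧ bs X ⊆ S := by
  filter_upwards [fr_ppb cd hI hp hβ, up_evF cd (p := p) (𝓕 := 𝓕) β (γ := (β : Stg)) le_rfl,
    res_club (I := iter cd) (α := (β : Stg)) (δ := ⊤) le_top
      (rep_fun (P := (iter cd).PP (β : Stg)) (ι := ℕ) (ι' := ℕ →₀ K)),
    res_club (I := iter cd) (α := γ) (δ := ⊤) le_top
      (int_ev (P := (iter cd).PP γ) (ι := ℕ × (ℕ →₀ K))),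
    GC_op (P := (iter cd).PP ⊤) (fun X : ℕ × (ℕ →₀ K) → Set (iter cd).C =>
      (iter cd).cutN (β : Stg) X)] with g h1 h2 h3 h4 h5
  intro hpg S hS
  rw [h2.1] at hS
  obtain ⟨X, hX, hXb, hXF, hXS⟩ := (h1 hpg).base S hS
  refine ⟨X, ?_, hXb, ?_, hXS⟩
  · obtain ⟨hr, h6⟩ := h3
    obtain ⟨hr', h7⟩ := h4
    obtain ⟨B, hB, hBX⟩ := h6 X hX
    have hrr : (iter cd).IsRes ((iter cd).res γ g) ((iter cd).res (β : Stg) g) :=
      ⟨hr.1.trans hr'.1.symm, hr.2.trans hr'.2.symm⟩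
    have h8 := h7 _ ((isRes_has hr' _).2 (h5 B ((isRes_has hr B).1 hB)))
    rw [isRes_ev hγ hrr B, hBX] at h8
    exact ⟨h8⟩
  · rw [h2.1]
    exact hXF

/-- the sequences of the restriction to the last stage -/
theorem up_topM : ∀ᶠ g in GC ((iter cd).PP ⊤), ∀ X : ℕ → ℕ →₀ K,
    IntF ((iter cd).res (⊤ : Stg) g).M X → IntF g.M X :=
  res_intF (I := iter cd) (ι := ℕ) (ι' := ℕ →₀ K) (α := ⊤) (δ := ⊤) le_rfl

/-- PROOF. `fr_pp`, `suppN_evF`, `US_sou_i` -/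
theorem fr_sou (hI : (iter cd).Proper) (hp : PPAt cd ⊤ 𝓕 p) {β : Ordinal.{0}}
    (hβ : RPt cd p 𝓕 β) : (iter cd).SouAt (β : Stg) (suppN (FR cd p 𝓕 β)) p := by
  have h1 : ∀ᶠ g in GC ((iter cd).PP (β : Stg)), (p : (iter cd).PP (β : Stg)) ∈ g →
      Dir (P := (iter cd).PP (β : Stg)) (FR cd p 𝓕 β) g ∧
        IsPPlusi g.M (evF (P := (iter cd).PP (β : Stg)) (FR cd p 𝓕 β) g) := fr_pp cd hI hp hβ
  show ∀ᶠ g in GC ((iter cd).PP (β : Stg)), (p : (iter cd).PP (β : Stg)) ∈ g → _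
  filter_upwards [h1, suppN_evF (P := (iter cd).PP (β : Stg)) (FR cd p 𝓕 β),
    GC_club (P := (iter cd).PP (β : Stg)) (club_Std K)] with g h2 h3 h4 hg
  have h5 := h2 hg
  have h6 := h3 h5.1
  refine ⟨h6.1, ?_⟩
  have h7 : IsSOUi g.M (evF (P := (iter cd).PP (β : Stg))
      (suppN (P := (iter cd).PP (β : Stg)) (FR cd p 𝓕 β)) g) := by
    rw [h6.2]
    exact US_sou_i h5.2
  exact h7

/-- PROOF. By `preservation` (`α = β ≥ 1`, since `β` is of uncountable cofinality; `δ = ⊤`) `p` forces at the last stage that `evF (cutF β (suppN (FR β))) g` is a stable ordered-union ultrafilter of `g.M`; by `res_evF`, `evF_bd` it is the image of `evF (FR β) g` under the support map. Apply `eq_of_full_i` to `evF (FR β) g` (base: from `IsPPlusi (res β g).M ..` and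
`res_intF`) and `evF 𝓕 g` (`fr_le`). -/
theorem fr_eq (hI : (iter cd).Proper) (hS : (iter cd).SuccPres 1) (hp : PPAt cd ⊤ 𝓕 p)
    {β : Ordinal.{0}} (hβ : RPt cd p 𝓕 β) : Fo (P := (iter cd).PP ⊤) p (fun g =>
      evF (P := (iter cd).PP ⊤) 𝓕 g = evF (P := (iter cd).PP ⊤) (FR cd p 𝓕 β) g) := by
  have h1β : ((1 : Ordinal.{0}) : Stg) ≤ (β : Stg) := by
    obtain ⟨γ, hγ, _⟩ := hβ.ucof ∅ Set.countable_empty (by simp)
    have h1 : γ < β := WithTop.coe_lt_coe.1 hγ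
    refine WithTop.coe_le_coe.2 ?_
    exact Order.one_le_iff_pos.2 (lt_of_le_of_lt zero_le h1)
  have h1 : ∀ᶠ g in GC ((iter cd).PP ⊤), (p : (iter cd).PP ⊤) ∈ g →
      Dir (P := (iter cd).PP ⊤) ((iter cd).cutF (β : Stg) (suppN (FR cd p 𝓕 β))) g ∧
        IsSOUi g.M (evF (P := (iter cd).PP ⊤)
          ((iter cd).cutF (β : Stg) (suppN (FR cd p 𝓕 β))) g) :=
    (preservation (δ := ⊤) hI hS h1β le_top (fr_sou cd hI hp hβ)).2
  have h2 : ∀ᶠ g in GC ((iter cd).PP ⊤), (p : (iter cd).PP ⊤) ∈ g →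
      Dir (P := (iter cd).PP ⊤) 𝓕 g ∧ IsPPlusi g.M (evF (P := (iter cd).PP ⊤) 𝓕 g) := hp
  have h3 : ∀ᶠ g in GC ((iter cd).PP ⊤), (p : (iter cd).PP ⊤) ∈ g →
      evF (P := (iter cd).PP ⊤) 𝓕 g ≤ evF (P := (iter cd).PP ⊤) (FR cd p 𝓕 β) g :=
    fr_le cd hI hp hβ
  show ∀ᶠ g in GC ((iter cd).PP ⊤), (p : (iter cd).PP ⊤) ∈ g → _
  filter_upwards [h1, h2, h3,
    res_evF (I := iter cd) (α := (β : Stg)) (δ := ⊤) le_top (suppN (FR cd p 𝓕 β)),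
    res_club (I := iter cd) (α := (β : Stg)) (δ := ⊤) le_top
      (suppN_evF (P := (iter cd).PP (β : Stg)) (FR cd p 𝓕 β)),
    fr_dir cd hI hp hβ, up_evF cd (p := p) (𝓕 := 𝓕) β (γ := (β : Stg)) le_rfl,
    up_base cd hI hp hβ (γ := ⊤) le_top,
    GC_club (P := (iter cd).PP ⊤) (club_Std K),
    up_topM cd] with g g1 g2 g3 g4 g5 g6 g7 g8 g9 g10 hg
  have hD := (g6 hg).1
  have e2 : evF (P := (iter cd).PP (β : Stg)) (suppN (P := (iter cd).C) (FR cd p 𝓕 β))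
      ((iter cd).res (β : Stg) g) = (evF (P := (iter cd).PP (β : Stg)) (FR cd p 𝓕 β)
        ((iter cd).res (β : Stg) g)).map Finsupp.support := (g5.2 hD).2
  have e1 : evF (P := (iter cd).PP ⊤) ((iter cd).cutF (β : Stg) (suppN (FR cd p 𝓕 β))) g =
      (evF (P := (iter cd).PP ⊤) (FR cd p 𝓕 β) g).map Finsupp.support := by
    rw [g4.1, e2, g7.1]
  have hsou := (g1 hg).2
  rw [e1] at hsou
  refine eq_of_full_i (𝔐 := g.M) _ _ ?_ ?_ (g2 hg).2.toIsFulli (g3 hg)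
  · intro S hS
    obtain ⟨X, hX, hXb, hXF, hXS⟩ := g8 hg S hS
    exact ⟨X, g10 X hX, hXb, hXF, hXS⟩
  · intro Z hZ
    exact hsou.ultra Z hZ

/-- the stage `γ ≥ β` (a stage or `⊤`). PROOF. For `γ = ⊤` by `fr_eq`, `evF_bd` (`Dir`). For an ordinal `γ` : in a good generic `g ∋ p` of the last stage apply `ppb_down` to `𝔐 = g.M`, `𝔑 = (res γ g).M` (`ppb_iff`; `res_int`, `res_intF`), where the base `hb` is given by `fr_ppb` at the stage `β` : a block sequence `X` of `(res β g).M` has a name `B` in the hull (`rep_fun`), and its graph is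
`ev B (res β g) = ev (cutN β B) (res γ g)` (`isRes_ev`; `res γ g` and `res β g` have the same hull and sequence), so it is internal in `(res γ g).M`. `Dir` and `evF` : `evF_bd` at `⊤` and at `γ` (the values are the same as at `res β g`). Then `fo_res_down`, `dec_pp`. -/
theorem fr_later (hI : (iter cd).Proper) (hS : (iter cd).SuccPres 1) (hp : PPAt cd ⊤ 𝓕 p)
    {β : Ordinal.{0}} (hβ : RPt cd p 𝓕 β) {γ : Stg} (hγ : (β : Stg) ≤ γ) :
    PPAt cd γ (FR cd p 𝓕 β) p := by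
  refine fo_res_down (I := iter cd) (α := γ) (δ := ⊤) le_top
    (dec_pp (P := (iter cd).PP γ) (FR cd p 𝓕 β)) ?_
  have h1 : ∀ᶠ g in GC ((iter cd).PP ⊤), (p : (iter cd).PP ⊤) ∈ g →
      evF (P := (iter cd).PP ⊤) 𝓕 g = evF (P := (iter cd).PP ⊤) (FR cd p 𝓕 β) g :=
    fr_eq cd hI hS hp hβ
  have h2 : ∀ᶠ g in GC ((iter cd).PP ⊤), (p : (iter cd).PP ⊤) ∈ g →
      Dir (P := (iter cd).PP ⊤) 𝓕 g ∧ IsPPlusi g.M (evF (P := (iter cd).PP ⊤) 𝓕 g) := hp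
  show ∀ᶠ g in GC ((iter cd).PP ⊤), (p : (iter cd).PP ⊤) ∈ g → _
  filter_upwards [h1, h2, up_evF cd (p := p) (𝓕 := 𝓕) β hγ,
    up_evF cd (p := p) (𝓕 := 𝓕) β (γ := (β : Stg)) le_rfl, fr_dir cd hI hp hβ,
    up_base cd hI hp hβ hγ, GC_club (P := (iter cd).PP ⊤) (club_Std K),
    res_club (I := iter cd) (α := γ) (δ := ⊤) le_top
      (GC_club (P := (iter cd).PP γ) (club_Std K)),
    res_club (I := iter cd) (α := γ) (δ := ⊤) le_top
      (evF_isIFil (P := (iter cd).PP γ) (FR cd p 𝓕 β)),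
    res_int (I := iter cd) (ι := ℕ →₀ K) (α := γ) (δ := ⊤) le_top,
    res_intF (I := iter cd) (ι := ℕ) (ι' := ℕ →₀ K) (α := γ) (δ := ⊤) le_top,
    res_intF (I := iter cd) (ι := ℕ × ℕ) (ι' := ℕ →₀ K) (α := γ) (δ := ⊤) le_top]
    with g g1 g2 g3 g4 g5 g6 g7 g8 g9 g10 g11 g12 hg
  have hD : Dir (P := (iter cd).PP γ) (FR cd p 𝓕 β) ((iter cd).res γ g) :=
    g3.2.1 (g4.2.2 (g5 hg).1)
  refine ⟨hD, ?_⟩
  have hfil := g9.2 hD
  have hstd : Std ((iter cd).res γ g).M K := g8.2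
  rw [ppb_iff hfil, ← g3.1]
  have hpp := (g2 hg).2
  rw [ppb_iff hpp.fil, g1 hg] at hpp
  exact ppb_down hpp g10 g11 g12 (g6 hg)

/-- the filter `evF (FR β) g` has a base of blocks of the stage `γ`. PROOF. As in `fr_later`: `IsBlockFilteri.base` at `res γ g`. -/
theorem fr_base (hI : (iter cd).Proper) (hS : (iter cd).SuccPres 1) (hp : PPAt cd ⊤ 𝓕 p)
    {β : Ordinal.{0}} (hβ : RPt cd p 𝓕 β) {γ : Ordinal.{0}} (hγ : β ≤ γ) :
    Fo (P := (iter cd).PP ⊤) p (fun g => ∀ S ∈ evF (P := (iter cd).PP ⊤) (FR cd p 𝓕 β) g,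
      ∃ X : ℕ → ℕ →₀ K, IntF ((iter cd).res (γ : Stg) g).M X ∧ Blk X ∧
        bs X ∈ evF (P := (iter cd).PP (γ : Stg)) (FR cd p 𝓕 β) ((iter cd).res (γ : Stg) g) ∧
        bs X ∈ evF (P := (iter cd).PP ⊤) (FR cd p 𝓕 β) g ∧ bs X ⊆ S) := by
  show ∀ᶠ g in GC ((iter cd).PP ⊤), (p : (iter cd).PP ⊤) ∈ g → _
  filter_upwards [up_base cd hI hp hβ (γ := (γ : Stg)) (WithTop.coe_le_coe.2 hγ),
    up_evF cd (p := p) (𝓕 := 𝓕) β (γ := (γ : Stg)) (WithTop.coe_le_coe.2 hγ)] with g h1 h2 hg S hS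
  obtain ⟨X, hX, hXb, hXF, hXS⟩ := h1 hg S hS
  refine ⟨X, hX, hXb, ?_, hXF, hXS⟩
  rw [← h2.1]
  exact hXF

end Pool.Agent.CIt
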