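import Pool.Agent.Lib_CI.KillF
import Pool.Agent.Lib_CI.Up
import Pool.Agent.Lib_CI.PropB
import Pool.Agent.Lib_CI.SuccP
import Pool.Agent.Lib_CI.Base

/-!
# Piece CIFIN: the main theorem for the models `HM`
-/

set_option autoImplicit false

namespace Pool.Agent.CIt

open Pool.Agent.GGen Pool.Agent.HMod Pool.Agent.SOU Pool.Agent.SOUi Pool.Agent.CSI

variable {K : Type} [Field K] [DecidableEq K] [Countable K] (cd : Codes K)

/-- PROOF. `γ ≠ 0` (`RPt.ucof`). `ActI cd γ` by `fr_later` for the stage `γ`. Take a good generic `g ∋ p` of the last stage (`fo_exists`, `GC_exists'`); `F = evF (FR β) g` is a (p+)-filter of `g.M` (`fr_later` for `⊤`), `W = ev (WN γ) g` is internal in `g.M` (`int_ev`, `GC_has`). The hypotheses of `killK_i` : `fr_base` and `wn_in`, `wn_out`, `res_intF`. -/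
theorem kill_false (hK : ∃ a : K, a ≠ 0 ∧ a ≠ 1) (hI : (iter cd).Proper)
    (hS : (iter cd).SuccPres 1) {p : (iter cd).C} {𝓕 : FN (ℕ →₀ K) (iter cd).C}
    (hp : PPAt cd ⊤ 𝓕 p) {β γ : Ordinal.{0}} (hβ : RPt cd p 𝓕 β) (hγ : β ≤ γ)
    (hbk : cd.bk γ = (p, FR cd p 𝓕 β)) : False := by
  have hle : (γ : Stg) ≤ (⊤ : Stg) := le_top
  have hγ0 : γ ≠ 0 := by
    rintro rfl
    obtain ⟨δ, hδ, _⟩ := hβ.ucof ∅ Set.countable_empty (by simp)
    have h1 : δ < β := WithTop.coe_lt_coe.1 hδ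
    have h2 : β = 0 := le_antisymm hγ zero_le
    rw [h2] at h1
    exact absurd h1 (not_lt.2 zero_le)
  have hlat : PPAt cd (γ : Stg) (FR cd p 𝓕 β) p :=
    fr_later cd hI hS hp hβ (WithTop.coe_le_coe.2 hγ)
  have hact : ActI cd γ := by
    unfold ActI Act tF
    rw [hbk]
    exact hlat
  have hA := fr_base cd hI hS hp hβ hγ
  have hB := wn_in cd hγ0 hact
  have hC := wn_out cd hK hγ0 hact
  rw [hbk] at hB hC
  have hD : PPAt cd ⊤ (FR cd p 𝓕 β) p := fr_later cd hI hS hp hβ le_top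
  have hFalse : Fo (P := (iter cd).PP ⊤) p (fun _ => False) := by
    unfold PPAt at hD
    filter_upwards [hA, hB, hC, hD, res_intF (I := iter cd) (ι := ℕ) (ι' := ℕ →₀ K) hle,
      int_ev (P := (iter cd).PP ⊤) (ι := ℕ →₀ K), GC_has (P := (iter cd).PP ⊤) (WN cd γ),
      gc_std (K := K) (P := (iter cd).PP ⊤)] with g a1 a2 a3 a4 a5 a6 a7 a8 hpg
    have := a8
    refine killK_i (𝔐 := g.M) (evF (P := (iter cd).PP ⊤) (FR cd p 𝓕 β) g)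
      (a4 hpg).2.toIsFulli (ev (P := (iter cd).PP ⊤) (WN cd γ) g) (a6 _ a7) ?_ ?_
    · intro X _ _ hX
      obtain ⟨X', k1, k2, k3, _, k5⟩ := a1 hpg _ hX
      obtain ⟨y, hy1, hy2⟩ := a2 hpg X' k1 k2 k3
      exact ⟨y, k5 hy1, hy2⟩
    · intro X _ _ hX
      obtain ⟨X', k1, k2, k3, _, k5⟩ := a1 hpg _ hX
      obtain ⟨Z, hZ1, hZ2, hZ3, hZ4⟩ := a3 hpg X' k1 k2 k3
      exact ⟨Z, a5 Z hZ1, hZ2, hZ3.trans k5, fun v hv => hZ4 v hv⟩
  exact fo_false (P := (iter cd).PP ⊤) hFalse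

/-- PROOF. Suppose not. For club many `g` : `rep_fil`, and for all `𝓕` of the hull: if `Dir 𝓕 g ∧ IsPPlusi g.M (evF 𝓕 g)` then some `G n` forces it (`dec_pp`, `Dec.truthH` for `Y = FN ..`). So there are such a `g` and `F` (`Filter.Frequently`), `𝓕`, `p = G n` with `PPAt ⊤ 𝓕 p`. `exists_rpt` (for `α = 0`) gives `β`, `cd.bk_spec` for the task `(p, FR β)` (`fr_small`) gives `γ > β`. `kill_false`. -/
theorem no_pp (hK : ∃ a : K, a ≠ 0 ∧ a ≠ 1) :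
    ∀ᶠ g in GC ((iter cd).PP ⊤), ∀ F : Filter (ℕ →₀ K), ¬ IsPPlusi g.M F := by
  have hI := iter_proper cd hK
  have hS := iter_succPres cd hK
  have hno : ∀ (𝓕 : FN (ℕ →₀ K) (iter cd).C) (p : (iter cd).C), ¬ PPAt cd ⊤ 𝓕 p := by
    intro 𝓕 p hp
    obtain ⟨β, _, hβ⟩ := exists_rpt cd hI hp 0
    obtain ⟨h1, h2⟩ := fr_small cd (p := p) (𝓕 := 𝓕) β
    obtain ⟨γ, hγ, hbk⟩ := cd.bk_spec (p, FR cd p 𝓕 β) h1 h2 β
    exact kill_false cd hK hI hS hp hβ hγ.le hbk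
  have h1 : ∀ᶠ g in GC ((iter cd).PP ⊤), ∀ 𝓕 : FN (ℕ →₀ K) ((iter cd).PP ⊤), g.has 𝓕 →
      (Dir 𝓕 g ∧ IsPPlusi g.M (evF 𝓕 g)) →
        ∃ n, Fo (g.gen.G n) (fun g => Dir 𝓕 g ∧ IsPPlusi g.M (evF 𝓕 g)) :=
    Dec.truthH (P := (iter cd).PP ⊤) fun 𝓕 => dec_pp (P := (iter cd).PP ⊤) 𝓕
  filter_upwards [h1, rep_fil (P := (iter cd).PP ⊤) (ι := ℕ →₀ K)] with g k1 k2 F hF
  obtain ⟨𝓕, k3, k4, k5, _⟩ := k2 F hF.fil
  obtain ⟨n, hn⟩ := k1 𝓕 k3 ⟨k4, by rw [k5]; exact hF⟩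
  exact hno 𝓕 (g.gen.G n) hn

/-- `iter_base`, `preservation` for `α = 1`, `δ = ⊤`, `α₀ = 1` -/
theorem some_sou (hK : ∃ a : K, a ≠ 0 ∧ a ≠ 1) :
    ∀ᶠ g in GC ((iter cd).PP ⊤), ∃ U, IsSOUi g.M U := by
  have h := (preservation (I := iter cd) (iter_proper cd hK) (α₀ := 1) (iter_succPres cd hK)
    (α := ((1 : Ordinal.{0}) : Stg)) (δ := ⊤) le_rfl le_top (iter_base cd)).2
  have h' : ∀ᶠ g in GC ((iter cd).PP ⊤), ((iter cd).one : (iter cd).PP ⊤) ∈ g →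
      Dir (P := (iter cd).PP ⊤) ((iter cd).cutF ((1 : Ordinal.{0}) : Stg) (U0 cd)) g ∧
        IsSOUi g.M (evF (P := (iter cd).PP ⊤)
          ((iter cd).cutF ((1 : Ordinal.{0}) : Stg) (U0 cd)) g) := h
  filter_upwards [h'] with g hg
  exact ⟨_, (hg (top_mem g)).2⟩

omit cd in
/-- the main theorem. `T` is any property of club many models. The model of a good generic is countable (its elements are the classes of the names of the hull). -/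
theorem main_model (hK : ∃ a : K, a ≠ 0 ∧ a ≠ 1) {T : HM.{2} → Prop}
    (hT : ∀ᶠ 𝔐 in Club.{2}, T 𝔐) : ∃ 𝔐 : HM.{2}, T 𝔐 ∧ Countable 𝔐.M ∧ Std 𝔐 K ∧
      (∃ U, IsSOUi 𝔐 U) ∧ ∀ F : Filter (ℕ →₀ K), ¬ IsPPlusi 𝔐 F := by
  obtain ⟨cd⟩ := exists_codes K
  obtain ⟨g, ⟨⟨⟨h1, h2⟩, h3⟩, h4⟩, _⟩ := GC_exists' (P := (iter cd).PP ⊤)
    ((((GC_club (P := (iter cd).PP ⊤) hT).and (gc_std (K := K) (P := (iter cd).PP ⊤))).and
      (some_sou cd hK)).and (no_pp cd hK)) ((iter cd).one : (iter cd).PP ⊤)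
  refine ⟨g.M, h1, ?_, h2, h3, h4⟩
  have hN : Countable g.gen.N := g.gen.countable.to_subtype
  exact Function.Surjective.countable (f := g.gen.cls) fun x => g.gen.exists_rep x

end Pool.Agent.CIt
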