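import Pool.Agent.Lib_CI.Plain

/-!
# Transfer along bijections of the universe of a model
-/

set_option autoImplicit false

namespace Pool.Agent.SOUp

open Pool.Agent.Forcing Pool.Agent.SOU

universe v u

variable {M : Type v} {N : Type u} (e : N ≃ M) {E : M → M → Prop}

/-- the relation on `N` -/
def pull (E : M → M → Prop) : N → N → Prop := fun x y => E (e x) (e y)

theorem sat_pull (φ : Fml) (w : ℕ → N) : Sat (pull e E) φ w ↔ Sat E φ (fun i => e (w i)) := by
  induction φ generalizing w with
  | mem i j => exact Iff.rfl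
  | eq i j => exact e.injective.eq_iff.symm
  | neg φ ih => exact not_congr (ih w)
  | and φ ψ ih1 ih2 => exact and_congr (ih1 w) (ih2 w)
  | all i φ ih =>
    have key : ∀ x : N, (fun j => e (Function.update w i x j)) =
        Function.update (fun j => e (w j)) i (e x) := by
      intro x
      funext j
      by_cases h : j = i
      · subst h; simp
      · simp [h]
    constructor
    · intro h x
      have h1 := (ih _).1 (h (e.symm x))
      rw [key, e.apply_symm_apply] at h1
      exact h1
    · intro h x
      refine (ih _).2 ?_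
      rw [key]
      exact h (e x)

theorem sat_pull' (φ : Fml) (w : ℕ → N) (i : ℕ) (x : N) :
    Sat (pull e E) φ (Function.update w i x) ↔
      Sat E φ (Function.update (fun j => e (w j)) i (e x)) := by
  rw [sat_pull]
  have key : (fun j => e (Function.update w i x j)) =
      Function.update (fun j => e (w j)) i (e x) := by
    funext j
    by_cases h : j = i
    · subst h; simp
    · simp [h]
  rw [key]

theorem sat_pull2 (φ : Fml) (w : ℕ → N) (x y : N) :
    Sat (pull e E) φ (Function.update (Function.update w 0 x) 1 y) ↔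
      Sat E φ (Function.update (Function.update (fun j => e (w j)) 0 (e x)) 1 (e y)) := by
  rw [sat_pull']
  have key : (fun j => e (Function.update w 0 x j)) =
      Function.update (fun j => e (w j)) 0 (e x) := by
    funext j
    by_cases h : j = 0
    · subst h; simp
    · simp [h]
  rw [key]

theorem all_pull {p : M → Prop} : (∀ x, p x) ↔ ∀ x : N, p (e x) :=
  ⟨fun h x => h _, fun h x => by simpa using h (e.symm x)⟩

theorem ex_pull {p : M → Prop} : (∃ x, p x) ↔ ∃ x : N, p (e x) :=
  ⟨fun ⟨x, h⟩ => ⟨e.symm x, by simpa using h⟩, fun ⟨x, h⟩ => ⟨_, h⟩⟩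

theorem zfc_pull (h : ModelsZFC E) : ModelsZFC (pull e E) where
  extensionality x y hxy := by
    refine e.injective (h.extensionality _ _ ?_)
    rw [all_pull e]
    exact hxy
  foundation x hx := by
    have h1 := h.foundation (e x) ((ex_pull e).2 hx)
    obtain ⟨y, hy, hy2⟩ := h1
    refine ⟨e.symm y, by simpa [pull] using hy, fun z hz => ?_⟩
    have h3 := hy2 (e z) hz
    simpa [pull] using h3
  pairing x y := by
    obtain ⟨z, hz⟩ := h.pairing (e x) (e y)
    refine ⟨e.symm z, fun w => ?_⟩
    have h3 := hz (e w)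
    simpa [pull] using h3
  union x := by
    obtain ⟨u, hu⟩ := h.union (e x)
    refine ⟨e.symm u, fun z => ?_⟩
    have h3 := hu (e z)
    rw [ex_pull e] at h3
    simpa [pull] using h3
  powerset x := by
    obtain ⟨p, hp⟩ := h.powerset (e x)
    refine ⟨e.symm p, fun z => ?_⟩
    have h3 := hp (e z)
    rw [all_pull e] at h3
    simpa [pull] using h3
  infinity := by
    obtain ⟨w, ⟨y, hy, hy2⟩, hw⟩ := h.infinity
    refine ⟨e.symm w, ⟨e.symm y, by simpa [pull] using hy, fun z hz => ?_⟩, fun x hx => ?_⟩
    · have h3 := hy2 (e z)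
      simp only [pull, e.apply_symm_apply] at hz
      exact h3 hz
    · have h4 : E (e x) w := by simpa [pull] using hx
      obtain ⟨y', hy', hy2'⟩ := hw (e x) h4
      refine ⟨e.symm y', by simpa [pull] using hy', fun z => ?_⟩
      have h3 := hy2' (e z)
      simpa [pull] using h3
  separation φ i w a := by
    obtain ⟨b, hb⟩ := h.separation φ i (fun j => e (w j)) (e a)
    refine ⟨e.symm b, fun x => ?_⟩
    have h3 := hb (e x)
    rw [sat_pull']
    simpa [pull] using h3
  replacement φ w a ha := by
    have h1 : ∀ x, E x (e a) → ∃! y, Sat E φ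
        (Function.update (Function.update (fun j => e (w j)) 0 x) 1 y) := by
      intro x hx
      obtain ⟨y, hy, hy2⟩ := ha (e.symm x) (by simpa [pull] using hx)
      refine ⟨e y, ?_, fun y' hy' => ?_⟩
      · have h5 := (sat_pull2 e φ w (e.symm x) y).1 hy
        simpa using h5
      · have h5 : Sat (pull e E) φ (Function.update (Function.update w 0 (e.symm x)) 1
            (e.symm y')) := (sat_pull2 e φ w (e.symm x) (e.symm y')).2 (by simpa using hy')
        have h6 := hy2 _ h5
        rw [← h6, e.apply_symm_apply]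
    obtain ⟨b, hb⟩ := h.replacement φ (fun j => e (w j)) (e a) h1
    refine ⟨e.symm b, fun y => ?_⟩
    have h3 := hb (e y)
    rw [ex_pull e] at h3
    simp only [pull, e.apply_symm_apply]
    rw [h3]
    refine exists_congr fun x => and_congr Iff.rfl ?_
    exact (sat_pull2 e φ w x y).symm
  choice x hx hd := by
    obtain ⟨c, hc⟩ := h.choice (e x) (by
      intro y hy
      obtain ⟨z, hz⟩ := hx (e.symm y) (by simpa [pull] using hy)
      exact ⟨e z, by simpa [pull] using hz⟩) (by
      intro y y' hy hy' hz
      have h5 := hd (e.symm y) (e.symm y') (by simpa [pull] using hy) (by simpa [pull] using hy') (by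
        obtain ⟨z, hz1, hz2⟩ := hz
        exact ⟨e.symm z, by simpa [pull] using hz1, by simpa [pull] using hz2⟩)
      exact e.symm.injective h5)
    refine ⟨e.symm c, fun y hy => ?_⟩
    obtain ⟨z, ⟨hz1, hz2⟩, hz3⟩ := hc (e y) hy
    refine ⟨e.symm z, ⟨by simpa [pull] using hz1, by simpa [pull] using hz2⟩, fun z' hz' => ?_⟩
    have h5 := hz3 (e z') ⟨hz'.1, by simpa [pull] using hz'.2⟩
    rw [← h5, e.symm_apply_apply]

theorem isNum_pull (n : ℕ) (x : N) : IsNum (pull e E) n x ↔ IsNum E n (e x) := by
  induction n generalizing x with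
  | zero =>
    change (∀ z, ¬ pull e E z x) ↔ ∀ z, ¬ E z (e x)
    rw [all_pull e (p := fun z => ¬ E z (e x))]
    exact Iff.rfl
  | succ n ih =>
    change (∃ y, IsNum (pull e E) n y ∧ ∀ z, pull e E z x ↔ pull e E z y ∨ z = y) ↔
      ∃ y, IsNum E n y ∧ ∀ z, E z (e x) ↔ E z y ∨ z = y
    rw [ex_pull e (p := fun y => IsNum E n y ∧ ∀ z, E z (e x) ↔ E z y ∨ z = y)]
    refine exists_congr fun y => and_congr (ih y) ?_
    rw [all_pull e (p := fun z => E z (e x) ↔ E z (e y) ∨ z = e y)]
    refine forall_congr' fun z => ?_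
    rw [e.injective.eq_iff]
    exact Iff.rfl

theorem omega_pull (h : OmegaModel E) : OmegaModel (pull e E) := by
  obtain ⟨w, hw⟩ := h
  refine ⟨e.symm w, fun x => ?_⟩
  have h1 := hw (e x)
  simp only [pull, e.apply_symm_apply]
  rw [h1]
  exact exists_congr fun n => (isNum_pull e n x).symm

theorem natTrace_pull (a : N) : natTrace (pull e E) a = natTrace E (e a) := by
  ext n
  change (∃ z, IsNum (pull e E) n z ∧ pull e E z a) ↔ ∃ z, IsNum E n z ∧ E z (e a)
  rw [ex_pull e (p := fun z => IsNum E n z ∧ E z (e a))]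
  exact exists_congr fun z => and_congr (isNum_pull e n z) Iff.rfl

theorem coded_pull (S : Set ℕ) : Coded (pull e E) S ↔ Coded E S := by
  change (∃ a, natTrace (pull e E) a = S) ↔ ∃ a, natTrace E a = S
  rw [ex_pull e (p := fun a => natTrace E a = S)]
  exact exists_congr fun a => by rw [natTrace_pull]

variable {ι : Type}

theorem setIn_pull (c : ι ≃ ℕ) : SetIn (pull e E) c = SetIn E c :=
  funext fun _ => propext (coded_pull e _)

theorem seqIn_pull (c : ι ≃ ℕ) : SeqIn (pull e E) c = SeqIn E c :=
  funext fun _ => propext (coded_pull e _)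

theorem seq2In_pull (c : ι ≃ ℕ) : Seq2In (pull e E) c = Seq2In E c :=
  funext fun _ => propext (coded_pull e _)

theorem famIn_pull (c : ι ≃ ℕ) (u : N) : FamIn (pull e E) c u = FamIn E c (e u) := by
  ext S
  change (∃ s, pull e E s u ∧ natTrace (pull e E) s = c '' S) ↔
    ∃ s, E s (e u) ∧ natTrace E s = c '' S
  rw [ex_pull e (p := fun s => E s (e u) ∧ natTrace E s = c '' S)]
  exact exists_congr fun s => and_congr Iff.rfl (by rw [natTrace_pull])

theorem souIn_pull (u : N) : IsSOUIn (pull e E) u ↔ IsSOUIn E (e u) := by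
  constructor
  · intro h
    exact ⟨famIn_pull e cF u ▸ h.ne, famIn_pull e cF u ▸ h.inter,
      by simpa only [famIn_pull, setIn_pull] using h.up,
      by simpa only [famIn_pull, setIn_pull] using h.ultra,
      by simpa only [famIn_pull, seqIn_pull] using h.base,
      by simpa only [famIn_pull, seqIn_pull, seq2In_pull] using h.stable⟩
  · intro h
    refine ⟨?_, ?_, ?_, ?_, ?_, ?_⟩ <;>
      simp only [famIn_pull, setIn_pull, seqIn_pull, seq2In_pull]
    · exact h.ne
    · exact h.inter
    · exact h.up
    · exact h.ultra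
    · exact h.base
    · exact h.stable

theorem ppIn_pull {K : Type} [Field K] (c : (ℕ →₀ K) ≃ ℕ) (f : N) :
    IsPPlusIn (pull e E) c f ↔ IsPPlusIn E c (e f) := by
  constructor
  · intro h
    refine ⟨?_, ?_, ?_, ?_, ?_, ?_, ?_, ?_⟩
    · simpa only [famIn_pull] using h.ne
    · simpa only [famIn_pull] using h.inter
    · simpa only [famIn_pull, setIn_pull] using h.up
    · simpa only [famIn_pull] using h.nz
    · simpa only [famIn_pull, setIn_pull] using h.cofin
    · simpa only [famIn_pull, seqIn_pull] using h.base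
    · simpa only [famIn_pull, seqIn_pull, setIn_pull] using h.full
    · simpa only [famIn_pull, seqIn_pull, seq2In_pull] using h.pfil
  · intro h
    refine ⟨?_, ?_, ?_, ?_, ?_, ?_, ?_, ?_⟩ <;>
      simp only [famIn_pull, setIn_pull, seqIn_pull, seq2In_pull]
    · exact h.ne
    · exact h.inter
    · exact h.up
    · exact h.nz
    · exact h.cofin
    · exact h.base
    · exact h.full
    · exact h.pfil

theorem spaceIn_pull {K : Type} [Field K] (d : K ↪ ℕ) (c : (ℕ →₀ K) ≃ ℕ) :
    SpaceIn (pull e E) d c ↔ SpaceIn E d c :=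
  ⟨fun h => ⟨(coded_pull e _).1 h.add, (coded_pull e _).1 h.mul, (coded_pull e _).1 h.coord⟩,
    fun h => ⟨(coded_pull e _).2 h.add, (coded_pull e _).2 h.mul, (coded_pull e _).2 h.coord⟩⟩

end Pool.Agent.SOUp
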