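import Pool.Agent.Lib_CI.Bridge2
import Pool.Agent.Lib_CI.Fin
import Pool.Agent.Lib_CI.Trans

/-!
# MP_a0d45a_lc: the consistency theorem
-/

set_option autoImplicit false

namespace Pool.Agent.SOUp

open Pool.Agent.Forcing Pool.Agent.SOU Pool.Agent.SOUi Pool.Agent.HMod Pool.Agent.CIt

/-- ground sets of numbers are in club many models -/
theorem club_coded (S : Set ℕ) : ∀ᶠ 𝔐 in Club.{2}, Coded 𝔐.E S := by
  filter_upwards [club_int.{2} (fun n : ℕ => n ∈ S)] with 𝔐 h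
  exact (coded_iff S).2 h

theorem consistency0 (K : Type) [Field K] [Countable K] (hK : ∃ a : K, a ≠ 0 ∧ a ≠ 1)
    (d : K ↪ ℕ) (c : (ℕ →₀ K) ≃ ℕ) :
    ∃ (M : Type 2) (E : M → M → Prop), Countable M ∧ Infinite M ∧ ModelsZFC E ∧ OmegaModel E ∧
      SpaceIn E d c ∧ (∃ u, IsSOUIn E u) ∧ ¬ ∃ f, IsPPlusIn E c f := by
  classical
  obtain ⟨𝔐, ⟨h1, h2, h3, h4, h5, h6⟩, hctbl, hStd, ⟨U, hU⟩, hno⟩ := main_model (K := K) hK
    (T := fun 𝔐 => IntF 𝔐 (fun i : Finset ℕ => cF i) ∧ IntF 𝔐 (fun i : ℕ →₀ K => c i) ∧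
      IntF 𝔐 (fun q : ℕ × ℕ => Nat.pair q.1 q.2) ∧
      Coded 𝔐.E {n | ∃ a b : K, n = Nat.pair (Nat.pair (d a) (d b)) (d (a + b))} ∧
      Coded 𝔐.E {n | ∃ a b : K, n = Nat.pair (Nat.pair (d a) (d b)) (d (a * b))} ∧
      Coded 𝔐.E {n | ∃ (v : ℕ →₀ K) (i : ℕ), n = Nat.pair (Nat.pair (c v) i) (d (v i))})
    (by
      filter_upwards [club_intF.{2} (fun i : Finset ℕ => cF i),
        club_intF.{2} (fun i : ℕ →₀ K => c i),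
        club_intF.{2} (fun q : ℕ × ℕ => Nat.pair q.1 q.2),
        club_coded {n | ∃ a b : K, n = Nat.pair (Nat.pair (d a) (d b)) (d (a + b))},
        club_coded {n | ∃ a b : K, n = Nat.pair (Nat.pair (d a) (d b)) (d (a * b))},
        club_coded {n | ∃ (v : ℕ →₀ K) (i : ℕ), n = Nat.pair (Nat.pair (c v) i) (d (v i))}]
        with 𝔐 a1 a2 a3 a4 a5 a6
      exact ⟨a1, a2, a3, a4, a5, a6⟩)
  refine ⟨𝔐.M, 𝔐.E, hctbl, Infinite.of_injective 𝔐.nu 𝔐.nu_inj, 𝔐.zfc, omegaModel 𝔐, ⟨h4, h5, h6⟩, souIn_of h1 h3 hU, ?_⟩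
  rintro ⟨f, hf⟩
  obtain ⟨F, hF⟩ := pp_of_In h2 h3 hf
  exact hno F hF

/-- the same with a model whose universe is `ℕ` -/
theorem consistency (K : Type) [Field K] [Countable K] (hK : ∃ a : K, a ≠ 0 ∧ a ≠ 1)
    (d : K ↪ ℕ) (c : (ℕ →₀ K) ≃ ℕ) :
    ∃ E : ℕ → ℕ → Prop, ModelsZFC E ∧ OmegaModel E ∧ SpaceIn E d c ∧
      (∃ u, IsSOUIn E u) ∧ ¬ ∃ f, IsPPlusIn E c f := by
  obtain ⟨M, E, hM, hinf, h1, h2, h3, ⟨u, hu⟩, h5⟩ := consistency0 K hK d c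
  obtain ⟨e⟩ := nonempty_equiv_of_countable (α := ℕ) (β := M)
  refine ⟨pull e E, zfc_pull e h1, omega_pull e h2, (spaceIn_pull e d c).2 h3,
    ⟨e.symm u, (souIn_pull e _).2 (by simpa using hu)⟩, ?_⟩
  rintro ⟨f, hf⟩
  exact h5 ⟨e f, (ppIn_pull e c f).1 hf⟩

end Pool.Agent.SOUp
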