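import Pool.Agent.Lib_CI.PPb
import Pool.Agent.Lib_GG.Mix

/-!
# Piece DECPP: being a (p+)-filter is decided
-/

set_option autoImplicit false

namespace Pool.Agent.CIt

open Pool.Agent.GGen Pool.Agent.HMod Pool.Agent.SOU Pool.Agent.SOUi

universe u

variable {K : Type} [Field K] [DecidableEq K] [Countable K] {P : Type u} [Preorder P] [OrderTop P]

/-- `bs X`, `Blk X` for a sequence given by its graph: countable quantifiers. `X` is recovered from its graph. -/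
theorem dec_blk (X : ℕ × (ℕ →₀ K) → Set P) :
    Dec (fun g => ∃ f : ℕ → ℕ →₀ K, ev X g = {q | f q.1 = q.2} ∧ Blk f) := by
  have h1 : Dec (fun g : GG P => (∀ n : ℕ, ∀ v : ℕ →₀ K, (n, v) ∈ ev X g → v ≠ 0) ∧
      ∀ n : ℕ, ∀ v w : ℕ →₀ K, (n, v) ∈ ev X g → (n + 1, w) ∈ ev X g →
        ∀ i ∈ v.support, ∀ j ∈ w.support, i < j) :=
    (dec_all fun n => dec_all fun v => (dec_ev X (n, v)).imp (dec_const _)).and
      (dec_all fun n => dec_all fun v => dec_all fun w =>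
        (dec_ev X (n, v)).imp ((dec_ev X (n + 1, w)).imp (dec_const _)))
  refine dec_graph X (T := fun f _ => Blk f) h1 fun g f hf => ?_
  have h2 : ∀ n v, (n, v) ∈ ev X g ↔ f n = v := by
    intro n v
    rw [hf]
    exact Iff.rfl
  constructor
  · intro hb
    refine ⟨fun n v hv => ?_, fun n v w hv hw => ?_⟩
    · rw [← (h2 n v).1 hv]
      exact hb.ne n
    · rw [← (h2 n v).1 hv, ← (h2 (n + 1) w).1 hw]
      exact hb.lt n
  · rintro ⟨h3, h4⟩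
    exact ⟨fun n => h3 n (f n) ((h2 n _).2 rfl),
      fun n => h4 n (f n) (f (n + 1)) ((h2 n _).2 rfl) ((h2 (n + 1) _).2 rfl)⟩

/-- `v ∈ bs X` iff there are a finite list of values of `X` (a finite set of pairs `(n, X n)`) with `v` in their span -/
theorem dec_mem_bs (X : ℕ × (ℕ →₀ K) → Set P) (v : ℕ →₀ K) :
    Dec (fun g => ∃ f : ℕ → ℕ →₀ K, ev X g = {q | f q.1 = q.2} ∧ v ∈ bs f) := by
  have h1 : Dec (fun g : GG P => v ≠ 0 ∧ ∃ s : Finset (ℕ →₀ K), (∀ w : ℕ →₀ K, w ∈ s →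
      ∃ n : ℕ, (n, w) ∈ ev X g) ∧ v ∈ Submodule.span K (s : Set (ℕ →₀ K))) :=
    (dec_const _).and (dec_ex fun s => (dec_all fun w => (dec_const _).imp
      (dec_ex fun n => dec_ev X (n, w))).and (dec_const _))
  refine dec_graph X (T := fun f _ => v ∈ bs f) h1 fun g f hf => ?_
  have h2 : ∀ n v, (n, v) ∈ ev X g ↔ f n = v := by
    intro n v
    rw [hf]
    exact Iff.rfl
  refine and_congr Iff.rfl ?_
  constructor
  · intro hv
    obtain ⟨s, hs, hvs⟩ := Submodule.mem_span_finite_of_mem_span hv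
    refine ⟨s, fun w hw => ?_, hvs⟩
    obtain ⟨n, hn⟩ := hs hw
    exact ⟨n, (h2 n w).2 hn⟩
  · rintro ⟨s, hs, hvs⟩
    refine Submodule.span_mono ?_ hvs
    intro w hw
    obtain ⟨n, hn⟩ := hs w hw
    exact ⟨n, (h2 n w).1 hn⟩

/-! ### auxiliary: the function with a given graph -/

section aux

open Classical in
/-- the function whose graph is `ev X g` (zero if there is none) -/
noncomputable def dpp_fn {ι : Type} (X : ι × (ℕ →₀ K) → Set P) (g : GG P) : ι → ℕ →₀ K :=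
  if h : ∃ f : ι → ℕ →₀ K, ev X g = {q | f q.1 = q.2} then h.choose else fun _ => 0

omit [DecidableEq K] [Countable K] in
theorem dpp_fn_eq {ι : Type} {X : ι × (ℕ →₀ K) → Set P} {g : GG P} {f : ι → ℕ →₀ K}
    (hf : ev X g = {q | f q.1 = q.2}) : dpp_fn X g = f := by
  have h : ∃ f : ι → ℕ →₀ K, ev X g = {q | f q.1 = q.2} := ⟨f, hf⟩
  have h1 : dpp_fn X g = h.choose := dif_pos h
  have h2 : {q : ι × (ℕ →₀ K) | h.choose q.1 = q.2} = {q | f q.1 = q.2} :=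
    h.choose_spec.symm.trans hf
  rw [h1]
  funext i
  have h3 : (i, f i) ∈ {q : ι × (ℕ →₀ K) | h.choose q.1 = q.2} := by
    rw [h2]
    exact rfl
  exact h3

omit [DecidableEq K] [Countable K] in
theorem dpp_fn_zero {ι : Type} {X : ι × (ℕ →₀ K) → Set P} {g : GG P}
    (h : ¬ ∃ f : ι → ℕ →₀ K, ev X g = {q | f q.1 = q.2}) : dpp_fn X g = fun _ => 0 :=
  dif_neg h

theorem dpp_blk (X : ℕ × (ℕ →₀ K) → Set P) : Dec (fun g => Blk (dpp_fn X g)) := by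
  refine ((dec_blk X).or ((dec_isFun X).not.and
    (dec_const (Blk (fun _ : ℕ => (0 : ℕ →₀ K)))))).congr ?_
  filter_upwards with g
  by_cases h : ∃ f : ℕ → ℕ →₀ K, ev X g = {q | f q.1 = q.2}
  · obtain ⟨f, hf⟩ := h
    constructor
    · rintro (⟨f', hf', h1⟩ | ⟨h1, _⟩)
      · rw [dpp_fn_eq hf']
        exact h1
      · exact absurd ⟨f, hf⟩ h1
    · intro h1
      rw [dpp_fn_eq hf] at h1
      exact Or.inl ⟨f, hf, h1⟩
  · rw [dpp_fn_zero h]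
    constructor
    · rintro (⟨f', hf', _⟩ | ⟨_, h1⟩)
      · exact absurd ⟨f', hf'⟩ h
      · exact h1
    · intro h1
      exact Or.inr ⟨h, h1⟩

theorem dpp_bs (X : ℕ × (ℕ →₀ K) → Set P) (v : ℕ →₀ K) :
    Dec (fun g => v ∈ bs (dpp_fn X g)) := by
  refine ((dec_mem_bs X v).or ((dec_isFun X).not.and
    (dec_const (v ∈ bs (fun _ : ℕ => (0 : ℕ →₀ K)))))).congr ?_
  filter_upwards with g
  by_cases h : ∃ f : ℕ → ℕ →₀ K, ev X g = {q | f q.1 = q.2}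
  · obtain ⟨f, hf⟩ := h
    constructor
    · rintro (⟨f', hf', h1⟩ | ⟨h1, _⟩)
      · rw [dpp_fn_eq hf']
        exact h1
      · exact absurd ⟨f, hf⟩ h1
    · intro h1
      rw [dpp_fn_eq hf] at h1
      exact Or.inl ⟨f, hf, h1⟩
  · rw [dpp_fn_zero h]
    constructor
    · rintro (⟨f', hf', _⟩ | ⟨_, h1⟩)
      · exact absurd ⟨f', hf'⟩ h
      · exact h1
    · intro h1
      exact Or.inr ⟨h, h1⟩

/-- the name of a section -/
def dpp_sec (X : (ℕ × ℕ) × (ℕ →₀ K) → Set P) (n : ℕ) : ℕ × (ℕ →₀ K) → Set P :=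
  fun q => X ((n, q.1), q.2)

omit [DecidableEq K] [Countable K] in
theorem dpp_sec_eq {X : (ℕ × ℕ) × (ℕ →₀ K) → Set P} {g : GG P}
    (h : ∃ f : ℕ × ℕ → ℕ →₀ K, ev X g = {q | f q.1 = q.2}) (n : ℕ) :
    (fun m => dpp_fn X g (n, m)) = dpp_fn (dpp_sec X n) g := by
  obtain ⟨f, hf⟩ := h
  have h1 : ev (dpp_sec X n) g = {q : ℕ × (ℕ →₀ K) | (fun m => f (n, m)) q.1 = q.2} := by
    ext q
    have h2 : ((n, q.1), q.2) ∈ ev X g ↔ f (n, q.1) = q.2 := by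
      rw [hf]
      exact Iff.rfl
    exact h2
  rw [dpp_fn_eq hf, dpp_fn_eq (f := fun m => f (n, m)) h1]

omit [DecidableEq K] in
theorem dpp_sec_dec {X : (ℕ × ℕ) × (ℕ →₀ K) → Set P} (n : ℕ) {T : (ℕ → ℕ →₀ K) → Prop}
    (h : Dec (fun g => T (dpp_fn (dpp_sec X n) g))) :
    Dec (fun g => T (fun m => dpp_fn X g (n, m))) := by
  refine (((dec_isFun X).and h).or ((dec_isFun X).not.and
    (dec_const (T (fun _ : ℕ => (0 : ℕ →₀ K)))))).congr ?_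
  filter_upwards with g
  by_cases h : ∃ f : ℕ × ℕ → ℕ →₀ K, ev X g = {q | f q.1 = q.2}
  · rw [dpp_sec_eq h n]
    constructor
    · rintro (⟨_, h1⟩ | ⟨h1, _⟩)
      · exact h1
      · exact absurd h h1
    · intro h1
      exact Or.inl ⟨h, h1⟩
  · rw [dpp_fn_zero h]
    constructor
    · rintro (⟨h1, _⟩ | ⟨_, h1⟩)
      · exact absurd h1 h
      · exact h1
    · intro h1
      exact Or.inr ⟨h, h1⟩

variable {ι : Type} [∀ 𝔐 : HM.{u + 1}, Cod 𝔐 ι] [BL.{u + 1} ι]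

omit [DecidableEq K] in
theorem dpp_exFun {T : (ι → ℕ →₀ K) → GG P → Prop}
    (h : ∀ X : ι × (ℕ →₀ K) → Set P, Dec (fun g => T (dpp_fn X g) g)) :
    Dec (fun g => ∃ f : ι → ℕ →₀ K, IntF g.M f ∧ T f g) := by
  refine dec_exFun fun X => ((dec_isFun X).and (h X)).congr ?_
  filter_upwards with g
  constructor
  · rintro ⟨⟨f, hf⟩, h1⟩
    rw [dpp_fn_eq hf] at h1
    exact ⟨f, hf, h1⟩
  · rintro ⟨f, hf, h1⟩
    refine ⟨⟨f, hf⟩, ?_⟩
    rw [dpp_fn_eq hf]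
    exact h1

omit [DecidableEq K] in
theorem dpp_allFun {T : (ι → ℕ →₀ K) → GG P → Prop}
    (h : ∀ X : ι × (ℕ →₀ K) → Set P, Dec (fun g => T (dpp_fn X g) g)) :
    Dec (fun g => ∀ f : ι → ℕ →₀ K, IntF g.M f → T f g) := by
  refine dec_allFun fun X => ((dec_isFun X).and (h X).not).congr ?_
  filter_upwards with g
  constructor
  · rintro ⟨⟨f, hf⟩, h1⟩
    rw [dpp_fn_eq hf] at h1
    exact ⟨f, hf, h1⟩
  · rintro ⟨f, hf, h1⟩
    refine ⟨⟨f, hf⟩, ?_⟩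
    rw [dpp_fn_eq hf]
    exact h1

end aux

/-- PROOF. By `dec_dir`, `evF_isIFil`, `gc_std`-like (`GC_club (club_Std K)`) and `ppb_iff` it is equivalent, for club many `g`, to `Dir 𝓕 g ∧ PPb g.M (evF 𝓕 g)`. Every clause of `PPb` is decided: a set in `evF 𝓕 g` contains `ev X g` for a live `X` (`dec_exLive`), `bs f ∈ evF 𝓕 g` is decided (`dec_memEvF` for `T v g = v ∈ bs f`, `dec_mem_bs`, `dec_graph`), the quantifiers over internal sets and sequences by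
`dec_exSet`, `dec_allSet`, `dec_exFun`, `dec_allFun` (for `pfil` with `ι = ℕ × ℕ`). -/
theorem dec_pp (𝓕 : FN (ℕ →₀ K) P) : Dec (fun g => Dir 𝓕 g ∧ IsPPlusi g.M (evF 𝓕 g)) := by
  -- membership of the sets `bs f` in the filter
  have hmem : ∀ X : ℕ × (ℕ →₀ K) → Set P,
      Dec (fun g => Dir 𝓕 g ∧ bs (dpp_fn X g) ∈ evF 𝓕 g) := fun X =>
    dec_memEvF 𝓕 (T := fun v g => v ∈ bs (dpp_fn X g)) (fun v => dpp_bs X v)
  -- the clauses
  have h1 : Dec (fun g : GG P => ¬ (Dir 𝓕 g ∧ {_v : ℕ →₀ K | False} ∈ evF 𝓕 g)) :=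
    (dec_memEvF 𝓕 (T := fun _ _ => False) fun _ => dec_const _).not
  have h2 : Dec (fun g : GG P => Dir 𝓕 g ∧ {v : ℕ →₀ K | v ≠ 0} ∈ evF 𝓕 g) :=
    dec_memEvF 𝓕 (T := fun v _ => v ≠ 0) fun _ => dec_const _
  have h3 : Dec (fun g : GG P => ¬ ∃ Y, Live 𝓕 g Y ∧ ¬ ∃ f : ℕ → ℕ →₀ K, IntF g.M f ∧
      (Blk f ∧ (Dir 𝓕 g ∧ bs f ∈ evF 𝓕 g) ∧ ∀ v, v ∈ bs f → v ∈ ev Y g)) := by
    refine (dec_exLive 𝓕 fun Y => (dpp_exFun fun X => ?_).not).not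
    exact (dpp_blk X).and ((hmem X).and (dec_all fun v => (dpp_bs X v).imp (dec_ev Y v)))
  have h4 : Dec (fun g : GG P => ∀ D : Set (ℕ →₀ K), Int g.M (fun v => v ∈ D) →
      ((∀ f : ℕ → ℕ →₀ K, IntF g.M f → (Blk f → (Dir 𝓕 g ∧ bs f ∈ evF 𝓕 g) →
        ∃ h : ℕ → ℕ →₀ K, IntF g.M h ∧ (Blk h ∧ (∀ v, v ∈ bs h → v ∈ bs f) ∧
          ∀ v, v ∈ bs h → v ∈ D))) → Dir 𝓕 g ∧ {v | v ∈ D} ∈ evF 𝓕 g)) := by
    refine dec_allSet fun D => ?_
    refine Dec.imp (dpp_allFun fun X => ?_)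
      (dec_memEvF 𝓕 (T := fun v g => v ∈ ev D g) fun v => dec_ev D v)
    refine (dpp_blk X).imp ((hmem X).imp (dpp_exFun fun Z => ?_))
    exact (dpp_blk Z).and ((dec_all fun v => (dpp_bs Z v).imp (dpp_bs X v)).and
      (dec_all fun v => (dpp_bs Z v).imp (dec_ev D v)))
  have h5 : Dec (fun g : GG P => ∀ f : ℕ × ℕ → ℕ →₀ K, IntF g.M f →
      ((∀ n : ℕ, Blk (fun m => f (n, m)) ∧ (Dir 𝓕 g ∧ bs (fun m => f (n, m)) ∈ evF 𝓕 g)) →
        ∃ h : ℕ → ℕ →₀ K, IntF g.M h ∧ (Blk h ∧ (Dir 𝓕 g ∧ bs h ∈ evF 𝓕 g) ∧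
          ∀ n : ℕ, ∃ k : ℕ, ∀ v, v ∈ bs h → (∀ j ∈ v.support, k < j) →
            v ∈ bs (fun m => f (n, m))))) := by
    refine dpp_allFun fun X => ?_
    have hs : ∀ n v, Dec (fun g : GG P => v ∈ bs (fun m => dpp_fn X g (n, m))) := fun n v =>
      dpp_sec_dec (T := fun f => v ∈ bs f) n (dpp_bs _ v)
    refine Dec.imp (dec_all fun n => ?_) (dpp_exFun fun Y => ?_)
    · refine (dpp_sec_dec (T := fun f => Blk f) n (dpp_blk _)).and ?_
      exact dec_memEvF 𝓕 (T := fun v g => v ∈ bs (fun m => dpp_fn X g (n, m))) fun v => hs n v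
    · refine (dpp_blk Y).and ((hmem Y).and (dec_all fun n => dec_ex fun k => dec_all fun v => ?_))
      exact (dpp_bs Y v).imp ((dec_const _).imp (hs n v))
  refine ((dec_dir 𝓕).and (h1.and (h2.and (h3.and (h4.and h5))))).congr ?_
  filter_upwards [evF_isIFil 𝓕, GC_club (P := P) (club_Std K)] with g hfil hstd
  refine and_congr_right fun hD => ?_
  have hF := hfil hD
  rw [ppb_iff hF]
  constructor
  · rintro ⟨e1, e2, e3, e4, e5⟩
    refine ⟨?_, e2.2, ?_, ?_, ?_⟩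
    · refine ⟨fun hb => e1 ⟨hD, ?_⟩⟩
      rw [hb]
      exact Filter.mem_bot
    · intro S hS
      obtain ⟨Y, hY, hYS⟩ := (mem_evF hD).1 hS
      by_contra hcon
      refine e3 ⟨Y, hY, ?_⟩
      rintro ⟨f, hf, hb, hm, hsub⟩
      exact hcon ⟨f, hf, hb, hm.2, fun v hv => hYS (hsub v hv)⟩
    · intro D hDi hD2
      refine (e4 D hDi fun f hf hb hm => ?_).2
      obtain ⟨Z, hZ, hZb, hZ1, hZ2⟩ := hD2 f hf hb hm.2
      exact ⟨Z, hZ, hZb, fun v hv => hZ1 hv, fun v hv => hZ2 hv⟩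
    · intro X hX hX2
      obtain ⟨Y, hY, hYb, hYm, hY2⟩ := e5 (fun q => X q.1 q.2) hX
        (fun n => ⟨(hX2 n).1, hD, (hX2 n).2⟩)
      exact ⟨Y, hY, hYb, hYm.2, fun n => by
        obtain ⟨k, hk⟩ := hY2 n
        exact ⟨k, fun v hv hj => hk v hv hj⟩⟩
  · intro hP
    refine ⟨?_, ⟨hD, hP.nz⟩, ?_, ?_, ?_⟩
    · rintro ⟨_, h6⟩
      have h7 : (∅ : Set (ℕ →₀ K)) ∈ evF 𝓕 g := h6
      exact hP.ne.ne (Filter.empty_mem_iff_bot.1 h7)
    · rintro ⟨Y, hY, hcon⟩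
      obtain ⟨X, hX, hXb, hXm, hXs⟩ := hP.base (ev Y g) ((mem_evF hD).2 ⟨Y, hY, subset_rfl⟩)
      exact hcon ⟨X, hX, hXb, ⟨hD, hXm⟩, fun v hv => hXs hv⟩
    · intro D hDi hD2
      refine ⟨hD, hP.full D hDi fun X hX hXb hXm => ?_⟩
      obtain ⟨Z, hZ, hZb, hZ1, hZ2⟩ := hD2 X hX hXb ⟨hD, hXm⟩
      exact ⟨Z, hZ, hZb, fun v hv => hZ1 v hv, fun v hv => hZ2 v hv⟩
    · intro f hf hf2
      obtain ⟨Y, hY, hYb, hYm, hY2⟩ := hP.pfil (fun n m => f (n, m)) hf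
        (fun n => ⟨(hf2 n).1, (hf2 n).2.2⟩)
      exact ⟨Y, hY, hYb, ⟨hD, hYm⟩, fun n => by
        obtain ⟨k, hk⟩ := hY2 n
        exact ⟨k, fun v hv hj => hk v hv hj⟩⟩

end Pool.Agent.CIt
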