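import Pool.Agent.Lib_CI.Small

/-!
# Piece SEPC: separativity
-/

set_option autoImplicit false

namespace Pool.Agent.CIt

open Pool.Agent.GGen Pool.Agent.HMod Pool.Agent.SOU Pool.Agent.SOUi Pool.Agent.CSI

/-- the bound after which no entry of `B` that meets `[0, m]` has an element -/
private def sepN (B : ℕ → Finset ℕ) (m : ℕ) : ℕ :=
  m + 1 + (Finset.range (m + 1)).sup (fun l => mx (B l) + 1)

private theorem sepN_gt (B : ℕ → Finset ℕ) (m : ℕ) : m < sepN B m := by
  unfold sepN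
  omega

private theorem sepN_mx (B : ℕ → Finset ℕ) {m l : ℕ} (h : l ≤ m) : mx (B l) < sepN B m := by
  have h1 : mx (B l) + 1 ≤ (Finset.range (m + 1)).sup (fun l => mx (B l) + 1) :=
    Finset.le_sup (f := fun l => mx (B l) + 1) (Finset.mem_range.2 (by omega))
  unfold sepN
  omega

/-- block sequences are separative. PROOF. If not `A ≤ B` then `fu A` has elements `b ∉ fu B` above any `k`. Choose a block sequence `C` of such elements such that no entry of `B` meets two entries of `C` (only finitely many entries of `B` meet an initial segment of `ℕ`; choose the next element of `C` above all of them). `C ≤ A`. If `C' ≤ C`, `C' ≤ B` then some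
`b ∈ fu C' ∩ fu C ∩ fu B` (far out), a union of entries of `C` and a union of entries of `B`; every entry of `B` in this union is included in one entry of `C`, so the first entry of `C` in the union is in `fu B`, contradiction. -/
theorem BS.sep {A B : BS} (h : ∀ C : BS, BS.le C A → ∃ D : BS, BS.le D C ∧ BS.le D B) :
    BS.le A B := by
  classical
  by_contra hAB
  have h1 : ∀ k, ∃ b ∈ fu A.1, Lo k b ∧ b ∉ fu B.1 := by
    intro k
    by_contra h2
    push Not at h2
    exact hAB ⟨k, fun b hb hk => h2 b hb hk⟩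
  choose f hfA hfk hfB using h1
  let C : ℕ → Finset ℕ := fun n => Nat.rec (f 0) (fun _ c => f (sepN B.1 (mx c))) n
  have hC0 : C 0 = f 0 := rfl
  have hCs : ∀ n, C (n + 1) = f (sepN B.1 (mx (C n))) := fun n => rfl
  have hCf : ∀ n, ∃ k, C n = f k := by
    intro n
    rcases n with _ | n
    · exact ⟨0, rfl⟩
    · exact ⟨_, hCs n⟩
  have hCA : ∀ n, C n ∈ fu A.1 := by
    intro n
    obtain ⟨k, hk⟩ := hCf n
    rw [hk]
    exact hfA k
  have hCB : ∀ n, C n ∉ fu B.1 := by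
    intro n
    obtain ⟨k, hk⟩ := hCf n
    rw [hk]
    exact hfB k
  have hCne : ∀ n, (C n).Nonempty := fun n => fu_ne A.2 (hCA n)
  have hClo : ∀ n, Lo (sepN B.1 (mx (C n))) (C (n + 1)) := by
    intro n
    rw [hCs]
    exact hfk _
  have hCblk : BlkF C := by
    refine ⟨hCne, fun n i hi j hj => ?_⟩
    have h2 := hClo n j hj
    have h3 := le_mx hi
    have h4 := sepN_gt B.1 (mx (C n))
    omega
  -- an entry of `B` that meets `C i` does not meet later entries
  have hsep : ∀ i j l, i < j → ∀ a ∈ B.1 l, a ∈ C i → ∀ b ∈ B.1 l, b ∉ C j := by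
    intro i j l hij a haB haC b hbB hbC
    have h2 : l ≤ mx (C i) := (B.2.ge l a haB).trans (le_mx haC)
    have h3 : b < sepN B.1 (mx (C i)) := lt_of_le_of_lt (le_mx hbB) (sepN_mx B.1 h2)
    have h4 : sepN B.1 (mx (C i)) ≤ b := by
      rcases Nat.lt_or_ge (i + 1) j with h5 | h5
      · obtain ⟨e, he⟩ := hCne (i + 1)
        exact (hClo i e he).trans (hCblk.bef h5 e he b hbC).le
      · have h6 : j = i + 1 := by omega
        rw [h6] at hbC
        exact hClo i b hbC
    omega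
  obtain ⟨D, ⟨k₁, hD1⟩, k₂, hD2⟩ := h ⟨C, hCblk⟩ ⟨0, fun b hb _ => fu_mono hCA hb⟩
  have hlo : Lo (max k₁ k₂) (D.1 (max k₁ k₂)) := D.2.ge _
  have hbC : D.1 (max k₁ k₂) ∈ fu C :=
    hD1 _ (self_mem_fu _ _) fun j hj => (le_max_left _ _).trans (hlo j hj)
  have hbB : D.1 (max k₁ k₂) ∈ fu B.1 :=
    hD2 _ (self_mem_fu _ _) fun j hj => (le_max_right _ _).trans (hlo j hj)
  obtain ⟨n, hn, -, -⟩ := fu_first hCblk hbC
  refine hCB n ?_
  obtain ⟨I, hI, hIe⟩ := hbB
  -- the entries of `B` that meet `C n`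
  let J : Finset ℕ := @Finset.filter ℕ (fun l : ℕ => ∃ a : ℕ, a ∈ B.1 l ∧ a ∈ C n)
    (Classical.decPred _) I
  have hJ : ∀ l, l ∈ J ↔ l ∈ I ∧ ∃ a : ℕ, a ∈ B.1 l ∧ a ∈ C n := by
    intro l
    simp only [J, Finset.mem_filter]
  have key : C n = J.biUnion B.1 := by
    ext x
    constructor
    · intro hx
      have h2 := hn hx
      rw [hIe] at h2
      obtain ⟨l, hl, hxl⟩ := Finset.mem_biUnion.1 h2
      exact Finset.mem_biUnion.2 ⟨l, (hJ l).2 ⟨hl, x, hxl, hx⟩, hxl⟩
    · intro hx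
      obtain ⟨l, hl, hxl⟩ := Finset.mem_biUnion.1 hx
      obtain ⟨hlI, a, ha, haC⟩ := (hJ l).1 hl
      have h2 : x ∈ D.1 (max k₁ k₂) := by
        rw [hIe]
        exact Finset.mem_biUnion.2 ⟨l, hlI, hxl⟩
      obtain ⟨m, hxm, -⟩ := mem_fu_block hbC h2
      rcases lt_trichotomy n m with h3 | h3 | h3
      · exact absurd hxm (hsep n m l h3 a ha haC x hxl)
      · rw [h3]
        exact hxm
      · exact absurd haC (hsep m n l h3 x hxl hxm a ha)
  refine ⟨J, ?_, key⟩
  obtain ⟨x, hx⟩ := hCne n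
  rw [key] at hx
  obtain ⟨l, hl, -⟩ := Finset.mem_biUnion.1 hx
  exact ⟨l, hl⟩

section general
universe u
variable {K : Type} [Field K] [DecidableEq K] [Countable K] {P : Type u} [Preorder P] [OrderTop P]

/-- separativity for names -/
private theorem sep_gen {t : Task K P} {S S₂ : Node → Set P} {r : P}
    (h : ∀ r' ≤ r, ∀ X : Node → Set P, Fo r' (fun g => EvG t X g ⊆ EvG t S g) →
      ∃ r'' ≤ r', ∃ Y : Node → Set P, Fo r'' (fun g => EvG t Y g ⊆ EvG t X g) ∧
        Fo r'' (fun g => EvG t Y g ⊆ EvG t S₂ g)) :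
    Fo r (fun g => EvG t S g ⊆ EvG t S₂ g) := by
  by_contra hno
  obtain ⟨q, hq, hqn⟩ := Dec.not_fo (dec_evG_sub t S S₂) hno
  -- a node
  have hnode : ∃ r₁ ≤ q, ∃ n : Node,
      Fo r₁ (fun g : GG P => n ∈ EvG t S g ∧ ¬ n ∈ EvG t S₂ g) := by
    by_contra h1
    push Not at h1
    have h2 : ∀ n : Node, Fo q (fun g : GG P => ¬ (n ∈ EvG t S g ∧ ¬ n ∈ EvG t S₂ g)) := fun n =>
      Dec.neg ((dec_evG t S n).and (dec_evG t S₂ n).not) fun r₁ hr₁ => h1 r₁ hr₁ n
    refine fo_false (p := q) ?_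
    filter_upwards [fo_all h2, hqn] with g h3 h4 hg
    refine h4 hg fun n hn => ?_
    by_contra hny
    exact h3 hg n ⟨hn, hny⟩
  obtain ⟨r₁, hr₁, n, hn⟩ := hnode
  have hact : Act t := by
    by_contra hna
    obtain ⟨g, -, ⟨h2, h3⟩, -⟩ := fo_exists hn (T' := fun _ => True)
      (Filter.Eventually.of_forall fun _ => trivial)
    rw [evG_inactive hna] at h2 h3
    exact h3 h2
  have htg : ∀ᶠ g in GC P, r₁ ∈ g → t.1 ∈ g := by
    filter_upwards [hn] with g h2 hg
    by_contra h3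
    obtain ⟨h4, h5⟩ := h2 hg
    rw [evG_notMem h3] at h4 h5
    exact h5 h4
  obtain ⟨S', hS'⟩ := exists_at_name hact S n
  have hx'' : ∀ᶠ g in GC P, r₁ ∈ g → EvG t S' g = {u ∈ EvG t S g | Cmp n u} := by
    filter_upwards [hS', htg, hn] with g h2 h4 h5 hg
    exact h2 (h4 hg) (h5 hg).1
  obtain ⟨r₂, hr₂, Y, h1, h2⟩ := h r₁ (hr₁.trans hq) S' (by
    filter_upwards [hx''] with g h3 hg
    rw [h3 hg]
    exact fun u hu => hu.1)
  have hact' : ∀ᶠ g in GC P, t.1 ∈ g → Dir t.2 g ∧ IsPPlusi g.M (tF t g) := hact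
  have hall : ∀ᶠ g in GC P, ¬ r₂ ∈ g := by
    filter_upwards [h1, h2, hx'', htg, hn, hact', evG_cd (K := K) hact, gc_std (K := K) (P := P),
      GC_has (P := P) Y] with g a1 a2 a3 a4 a5 a6 a7 a8 a9 hg
    have hg1 : r₁ ∈ g := mem_up hg hr₂
    have hcd := a7 (a4 hg1) Y a9
    have hb : IsBlockFilteri g.M (tF t g) := (a6 (a4 hg1)).2.toIsFulli.toIsBlockFilteri
    have hmem : n ∈ EvG t Y g := by
      refine cd_sub_at (T := EvG t S g) hb hcd.1 hcd.2 (a5 hg1).1 (fun s hs => evG_sub hs) ?_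
      rw [← a3 hg1]
      exact a1 hg
    exact (a5 hg1).2 (a2 hg hmem)
  obtain ⟨g, hg1, hg2⟩ := GC_exists' hall r₂
  exact hg1 hg2

end general

variable {K : Type} [Field K] [DecidableEq K] [Countable K] (cd : Codes K)

/-- PROOF. `β = 0` : `BS.sep`, `cd.surjB`. `β ≠ 0` (`atC_iff`), `t = bk β` : suppose not. As the inclusion is decided (`dec_evG_sub`), some `r' ≤ r` (stage `β`) forces `¬ EvG t (dec x) g ⊆ EvG t (dec y) g`, and then some `r₁ ≤ r'` and a node `n` with `r₁` forcing `n ∈ EvG t (dec x) g`, `n ∉ EvG t (dec y) g`; so `t` is active, and extending we get `t.1 ∈ g` forced by `r₁`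
(otherwise `EvG = Full` for both). Let `x'` be a code of a name of `{u ∈ EvG t (dec x) g | Cmp n u}` (`exists_at_name`, `code_of_dec`). `r₁` forces `EvG x' ⊆ EvG x`. By hypothesis there are `r'' ≤ r₁`, `x''` with `EvG x'' ⊆ EvG x'`, `EvG x'' ⊆ EvG y` for club many `g ∋ r''`. `cd_sub_at` (`evG_cd`) : `n ∈ EvG x'' ⊆ EvG y`, contradiction (`fo_exists`). -/
theorem sep_ax (β : Ordinal.{0}) (r : CC) (x y : XX)
    (h : ∀ r', LeOf (AtC cd) (β : Stg) r' r → ∀ x', AtC cd β r' x' x →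
      ∃ r'', LeOf (AtC cd) (β : Stg) r'' r' ∧ ∃ x'', AtC cd β r'' x'' x' ∧ AtC cd β r'' x'' y) :
    AtC cd β r x y := by
  by_cases hβ : β = 0
  · subst hβ
    rw [atC_zero]
    refine BS.sep fun C hC => ?_
    obtain ⟨x', hx'⟩ := cd.surjB C
    obtain ⟨r'', -, x'', h1, h2⟩ := h r ((preOK cd ((0 : Ordinal.{0}) : Stg)).1 r) x'
      ((atC_zero cd r x' x).2 (by rw [hx']; exact hC))
    rw [atC_zero] at h1 h2
    rw [hx'] at h1
    exact ⟨_, h1, h2⟩
  · rw [atC_iff cd hβ]
    refine sep_gen (P := (preS cd (β : Stg)).T) (t := cd.bk β) fun r' hr' X hX => ?_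
    obtain ⟨x', hx'⟩ := code_of_dec cd β (T := fun s g => s ∈ ev (P := (preS cd (β : Stg)).T) X g)
      (fun s => dec_ev (P := (preS cd (β : Stg)).T) X s)
    have hev : ∀ᶠ g in GC (preS cd (β : Stg)).T,
        EvG (P := (preS cd (β : Stg)).T) (cd.bk β) (cd.dec x') g =
          EvG (P := (preS cd (β : Stg)).T) (cd.bk β) X g := by
      filter_upwards [hx'] with g h3
      exact evG_congr h3
    obtain ⟨r'', hr'', x'', h1, h2⟩ := h r' hr' x' (by
      rw [atC_iff cd hβ]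
      have h4 : ∀ᶠ g in GC (preS cd (β : Stg)).T, r' ∈ g →
          EvG (P := (preS cd (β : Stg)).T) (cd.bk β) (cd.dec x') g ⊆
            EvG (P := (preS cd (β : Stg)).T) (cd.bk β) (cd.dec x) g := by
        filter_upwards [hev, hX] with g h5 h6 hg
        rw [h5]
        exact h6 hg
      exact h4)
    rw [atC_iff cd hβ] at h1 h2
    refine ⟨r'', hr'', cd.dec x'', ?_, h2⟩
    have h1' : ∀ᶠ g in GC (preS cd (β : Stg)).T, (r'' : (preS cd (β : Stg)).T) ∈ g →
        EvG (P := (preS cd (β : Stg)).T) (cd.bk β) (cd.dec x'') g ⊆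
          EvG (P := (preS cd (β : Stg)).T) (cd.bk β) (cd.dec x') g := h1
    filter_upwards [hev, h1'] with g h5 h6 hg
    rw [← h5]
    exact h6 hg

end Pool.Agent.CIt
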