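import Pool.Agent.Lib_CI.Mixc
import Pool.Agent.Lib_CI.Sepc
import Pool.Agent.Lib_CSI.Res2

/-!
# The concrete iteration
-/

set_option autoImplicit false

namespace Pool.Agent.CIt

open Pool.Agent.GGen Pool.Agent.HMod Pool.Agent.SOU Pool.Agent.SOUi Pool.Agent.CSI

variable {K : Type} [Field K] [DecidableEq K] [Countable K] (cd : Codes K)

/-- the iteration -/
noncomputable def iter : It where
  X := XX
  x₀ := ∅
  At := AtC cd
  refl := atC_refl cd
  trans := atC_trans cd
  mono := atC_mono cd
  top := atC_top cd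
  mix := mix_ax cd
  sep := sep_ax cd

/-- the condition of the `β`-th iterand coded by `x` -/
noncomputable def Ev (β : Ordinal.{0}) (g : GG ((iter cd).PP (β : Stg))) (x : XX) : Set Node :=
  EvG (P := (iter cd).PP (β : Stg)) (cd.bk β) (cd.dec x) g

theorem it_at {β : Ordinal.{0}} (hβ : β ≠ 0) (r : (iter cd).C) (x y : XX) :
    (iter cd).At β r x y ↔
      Fo (P := (iter cd).PP (β : Stg)) r (fun g => Ev cd β g x ⊆ Ev cd β g y) :=
  atC_iff cd hβ r x y

theorem it_at0 (r : (iter cd).C) (x y : XX) :
    (iter cd).At 0 r x y ↔ BS.le (cd.decB x) (cd.decB y) := atC_zero cd r x y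

/-- the `β`-th task is active -/
def ActI (β : Ordinal.{0}) : Prop := Act (P := (iter cd).PP (β : Stg)) (cd.bk β)

theorem it_code {β : Ordinal.{0}} {T : Node → GG ((iter cd).PP (β : Stg)) → Prop}
    (hT : ∀ s, Dec (T s)) : ∃ x : XX, ∀ᶠ g in GC ((iter cd).PP (β : Stg)),
      ev (P := (iter cd).PP (β : Stg)) (cd.dec x) g = {s | T s g} := code_of_dec cd β hT

/-- a code for a shallow name -/
theorem it_code_ev {β : Ordinal.{0}} (S : Node → Set (iter cd).C) :
    ∃ x : XX, ∀ᶠ g in GC ((iter cd).PP (β : Stg)),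
      ev (P := (iter cd).PP (β : Stg)) (cd.dec x) g = ev (P := (iter cd).PP (β : Stg)) S g := by
  obtain ⟨x, hx⟩ := it_code cd (β := β) (T := fun s g => s ∈ ev (P := (iter cd).PP (β : Stg)) S g)
    (fun s => dec_ev (P := (iter cd).PP (β : Stg)) S s)
  exact ⟨x, hx⟩

/-- if the task is not active, or `r` forces that its condition is not in the generic, the order of the coordinate is trivial below `r` -/
theorem it_at_triv {β : Ordinal.{0}} (hβ : β ≠ 0) {r : (iter cd).C}
    (h : ¬ ActI cd β ∨ Fo (P := (iter cd).PP (β : Stg)) r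
      (fun g => ((cd.bk β).1 : (iter cd).PP (β : Stg)) ∉ g)) (x y : XX) :
    (iter cd).At β r x y := by
  rw [it_at cd hβ]
  rcases h with h | h
  · refine fo_of_eventually (Filter.Eventually.of_forall fun g => ?_)
    unfold Ev
    rw [evG_inactive (P := (iter cd).PP (β : Stg)) h, evG_inactive (P := (iter cd).PP (β : Stg)) h]
  · refine Fo.imp h (fo_of_eventually (Filter.Eventually.of_forall fun g hg => ?_))
    unfold Ev
    rw [evG_notMem (P := (iter cd).PP (β : Stg)) hg, evG_notMem (P := (iter cd).PP (β : Stg)) hg]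

end Pool.Agent.CIt
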