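import Pool.Agent.Lib_CI.SemA

/-!
# Piece SEM: the conditions coded by names, decided properties
-/

set_option autoImplicit false

namespace Pool.Agent.CIt

open Pool.Agent.GGen Pool.Agent.HMod Pool.Agent.SOU Pool.Agent.SOUi

universe u w

variable {K : Type} [Field K] [DecidableEq K] [Countable K] {P : Type u} [Preorder P] [OrderTop P]
  {t : Task K P} {S S' : Node → Set P} {g : GG P}

/-! ### decided properties -/

theorem dec_sub {T T' : Node → GG P → Prop} (h : ∀ s, Dec (T s)) (h' : ∀ s, Dec (T' s)) :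
    Dec (fun g => {s | T s g} ⊆ {s | T' s g}) := by
  refine (dec_all (T := fun s g => T s g → T' s g) fun s => (h s).imp (h' s)).congr
    (Filter.Eventually.of_forall fun g => ?_)
  constructor
  · intro h1 s hs
    exact h1 s hs
  · intro h1 s hs
    exact h1 hs

/-- by `isCdT_iff` and `dec_memEvF` (`Dir t.2 g` holds if `t.1 ∈ g`) -/
theorem dec_isCdT (h : Act t) {T : Node → GG P → Prop} (hT : ∀ s, Dec (T s)) :
    Dec (fun g => t.1 ∈ g ∧ IsCdT (tF t g) {s | T s g}) := by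
  have h1 : Dec (fun g => ∃ s, T s g) := dec_ex hT
  have h2 : Dec (fun g => ∀ s, T s g → s.2 ⊆ TypB s.1) :=
    dec_all fun s => (hT s).imp (dec_const _)
  have h3 : Dec (fun g => ∀ s, T s g → ∀ m, m ≤ s.1 → T (cut m s) g) :=
    dec_all fun s => (hT s).imp (dec_all fun m => (dec_const (m ≤ s.1)).imp (hT (cut m s)))
  have h4 : Dec (fun g => ∀ s, T s g → (Dir t.2 g ∧
      {y : ℕ →₀ K | ∀ π : Finset Typ, ∃ t', T t' g ∧ (Ext s t' ∧ Pat s.1 y (π : Set Typ) t')} ∈
        evF t.2 g)) := by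
    refine dec_all fun s => (hT s).imp ?_
    refine dec_memEvF t.2 (T := fun y g => ∀ π : Finset Typ, ∃ t', T t' g ∧
      (Ext s t' ∧ Pat s.1 y (π : Set Typ) t')) fun y => ?_
    exact dec_all fun π => dec_ex fun t' => (hT t').and (dec_const _)
  refine ((dec_mem t.1).and (h1.and (h2.and (h3.and h4)))).congr ?_
  filter_upwards [h] with g hg
  constructor
  · rintro ⟨hp, a1, a2, a3, a4⟩
    exact ⟨hp, isCdT_iff.2 ⟨a1, a2, a3, fun s hs => (a4 s hs).2⟩⟩
  · rintro ⟨hp, a⟩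
    obtain ⟨a1, a2, a3, a4⟩ := isCdT_iff.1 a
    exact ⟨hp, a1, a2, a3, fun s hs => ⟨(hg hp).1, a4 s hs⟩⟩

theorem dec_evG (t : Task K P) (S : Node → Set P) (s : Node) : Dec (fun g => s ∈ EvG t S g) := by
  by_cases h : Act t
  · have hC : Dec (fun g => t.1 ∈ g ∧ IsCdT (tF t g) (ev S g)) :=
      dec_isCdT h (T := fun s g => s ∈ ev S g) fun s => dec_ev S s
    refine ((hC.and (dec_ev S s)).or (hC.not.and (dec_const (s ∈ Full)))).congr
      (Filter.Eventually.of_forall fun g => ?_)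
    by_cases hc : t.1 ∈ g ∧ IsCdT (tF t g) (ev S g)
    · rw [evG_eq h hc.1 hc.2]
      constructor
      · rintro (h1 | h1)
        · exact h1.2
        · exact absurd hc h1.1
      · intro h1
        exact Or.inl ⟨hc, h1⟩
    · have h2 : EvG t S g = Full := if_neg fun h3 => hc h3.2
      rw [h2]
      constructor
      · rintro (h1 | h1)
        · exact absurd h1.1 hc
        · exact h1.2
      · intro h1
        exact Or.inr ⟨hc, h1⟩
  · refine (dec_const (s ∈ Full)).congr (Filter.Eventually.of_forall fun g => ?_)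
    rw [evG_inactive h]

theorem dec_evG_sub (t : Task K P) (S S' : Node → Set P) :
    Dec (fun g => EvG t S g ⊆ EvG t S' g) :=
  dec_sub (T := fun s g => s ∈ EvG t S g) (T' := fun s g => s ∈ EvG t S' g)
    (fun s => dec_evG t S s) fun s => dec_evG t S' s

/-- from `dec_exSet` -/
theorem dec_exCd (h : Act t) {T : Set Node → GG P → Prop}
    (hT : ∀ S : Node → Set P, Dec (fun g => T (ev S g) g)) :
    Dec (fun g => t.1 ∈ g ∧ ∃ R, CdG t g R ∧ T R g) := by
  refine (dec_exSet (T := fun R g => (t.1 ∈ g ∧ IsCdT (tF t g) R) ∧ T R g) fun X =>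
    (dec_isCdT h (T := fun s g => s ∈ ev X g) fun s => dec_ev X s).and (hT X)).congr
      (Filter.Eventually.of_forall fun g => ?_)
  constructor
  · rintro ⟨R, h1, ⟨h2, h3⟩, h4⟩
    exact ⟨h2, R, ⟨h1, h3⟩, h4⟩
  · rintro ⟨h2, R, ⟨h1, h3⟩, h4⟩
    exact ⟨R, h1, ⟨h2, h3⟩, h4⟩

theorem dec_allCd (h : Act t) {T : Set Node → GG P → Prop}
    (hT : ∀ S : Node → Set P, Dec (fun g => T (ev S g) g)) :
    Dec (fun g => t.1 ∈ g ∧ ∀ R, CdG t g R → T R g) := by
  have h1 : Dec (fun g => t.1 ∈ g ∧ ∃ R, CdG t g R ∧ ¬ T R g) :=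
    dec_exCd h (T := fun R g => ¬ T R g) fun S => (hT S).not
  refine ((dec_mem t.1).and h1.not).congr (Filter.Eventually.of_forall fun g => ?_)
  constructor
  · rintro ⟨hp, h2⟩
    refine ⟨hp, fun R hR => ?_⟩
    by_contra h3
    exact h2 ⟨hp, R, hR, h3⟩
  · rintro ⟨hp, h2⟩
    refine ⟨hp, ?_⟩
    rintro ⟨_, R, hR, h3⟩
    exact h3 (h2 R hR)

/-- a name of the part of a condition below a node -/
theorem exists_at_name (h : Act t) (S : Node → Set P) (s : Node) :
    ∃ S' : Node → Set P, ∀ᶠ g in GC P, t.1 ∈ g → s ∈ EvG t S g →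
      EvG t S' g = {u ∈ EvG t S g | Cmp s u} := by
  have hd : ∀ u : Node, Dec (fun g => u ∈ EvG t S g ∧ Cmp s u) := fun u =>
    (dec_evG t S u).and (dec_const _)
  refine ⟨fun u => {c : P | Fo c (fun g => u ∈ EvG t S g ∧ Cmp s u)}, ?_⟩
  filter_upwards [ev_of_dec hd, evG_cd h, cd_at h, GC_has S] with g h1 h2 h3 h4 hp hs
  have h5 : CdG t g {u ∈ EvG t S g | Cmp s u} := h3 hp _ (h2 hp S h4) s hs
  have h6 : ev (fun u => {c : P | Fo c (fun g => u ∈ EvG t S g ∧ Cmp s u)}) g =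
      {u ∈ EvG t S g | Cmp s u} := h1
  have h7 : IsCdT (tF t g) (ev (fun u => {c : P | Fo c (fun g => u ∈ EvG t S g ∧ Cmp s u)}) g) := by
    rw [h6]
    exact h5.2
  rw [evG_eq h hp h7, h6]

end Pool.Agent.CIt
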