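import Pool.Agent.Lib_CI.Codes
import Pool.Agent.Lib_CI.Sem

/-!
# The concrete iteration: definition

At the coordinate `0` the forcing of block sequences; at `β ≠ 0` the forcing for the (p+)-filter named by the task `bk β` if this task is active.
-/

set_option autoImplicit false

namespace Pool.Agent.CIt

open Pool.Agent.GGen Pool.Agent.HMod Pool.Agent.SOU Pool.Agent.SOUi Pool.Agent.CSI

/-- a preorder on the conditions with largest element `oneC` -/
structure PreS : Type 1 where
  le : CC → CC → Prop
  refl : ∀ p, le p p
  trans : ∀ p q r, le p q → le q r → le p r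
  top : ∀ p, le p oneC

/-- the conditions with this preorder -/
def PreS.T (_s : PreS) : Type 1 := CC

instance (s : PreS) : Preorder s.T where
  le p q := s.le p q
  le_refl := s.refl
  le_trans := s.trans

instance (s : PreS) : OrderTop s.T where
  top := oneC
  le_top := s.top

def PreOK (le : CC → CC → Prop) : Prop :=
  (∀ p, le p p) ∧ (∀ p q r, le p q → le q r → le p r) ∧ ∀ p, le p oneC

variable {K : Type} [Field K] [DecidableEq K] [Countable K] (cd : Codes K)

/-- `r` forces (over the preorder `s`) that the condition coded by `x` is below the condition coded by `y` -/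
def SemLe (β : Ordinal.{0}) (s : PreS) (r : CC) (x y : XX) : Prop :=
  ∀ᶠ g in GC s.T, (r : s.T) ∈ g →
    EvG (P := s.T) (cd.bk β) (cd.dec x) g ⊆ EvG (P := s.T) (cd.bk β) (cd.dec y) g

open Classical in
/-- the relation at the coordinate `β`, given the preorder of the stage `β` -/
noncomputable def stepAt (β : Ordinal.{0}) (le : CC → CC → Prop) (r : CC) (x y : XX) : Prop :=
  if β = 0 then BS.le (cd.decB x) (cd.decB y)
  else if h : PreOK le then SemLe cd β ⟨le, h.1, h.2.1, h.2.2⟩ r x y else True

open Classical in
/-- the relations of the coordinates, by recursion -/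
noncomputable def AtC : Ordinal.{0} → CC → XX → XX → Prop :=
  (wellFounded_lt (α := Ordinal.{0})).fix (fun β ih => stepAt cd β
    (LeOf (fun γ => if h : γ < β then ih γ h else fun _ _ _ => True) (β : Stg)))

end Pool.Agent.CIt
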