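import Pool.Agent.Lib_CI.Sem
import Pool.Agent.Lib_MP_a0d45a_int.Killi

/-!
# Piece KILLG: the generic set of vectors over a good generic
-/

set_option autoImplicit false

namespace Pool.Agent.CIt

open Pool.Agent.GGen Pool.Agent.HMod Pool.Agent.SOU Pool.Agent.SOUi

universe u

variable {K : Type} [Field K] [DecidableEq K] [Countable K] {P : Type u} [Preorder P] [OrderTop P]
  {t : Task K P}

/-- from `kill_in_i` -/
theorem killIn_g (ht : Act t) : ∀ᶠ g in GC P, t.1 ∈ g → ∀ X : ℕ → ℕ →₀ K, bs X ∈ tF t g →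
    ∀ S₀ : Node → Set P, g.has S₀ → ∃ S : Node → Set P, g.has S ∧ CdG t g (ev S g) ∧
      ev S g ⊆ EvG t S₀ g ∧ ∃ y ∈ bs X, WIn (ev S g) y := by
  filter_upwards [gc_std (K := K) (P := P), ht, evG_cd ht, cd_rep ht]
    with g hstd hact hcd hrep htg X hX S₀ hS₀
  have := hstd
  obtain ⟨hdir, hpp⟩ := hact htg
  have hBF : IsBlockFilteri g.M (tF t g) := hpp.toIsFulli.toIsBlockFilteri
  have : Fact (IsIFil g.M (tF t g)) := ⟨hBF.fil⟩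
  obtain ⟨hTi, p, hp⟩ := hcd htg S₀ hS₀
  have hpi : Int g.M (fun s => s ∈ p.T) := by
    rw [hp]
    exact hTi
  obtain ⟨q, hq, y, hyX, hqW⟩ := kill_in_i (𝔐 := g.M) hpp hX ⟨p, hpi⟩
  obtain ⟨S, hS, hSq, -⟩ := hrep htg q.1.T ⟨q.2, q.1, rfl⟩
  refine ⟨S, hS, ?_, ?_, y, hyX, ?_⟩
  · rw [hSq]
    exact ⟨q.2, q.1, rfl⟩
  · rw [hSq, ← hp]
    exact cdI_le_iff.1 hq
  · rw [hSq]
    exact hqW

/-- from `kill_out_i` -/
theorem killOut_g (hK : ∃ a : K, a ≠ 0 ∧ a ≠ 1) (ht : Act t) : ∀ᶠ g in GC P, t.1 ∈ g →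
    ∀ X : ℕ → ℕ →₀ K, bs X ∈ tF t g → ∀ S₀ : Node → Set P, g.has S₀ →
      ∃ S : Node → Set P, g.has S ∧ CdG t g (ev S g) ∧ ev S g ⊆ EvG t S₀ g ∧
        ∃ Z : ℕ → ℕ →₀ K, IntF g.M Z ∧ Blk Z ∧ bs Z ⊆ bs X ∧ ∀ v ∈ bs Z, WOut t g (ev S g) v := by
  filter_upwards [gc_std (K := K) (P := P), ht, evG_cd ht, cd_rep ht]
    with g hstd hact hcd hrep htg X hX S₀ hS₀
  have := hstd
  obtain ⟨hdir, hpp⟩ := hact htg
  have hBF : IsBlockFilteri g.M (tF t g) := hpp.toIsFulli.toIsBlockFilteri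
  have : Fact (IsIFil g.M (tF t g)) := ⟨hBF.fil⟩
  obtain ⟨hTi, p, hp⟩ := hcd htg S₀ hS₀
  have hpi : Int g.M (fun s => s ∈ p.T) := by
    rw [hp]
    exact hTi
  obtain ⟨q, hq, Z, hZi, hZb, hZX, hZout⟩ := kill_out_i (𝔐 := g.M) hK hpp hX ⟨p, hpi⟩
  obtain ⟨S, hS, hSq, -⟩ := hrep htg q.1.T ⟨q.2, q.1, rfl⟩
  refine ⟨S, hS, ?_, ?_, Z, hZi, hZb, hZX, ?_⟩
  · rw [hSq]
    exact ⟨q.2, q.1, rfl⟩
  · rw [hSq, ← hp]
    exact cdI_le_iff.1 hq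
  · intro v hv R hR hRS hW
    obtain ⟨hRi, r, hr⟩ := hR
    have hri : Int g.M (fun s => s ∈ r.T) := by
      rw [hr]
      exact hRi
    refine hZout v hv (⟨r, hri⟩ : CdI g.M (tF t g)) ?_ ?_
    · refine cdI_le_iff.2 ?_
      change r.T ⊆ q.1.T
      rw [hr, ← hSq]
      exact hRS
    · intro s hs
      have hs' : s ∈ R := by
        rw [← hr]
        exact hs
      exact hW s hs'

end Pool.Agent.CIt
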