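import Pool.Agent.Lib_CI.Bd
import Pool.Agent.Lib_CI.KillG
import Pool.Agent.Lib_CI.SemDec
import Pool.Agent.Lib_CI.DecPP

/-!
# Piece CIKILLF: the set of vectors added by the `γ`-th iterand
-/

set_option autoImplicit false

namespace Pool.Agent.CIt

open Pool.Agent.GGen Pool.Agent.HMod Pool.Agent.SOU Pool.Agent.SOUi Pool.Agent.CSI

section order

variable {I : It} {γ : Ordinal.{0}} {s c : I.C} {x : I.X}

/-- the condition `s` below `γ`, `x` at `γ`, `c` above -/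
theorem kf_put_left : I.le (γ : Stg) (I.put (I.glue (γ : Stg) s c) γ x) s := by
  refine le_of_eqOn fun ε hε => ?_
  rw [put_ne (WithTop.coe_lt_coe.1 hε).ne, glue_lt hε]

theorem kf_put_le (h : I.le (γ : Stg) s c) (hx : I.At γ s x (c.1 γ)) :
    I.le ⊤ (I.put (I.glue (γ : Stg) s c) γ x) c := by
  intro ε hε
  have ht : I.le (γ : Stg) (I.put (I.glue (γ : Stg) s c) γ x) s := kf_put_left
  rcases lt_trichotomy ε γ with h1 | h1 | h1
  · rw [put_ne h1.ne, glue_lt (WithTop.coe_lt_coe.mpr h1)]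
    exact I.mono ε s _ _ _ (I.le_stage (le_of_lt (WithTop.coe_lt_coe.mpr h1)) ht)
      (h ε (WithTop.coe_lt_coe.mpr h1))
  · subst h1
    rw [put_same]
    exact I.mono ε s _ _ _ ht hx
  · rw [put_ne h1.ne', glue_ge (WithTop.coe_le_coe.mpr h1.le)]
    exact I.refl ε _ _

end order

variable {K : Type} [Field K] [DecidableEq K] [Countable K] (cd : Codes K)

/-- the name of the generic set of vectors of the `γ`-th iterand -/
def WN (γ : Ordinal.{0}) : (ℕ →₀ K) → Set (iter cd).C :=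
  fun v => {c | Fo (P := (iter cd).PP (γ : Stg)) c (fun h => WIn (Ev cd γ h (c.1 γ)) v)}

/-- the names of sequences -/
abbrev KfN : Type 1 := ℕ × (ℕ →₀ K) → Set (iter cd).C

/-- `B` is the graph of a sequence `X` with `bs X` in the filter -/
def KfPhi (γ : Ordinal.{0}) (B : KfN cd) (h : GG ((iter cd).PP (γ : Stg))) : Prop :=
  (((cd.bk γ).1 : (iter cd).PP (γ : Stg)) ∈ h ∧
    ∃ f : ℕ → ℕ →₀ K, ev (P := (iter cd).PP (γ : Stg)) B h = {q | f q.1 = q.2}) ∧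
  (Dir (P := (iter cd).PP (γ : Stg)) (cd.bk γ).2 h ∧
    bs (dpp_fn (P := (iter cd).PP (γ : Stg)) B h) ∈
      evF (P := (iter cd).PP (γ : Stg)) (cd.bk γ).2 h)

theorem kf_dec_phi (γ : Ordinal.{0}) (B : KfN cd) : Dec (KfPhi cd γ B) :=
  ((dec_mem (P := (iter cd).PP (γ : Stg)) (cd.bk γ).1).and
    (dec_isFun (P := (iter cd).PP (γ : Stg)) B)).and
    (dec_memEvF (P := (iter cd).PP (γ : Stg)) (cd.bk γ).2
      (T := fun v g => v ∈ bs (dpp_fn (P := (iter cd).PP (γ : Stg)) B g))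
      fun v => dpp_bs (P := (iter cd).PP (γ : Stg)) B v)

/-- the value of a code of a name of a condition -/
theorem kf_code {γ : Ordinal.{0}} (hact : ActI cd γ) {z : XX} {S : Node → Set (iter cd).C}
    {h : GG ((iter cd).PP (γ : Stg))}
    (h1 : ev (P := (iter cd).PP (γ : Stg)) (cd.dec z) h = ev (P := (iter cd).PP (γ : Stg)) S h)
    (h2 : ((cd.bk γ).1 : (iter cd).PP (γ : Stg)) ∈ h)
    (h3 : IsCdT (tF (P := (iter cd).PP (γ : Stg)) (cd.bk γ) h)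
      (ev (P := (iter cd).PP (γ : Stg)) S h)) :
    Ev cd γ h z = ev (P := (iter cd).PP (γ : Stg)) S h := by
  have h4 : EvG (P := (iter cd).PP (γ : Stg)) (cd.bk γ) (cd.dec z) h =
      ev (P := (iter cd).PP (γ : Stg)) (cd.dec z) h :=
    evG_eq (P := (iter cd).PP (γ : Stg)) hact h2 (by rw [h1]; exact h3)
  exact h4.trans h1

/-- extension of a condition by a condition of the stage `γ` and a name of a smaller condition of
the coordinate `γ` -/
theorem kf_ext {γ : Ordinal.{0}} (hγ : γ ≠ 0) (hact : ActI cd γ) {c s : (iter cd).C}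
    {S : Node → Set (iter cd).C} (hsc : (iter cd).le (γ : Stg) s c)
    (hS : Fo (P := (iter cd).PP (γ : Stg)) s (fun h =>
      (((cd.bk γ).1 : (iter cd).PP (γ : Stg)) ∈ h ∧
        IsCdT (tF (P := (iter cd).PP (γ : Stg)) (cd.bk γ) h)
          (ev (P := (iter cd).PP (γ : Stg)) S h)) ∧
      ev (P := (iter cd).PP (γ : Stg)) S h ⊆ EvG (P := (iter cd).PP (γ : Stg)) (cd.bk γ)
        (cd.dec (c.1 γ)) h)) :
    ∃ c' : (iter cd).C, (iter cd).le ⊤ c' c ∧ (iter cd).le (γ : Stg) c' s ∧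
      Fo (P := (iter cd).PP (γ : Stg)) s (fun h =>
        Ev cd γ h (c'.1 γ) = ev (P := (iter cd).PP (γ : Stg)) S h) := by
  obtain ⟨x, hx⟩ := it_code_ev cd (β := γ) S
  have hS' : ∀ᶠ h in GC ((iter cd).PP (γ : Stg)), (s : (iter cd).PP (γ : Stg)) ∈ h →
      (((cd.bk γ).1 : (iter cd).PP (γ : Stg)) ∈ h ∧
        IsCdT (tF (P := (iter cd).PP (γ : Stg)) (cd.bk γ) h)
          (ev (P := (iter cd).PP (γ : Stg)) S h)) ∧
      ev (P := (iter cd).PP (γ : Stg)) S h ⊆ EvG (P := (iter cd).PP (γ : Stg)) (cd.bk γ)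
        (cd.dec (c.1 γ)) h := hS
  refine ⟨(iter cd).put ((iter cd).glue (γ : Stg) s c) γ x, kf_put_le hsc ?_, kf_put_left, ?_⟩
  · rw [it_at cd hγ]
    show ∀ᶠ h in GC ((iter cd).PP (γ : Stg)), (s : (iter cd).PP (γ : Stg)) ∈ h → _
    filter_upwards [hS', hx] with h h1 h2 h3
    obtain ⟨⟨h4, h5⟩, h6⟩ := h1 h3
    rw [kf_code cd hact h2 h4 h5]
    exact h6
  · show ∀ᶠ h in GC ((iter cd).PP (γ : Stg)), (s : (iter cd).PP (γ : Stg)) ∈ h → _
    filter_upwards [hS', hx] with h h1 h2 h3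
    obtain ⟨⟨h4, h5⟩, h6⟩ := h1 h3
    rw [put_same]
    exact kf_code cd hact h2 h4 h5

/-- the case that `KfPhi` fails -/
theorem kf_ext_not {γ : Ordinal.{0}} {c s : (iter cd).C} (hsc : (iter cd).le (γ : Stg) s c)
    {T : GG ((iter cd).PP (γ : Stg)) → Prop} (hT : Fo (P := (iter cd).PP (γ : Stg)) s T) :
    ∃ c' : (iter cd).C, (iter cd).le ⊤ c' c ∧ Fo (P := (iter cd).PP (γ : Stg)) c' T :=
  ⟨(iter cd).glue (γ : Stg) s c, glue_le hsc,
    Fo.mono (P := (iter cd).PP (γ : Stg)) hT glue_le_left⟩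

omit [Countable K] in
theorem kf_dec_win {P : Type 1} [Preorder P] [OrderTop P] (S : Node → Set P) (v : ℕ →₀ K) :
    Dec (fun g => WIn (ev S g) v) := by
  refine (dec_all (ι := Node) fun s => (dec_ev S s).imp
    (dec_const (Hi s.1 v.support → ty v ∈ s.2))).congr (Filter.Eventually.of_forall fun g => ?_)
  exact Iff.rfl

/-- the dense set for `wn_in` -/
def KfD (γ : Ordinal.{0}) (B : KfN cd) : Set ((iter cd).PP ⊤) :=
  {c : (iter cd).C | Fo (P := (iter cd).PP (γ : Stg)) c (fun h => ¬ KfPhi cd γ B h) ∨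
    ∃ y, Fo (P := (iter cd).PP (γ : Stg)) c
      (fun h => y ∈ bs (dpp_fn (P := (iter cd).PP (γ : Stg)) B h)) ∧ c ∈ WN cd γ y}

theorem kf_dense {γ : Ordinal.{0}} (hγ : γ ≠ 0) (hact : ActI cd γ) (B : KfN cd)
    (c : (iter cd).PP ⊤) : ∃ r ≤ c, r ∈ KfD cd γ B := by
  -- the decided statements
  let TT : (ℕ →₀ K) → (Node → Set ((iter cd).PP (γ : Stg))) →
      GG ((iter cd).PP (γ : Stg)) → Prop := fun y S h =>
    ((((cd.bk γ).1 : (iter cd).PP (γ : Stg)) ∈ h ∧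
        IsCdT (tF (P := (iter cd).PP (γ : Stg)) (cd.bk γ) h)
          (ev (P := (iter cd).PP (γ : Stg)) S h)) ∧
      ev (P := (iter cd).PP (γ : Stg)) S h ⊆ EvG (P := (iter cd).PP (γ : Stg)) (cd.bk γ)
        (cd.dec (Subtype.val (p := fun f : Ordinal.{0} → XX => {β | f β ≠ (iter cd).x₀}.Countable) c γ)) h) ∧
      (y ∈ bs (dpp_fn (P := (iter cd).PP (γ : Stg)) B h) ∧
        WIn (ev (P := (iter cd).PP (γ : Stg)) S h) y)
  have hTT : ∀ y S, Dec (TT y S) := fun y S =>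
    ((dec_isCdT (P := (iter cd).PP (γ : Stg)) hact
        (T := fun s g => s ∈ ev (P := (iter cd).PP (γ : Stg)) S g) (fun s => dec_ev S s)).and
      (semdec_sub_evG (P := (iter cd).PP (γ : Stg)) (cd.bk γ) S _)).and
      ((dpp_bs (P := (iter cd).PP (γ : Stg)) B y).and (kf_dec_win S y))
  have hTT1 : ∀ᶠ h in GC ((iter cd).PP (γ : Stg)), ∀ y, ∀ S, h.has S → TT y S h →
      ∃ n, Fo (h.gen.G n) (TT y S) :=
    eventually_countable_forall.2 fun y => Dec.truthH (hTT y)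
  have hall := hTT1.and ((kf_dec_phi cd γ B).not.truth.and
    ((killIn_g (P := (iter cd).PP (γ : Stg)) hact).and
      (GC_has (P := (iter cd).PP (γ : Stg)) (Y := Node → Set ((iter cd).PP (γ : Stg)))
        (cd.dec (Subtype.val (p := fun f : Ordinal.{0} → XX => {β | f β ≠ (iter cd).x₀}.Countable) c γ)))))
  obtain ⟨h, ⟨g1, g2, g3, g4⟩, hch⟩ := GC_exists' hall (c : (iter cd).PP (γ : Stg))
  by_cases hφ : KfPhi cd γ B h
  · obtain ⟨⟨htg, f, hf⟩, hD, hF⟩ := hφ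
    obtain ⟨S, hS1, hS2, hS3, y, hy, hW⟩ := g3 htg _ hF _ g4
    obtain ⟨n, hn⟩ := g1 y S hS1 ⟨⟨⟨htg, hS2.2⟩, hS3⟩, hy, hW⟩
    obtain ⟨s, _, _, hsc, hsn⟩ := mem_common hch (G_mem h n)
    have hs : Fo s (TT y S) := hn.mono hsn
    have hs1 : Fo (P := (iter cd).PP (γ : Stg)) s (fun h =>
      (((cd.bk γ).1 : (iter cd).PP (γ : Stg)) ∈ h ∧
        IsCdT (tF (P := (iter cd).PP (γ : Stg)) (cd.bk γ) h)
          (ev (P := (iter cd).PP (γ : Stg)) S h)) ∧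
      ev (P := (iter cd).PP (γ : Stg)) S h ⊆ EvG (P := (iter cd).PP (γ : Stg)) (cd.bk γ)
        (cd.dec (Subtype.val (p := fun f : Ordinal.{0} → XX => {β | f β ≠ (iter cd).x₀}.Countable) c γ)) h) :=
      hs.imp (fo_of_eventually (Filter.Eventually.of_forall fun g hg => hg.1))
    obtain ⟨c', hc1, hc2, hc3⟩ := kf_ext cd hγ hact (c := c) (s := s) (S := S) hsc hs1
    refine ⟨c', hc1, Or.inr ⟨y, ?_, ?_⟩⟩
    · refine Fo.mono (P := (iter cd).PP (γ : Stg)) (p := s) ?_ hc2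
      exact hs.imp (fo_of_eventually (Filter.Eventually.of_forall fun g hg => hg.2.1))
    · refine Fo.mono (P := (iter cd).PP (γ : Stg)) (p := s) ?_ hc2
      refine (hs.and hc3).imp (fo_of_eventually (Filter.Eventually.of_forall fun g hg => ?_))
      rw [hg.2]
      exact hg.1.2.2
  · obtain ⟨n, hn⟩ := g2 hφ
    obtain ⟨s, _, _, hsc, hsn⟩ := mem_common hch (G_mem h n)
    obtain ⟨c', hc1, hc2⟩ := kf_ext_not cd (c := c) (s := s) hsc (hn.mono hsn)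
    exact ⟨c', hc1, Or.inl hc2⟩

/-- from forcing at the stage `γ` to the truth in the restriction -/
theorem kf_res {γ : Ordinal.{0}} {T : (iter cd).C → GG ((iter cd).PP (γ : Stg)) → Prop} :
    ∀ᶠ g in GC ((iter cd).PP ⊤), ∀ d : (iter cd).C, g.has d →
      Fo (P := (iter cd).PP (γ : Stg)) d (T d) → (d : (iter cd).PP ⊤) ∈ g →
        T d ((iter cd).res (γ : Stg) g) := by
  refine GC_normalH (P := (iter cd).PP ⊤) (Y := (iter cd).C) fun d => ?_
  by_cases h : Fo (P := (iter cd).PP (γ : Stg)) d (T d)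
  · have h1 : ∀ᶠ g in GC ((iter cd).PP ⊤), (d : (iter cd).PP ⊤) ∈ g →
        T d ((iter cd).res (γ : Stg) g) := fo_res_up (I := iter cd) (α := (γ : Stg)) (δ := ⊤) le_top h
    filter_upwards [h1] with g h2 _ h3
    exact h2 h3
  · filter_upwards with g h2
    exact absurd h2 h

theorem kf_in {γ : Ordinal.{0}} (hγ : γ ≠ 0) (hact : ActI cd γ) (B : KfN cd) :
    ∀ᶠ g in GC ((iter cd).PP ⊤), KfPhi cd γ B ((iter cd).res (γ : Stg) g) →
      ∃ y, y ∈ bs (dpp_fn (P := (iter cd).PP (γ : Stg)) B ((iter cd).res (γ : Stg) g)) ∧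
        y ∈ ev (P := (iter cd).PP ⊤) (WN cd γ) g := by
  have h1 : ∀ᶠ g in GC ((iter cd).PP ⊤), (⊤ : (iter cd).PP ⊤) ∈ g →
      ∃ d ∈ KfD cd γ B, d ∈ g ∧ g.has d :=
    GC_denseBelow' (P := (iter cd).PP ⊤) (D := KfD cd γ B) (p := ⊤)
      fun c _ => kf_dense cd hγ hact B c
  have h3 : ∀ᶠ g in GC ((iter cd).PP ⊤), ∀ y : ℕ →₀ K, ∀ d : (iter cd).C, g.has d →
      Fo (P := (iter cd).PP (γ : Stg)) d (fun h => y ∈ bs (dpp_fn (P := (iter cd).PP (γ : Stg)) B h)) →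
        (d : (iter cd).PP ⊤) ∈ g →
        y ∈ bs (dpp_fn (P := (iter cd).PP (γ : Stg)) B ((iter cd).res (γ : Stg) g)) :=
    eventually_countable_forall.2 fun y => kf_res cd (T := fun _ h =>
      y ∈ bs (dpp_fn (P := (iter cd).PP (γ : Stg)) B h))
  filter_upwards [h1, kf_res cd (γ := γ) (T := fun _ h => ¬ KfPhi cd γ B h), h3]
    with g g1 g2 g3 hφ
  obtain ⟨d, hd, hdg, hdh⟩ := g1 (top_mem g)
  rcases hd with hd | ⟨y, hy, hW⟩
  · exact absurd hφ (g2 d hdh hd hdg)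
  · exact ⟨y, g3 y d hdh hy hdg, d, hW, hdg⟩

/-- the hypothesis in the theorems -/
theorem kf_rep {γ : Ordinal.{0}} (hact : ActI cd γ) :
    ∀ᶠ g in GC ((iter cd).PP ⊤), ((cd.bk γ).1 : (iter cd).PP ⊤) ∈ g → ∀ X : ℕ → ℕ →₀ K,
      IntF ((iter cd).res (γ : Stg) g).M X →
        bs X ∈ evF (P := (iter cd).PP (γ : Stg)) (cd.bk γ).2 ((iter cd).res (γ : Stg) g) →
          ∃ B : KfN cd, g.has B ∧ KfPhi cd γ B ((iter cd).res (γ : Stg) g) ∧
            dpp_fn (P := (iter cd).PP (γ : Stg)) B ((iter cd).res (γ : Stg) g) = X := by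
  have hact' : ∀ᶠ h in GC ((iter cd).PP (γ : Stg)), ((cd.bk γ).1 : (iter cd).PP (γ : Stg)) ∈ h →
      Dir (P := (iter cd).PP (γ : Stg)) (cd.bk γ).2 h ∧
        IsPPlusi h.M (tF (P := (iter cd).PP (γ : Stg)) (cd.bk γ) h) := hact
  filter_upwards [res_club (I := iter cd) (α := (γ : Stg)) (δ := ⊤) le_top
      (rep_fun (P := (iter cd).PP (γ : Stg)) (ι := ℕ) (ι' := ℕ →₀ K)),
    res_club (I := iter cd) (α := (γ : Stg)) (δ := ⊤) le_top hact'] with g h1 h2 hg X hX hXF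
  obtain ⟨hr, h3⟩ := h1
  obtain ⟨B, hB, hBX⟩ := h3 X hX
  have h4 : dpp_fn (P := (iter cd).PP (γ : Stg)) B ((iter cd).res (γ : Stg) g) = X :=
    dpp_fn_eq (P := (iter cd).PP (γ : Stg)) hBX
  have h5 : ((cd.bk γ).1 : (iter cd).PP (γ : Stg)) ∈ (iter cd).res (γ : Stg) g :=
    isRes_mem (I := iter cd) (α := (γ : Stg)) (δ := ⊤) le_top hr hg
  refine ⟨B, (isRes_has hr B).1 hB, ⟨⟨h5, X, hBX⟩, (h2.2 h5).1, ?_⟩, h4⟩
  rw [h4]
  exact hXF

/-- PROOF. Let `t = bk γ`, `g ∋ t.1` a good generic of the last stage, `h = res γ g`. `X` has a name `B` in the hull (`rep_fun` at the stage `γ`; normality: fix `B`). Let `D` be the set of the conditions `c` (last stage) such that `c` forces at the stage `γ` the negation of `φ_B = (t.1 ∈ h and ev B h is the graph of a block sequence X with bs X ∈ evF t.2 h)`, or for some vector `y` it forces at the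
stage `γ` that `t.1 ∈ h`, `y ∈ bs X` (for the `X` with graph `ev B h`) and `WIn (Ev (c γ)) y`. `D` is dense: let `c` be given, take a good generic `h ∋ c` of the stage `γ`. If `φ_B` fails some `c₀ ≤_γ c` forces the negation (it is decided: `dec_blk`, `dec_mem_bs`, `dec_memEvF`, `dec_graph`), take `glue γ c₀ c`. Otherwise apply `killIn_g` to `X` and `S₀ = dec (c γ)`: we get `S`, `y`; the
statement `t.1 ∈ h ∧ IsCdT (ev S h) ∧ ev S h ⊆ Ev (c γ) ∧ y ∈ bs X ∧ WIn (ev S h) y` is decided, so forced by some `s₀ ≤_γ c`; let `x` be a code of `S` (`it_code_ev`; then `Ev x = ev S h`) and `c' = put (glue γ s₀ c) γ x`: `c' ≤_⊤ c`. So some `d ∈ D` is in `g` and in the hull (`GC_denseBelow'`), and its second alternative holds, by `GC_fo` at the stage `γ`. `d ∈ WN y`. -/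
theorem wn_in {γ : Ordinal.{0}} (hγ : γ ≠ 0) (hact : ActI cd γ) :
    Fo (P := (iter cd).PP ⊤) ((cd.bk γ).1 : (iter cd).C) (fun g => ∀ X : ℕ → ℕ →₀ K,
      IntF ((iter cd).res (γ : Stg) g).M X → Blk X →
        bs X ∈ evF (P := (iter cd).PP (γ : Stg)) (cd.bk γ).2 ((iter cd).res (γ : Stg) g) →
          ∃ y ∈ bs X, y ∈ ev (P := (iter cd).PP ⊤) (WN cd γ) g) := by
  show ∀ᶠ g in GC ((iter cd).PP ⊤), ((cd.bk γ).1 : (iter cd).PP ⊤) ∈ g → _
  filter_upwards [kf_rep cd hact, GC_normalH (P := (iter cd).PP ⊤) (Y := KfN cd)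
    (fun B => kf_in cd hγ hact B)] with g h1 h2 hg X hX _ hXF
  obtain ⟨B, hB, hφ, hBX⟩ := h1 hg X hX hXF
  obtain ⟨y, hy, hyW⟩ := h2 B hB hφ
  rw [hBX] at hy
  exact ⟨y, hy, hyW⟩

/-- the statement that `B'` names a sequence whose block subspace is avoided -/
def KfPsi (γ : Ordinal.{0}) (B B' : KfN cd) (W : GG ((iter cd).PP (γ : Stg)) → Set Node)
    (h : GG ((iter cd).PP (γ : Stg))) : Prop :=
  (∃ f : ℕ → ℕ →₀ K, ev (P := (iter cd).PP (γ : Stg)) B' h = {q | f q.1 = q.2}) ∧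
  (Blk (dpp_fn (P := (iter cd).PP (γ : Stg)) B' h) ∧
  ((∀ v, v ∈ bs (dpp_fn (P := (iter cd).PP (γ : Stg)) B' h) →
    v ∈ bs (dpp_fn (P := (iter cd).PP (γ : Stg)) B h)) ∧
  ∀ v, v ∈ bs (dpp_fn (P := (iter cd).PP (γ : Stg)) B' h) →
    (((cd.bk γ).1 : (iter cd).PP (γ : Stg)) ∈ h ∧
      WOut (P := (iter cd).PP (γ : Stg)) (cd.bk γ) h (W h) v)))

theorem kf_dec_psi {γ : Ordinal.{0}} (hact : ActI cd γ) (B B' : KfN cd)
    (S : Node → Set ((iter cd).PP (γ : Stg))) :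
    Dec (KfPsi cd γ B B' (fun h => ev (P := (iter cd).PP (γ : Stg)) S h)) :=
  (dec_isFun (P := (iter cd).PP (γ : Stg)) B').and
    ((dpp_blk (P := (iter cd).PP (γ : Stg)) B').and
      ((dec_all fun v => (dpp_bs (P := (iter cd).PP (γ : Stg)) B' v).imp
        (dpp_bs (P := (iter cd).PP (γ : Stg)) B v)).and
      (dec_all fun v => (dpp_bs (P := (iter cd).PP (γ : Stg)) B' v).imp
        (dec_wOut (P := (iter cd).PP (γ : Stg)) hact S v))))

/-- the dense set for `wn_out` -/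
def KfE (γ : Ordinal.{0}) (B : KfN cd) : Set ((iter cd).PP ⊤) :=
  {c : (iter cd).C | Fo (P := (iter cd).PP (γ : Stg)) c (fun h => ¬ KfPhi cd γ B h) ∨
    ∃ B' : KfN cd, Fo (P := (iter cd).PP (γ : Stg)) c
      (KfPsi cd γ B B' (fun h => Ev cd γ h (c.1 γ)))}

theorem kf_denseE (hK : ∃ a : K, a ≠ 0 ∧ a ≠ 1) {γ : Ordinal.{0}} (hγ : γ ≠ 0)
    (hact : ActI cd γ) (B : KfN cd) (c : (iter cd).PP ⊤) : ∃ r ≤ c, r ∈ KfE cd γ B := by
  -- the decided statements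
  let TT : (Node → Set ((iter cd).PP (γ : Stg))) → KfN cd →
      GG ((iter cd).PP (γ : Stg)) → Prop := fun S B' h =>
    ((((cd.bk γ).1 : (iter cd).PP (γ : Stg)) ∈ h ∧
        IsCdT (tF (P := (iter cd).PP (γ : Stg)) (cd.bk γ) h)
          (ev (P := (iter cd).PP (γ : Stg)) S h)) ∧
      ev (P := (iter cd).PP (γ : Stg)) S h ⊆ EvG (P := (iter cd).PP (γ : Stg)) (cd.bk γ)
        (cd.dec (Subtype.val (p := fun f : Ordinal.{0} → XX => {β | f β ≠ (iter cd).x₀}.Countable) c γ)) h) ∧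
      KfPsi cd γ B B' (fun h => ev (P := (iter cd).PP (γ : Stg)) S h) h
  have hTT : ∀ S B', Dec (TT S B') := fun S B' =>
    ((dec_isCdT (P := (iter cd).PP (γ : Stg)) hact
        (T := fun s g => s ∈ ev (P := (iter cd).PP (γ : Stg)) S g) (fun s => dec_ev S s)).and
      (semdec_sub_evG (P := (iter cd).PP (γ : Stg)) (cd.bk γ) S _)).and
      (kf_dec_psi cd hact B B' S)
  have hTT1 : ∀ᶠ h in GC ((iter cd).PP (γ : Stg)), ∀ S, h.has S → ∀ B' : KfN cd, h.has B' →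
      TT S B' h → ∃ n, Fo (h.gen.G n) (TT S B') :=
    GC_normalH fun S => Dec.truthH (Y := KfN cd) (hTT S)
  have hall := hTT1.and ((kf_dec_phi cd γ B).not.truth.and
    ((killOut_g (P := (iter cd).PP (γ : Stg)) hK hact).and
      ((GC_has (P := (iter cd).PP (γ : Stg)) (Y := Node → Set ((iter cd).PP (γ : Stg)))
        (cd.dec (Subtype.val (p := fun f : Ordinal.{0} → XX => {β | f β ≠ (iter cd).x₀}.Countable) c γ))).and
      (rep_fun (P := (iter cd).PP (γ : Stg)) (ι := ℕ) (ι' := ℕ →₀ K)))))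
  obtain ⟨h, ⟨g1, g2, g3, g4, g5⟩, hch⟩ := GC_exists' hall (c : (iter cd).PP (γ : Stg))
  by_cases hφ : KfPhi cd γ B h
  · obtain ⟨⟨htg, f, hf⟩, hD, hF⟩ := hφ
    obtain ⟨S, hS1, hS2, hS3, Z, hZi, hZb, hZX, hZ⟩ := g3 htg _ hF _ g4
    obtain ⟨B', hB', hBZ⟩ := g5 Z hZi
    have hZe : dpp_fn (P := (iter cd).PP (γ : Stg)) B' h = Z :=
      dpp_fn_eq (P := (iter cd).PP (γ : Stg)) hBZ
    obtain ⟨n, hn⟩ := g1 S hS1 B' hB' ⟨⟨⟨htg, hS2.2⟩, hS3⟩, ⟨Z, hBZ⟩, by rw [hZe]; exact hZb,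
      by rw [hZe]; exact fun v hv => hZX hv, by rw [hZe]; exact fun v hv => ⟨htg, hZ v hv⟩⟩
    obtain ⟨s, _, _, hsc, hsn⟩ := mem_common hch (G_mem h n)
    have hs : Fo s (TT S B') := hn.mono hsn
    have hs1 : Fo (P := (iter cd).PP (γ : Stg)) s (fun h =>
      (((cd.bk γ).1 : (iter cd).PP (γ : Stg)) ∈ h ∧
        IsCdT (tF (P := (iter cd).PP (γ : Stg)) (cd.bk γ) h)
          (ev (P := (iter cd).PP (γ : Stg)) S h)) ∧
      ev (P := (iter cd).PP (γ : Stg)) S h ⊆ EvG (P := (iter cd).PP (γ : Stg)) (cd.bk γ)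
        (cd.dec (Subtype.val (p := fun f : Ordinal.{0} → XX => {β | f β ≠ (iter cd).x₀}.Countable) c γ)) h) :=
      hs.imp (fo_of_eventually (Filter.Eventually.of_forall fun g hg => hg.1))
    obtain ⟨c', hc1, hc2, hc3⟩ := kf_ext cd hγ hact (c := c) (s := s) (S := S) hsc hs1
    refine ⟨c', hc1, Or.inr ⟨B', ?_⟩⟩
    refine Fo.mono (P := (iter cd).PP (γ : Stg)) (p := s) ?_ hc2
    refine (hs.and hc3).imp (fo_of_eventually (Filter.Eventually.of_forall fun g hg => ?_))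
    obtain ⟨⟨_, h1, h2, h3, h4⟩, h5⟩ := hg
    refine ⟨h1, h2, h3, fun v hv => ⟨(h4 v hv).1, ?_⟩⟩
    have h7 := (h4 v hv).2
    show WOut (P := (iter cd).PP (γ : Stg)) (cd.bk γ) g (Ev cd γ g (c'.1 γ)) v
    rw [h5]
    exact h7
  · obtain ⟨n, hn⟩ := g2 hφ
    obtain ⟨s, _, _, hsc, hsn⟩ := mem_common hch (G_mem h n)
    obtain ⟨c', hc1, hc2⟩ := kf_ext_not cd (c := c) (s := s) hsc (hn.mono hsn)
    exact ⟨c', hc1, Or.inl hc2⟩

/-- no condition forces a vector of `Z` into the set -/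
theorem kf_claim {γ : Ordinal.{0}} (hγ : γ ≠ 0) (hact : ActI cd γ) {c d r : (iter cd).C}
    {v : ℕ →₀ K} (hrc : (iter cd).le ⊤ r c) (hrd : (iter cd).le ⊤ r d) (hc : c ∈ WN cd γ v)
    (hd : Fo (P := (iter cd).PP (γ : Stg)) r (fun h =>
      ((cd.bk γ).1 : (iter cd).PP (γ : Stg)) ∈ h ∧
        WOut (P := (iter cd).PP (γ : Stg)) (cd.bk γ) h (Ev cd γ h (d.1 γ)) v)) : False := by
  have hγt : (γ : Stg) < ⊤ := WithTop.coe_lt_top γ
  have h1 : Fo (P := (iter cd).PP (γ : Stg)) r (fun h => Ev cd γ h (r.1 γ) ⊆ Ev cd γ h (c.1 γ)) :=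
    (it_at cd hγ _ _ _).1 (hrc γ hγt)
  have h2 : Fo (P := (iter cd).PP (γ : Stg)) r (fun h => Ev cd γ h (r.1 γ) ⊆ Ev cd γ h (d.1 γ)) :=
    (it_at cd hγ _ _ _).1 (hrd γ hγt)
  have h3 : Fo (P := (iter cd).PP (γ : Stg)) r (fun h => WIn (Ev cd γ h (c.1 γ)) v) :=
    Fo.mono (P := (iter cd).PP (γ : Stg)) hc ((iter cd).le_stage le_top hrc)
  obtain ⟨h, _, ⟨⟨⟨g1, g2⟩, g3⟩, g4⟩, g5, g6⟩ := fo_exists
    (Fo.and (P := (iter cd).PP (γ : Stg)) (Fo.and (P := (iter cd).PP (γ : Stg))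
      (Fo.and (P := (iter cd).PP (γ : Stg)) h1 h2) h3) hd)
    ((evG_cd (P := (iter cd).PP (γ : Stg)) hact).and
      (GC_has (P := (iter cd).PP (γ : Stg)) (Y := Node → Set ((iter cd).PP (γ : Stg)))
        (cd.dec (r.1 γ))))
  have hR : CdG (P := (iter cd).PP (γ : Stg)) (cd.bk γ) h (Ev cd γ h (r.1 γ)) :=
    g5 g4.1 _ g6
  exact g4.2 _ hR g2 fun s hs => g3 s (g1 hs)

theorem kf_out (hK : ∃ a : K, a ≠ 0 ∧ a ≠ 1) {γ : Ordinal.{0}} (hγ : γ ≠ 0)
    (hact : ActI cd γ) (B : KfN cd) :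
    ∀ᶠ g in GC ((iter cd).PP ⊤), KfPhi cd γ B ((iter cd).res (γ : Stg) g) →
      ∃ Z : ℕ → ℕ →₀ K, IntF ((iter cd).res (γ : Stg) g).M Z ∧ Blk Z ∧
        bs Z ⊆ bs (dpp_fn (P := (iter cd).PP (γ : Stg)) B ((iter cd).res (γ : Stg) g)) ∧
        ∀ v ∈ bs Z, v ∉ ev (P := (iter cd).PP ⊤) (WN cd γ) g := by
  classical
  let F : (iter cd).C → KfN cd := fun d =>
    if h : ∃ B' : KfN cd, Fo (P := (iter cd).PP (γ : Stg)) d
      (KfPsi cd γ B B' (fun h => Ev cd γ h (d.1 γ))) then h.choose else B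
  have h1 : ∀ᶠ g in GC ((iter cd).PP ⊤), (⊤ : (iter cd).PP ⊤) ∈ g →
      ∃ d ∈ KfE cd γ B, d ∈ g ∧ g.has d :=
    GC_denseBelow' (P := (iter cd).PP ⊤) (D := KfE cd γ B) (p := ⊤)
      fun c _ => kf_denseE cd hK hγ hact B c
  have h4 : ∀ᶠ g in GC ((iter cd).PP ⊤), (iter cd).IsRes g ((iter cd).res (γ : Stg) g) ∧
      ∀ v : ℕ →₀ K, ∀ B' : KfN cd, ((iter cd).res (γ : Stg) g).has B' →
        v ∈ bs (dpp_fn (P := (iter cd).PP (γ : Stg)) B' ((iter cd).res (γ : Stg) g)) →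
        ∃ n, Fo (P := (iter cd).PP (γ : Stg)) (((iter cd).res (γ : Stg) g).gen.G n)
          (fun h => v ∈ bs (dpp_fn (P := (iter cd).PP (γ : Stg)) B' h)) :=
    res_club (I := iter cd) (α := (γ : Stg)) (δ := ⊤) le_top
      (T := fun h => ∀ v : ℕ →₀ K, ∀ B' : KfN cd, h.has B' →
        v ∈ bs (dpp_fn (P := (iter cd).PP (γ : Stg)) B' h) →
        ∃ n, Fo (P := (iter cd).PP (γ : Stg)) (h.gen.G n)
          (fun h => v ∈ bs (dpp_fn (P := (iter cd).PP (γ : Stg)) B' h)))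
      (eventually_countable_forall.2 fun v => Dec.truthH (P := (iter cd).PP (γ : Stg))
        (Y := KfN cd) fun B' => dpp_bs (P := (iter cd).PP (γ : Stg)) B' v)
  filter_upwards [h1, kf_res cd (γ := γ) (T := fun _ h => ¬ KfPhi cd γ B h),
    kf_res cd (γ := γ) (T := fun d => KfPsi cd γ B (F d) (fun h => Ev cd γ h (d.1 γ))), h4,
    GC_op (P := (iter cd).PP ⊤) F,
    res_club (I := iter cd) (α := (γ : Stg)) (δ := ⊤) le_top
      (int_ev (P := (iter cd).PP (γ : Stg)) (ι := ℕ × (ℕ →₀ K)))]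
    with g g1 g2 g3 g4 g5 g6 hφ
  obtain ⟨hr, g4⟩ := g4
  obtain ⟨d, hd, hdg, hdh⟩ := g1 (top_mem g)
  rcases hd with hd | hd
  · exact absurd hφ (g2 d hdh hd hdg)
  have hF : F d = hd.choose := dif_pos hd
  have hFo : Fo (P := (iter cd).PP (γ : Stg)) d
      (KfPsi cd γ B (F d) (fun h => Ev cd γ h (Subtype.val (p := fun f : Ordinal.{0} → XX => {β | f β ≠ (iter cd).x₀}.Countable) d γ))) := by
    rw [hF]
    exact hd.choose_spec
  have hFh : ((iter cd).res (γ : Stg) g).has (F d) := (isRes_has hr (F d)).2 (g5 d hdh)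
  obtain ⟨⟨Z, hZ⟩, hψ2, hψ3, hψ4⟩ := g3 d hdh hFo hdg
  have hZe : dpp_fn (P := (iter cd).PP (γ : Stg)) (F d) ((iter cd).res (γ : Stg) g) = Z :=
    dpp_fn_eq (P := (iter cd).PP (γ : Stg)) hZ
  rw [hZe] at hψ2 hψ3
  refine ⟨Z, ?_, hψ2, fun v hv => hψ3 v hv, ?_⟩
  · have h8 := g6.2 _ hFh
    rw [hZ] at h8
    exact ⟨h8⟩
  · rintro v hv ⟨c, hc, hcg⟩
    rw [← hZe] at hv
    obtain ⟨n, hn⟩ := g4 v (F d) hFh hv
    have e : (((iter cd).res (γ : Stg) g).gen.G n : (iter cd).C) = g.gen.G n := congrFun hr.2 n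
    rw [e] at hn
    obtain ⟨r₁, hr₁, _, hr1c, hr1d⟩ := mem_common hcg hdg
    obtain ⟨r, _, _, hr1, hrn⟩ := mem_common hr₁ (G_mem g n)
    have hrc : (iter cd).le ⊤ r c := (iter cd).le_trans' _ hr1 hr1c
    have hrd : (iter cd).le ⊤ r d := (iter cd).le_trans' _ hr1 hr1d
    refine kf_claim cd hγ hact (c := c) (d := d) (r := r) (v := v) hrc hrd hc ?_
    have h5 : Fo (P := (iter cd).PP (γ : Stg)) r
        (fun h => v ∈ bs (dpp_fn (P := (iter cd).PP (γ : Stg)) (F d) h)) :=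
      Fo.mono (P := (iter cd).PP (γ : Stg)) hn ((iter cd).le_stage le_top hrn)
    have h6 : Fo (P := (iter cd).PP (γ : Stg)) r
        (KfPsi cd γ B (F d) (fun h => Ev cd γ h (Subtype.val (p := fun f : Ordinal.{0} → XX => {β | f β ≠ (iter cd).x₀}.Countable) d γ))) :=
      Fo.mono (P := (iter cd).PP (γ : Stg)) hFo ((iter cd).le_stage le_top hrd)
    exact (Fo.and (P := (iter cd).PP (γ : Stg)) h5 h6).imp
      (fo_of_eventually (Filter.Eventually.of_forall fun h hh => hh.2.2.2.2 v hh.1))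

/-- PROOF. As `wn_in` with `killOut_g`: there is a dense set of conditions `d` such that for some name `B'`, `d` forces (stage `γ`) that `ev B' h` is the graph of a block sequence `Z` with `bs Z ⊆ bs X` and `∀ v ∈ bs Z, WOut t h (Ev (d γ)) v` (or the negation of `φ_B`). Let `d ∈ g` be such a condition of the hull; then `B'` is in the hull (choice operation). Let `v ∈ bs Z`. Some condition of `g` below `d` forces
(stage `γ`) `v ∈ bs Z` (decided). CLAIM `v ∉ ev (WN γ) g`: otherwise there are `c ∈ WN γ v`, `c ∈ g`, and `r ∈ g` below `c` and `d` (last stage). In a good generic `h ∋ r` of the stage `γ` : `R = Ev (r γ) ⊆ Ev (c γ) ∩ Ev (d γ)`, so `WIn R v`, and `R` is a condition of the model, contradiction to `WOut`. -/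
theorem wn_out (hK : ∃ a : K, a ≠ 0 ∧ a ≠ 1) {γ : Ordinal.{0}} (hγ : γ ≠ 0)
    (hact : ActI cd γ) :
    Fo (P := (iter cd).PP ⊤) ((cd.bk γ).1 : (iter cd).C) (fun g => ∀ X : ℕ → ℕ →₀ K,
      IntF ((iter cd).res (γ : Stg) g).M X → Blk X →
        bs X ∈ evF (P := (iter cd).PP (γ : Stg)) (cd.bk γ).2 ((iter cd).res (γ : Stg) g) →
          ∃ Z : ℕ → ℕ →₀ K, IntF ((iter cd).res (γ : Stg) g).M Z ∧ Blk Z ∧ bs Z ⊆ bs X ∧
            ∀ v ∈ bs Z, v ∉ ev (P := (iter cd).PP ⊤) (WN cd γ) g) := by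
  show ∀ᶠ g in GC ((iter cd).PP ⊤), ((cd.bk γ).1 : (iter cd).PP ⊤) ∈ g → _
  filter_upwards [kf_rep cd hact, GC_normalH (P := (iter cd).PP ⊤) (Y := KfN cd)
    (fun B => kf_out cd hK hγ hact B)] with g h1 h2 hg X hX _ hXF
  obtain ⟨B, hB, hφ, hBX⟩ := h1 hg X hX hXF
  obtain ⟨Z, h3, h4, h5, h6⟩ := h2 B hB hφ
  rw [hBX] at h5
  exact ⟨Z, h3, h4, h5, h6⟩

end Pool.Agent.CIt
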