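import Pool.Agent.Lib_CI.Small

/-!
# Piece MIXC: mixing
-/

set_option autoImplicit false

namespace Pool.Agent.CIt

open Pool.Agent.GGen Pool.Agent.HMod Pool.Agent.SOU Pool.Agent.SOUi Pool.Agent.CSI

section

universe u

variable {K : Type} [Field K] [DecidableEq K] [Countable K] {P : Type u} [Preorder P] [OrderTop P]

/-- mixing of names along an antichain `A`, with names that use only the conditions in `D` -/
theorem mixc_aux (t : Task K P) (D : Set P) (hD : ∀ p, ∃ d ∈ D, d ≤ p ∧ p ≤ d) (A : Set P)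
    (hA : ∀ a ∈ A, ∀ b ∈ A, ∀ r, r ≤ a → r ≤ b → a = b) (F : P → Node → Set P) (a : P)
    (ha : a ∈ A) : ∀ᶠ g in GC P, a ∈ g →
      EvG t (fun s => {d | d ∈ D ∧ ∃ a ∈ A, d ≤ a ∧ Fo d (fun g => s ∈ EvG t (F a) g)}) g =
        EvG t (F a) g := by
  set S : Node → Set P :=
    fun s => {d | d ∈ D ∧ ∃ a ∈ A, d ≤ a ∧ Fo d (fun g => s ∈ EvG t (F a) g)} with hS
  have hev : ∀ᶠ g in GC P, a ∈ g → ev S g = EvG t (F a) g := by
    have h1 : ∀ᶠ g in GC P, ∀ s : Node, ∀ c : P,
        Fo c (fun g => s ∈ EvG t (F a) g) → c ∈ g → s ∈ EvG t (F a) g :=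
      eventually_countable_forall.2 fun s => dec_of_mem (dec_evG t (F a) s)
    have h2 : ∀ᶠ g in GC P, ∀ s : Node, s ∈ EvG t (F a) g → ∀ p ∈ g,
        ∃ q ∈ g, g.has q ∧ q ≤ p ∧ Fo q (fun g => s ∈ EvG t (F a) g) :=
      eventually_countable_forall.2 fun s => (dec_evG t (F a) s).truth'
    filter_upwards [h1, h2] with g h1 h2 hag
    ext s
    constructor
    · rintro ⟨c, ⟨_, a', ha', hca', hc⟩, hcg⟩
      have ha'g : a' ∈ g := mem_up hcg hca'
      obtain ⟨r, _, _, hr1, hr2⟩ := mem_common hag ha'g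
      have haa : a = a' := hA a ha a' ha' r hr1 hr2
      subst haa
      exact h1 s c hc hcg
    · intro hs
      obtain ⟨q, hq, _, hqa, hqf⟩ := h2 s hs a hag
      obtain ⟨d, hdd, hd1, hd2⟩ := hD q
      exact ⟨d, ⟨hdd, a, ha, hd1.trans hqa, hqf.mono hd1⟩, mem_up hq hd2⟩
  by_cases hact : Act t
  · filter_upwards [hev, evG_cd hact, GC_has (P := P) (F a)] with g h1 h2 h3 hag
    by_cases htg : t.1 ∈ g
    · have h4 := h2 htg _ h3
      have h5 : IsCdT (tF t g) (ev S g) := by
        rw [h1 hag]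
        exact h4.2
      exact (evG_eq hact htg h5).trans (h1 hag)
    · rw [evG_notMem htg, evG_notMem htg]
  · filter_upwards with g _
    rw [evG_inactive hact, evG_inactive hact]

end

variable {K : Type} [Field K] [DecidableEq K] [Countable K] (cd : Codes K)

/-- PROOF. `β = 0` : the order of stage `0` is trivial, so `A` has at most one element. `β ≠ 0` : let `t = bk β`, `S s = {d ∈ DD β | ∃ a ∈ A, d ≤ a (stage β), Fo d (s ∈ EvG t (dec (f a)) g)}`, `x` a code of `S` (`cd.surj`, `small_DD`). Let `a ∈ A`. CLAIM: for club many `g ∋ a`, `ev S g = EvG t (dec (f a)) g =: T`. If `d ∈ S s`, `d ∈ g` by `a' ∈ A` then `a'` and `a` are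
in `g`, so compatible, `a' = a`; `dec_of_mem`. Conversely if `s ∈ T` some `q ∈ g`, `q ≤ a` forces it (`dec_evG`, `Dec.truth'`), and `q` is equivalent to an element `d` of `DD β` (`exists_DD`), `d ∈ g`. If `t` is not active or `t.1 ∉ g` both `EvG` are `Full`; otherwise `T` is a condition (`evG_cd`, `GC_has`), so `EvG t (dec x) g = ev S g = T` (`evG_eq`). -/
theorem mix_ax (β : Ordinal.{0}) (A : Set CC) (f : CC → XX)
    (hA : ∀ a ∈ A, ∀ b ∈ A, ∀ r, LeOf (AtC cd) (β : Stg) r a → LeOf (AtC cd) (β : Stg) r b →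
      a = b) : ∃ x, ∀ a ∈ A, AtC cd β a x (f a) ∧ AtC cd β a (f a) x := by
  by_cases hβ : β = 0
  · by_cases hne : A.Nonempty
    · obtain ⟨a, ha⟩ := hne
      refine ⟨f a, fun b hb => ?_⟩
      have h0 : ∀ p q : CC, LeOf (AtC cd) (β : Stg) p q := by
        intro p q γ hγ
        exfalso
        rw [hβ] at hγ
        exact absurd (WithTop.coe_lt_coe.1 hγ) (not_lt_of_ge (bot_le (a := γ)))
      have hab : a = b := hA a ha b hb a (h0 _ _) (h0 _ _)
      rw [hab]
      exact ⟨atC_refl cd β b _, atC_refl cd β b _⟩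
    · exact ⟨∅, fun a ha => absurd ⟨a, ha⟩ hne⟩
  · have key := mixc_aux (P := (preS cd (β : Stg)).T) (cd.bk β) (DD cd β)
      (fun p => exists_DD cd β p) A hA (fun a => cd.dec (f a))
    have hsm : SmN (fun s : Node => ({d : CC | d ∈ DD cd β ∧ ∃ a ∈ A,
        @LE.le (preS cd (β : Stg)).T _ d a ∧ Fo (P := (preS cd (β : Stg)).T) d
          (fun g => s ∈ EvG (P := (preS cd (β : Stg)).T) (cd.bk β) (cd.dec (f a)) g)} : Set CC)) := by
      intro s
      have := small_DD cd β
      exact small_subset (s := DD cd β) (fun d hd => hd.1)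
    obtain ⟨x, hx⟩ := cd.surj _ hsm
    refine ⟨x, fun a ha => ?_⟩
    have heq : ∀ᶠ g in GC (preS cd (β : Stg)).T, @Membership.mem (preS cd (β : Stg)).T _ _ g a →
        EvG (P := (preS cd (β : Stg)).T) (cd.bk β) (cd.dec x) g =
          EvG (P := (preS cd (β : Stg)).T) (cd.bk β) (cd.dec (f a)) g := by
      rw [hx]
      exact key a ha
    rw [atC_iff cd hβ, atC_iff cd hβ]
    constructor
    · exact heq.mono fun g hg hag => (hg hag).le
    · exact heq.mono fun g hg hag => (hg hag).ge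

end Pool.Agent.CIt
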