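import Pool.Agent.Lib_MP_a0d45a_int.BFi

/-!
# Piece PPB: (p+)-filters of the model in terms of block sequences
-/

set_option autoImplicit false

namespace Pool.Agent.CIt

open Pool.Agent.HMod Pool.Agent.SOU Pool.Agent.SOUi

universe w

variable {K : Type} [Field K] [DecidableEq K] [Countable K]

/-- the block form of `IsPPlusi` (all quantifiers are over internal sets of vectors or sequences of vectors) -/
structure PPb (𝔐 : HM.{w}) (F : Filter (ℕ →₀ K)) : Prop where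
  ne : F.NeBot
  nz : {v : ℕ →₀ K | v ≠ 0} ∈ F
  base : ∀ S ∈ F, ∃ X, IntF 𝔐 X ∧ Blk X ∧ bs X ∈ F ∧ bs X ⊆ S
  full : ∀ D : Set (ℕ →₀ K), Int 𝔐 (fun v => v ∈ D) →
    (∀ X, IntF 𝔐 X → Blk X → bs X ∈ F → ∃ Z, IntF 𝔐 Z ∧ Blk Z ∧ bs Z ⊆ bs X ∧ bs Z ⊆ D) → D ∈ F
  pfil : ∀ X : ℕ → ℕ → ℕ →₀ K, IntF 𝔐 (fun q : ℕ × ℕ => X q.1 q.2) →
    (∀ n, Blk (X n) ∧ bs (X n) ∈ F) →
      ∃ Y, IntF 𝔐 Y ∧ Blk Y ∧ bs Y ∈ F ∧
        ∀ n, ∃ k, ∀ v ∈ bs Y, (∀ j ∈ v.support, k < j) → v ∈ bs (X n)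

/-- a subspace of finite codimension meets an infinite dimensional space in an infinite dimensional
space -/
theorem ppb_inf {k E : Type*} [Field k] [AddCommGroup E] [Module k E] (V W : Submodule k E)
    (hV : FiniteDimensional k (E ⧸ V)) (hW : ¬ FiniteDimensional k W) :
    ¬ FiniteDimensional k (V ⊓ W : Submodule k E) := by
  intro h
  apply hW
  let f : W →ₗ[k] E ⧸ V := V.mkQ ∘ₗ W.subtype
  have h2 : ∀ x : LinearMap.ker f, (x.1 : E) ∈ (V ⊓ W : Submodule k E) := by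
    intro x
    refine ⟨?_, x.1.2⟩
    have h3 : f x.1 = 0 := x.2
    exact (Submodule.Quotient.mk_eq_zero V).1 h3
  let g : LinearMap.ker f →ₗ[k] (V ⊓ W : Submodule k E) :=
    LinearMap.codRestrict _ (W.subtype ∘ₗ (LinearMap.ker f).subtype) h2
  have hg : Function.Injective g := by
    intro x y hxy
    have h5 : (g x : E) = g y := congrArg Subtype.val hxy
    exact Subtype.ext (Subtype.ext h5)
  have h4 : FiniteDimensional k (LinearMap.ker f) := FiniteDimensional.of_injective g hg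
  have h6 : FiniteDimensional k (W ⧸ LinearMap.ker f) :=
    Module.Finite.equiv f.quotKerEquivRange.symm
  exact Module.Finite.of_submodule_quotient (LinearMap.ker f)

/-- PROOF. `→` : `full_blk_i`. `←` : `full` by `fdense_blk_i`. `cofin` : let `V` be an internal subspace of finite codimension `d`, `D = {v | v ≠ 0 ∧ v ∈ V}`. We use `PPb.full`: given an internal block sequence `X` (nothing else is used), for every `n` there is a nonzero linear combination of the `d + 1` vectors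
`X (n * (d+1) + i)`, `i ≤ d`, which is in `V` (`d + 1` vectors are dependent in the quotient). Choose `Z n` internally (choice from an internal relation; the relation `v ∈ span (X '' Ico (n(d+1)) ((n+1)(d+1)))` is internal by `Std.spn` or by `int_bs`-like lemmas). `Z` is a block sequence and `bs Z ⊆ bs X ∩ V`. -/
theorem ppb_iff {𝔐 : HM.{w}} [Std 𝔐 K] {F : Filter (ℕ →₀ K)} (hF : IsIFil 𝔐 F) :
    IsPPlusi 𝔐 F ↔ PPb 𝔐 F := by
  constructor
  · intro h
    exact ⟨h.ne, h.nz, h.base, fun D hD h1 => full_blk_i h.toIsFulli D hD h1, h.pfil⟩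
  · intro h
    refine { fil := hF, ne := h.ne, nz := h.nz, cofin := ?_, base := h.base, full := ?_,
             pfil := h.pfil }
    · intro V hV hfd
      refine h.full _ (int_and (int_not (int_eqF intF_id (intF_const 0))) hV) ?_
      intro X hXi hX _
      obtain ⟨Z, hZi, hZ, h1⟩ := exists_blk_of_infinite_i
        (V ⊓ Submodule.span K (Set.range X)) (int_and hV (int_span hXi))
        (ppb_inf V _ hfd (span_infinite hX))
      have h2 : Submodule.span K (Set.range Z) ≤ V ⊓ Submodule.span K (Set.range X) := by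
        rw [Submodule.span_le]
        rintro _ ⟨n, rfl⟩
        exact h1 n
      exact ⟨Z, hZi, hZ, fun v hv => ⟨hv.1, (h2 hv.2).2⟩, fun v hv => ⟨hv.1, (h2 hv.2).1⟩⟩
    · intro D hD hd
      exact h.full D hD fun X hXi hX hXF => fdense_blk_i hd hXi hX hXF

/-- downward transfer: `𝔑` is a submodel (for the reals) of `𝔐`, `F` has a base of blocks of `𝔑`. PROOF. `full`: let `D` be a set of `𝔑` with the density property in `𝔑`; it has it in `𝔐`: for `X` of `𝔐`, `bs X ∈ F` take `X'` of `𝔑` with `bs X' ∈ F`, `bs X' ⊆ bs X`. `pfil`: let `Y` be given by `pfil` in `𝔐`, take `Y'` of `𝔑` with `bs Y' ∈ F`, `bs Y' ⊆ bs Y`. -/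
theorem ppb_down {𝔐 𝔑 : HM.{w}} [Std 𝔐 K] [Std 𝔑 K] {F : Filter (ℕ →₀ K)} (h : PPb 𝔐 F)
    (hi : ∀ S : Set (ℕ →₀ K), Int 𝔑 (fun v => v ∈ S) → Int 𝔐 (fun v => v ∈ S))
    (hf : ∀ X : ℕ → ℕ →₀ K, IntF 𝔑 X → IntF 𝔐 X)
    (hf2 : ∀ X : ℕ × ℕ → ℕ →₀ K, IntF 𝔑 X → IntF 𝔐 X)
    (hb : ∀ S ∈ F, ∃ X, IntF 𝔑 X ∧ Blk X ∧ bs X ∈ F ∧ bs X ⊆ S) : PPb 𝔑 F := by
  refine ⟨h.ne, h.nz, hb, ?_, ?_⟩
  · intro D hD h1
    refine h.full D (hi D hD) ?_
    intro X _ _ hXF
    obtain ⟨X', h2, h3, h4, h5⟩ := hb (bs X) hXF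
    obtain ⟨Z, h6, h7, h8, h9⟩ := h1 X' h2 h3 h4
    exact ⟨Z, hf Z h6, h7, h8.trans h5, h9⟩
  · intro X hX h1
    obtain ⟨Y, _, _, h2, h3⟩ := h.pfil X (hf2 (fun q => X q.1 q.2) hX) h1
    obtain ⟨Y', h4, h5, h6, h7⟩ := hb (bs Y) h2
    refine ⟨Y', h4, h5, h6, fun n => ?_⟩
    obtain ⟨k, hk⟩ := h3 n
    exact ⟨k, fun v hv hv' => hk v (h7 hv) hv'⟩

end Pool.Agent.CIt
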