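import Pool.Agent.Lib_Forcing.SetTheory
import Pool.Agent.Lib_MP_a0d45a_lc.Defs
import Mathlib.Combinatorics.Colex

/-!
# MP_a0d45a_lc: stable ordered-union ultrafilters and (p+)-filters inside an ω-model of set theory

`(M, E)` is an ω-model. The countable sets `ι` considered (the finite sets of natural numbers, the vectors with finite support) are identified with `ℕ` by a bijection `c : ι ≃ ℕ`; a
subset of `ι` or a sequence in `ι` belongs to the model iff the corresponding set of natural numbers does.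
-/

set_option autoImplicit false

namespace Pool.Agent.SOUp

open Pool.Agent.Forcing Pool.Agent.SOU

universe v

variable {M : Type v} (E : M → M → Prop) {ι : Type}

/-- the subset `S` of `ι` belongs to the model -/
def SetIn (c : ι ≃ ℕ) (S : Set ι) : Prop := Coded E (c '' S)

/-- the sequence `A` belongs to the model -/
def SeqIn (c : ι ≃ ℕ) (A : ℕ → ι) : Prop := Coded E {n | ∃ k, n = Nat.pair k (c (A k))}

/-- the double sequence `A` belongs to the model -/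
def Seq2In (c : ι ≃ ℕ) (A : ℕ → ℕ → ι) : Prop :=
  Coded E {n | ∃ k l, n = Nat.pair (Nat.pair k l) (c (A k l))}

/-- the family of subsets of `ι` given by the element `u` of the model -/
def FamIn (c : ι ≃ ℕ) (u : M) : Set (Set ι) := {S | ∃ s, E s u ∧ natTrace E s = c '' S}

/-- the binary coding of the finite sets of natural numbers: `b ↦ ∑ i ∈ b, 2 ^ i` -/
def cF : Finset ℕ ≃ ℕ := Finset.equivBitIndices.symm

/-- in the model, `u` is a stable ordered-union ultrafilter on the finite sets -/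
structure IsSOUIn (u : M) : Prop where
  ne : ∅ ∉ FamIn E cF u
  inter : ∀ S ∈ FamIn E cF u, ∀ T ∈ FamIn E cF u, S ∩ T ∈ FamIn E cF u
  up : ∀ S ∈ FamIn E cF u, ∀ T, SetIn E cF T → S ⊆ T → T ∈ FamIn E cF u
  ultra : ∀ S, SetIn E cF S → S ∈ FamIn E cF u ∨ Sᶜ ∈ FamIn E cF u
  base : ∀ S ∈ FamIn E cF u, ∃ A, SeqIn E cF A ∧ BlkF A ∧ fu A ∈ FamIn E cF u ∧ fu A ⊆ S
  stable : ∀ A : ℕ → ℕ → Finset ℕ, Seq2In E cF A →
    (∀ n, BlkF (A n) ∧ fu (A n) ∈ FamIn E cF u) →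
      ∃ B, SeqIn E cF B ∧ BlkF B ∧ fu B ∈ FamIn E cF u ∧
        ∀ n, ∃ k, ∀ b ∈ fu B, (∀ j ∈ b, k < j) → b ∈ fu (A n)

variable {K : Type} [Field K]

/-- the field `K` (coded by `d`) and the vector space `K^(ℕ)` with its basis (coded by `c`) belong to the model -/
structure SpaceIn (d : K ↪ ℕ) (c : (ℕ →₀ K) ≃ ℕ) : Prop where
  add : Coded E {n | ∃ a b : K, n = Nat.pair (Nat.pair (d a) (d b)) (d (a + b))}
  mul : Coded E {n | ∃ a b : K, n = Nat.pair (Nat.pair (d a) (d b)) (d (a * b))}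
  coord : Coded E {n | ∃ (v : ℕ →₀ K) (i : ℕ), n = Nat.pair (Nat.pair (c v) i) (d (v i))}

/-- in the model, `f` is a (p+)-filter on the vector space -/
structure IsPPlusIn (c : (ℕ →₀ K) ≃ ℕ) (f : M) : Prop where
  ne : ∅ ∉ FamIn E c f
  inter : ∀ S ∈ FamIn E c f, ∀ T ∈ FamIn E c f, S ∩ T ∈ FamIn E c f
  up : ∀ S ∈ FamIn E c f, ∀ T, SetIn E c T → S ⊆ T → T ∈ FamIn E c f
  nz : {v : ℕ →₀ K | v ≠ 0} ∈ FamIn E c f
  cofin : ∀ V : Submodule K (ℕ →₀ K), SetIn E c {v | v ∈ V} →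
    FiniteDimensional K ((ℕ →₀ K) ⧸ V) → {v : ℕ →₀ K | v ≠ 0 ∧ v ∈ V} ∈ FamIn E c f
  base : ∀ S ∈ FamIn E c f, ∃ X, SeqIn E c X ∧ Blk X ∧ bs X ∈ FamIn E c f ∧ bs X ⊆ S
  full : ∀ D : Set (ℕ →₀ K), SetIn E c D →
    (∀ X, SeqIn E c X → Blk X → bs X ∈ FamIn E c f → ∃ V : Submodule K (ℕ →₀ K),
      SetIn E c {v | v ∈ V} ∧ ¬ FiniteDimensional K V ∧ ∀ v ∈ V, v ≠ 0 → v ∈ bs X ∧ v ∈ D) →
    D ∈ FamIn E c f
  pfil : ∀ X : ℕ → ℕ → ℕ →₀ K, Seq2In E c X → (∀ n, Blk (X n) ∧ bs (X n) ∈ FamIn E c f) →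
    ∃ Y, SeqIn E c Y ∧ Blk Y ∧ bs Y ∈ FamIn E c f ∧
      ∀ n, ∃ k, ∀ v ∈ bs Y, (∀ j ∈ v.support, k < j) → v ∈ bs (X n)

end Pool.Agent.SOUp
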