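import Pool.Agent.Lib_CI.Sem
import Pool.Agent.Lib_MP_a0d45a_int.Propi

/-!
# Piece PROPG: properness of the iterand over a good generic
-/

set_option autoImplicit false

namespace Pool.Agent.CIt

open Pool.Agent.GGen Pool.Agent.HMod Pool.Agent.SOU Pool.Agent.SOUi

universe u

variable {K : Type} [Field K] [DecidableEq K] [Countable K] {P : Type u} [Preorder P] [OrderTop P]
  {t : Task K P}

/-- PROOF. For club many `g ∋ t.1`: `Std g.M K`, `IsPPlusi g.M (tF t g)` (so `Fact (IsIFil ..)`), all `c n` and their components in the hull (`GC_hasC`). Let `T' n = EvG t (c n).2 g` if `(c n).1 ∈ g` and `Full` otherwise. `T'` is an internal family (`int_of_dec` for `ℕ × Node`; `dec_evG`, `dec_mem`) of conditions (`evG_cd`, `full_cd`), so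
`exists_cdFam` gives an internal `c' : ℕ → CdI g.M F`. `D k m = R k m ∧ (c m).1 ∈ g` is internal (`int_of_dec`, `dec_const`). The hypotheses of `proper_i` : closure under `atI` (`CdI.atI_T`, `cdI_ext`) and density (if `(c n).1 ∉ g` use the `n` of the first hypothesis: there the tree is `Full`). Apply `proper_i`, and `cd_rep` (or `rep_ev`) to the tree of `q`. -/
theorem proper_g (hK : ∃ a : K, a ≠ 0 ∧ a ≠ 1) (ht : Act t) (c : ℕ → P × (Node → Set P))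
    (R : ℕ → ℕ → Prop) : ∀ᶠ g in GC P, t.1 ∈ g →
      (∃ n, (c n).1 ∈ g ∧ EvG t (c n).2 g = Full) →
      (∀ n, (c n).1 ∈ g → ∀ s ∈ EvG t (c n).2 g, ∃ m, (c m).1 ∈ g ∧
        EvG t (c m).2 g = {u ∈ EvG t (c n).2 g | Cmp s u}) →
      (∀ k n, (c n).1 ∈ g → ∃ m, R k m ∧ (c m).1 ∈ g ∧ EvG t (c m).2 g ⊆ EvG t (c n).2 g) →
      ∀ n₀, (c n₀).1 ∈ g → ∃ S : Node → Set P, g.has S ∧ GoodP t c R n₀ S g := by
  classical
  have hA : ∀ᶠ g in GC P, Int g.M (fun q : ℕ × Node =>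
      ((c q.1).1 ∈ g ∧ q.2 ∈ EvG t (c q.1).2 g) ∨ (¬ (c q.1).1 ∈ g ∧ q.2 ∈ (Full : Set Node))) :=
    int_of_dec (P := P) (T := fun (q : ℕ × Node) (g : GG P) =>
      ((c q.1).1 ∈ g ∧ q.2 ∈ EvG t (c q.1).2 g) ∨ (¬ (c q.1).1 ∈ g ∧ q.2 ∈ (Full : Set Node)))
      (fun q => ((dec_mem _).and (dec_evG t _ _)).or ((dec_mem _).not.and (dec_const _)))
  have hB : ∀ᶠ g in GC P, Int g.M (fun q : ℕ × ℕ => R q.1 q.2 ∧ (c q.2).1 ∈ g) :=
    int_of_dec (P := P) (T := fun (q : ℕ × ℕ) (g : GG P) => R q.1 q.2 ∧ (c q.2).1 ∈ g)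
      (fun q => (dec_const _).and (dec_mem _))
  have hC : ∀ᶠ g in GC P, ∀ y ∈ Set.range (fun n => (c n).2), g.has y :=
    GC_hasC (Set.countable_range _)
  filter_upwards [gc_std (K := K) (P := P), ht, evG_cd ht, cd_rep ht, hA, hB, hC]
    with g hstd hact hcd hrep hA hB hC htg hfull hcl hden n₀ hn₀
  have := hstd
  obtain ⟨hdir, hpp⟩ := hact htg
  have hBF : IsBlockFilteri g.M (tF t g) := hpp.toIsFulli.toIsBlockFilteri
  have : Fact (IsIFil g.M (tF t g)) := ⟨hBF.fil⟩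
  let T' : ℕ → Set Node := fun n => if (c n).1 ∈ g then EvG t (c n).2 g else Full
  have hT'1 : ∀ n, (c n).1 ∈ g → T' n = EvG t (c n).2 g := fun n hn => if_pos hn
  have hT'2 : ∀ n, ¬ (c n).1 ∈ g → T' n = Full := fun n hn => if_neg hn
  have hcd' : ∀ n, IsCdT (tF t g) (T' n) := by
    intro n
    by_cases hn : (c n).1 ∈ g
    · rw [hT'1 n hn]
      exact (hcd htg _ (hC _ ⟨n, rfl⟩)).2
    · rw [hT'2 n hn]
      exact (full_cd hBF).2
  have hint : Int g.M (fun q : ℕ × Node => q.2 ∈ T' q.1) := by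
    refine int_congr (fun q => ?_) hA
    by_cases hn : (c q.1).1 ∈ g
    · rw [hT'1 q.1 hn]
      exact ⟨fun h => h.elim (fun h => h.2) (fun h => absurd hn h.1), fun h => Or.inl ⟨hn, h⟩⟩
    · rw [hT'2 q.1 hn]
      exact ⟨fun h => h.elim (fun h => absurd h.1 hn) (fun h => h.2), fun h => Or.inr ⟨hn, h⟩⟩
  obtain ⟨c', hc', hc'T⟩ := exists_cdFam (𝔐 := g.M) hcd' hint
  obtain ⟨n₁, hn₁, hn₁F⟩ := hfull
  -- every index may be replaced by one in `g`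
  have hrepl : ∀ n, ∃ n', (c n').1 ∈ g ∧ T' n = EvG t (c n').2 g := by
    intro n
    by_cases hn : (c n).1 ∈ g
    · exact ⟨n, hn, hT'1 n hn⟩
    · exact ⟨n₁, hn₁, by rw [hT'2 n hn, hn₁F]⟩
  have hcl' : ∀ n, ∀ s ∈ (c' n).1.T, ∃ m, c' m = (c' n).atI s := by
    intro n s hs
    have hs' := hs
    obtain ⟨n', hn', hTn⟩ := hrepl n
    rw [hc'T n, hTn] at hs'
    obtain ⟨m, hm, hmT⟩ := hcl n' hn' s hs'
    refine ⟨m, cdI_ext ?_⟩
    rw [CdI.atI_T (c' n) hs, hc'T m, hT'1 m hm, hmT, ← hTn, ← hc'T n]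
    rfl
  have hden' : ∀ k n, ∃ m, c' m ≤ c' n ∧ (R k m ∧ (c m).1 ∈ g) := by
    intro k n
    obtain ⟨n', hn', hTn⟩ := hrepl n
    obtain ⟨m, hR, hm, hmT⟩ := hden k n' hn'
    refine ⟨m, ?_, hR, hm⟩
    rw [cdI_le_iff, hc'T m, hc'T n, hT'1 m hm, hTn]
    exact hmT
  obtain ⟨q, hq, hqD⟩ := proper_i (𝔐 := g.M) hK hpp c' hc' hcl'
    (fun k m => R k m ∧ (c m).1 ∈ g) hB hden' n₀
  obtain ⟨S, hS, hSq, -⟩ := hrep htg q.1.T ⟨q.2, q.1, rfl⟩
  refine ⟨S, hS, ?_, ?_, ?_⟩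
  · rw [hSq]
    exact ⟨q.2, q.1, rfl⟩
  · rw [hSq, ← hT'1 n₀ hn₀, ← hc'T n₀]
    exact cdI_le_iff.1 hq
  · intro k T hT hTS
    obtain ⟨hTi, p, hp⟩ := hT
    have hpi : Int g.M (fun s => s ∈ p.T) := by
      rw [hp]
      exact hTi
    obtain ⟨m, ⟨hR, hm⟩, s, hs1, hs2⟩ := hqD k ⟨p, hpi⟩ (by
      rw [cdI_le_iff]
      change p.T ⊆ q.1.T
      rw [hp, ← hSq]
      exact hTS)
    refine ⟨m, hR, hm, s.1.T, ⟨s.2, s.1, rfl⟩, ?_, ?_⟩
    · rw [← hp]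
      exact cdI_le_iff.1 hs1
    · rw [← hT'1 m hm, ← hc'T m]
      exact cdI_le_iff.1 hs2

end Pool.Agent.CIt
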