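import Pool.Agent.Lib_CI.IFace
import Pool.Agent.Lib_CI.PropG
import Pool.Agent.Lib_CI.SemDec

/-!
# Piece CIPROPA: the hypotheses of `proper_g` for a hull
-/

set_option autoImplicit false

namespace Pool.Agent.CIt

open Pool.Agent.GGen Pool.Agent.HMod Pool.Agent.SOU Pool.Agent.SOUi Pool.Agent.CSI

variable {K : Type} [Field K] [DecidableEq K] [Countable K] (cd : Codes K)

/-- enumerations of the conditions of the hull `N` and of the sets of `N` which are dense at the stage `β + 1` -/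
structure HData (N : Set (Obj (iter cd).C)) (β : Ordinal.{0}) where
  e : ℕ → (iter cd).C
  D : ℕ → Set (iter cd).C
  he : ∀ p, Obj.cond p ∈ N ↔ ∃ n, e n = p
  hD : ∀ D', (Obj.dset D' ∈ N ∧ ∀ p, ∃ d ∈ D', (iter cd).le ((β + 1 : Ordinal.{0}) : Stg) d p) ↔
    ∃ k, D k = D'

variable {cd} {N : Set (Obj (iter cd).C)} {β : Ordinal.{0}}

/-- the conditions of the hull, as pairs (condition of stage `β`, name of a condition of the `β`-th iterand) -/
def HData.c (h : HData cd N β) : ℕ → (iter cd).PP (β : Stg) × (Node → Set ((iter cd).PP (β : Stg))) :=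
  fun n => (h.e n, cd.dec ((h.e n).1 β))

def HData.R (h : HData cd N β) : ℕ → ℕ → Prop := fun k m => h.e m ∈ h.D k

variable (cd)

/-- club many hulls have data (the set of all conditions is dense, put it in the hull) -/
theorem exists_hdata (β : Ordinal.{0}) : ∀ᶠ N in ClubS (Obj (iter cd).C), Nonempty (HData cd N β) := by
  filter_upwards [cs_countable (W := Obj (iter cd).C),
    cs_mem (W := Obj (iter cd).C) (Obj.cond (iter cd).one),
    cs_mem (W := Obj (iter cd).C) (Obj.dset (Set.univ : Set (iter cd).C))] with N h1 h2 h3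
  have hc : {p : (iter cd).C | Obj.cond p ∈ N}.Countable := h1.preimage cond_inj
  have hd : {D' : Set (iter cd).C | Obj.dset D' ∈ N ∧
      ∀ p, ∃ d ∈ D', (iter cd).le ((β + 1 : Ordinal.{0}) : Stg) d p}.Countable :=
    (h1.preimage dset_inj).mono fun D hD => hD.1
  obtain ⟨e, he⟩ := hc.exists_eq_range ⟨(iter cd).one, h2⟩
  obtain ⟨D, hD⟩ := hd.exists_eq_range
    ⟨Set.univ, h3, fun p => ⟨p, trivial, (iter cd).le_refl' _ p⟩⟩
  exact ⟨⟨e, D, fun p => Set.ext_iff.1 he p, fun D' => Set.ext_iff.1 hD D'⟩⟩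

/-- change of the coordinate `β` to the part below the node `s`. PROOF. `exists_at_name` for `P = PP β`, `it_code_ev`, `put`. -/
theorem exists_atC {β : Ordinal.{0}} (hact : ActI cd β) (p : (iter cd).C) (s : Node) :
    ∃ p' : (iter cd).C, (∀ γ, γ < β → p'.1 γ = p.1 γ) ∧
      ∀ᶠ g in GC ((iter cd).PP (β : Stg)), ((cd.bk β).1 : (iter cd).PP (β : Stg)) ∈ g →
        s ∈ Ev cd β g (p.1 β) → Ev cd β g (p'.1 β) = {u ∈ Ev cd β g (p.1 β) | Cmp s u} := by
  obtain ⟨S', hS'⟩ := exists_at_name (P := (iter cd).PP (β : Stg)) hact (cd.dec (p.1 β)) s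
  obtain ⟨x, hx⟩ := it_code_ev cd (β := β) S'
  refine ⟨(iter cd).put p β x, fun γ hγ => put_ne hγ.ne, ?_⟩
  filter_upwards [hS', hx] with g h1 h2 htg hs
  have h3 : ((iter cd).put p β x).1 β = x := put_same
  have h4 : Ev cd β g (((iter cd).put p β x).1 β) =
      EvG (P := (iter cd).PP (β : Stg)) (cd.bk β) S' g := by
    rw [h3]
    exact evG_congr (P := (iter cd).PP (β : Stg)) h2
  rw [h4]
  exact h1 htg hs

/-- PROOF. First part: `one`. Second part: `exists_atC`, an operation of the hull (`cs_normal`, `cs_mem` for every of the countably many nodes `s`), and conditions that agree below `β` are both in `g` or not. Third part: let `e n ∈ g`. The set `E = {c | (∃ d ∈ D k, d ≤_{β+1} e n ∧ c ≤_β d) ∨ c incompatible with e n at stage β}` is in the hull (`Cl.eset`) and dense at stage `β`; as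
`q` is `NGen`, the set of the `s` below some `c ∈ E ∩ N` is dense below `q`, so there is `c ∈ E ∩ N`, `c ∈ g` (`GC_denseBelow'`, for the countably many `k`, `n`). `c` and `e n` are compatible, so by `Cl.epick` there is `d ∈ D k ∩ N` with `d ≤_{β+1} e n`, `c ≤_β d`, `d ∈ g`. `it_at` : `Ev (d β) ⊆ Ev (e n β)` for club many `g ∋ d` (countably many pairs). -/
theorem hyps {β : Ordinal.{0}} (hβ : β ≠ 0) (hact : ActI cd β) :
    ∀ᶠ N in ClubS (Obj (iter cd).C), ∀ (h : HData cd N β) (q : (iter cd).C),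
      (iter cd).NGen N (β : Stg) q → Fo (P := (iter cd).PP (β : Stg)) q (fun g =>
        ((cd.bk β).1 : (iter cd).PP (β : Stg)) ∈ g →
          (∃ n, (h.c n).1 ∈ g ∧ EvG (P := (iter cd).PP (β : Stg)) (cd.bk β) (h.c n).2 g = Full) ∧
          (∀ n, (h.c n).1 ∈ g → ∀ s ∈ EvG (P := (iter cd).PP (β : Stg)) (cd.bk β) (h.c n).2 g,
            ∃ m, (h.c m).1 ∈ g ∧ EvG (P := (iter cd).PP (β : Stg)) (cd.bk β) (h.c m).2 g =
              {u ∈ EvG (P := (iter cd).PP (β : Stg)) (cd.bk β) (h.c n).2 g | Cmp s u}) ∧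
          (∀ k n, (h.c n).1 ∈ g → ∃ m, h.R k m ∧ (h.c m).1 ∈ g ∧
            EvG (P := (iter cd).PP (β : Stg)) (cd.bk β) (h.c m).2 g ⊆
              EvG (P := (iter cd).PP (β : Stg)) (cd.bk β) (h.c n).2 g)) := by
  classical
  -- the operation `at`
  have hat := fun p s => exists_atC cd hact p s
  choose atC hatC1 hatC2 using hat
  have hop : ∀ᶠ N in ClubS (Obj (iter cd).C), ∀ p : (iter cd).C, Obj.cond p ∈ N →
      ∀ s : Node, Obj.cond (atC p s) ∈ N := by
    refine cs_lift cond_inj fun p => ?_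
    filter_upwards [cs_sub (W := Obj (iter cd).C)
      (Set.countable_range (fun s : Node => (Obj.cond (atC p s) : Obj (iter cd).C)))] with N hN s
    exact hN ⟨s, rfl⟩
  filter_upwards [cs_cl (I := iter cd), hop,
    cs_mem (W := Obj (iter cd).C) (Obj.ord (β : Stg)),
    cs_mem (W := Obj (iter cd).C) (Obj.ord ((β + 1 : Ordinal.{0}) : Stg))]
    with N hCl hop hNβ hNβ1
  intro h q hq
  have hlt : (β : Stg) ≤ ((β + 1 : Ordinal.{0}) : Stg) :=
    WithTop.coe_le_coe.mpr (Order.le_succ β)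
  have heN : ∀ n, Obj.cond (h.e n) ∈ N := fun n => (h.he _).2 ⟨n, rfl⟩
  -- countably many facts on `g`
  have F1 : ∀ᶠ g in GC ((iter cd).PP (β : Stg)), ∀ n : ℕ, ∀ s : Node,
      ((cd.bk β).1 : (iter cd).PP (β : Stg)) ∈ g → s ∈ Ev cd β g ((h.e n).1 β) →
        Ev cd β g ((atC (h.e n) s).1 β) = {u ∈ Ev cd β g ((h.e n).1 β) | Cmp s u} :=
    eventually_countable_forall.2 fun n => eventually_countable_forall.2 fun s =>
      hatC2 (h.e n) s
  have F2 : ∀ᶠ g in GC ((iter cd).PP (β : Stg)), ∀ m n : ℕ,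
      (iter cd).le ((β + 1 : Ordinal.{0}) : Stg) (h.e m) (h.e n) →
        ((h.e m : (iter cd).C) : (iter cd).PP (β : Stg)) ∈ g →
          Ev cd β g ((h.e m).1 β) ⊆ Ev cd β g ((h.e n).1 β) := by
    refine eventually_countable_forall.2 fun m => eventually_countable_forall.2 fun n => ?_
    by_cases hmn : (iter cd).le ((β + 1 : Ordinal.{0}) : Stg) (h.e m) (h.e n)
    · have h1 := (it_at cd hβ _ _ _).1 (le_add_one_iff.1 hmn).2
      filter_upwards [h1] with g hg _
      exact hg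
    · exact Filter.Eventually.of_forall fun g h1 => absurd h1 hmn
  have F3 : ∀ᶠ g in GC ((iter cd).PP (β : Stg)), ∀ k n : ℕ, (q : (iter cd).PP (β : Stg)) ∈ g →
      ∃ c : (iter cd).C, Obj.cond c ∈ N ∧ (c : (iter cd).PP (β : Stg)) ∈ g ∧
        ((∃ d ∈ h.D k, (iter cd).le ((β + 1 : Ordinal.{0}) : Stg) d (h.e n) ∧
          (iter cd).le (β : Stg) c d) ∨
          ∀ s, (iter cd).le (β : Stg) s c → ¬ (iter cd).le (β : Stg) s (h.e n)) := by
    refine eventually_countable_forall.2 fun k => eventually_countable_forall.2 fun n => ?_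
    obtain ⟨hDN, hDd⟩ := (h.hD (h.D k)).2 ⟨k, rfl⟩
    have hE := hCl.eset (h.D k) hDN (h.e n) (heN n) (β : Stg) hNβ
      ((β + 1 : Ordinal.{0}) : Stg) hNβ1
    have hEd : ∀ p, ∃ d ∈ {c : (iter cd).C | (∃ d ∈ h.D k,
        (iter cd).le ((β + 1 : Ordinal.{0}) : Stg) d (h.e n) ∧ (iter cd).le (β : Stg) c d) ∨
          ∀ s, (iter cd).le (β : Stg) s c → ¬ (iter cd).le (β : Stg) s (h.e n)},
        (iter cd).le (β : Stg) d p := by
      intro p
      by_cases hp : ∀ s, (iter cd).le (β : Stg) s p → ¬ (iter cd).le (β : Stg) s (h.e n)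
      · exact ⟨p, Or.inr hp, (iter cd).le_refl' _ p⟩
      · push Not at hp
        obtain ⟨s, hs1, hs2⟩ := hp
        obtain ⟨d, hd, hd'⟩ := hDd ((iter cd).glue (β : Stg) s (h.e n))
        refine ⟨d, Or.inl ⟨d, hd, (iter cd).le_trans' _ hd' (glue_le hs2),
          (iter cd).le_refl' _ d⟩, ?_⟩
        exact (iter cd).le_trans' _ ((iter cd).le_stage hlt hd')
          ((iter cd).le_trans' _ glue_le_left hs1)
    have h1 := GC_denseBelow (P := (iter cd).PP (β : Stg))
      (D := {s | ∃ c : (iter cd).C, Obj.cond c ∈ N ∧ (iter cd).le (β : Stg) s c ∧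
        ((∃ d ∈ h.D k, (iter cd).le ((β + 1 : Ordinal.{0}) : Stg) d (h.e n) ∧
          (iter cd).le (β : Stg) c d) ∨
          ∀ s, (iter cd).le (β : Stg) s c → ¬ (iter cd).le (β : Stg) s (h.e n))})
      (fun a ha b hb => by
        obtain ⟨c, h1, h2, h3⟩ := ha
        exact ⟨c, h1, (iter cd).le_trans' _ hb h2, h3⟩) (p := q) (fun r hr => by
        obtain ⟨c, hc1, hc2, s, hs1, hs2⟩ := hq _ hE hEd r hr
        exact ⟨s, hs1, c, hc2, hs2, hc1⟩)
    filter_upwards [h1] with g hg hqg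
    obtain ⟨m, c, h1, h2, h3⟩ := hg hqg
    exact ⟨c, h1, mem_up (P := (iter cd).PP (β : Stg)) (G_mem g m) h2, h3⟩
  filter_upwards [F1, F2, F3] with g F1 F2 F3 hqg htg
  refine ⟨?_, ?_, ?_⟩
  · obtain ⟨n, hn⟩ := (h.he _).1 hCl.one
    refine ⟨n, ?_, ?_⟩
    · change ((h.e n : (iter cd).C) : (iter cd).PP (β : Stg)) ∈ g
      rw [hn]
      exact top_mem (P := (iter cd).PP (β : Stg)) g
    · change EvG (P := (iter cd).PP (β : Stg)) (cd.bk β) (cd.dec ((h.e n).1 β)) g = Full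
      rw [hn]
      exact evG_empty (P := (iter cd).PP (β : Stg)) (S := cd.dec ∅) cd.dec0
  · intro n hn s hs
    obtain ⟨m, hm⟩ := (h.he _).1 (hop _ (heN n) s)
    refine ⟨m, ?_, ?_⟩
    · change ((h.e m : (iter cd).C) : (iter cd).PP (β : Stg)) ∈ g
      have h1 : (iter cd).le (β : Stg) (h.e n) (atC (h.e n) s) :=
        le_of_eqOn fun γ hγ => (hatC1 (h.e n) s γ (WithTop.coe_lt_coe.1 hγ)).symm
      rw [hm]
      exact mem_up (P := (iter cd).PP (β : Stg)) hn h1
    · have h1 := F1 n s htg hs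
      rw [← hm] at h1
      exact h1
  · intro k n hn
    obtain ⟨c, hcN, hcg, hc⟩ := F3 k n hqg
    obtain ⟨r, _, _, hr1, hr2⟩ := mem_common (P := (iter cd).PP (β : Stg)) hcg hn
    rcases hc with hc | hc
    · obtain ⟨d, hd, hdN, hd1, hd2⟩ := hCl.epick (h.D k) ((h.hD (h.D k)).2 ⟨k, rfl⟩).1 (h.e n)
        (heN n) (β : Stg) hNβ ((β + 1 : Ordinal.{0}) : Stg) hNβ1 c hcN hc
      obtain ⟨m, hm⟩ := (h.he _).1 hdN
      have hdg : ((h.e m : (iter cd).C) : (iter cd).PP (β : Stg)) ∈ g := by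
        rw [hm]
        exact mem_up (P := (iter cd).PP (β : Stg)) hcg hd2
      refine ⟨m, ?_, hdg, ?_⟩
      · change h.e m ∈ h.D k
        rw [hm]
        exact hd
      · exact F2 m n (by rw [hm]; exact hd1) hdg
    · exact absurd hr2 (hc r hr1)

/-- PROOF. `fo_mix` for `T S g = (t.1 ∈ g → GoodP t h.c h.R n₀ S g)`. Let `q' ≤ q`; take a sufficiently good `g ∋ q'`. If `t.1 ∉ g` some `G n` forces it (`dec_mem`), with any `S`. Otherwise `proper_g` (`hyps`; `e n₀ ∈ g` because `q ≤ e n₀`) gives `S` in the hull, and `dec_goodP`, `Dec.truthH` some `G n` forcing it; `mem_common`-type argument to be below `q'`. -/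
theorem exists_good (hK : ∃ a : K, a ≠ 0 ∧ a ≠ 1) {β : Ordinal.{0}} (hβ : β ≠ 0)
    (hact : ActI cd β) :
    ∀ᶠ N in ClubS (Obj (iter cd).C), ∀ (h : HData cd N β) (q : (iter cd).C) (n₀ : ℕ),
      (iter cd).NGen N (β : Stg) q → (iter cd).le (β : Stg) q (h.e n₀) →
        ∃ S : Node → Set (iter cd).C, Fo (P := (iter cd).PP (β : Stg)) q (fun g =>
          ((cd.bk β).1 : (iter cd).PP (β : Stg)) ∈ g →
            GoodP (P := (iter cd).PP (β : Stg)) (cd.bk β) h.c h.R n₀ S g) := by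
  filter_upwards [hyps cd hβ hact] with N hN
  intro h q n₀ hq hqe
  refine fo_mix (P := (iter cd).PP (β : Stg)) (p := q)
    (T := fun S g => ((cd.bk β).1 : (iter cd).PP (β : Stg)) ∈ g →
      GoodP (P := (iter cd).PP (β : Stg)) (cd.bk β) h.c h.R n₀ S g) ?_ ?_
  · intro S S' g hSS hS htg
    have h1 := hS htg
    unfold GoodP at h1 ⊢
    rw [← hSS]
    exact h1
  · intro q' hq'
    obtain ⟨g, ⟨h1, h2, h3, h4⟩, hg⟩ := GC_exists' (P := (iter cd).PP (β : Stg))
      (Filter.Eventually.and (hN h q hq) ((proper_g (P := (iter cd).PP (β : Stg)) hK hact h.c h.R).and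
        ((Dec.truthH (P := (iter cd).PP (β : Stg))
          (fun S => dec_goodP (P := (iter cd).PP (β : Stg)) hact h.c h.R n₀ S)).and
        (Dec.truth (P := (iter cd).PP (β : Stg))
          (dec_mem (P := (iter cd).PP (β : Stg)) (cd.bk β).1).not)))) q'
    have hqg : (q : (iter cd).PP (β : Stg)) ∈ g := mem_up (P := (iter cd).PP (β : Stg)) hg hq'
    by_cases htg : ((cd.bk β).1 : (iter cd).PP (β : Stg)) ∈ g
    · obtain ⟨a1, a2, a3⟩ := h1 hqg htg
      obtain ⟨S, hS, hSg⟩ := h2 htg a1 a2 a3 n₀ (mem_up (P := (iter cd).PP (β : Stg)) hqg hqe)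
      obtain ⟨n, hn⟩ := h3 S hS ⟨htg, hSg⟩
      obtain ⟨r, _, _, hr1, hr2⟩ := mem_common (P := (iter cd).PP (β : Stg)) hg (G_mem g n)
      refine ⟨r, hr1, S, ?_⟩
      filter_upwards [hn.mono hr2] with g' hg' hrg' _
      exact (hg' hrg').2
    · obtain ⟨n, hn⟩ := h4 htg
      obtain ⟨r, _, _, hr1, hr2⟩ := mem_common (P := (iter cd).PP (β : Stg)) hg (G_mem g n)
      refine ⟨r, hr1, fun _ => ∅, ?_⟩
      filter_upwards [hn.mono hr2] with g' hg' hrg' htg'
      exact absurd htg' (hg' hrg')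

end Pool.Agent.CIt
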