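import Pool.Agent.Lib_CI.Bd
import Pool.Agent.Lib_CI.DecPP

/-!
# Piece CIWIT: bounded witnesses for the properties of the filter
-/

set_option autoImplicit false

namespace Pool.Agent.CIt

open Pool.Agent.GGen Pool.Agent.HMod Pool.Agent.SOU Pool.Agent.SOUi Pool.Agent.CSI

variable {K : Type} [Field K] [DecidableEq K] [Countable K] (cd : Codes K)

/-- equality of the evaluations from `names_reflect` -/
private theorem CIWIT_fo_eq {P : Type 1} [Preorder P] [OrderTop P] {ι : Type} [Countable ι]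
    {X Y : ι → Set P} {q : P}
    (h : ∀ i, ∀ r ≤ q, (∃ s ≤ r, ∃ c ∈ X i, s ≤ c) ↔ ∃ s ≤ r, ∃ c ∈ Y i, s ≤ c) :
    Fo q (fun g => ev Y g = ev X g) := by
  have h1 : Fo q (fun g => ∀ i, (i ∈ ev X g ↔ i ∈ ev Y g)) := by
    refine fo_all fun i => fo_dense fun r hr => ?_
    obtain ⟨s, hs, h2 | h2⟩ := dec_ev X i r
    · refine ⟨s, hs, ?_⟩
      have h3 : Fo s (fun g => i ∈ ev Y g) := by
        rw [fo_ev_iff] at h2 ⊢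
        intro t ht
        exact (h i t (ht.trans (hs.trans hr))).1 (h2 t ht)
      exact (h2.and h3).imp (fo_of_eventually (Filter.Eventually.of_forall fun g hg =>
        iff_of_true hg.1 hg.2))
    · refine ⟨s, hs, ?_⟩
      have h3 : Fo s (fun g => i ∉ ev Y g) := by
        rw [fo_not_ev_iff] at h2 ⊢
        intro t ht c hc htc
        obtain ⟨u, hu, d, hd, hud⟩ := (h i t (ht.trans (hs.trans hr))).2 ⟨t, le_rfl, c, hc, htc⟩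
        exact h2 u (hu.trans ht) d hd hud
      exact (h2.and h3).imp (fo_of_eventually (Filter.Eventually.of_forall fun g hg =>
        iff_of_false hg.1 hg.2))
  refine h1.imp (fo_of_eventually (Filter.Eventually.of_forall fun g hg => ?_))
  ext i
  exact (hg i).symm

/-- the first step: a condition that forces the statement for a name -/
private theorem CIWIT_one {P : Type 1} [Preorder P] [OrderTop P] {ι : Type}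
    [∀ 𝔐 : HM.{2}, Cod 𝔐 ι] [BL.{2} ι] {T : Set ι → GG P → Prop}
    (hT : ∀ B : ι → Set P, Dec (fun g => T (ev B g) g)) {c : P}
    (h : Fo c (fun g => ∃ S, Int g.M (fun i => i ∈ S) ∧ T S g)) :
    ∃ c₁ ≤ c, ∃ B : ι → Set P, Fo c₁ (fun g => T (ev B g) g) := by
  obtain ⟨g, hc, ⟨S, hS, hTS⟩, h1, h2⟩ := fo_exists h
    (Filter.Eventually.and (rep_ev (P := P) (ι := ι)) (Dec.truthH (P := P) hT))
  obtain ⟨B, hB, rfl⟩ := h1 S hS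
  obtain ⟨n, hn⟩ := h2 B hB hTS
  obtain ⟨r, _, _, h3, h4⟩ := mem_common hc (G_mem g n)
  exact ⟨r, h3, B, hn.mono h4⟩

/-- PROOF. Take a good `g ∋ c`; `S = ev B₀ g` (`rep_ev`), the statement `T (ev B₀ g) g` is forced by some `c₁ ∈ g`, `c₁ ≤ c` (`Dec.truthH`). `names_reflect` for `δ = ⊤` (`ucof_top`) gives `c' ≤ c₁` and a bounded `B` with `ev B = ev B₀` forced by `c'`. -/
theorem bounded_wit (hI : (iter cd).Proper) {ι : Type} [∀ 𝔐 : HM.{2}, Cod 𝔐 ι] [BL.{2} ι]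
    {T : Set ι → GG ((iter cd).PP ⊤) → Prop}
    (hT : ∀ B : ι → Set (iter cd).C, Dec (fun g => T (ev (P := (iter cd).PP ⊤) B g) g))
    {c : (iter cd).C} (h : Fo (P := (iter cd).PP ⊤) c (fun g => ∃ S, Int g.M (fun i => i ∈ S) ∧ T S g)) :
    ∃ c' B, (iter cd).le ⊤ c' c ∧ (∃ γ, Bd γ B) ∧
      Fo (P := (iter cd).PP ⊤) c' (fun g => T (ev (P := (iter cd).PP ⊤) B g) g) := by
  have hι : Countable ι := (BL.inj.{2} (α := ι)).countable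
  obtain ⟨c₁, hc₁, B₀, hB₀⟩ := CIWIT_one (P := (iter cd).PP ⊤) hT h
  obtain ⟨q, β, Y, _, hq, hY, hXY⟩ := names_reflect hI ucof_top B₀ c₁
  have h1 : Fo (P := (iter cd).PP ⊤) q (fun g =>
      ev (P := (iter cd).PP ⊤) Y g = ev (P := (iter cd).PP ⊤) B₀ g) :=
    CIWIT_fo_eq (P := (iter cd).PP ⊤) (X := B₀) (Y := Y) (q := q) fun i r hr => hXY i r hr
  refine ⟨q, Y, (iter cd).le_trans' ⊤ hq hc₁, ⟨β, fun i c hc => bdC_iff.2 (hY i c hc)⟩, ?_⟩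
  have h2 : Fo (P := (iter cd).PP ⊤) q (fun g => T (ev (P := (iter cd).PP ⊤) B₀ g) g) :=
    Fo.mono (P := (iter cd).PP ⊤) hB₀ hq
  refine Fo.imp (P := (iter cd).PP ⊤) (Fo.and (P := (iter cd).PP ⊤) h1 h2)
    (fo_of_eventually (Filter.Eventually.of_forall fun g hg => ?_))
  rw [hg.1]
  exact hg.2

variable (p : (iter cd).C) (𝓕 : FN (ℕ →₀ K) (iter cd).C)

/-- `c'` decides `A ∈ F` -/
def Q0 (A : (ℕ →₀ K) → Set (iter cd).C) (c' : (iter cd).C) (_B : ℕ → Set (iter cd).C) : Prop :=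
  Fo (P := (iter cd).PP ⊤) c' (fun g => (p : (iter cd).PP ⊤) ∈ g →
    ev (P := (iter cd).PP ⊤) A g ∈ evF (P := (iter cd).PP ⊤) 𝓕 g) ∨
  Fo (P := (iter cd).PP ⊤) c' (fun g => (p : (iter cd).PP ⊤) ∈ g →
    ev (P := (iter cd).PP ⊤) A g ∉ evF (P := (iter cd).PP ⊤) 𝓕 g)

/-- `B` names a block sequence witnessing `base` for `A` -/
def Q1 (A : (ℕ →₀ K) → Set (iter cd).C) (c' : (iter cd).C)
    (B : ℕ × (ℕ →₀ K) → Set (iter cd).C) : Prop :=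
  Fo (P := (iter cd).PP ⊤) c' (fun g => (p : (iter cd).PP ⊤) ∈ g →
    ev (P := (iter cd).PP ⊤) A g ∈ evF (P := (iter cd).PP ⊤) 𝓕 g →
      ∃ X : ℕ → ℕ →₀ K, ev (P := (iter cd).PP ⊤) B g = {q | X q.1 = q.2} ∧ Blk X ∧
        bs X ∈ evF (P := (iter cd).PP ⊤) 𝓕 g ∧ bs X ⊆ ev (P := (iter cd).PP ⊤) A g)

/-- `B` names a block sequence witnessing `A ∉ F` -/
def Q2 (A : (ℕ →₀ K) → Set (iter cd).C) (c' : (iter cd).C)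
    (B : ℕ × (ℕ →₀ K) → Set (iter cd).C) : Prop :=
  Fo (P := (iter cd).PP ⊤) c' (fun g => (p : (iter cd).PP ⊤) ∈ g →
    ev (P := (iter cd).PP ⊤) A g ∉ evF (P := (iter cd).PP ⊤) 𝓕 g →
      ∃ X : ℕ → ℕ →₀ K, ev (P := (iter cd).PP ⊤) B g = {q | X q.1 = q.2} ∧ Blk X ∧
        bs X ∈ evF (P := (iter cd).PP ⊤) 𝓕 g ∧ ∀ Z : ℕ → ℕ →₀ K, IntF g.M Z → Blk Z →
          bs Z ⊆ bs X → ¬ bs Z ⊆ ev (P := (iter cd).PP ⊤) A g)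

/-- `B` names a pseudo-intersection of the sequence named by `A` -/
def Q3 (A : (ℕ × ℕ) × (ℕ →₀ K) → Set (iter cd).C) (c' : (iter cd).C)
    (B : ℕ × (ℕ →₀ K) → Set (iter cd).C) : Prop :=
  Fo (P := (iter cd).PP ⊤) c' (fun g => (p : (iter cd).PP ⊤) ∈ g →
    ∀ X : ℕ × ℕ → ℕ →₀ K, ev (P := (iter cd).PP ⊤) A g = {q | X q.1 = q.2} →
      (∀ n, Blk (fun m => X (n, m)) ∧
        bs (fun m => X (n, m)) ∈ evF (P := (iter cd).PP ⊤) 𝓕 g) →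
      ∃ Y : ℕ → ℕ →₀ K, ev (P := (iter cd).PP ⊤) B g = {q | Y q.1 = q.2} ∧ Blk Y ∧
        bs Y ∈ evF (P := (iter cd).PP ⊤) 𝓕 g ∧
          ∀ n, ∃ k, ∀ v ∈ bs Y, (∀ j ∈ v.support, k < j) → v ∈ bs (fun m => X (n, m)))

variable {p 𝓕}

/-- `dec_memEvF` -/
theorem q0_ex (hp : PPAt cd ⊤ 𝓕 p) (A : (ℕ →₀ K) → Set (iter cd).C) (c : (iter cd).C) :
    ∃ c' B, (iter cd).le ⊤ c' c ∧ (∃ γ, Bd γ B) ∧ Q0 cd p 𝓕 A c' B := by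
  obtain ⟨q, hq, h1 | h1⟩ := dec_memEvF (P := (iter cd).PP ⊤) 𝓕
    (T := fun v g => v ∈ ev (P := (iter cd).PP ⊤) A g) (dec_ev (P := (iter cd).PP ⊤) A) c
  · refine ⟨q, fun _ => ∅, hq, ⟨0, fun i c hc => absurd hc (Set.notMem_empty c)⟩, Or.inl ?_⟩
    refine Fo.imp (P := (iter cd).PP ⊤) h1
      (fo_of_eventually (Filter.Eventually.of_forall fun g hg _ => hg.2))
  · refine ⟨q, fun _ => ∅, hq, ⟨0, fun i c hc => absurd hc (Set.notMem_empty c)⟩, Or.inr ?_⟩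
    refine Fo.imp (P := (iter cd).PP ⊤) h1 (fo_of_eventually ?_)
    filter_upwards [hp] with g hg hn hpg hm
    exact hn ⟨(hg hpg).1, hm⟩

/-- the two forms of a statement about the filter below `p` -/
private theorem CIWIT_dir (hp : PPAt cd ⊤ 𝓕 p) :
    ∀ᶠ g in GC ((iter cd).PP ⊤), (p : (iter cd).PP ⊤) ∈ g →
      Dir (P := (iter cd).PP ⊤) 𝓕 g ∧ IsPPlusi g.M (evF (P := (iter cd).PP ⊤) 𝓕 g) := hp

section gen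

variable {P : Type 1} [Preorder P] [OrderTop P] {𝓖 : FN (ℕ →₀ K) P} {p₀ : P}

private theorem CIWIT_d1 (hp : ∀ᶠ g in GC P, p₀ ∈ g → Dir 𝓖 g ∧ IsPPlusi g.M (evF 𝓖 g))
    (A : (ℕ →₀ K) → Set P) (B : ℕ × (ℕ →₀ K) → Set P) :
    Dec (fun g => p₀ ∈ g → ev A g ∈ evF 𝓖 g →
      ∃ X : ℕ → ℕ →₀ K, ev B g = {q | X q.1 = q.2} ∧ Blk X ∧ bs X ∈ evF 𝓖 g ∧ bs X ⊆ ev A g) := by
  have h1 : Dec (fun g : GG P => p₀ ∈ g → (Dir 𝓖 g ∧ {v | v ∈ ev A g} ∈ evF 𝓖 g) →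
      ((∃ f : ℕ → ℕ →₀ K, ev B g = {q | f q.1 = q.2}) ∧ Blk (dpp_fn B g) ∧
        (Dir 𝓖 g ∧ {v | v ∈ bs (dpp_fn B g)} ∈ evF 𝓖 g) ∧
          ∀ v, v ∈ bs (dpp_fn B g) → v ∈ ev A g)) :=
    (dec_mem p₀).imp ((dec_memEvF 𝓖 (dec_ev A)).imp ((dec_isFun B).and ((dpp_blk B).and
      ((dec_memEvF 𝓖 (T := fun v g => v ∈ bs (dpp_fn B g)) (dpp_bs B)).and
        (dec_all fun v => (dpp_bs B v).imp (dec_ev A v))))))
  refine h1.congr ?_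
  filter_upwards [hp] with g hg
  refine imp_congr_right fun hpg => ?_
  have hD := (hg hpg).1
  constructor
  · intro h2 hA
    obtain ⟨⟨f, hf⟩, h3, h4, h5⟩ := h2 ⟨hD, hA⟩
    rw [dpp_fn_eq hf] at h3 h4 h5
    exact ⟨f, hf, h3, h4.2, h5⟩
  · rintro h2 ⟨_, hA⟩
    obtain ⟨f, hf, h3, h4, h5⟩ := h2 hA
    rw [dpp_fn_eq hf]
    exact ⟨⟨f, hf⟩, h3, ⟨hD, h4⟩, h5⟩

private theorem CIWIT_e1 (hp : ∀ᶠ g in GC P, p₀ ∈ g → Dir 𝓖 g ∧ IsPPlusi g.M (evF 𝓖 g))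
    (A : (ℕ →₀ K) → Set P) :
    ∀ᶠ g in GC P, ∃ S : Set (ℕ × (ℕ →₀ K)), Int g.M (fun i => i ∈ S) ∧
      (p₀ ∈ g → ev A g ∈ evF 𝓖 g →
        ∃ X : ℕ → ℕ →₀ K, S = {q | X q.1 = q.2} ∧ Blk X ∧ bs X ∈ evF 𝓖 g ∧ bs X ⊆ ev A g) := by
  filter_upwards [hp] with g hg
  by_cases h : p₀ ∈ g ∧ ev A g ∈ evF 𝓖 g
  · obtain ⟨X, hXi, h1, h2, h3⟩ := (hg h.1).2.base _ h.2
    exact ⟨{q | X q.1 = q.2}, hXi.graph, fun _ _ => ⟨X, rfl, h1, h2, h3⟩⟩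
  · exact ⟨∅, int_const False, fun h1 h2 => absurd ⟨h1, h2⟩ h⟩

private theorem CIWIT_d2 (hp : ∀ᶠ g in GC P, p₀ ∈ g → Dir 𝓖 g ∧ IsPPlusi g.M (evF 𝓖 g))
    (A : (ℕ →₀ K) → Set P) (B : ℕ × (ℕ →₀ K) → Set P) :
    Dec (fun g => p₀ ∈ g → ev A g ∉ evF 𝓖 g →
      ∃ X : ℕ → ℕ →₀ K, ev B g = {q | X q.1 = q.2} ∧ Blk X ∧ bs X ∈ evF 𝓖 g ∧
        ∀ Z : ℕ → ℕ →₀ K, IntF g.M Z → Blk Z → bs Z ⊆ bs X → ¬ bs Z ⊆ ev A g) := by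
  have h1 : Dec (fun g : GG P => p₀ ∈ g → (¬ (Dir 𝓖 g ∧ {v | v ∈ ev A g} ∈ evF 𝓖 g)) →
      ((∃ f : ℕ → ℕ →₀ K, ev B g = {q | f q.1 = q.2}) ∧ Blk (dpp_fn B g) ∧
        (Dir 𝓖 g ∧ {v | v ∈ bs (dpp_fn B g)} ∈ evF 𝓖 g) ∧
          ∀ Z : ℕ → ℕ →₀ K, IntF g.M Z → (Blk Z → (∀ v, v ∈ bs Z → v ∈ bs (dpp_fn B g)) →
            ¬ ∀ v, v ∈ bs Z → v ∈ ev A g))) := by
    refine (dec_mem p₀).imp ((dec_memEvF 𝓖 (dec_ev A)).not.imp ((dec_isFun B).and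
      ((dpp_blk B).and ((dec_memEvF 𝓖 (T := fun v g => v ∈ bs (dpp_fn B g)) (dpp_bs B)).and ?_))))
    refine dpp_allFun fun Z => ?_
    exact (dpp_blk Z).imp ((dec_all fun v => (dpp_bs Z v).imp (dpp_bs B v)).imp
      (dec_all fun v => (dpp_bs Z v).imp (dec_ev A v)).not)
  refine h1.congr ?_
  filter_upwards [hp] with g hg
  refine imp_congr_right fun hpg => ?_
  have hD := (hg hpg).1
  constructor
  · intro h2 hA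
    obtain ⟨⟨f, hf⟩, h3, h4, h5⟩ := h2 (fun h => hA h.2)
    rw [dpp_fn_eq hf] at h3 h4
    refine ⟨f, hf, h3, h4.2, fun Z hZ hZb hZ1 hZ2 => ?_⟩
    refine h5 Z hZ hZb (fun v hv => ?_) (fun v hv => hZ2 hv)
    rw [dpp_fn_eq hf]
    exact hZ1 hv
  · intro h2 hA
    obtain ⟨f, hf, h3, h4, h5⟩ := h2 (fun h => hA ⟨hD, h⟩)
    rw [dpp_fn_eq hf]
    exact ⟨⟨f, hf⟩, h3, ⟨hD, h4⟩, fun Z hZ hZb hZ1 hZ2 => h5 Z hZ hZb
      (fun v hv => hZ1 v hv) (fun v hv => hZ2 v hv)⟩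

private theorem CIWIT_e2 (hp : ∀ᶠ g in GC P, p₀ ∈ g → Dir 𝓖 g ∧ IsPPlusi g.M (evF 𝓖 g))
    (A : (ℕ →₀ K) → Set P) :
    ∀ᶠ g in GC P, ∃ S : Set (ℕ × (ℕ →₀ K)), Int g.M (fun i => i ∈ S) ∧
      (p₀ ∈ g → ev A g ∉ evF 𝓖 g →
        ∃ X : ℕ → ℕ →₀ K, S = {q | X q.1 = q.2} ∧ Blk X ∧ bs X ∈ evF 𝓖 g ∧
          ∀ Z : ℕ → ℕ →₀ K, IntF g.M Z → Blk Z → bs Z ⊆ bs X → ¬ bs Z ⊆ ev A g) := by
  filter_upwards [hp, GC_has (P := P) A, int_ev (P := P) (ι := (ℕ →₀ K)),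
    GC_club (P := P) (club_Std K)] with g hg hA hI hstd
  by_cases h : p₀ ∈ g ∧ ev A g ∉ evF 𝓖 g
  · obtain ⟨X, hXi, h1, h2, h3⟩ := full_blk_i' (hg h.1).2.toIsFulli (hI A hA) h.2
    exact ⟨{q | X q.1 = q.2}, hXi.graph, fun _ _ => ⟨X, rfl, h1, h2, h3⟩⟩
  · exact ⟨∅, int_const False, fun h1 h2 => absurd ⟨h1, h2⟩ h⟩

private theorem CIWIT_d3 (hp : ∀ᶠ g in GC P, p₀ ∈ g → Dir 𝓖 g ∧ IsPPlusi g.M (evF 𝓖 g))
    (A : (ℕ × ℕ) × (ℕ →₀ K) → Set P) (B : ℕ × (ℕ →₀ K) → Set P) :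
    Dec (fun g => p₀ ∈ g → ∀ X : ℕ × ℕ → ℕ →₀ K, ev A g = {q | X q.1 = q.2} →
      (∀ n, Blk (fun m => X (n, m)) ∧ bs (fun m => X (n, m)) ∈ evF 𝓖 g) →
      ∃ Y : ℕ → ℕ →₀ K, ev B g = {q | Y q.1 = q.2} ∧ Blk Y ∧ bs Y ∈ evF 𝓖 g ∧
        ∀ n, ∃ k, ∀ v ∈ bs Y, (∀ j ∈ v.support, k < j) → v ∈ bs (fun m => X (n, m))) := by
  have hs : ∀ n v, Dec (fun g : GG P => v ∈ bs (fun m => dpp_fn A g (n, m))) := fun n v =>
    dpp_sec_dec (T := fun f => v ∈ bs f) n (dpp_bs _ v)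
  have h1 : Dec (fun g : GG P => p₀ ∈ g → (∃ f : ℕ × ℕ → ℕ →₀ K, ev A g = {q | f q.1 = q.2}) →
      (∀ n : ℕ, Blk (fun m => dpp_fn A g (n, m)) ∧
        (Dir 𝓖 g ∧ {v | v ∈ bs (fun m => dpp_fn A g (n, m))} ∈ evF 𝓖 g)) →
      ((∃ f : ℕ → ℕ →₀ K, ev B g = {q | f q.1 = q.2}) ∧ Blk (dpp_fn B g) ∧
        (Dir 𝓖 g ∧ {v | v ∈ bs (dpp_fn B g)} ∈ evF 𝓖 g) ∧
          ∀ n : ℕ, ∃ k : ℕ, ∀ v, v ∈ bs (dpp_fn B g) → (∀ j ∈ v.support, k < j) →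
            v ∈ bs (fun m => dpp_fn A g (n, m)))) := by
    refine (dec_mem p₀).imp ((dec_isFun A).imp (Dec.imp (dec_all fun n => ?_)
      ((dec_isFun B).and ((dpp_blk B).and
        ((dec_memEvF 𝓖 (T := fun v g => v ∈ bs (dpp_fn B g)) (dpp_bs B)).and
          (dec_all fun n => dec_ex fun k => dec_all fun v =>
            (dpp_bs B v).imp ((dec_const _).imp (hs n v))))))))
    refine (dpp_sec_dec (T := fun f => Blk f) n (dpp_blk _)).and ?_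
    exact dec_memEvF 𝓖 (T := fun v g => v ∈ bs (fun m => dpp_fn A g (n, m))) fun v => hs n v
  refine h1.congr ?_
  filter_upwards [hp] with g hg
  refine imp_congr_right fun hpg => ?_
  have hD := (hg hpg).1
  constructor
  · intro h2 X hX h3
    rw [dpp_fn_eq hX] at h2
    obtain ⟨⟨f, hf⟩, h4, h5, h6⟩ := h2 ⟨X, hX⟩ (fun n => ⟨(h3 n).1, hD, (h3 n).2⟩)
    rw [dpp_fn_eq hf] at h4 h5 h6
    refine ⟨f, hf, h4, h5.2, fun n => ?_⟩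
    obtain ⟨k, hk⟩ := h6 n
    exact ⟨k, fun v hv hj => hk v hv hj⟩
  · rintro h2 ⟨X, hX⟩ h3
    rw [dpp_fn_eq hX] at h3 ⊢
    obtain ⟨f, hf, h4, h5, h6⟩ := h2 X hX (fun n => ⟨(h3 n).1, (h3 n).2.2⟩)
    rw [dpp_fn_eq hf]
    refine ⟨⟨f, hf⟩, h4, ⟨hD, h5⟩, fun n => ?_⟩
    obtain ⟨k, hk⟩ := h6 n
    exact ⟨k, fun v hv hj => hk v hv hj⟩

private theorem CIWIT_e3 (hp : ∀ᶠ g in GC P, p₀ ∈ g → Dir 𝓖 g ∧ IsPPlusi g.M (evF 𝓖 g))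
    (A : (ℕ × ℕ) × (ℕ →₀ K) → Set P) :
    ∀ᶠ g in GC P, ∃ S : Set (ℕ × (ℕ →₀ K)), Int g.M (fun i => i ∈ S) ∧
      (p₀ ∈ g → ∀ X : ℕ × ℕ → ℕ →₀ K, ev A g = {q | X q.1 = q.2} →
      (∀ n, Blk (fun m => X (n, m)) ∧ bs (fun m => X (n, m)) ∈ evF 𝓖 g) →
      ∃ Y : ℕ → ℕ →₀ K, S = {q | Y q.1 = q.2} ∧ Blk Y ∧ bs Y ∈ evF 𝓖 g ∧
        ∀ n, ∃ k, ∀ v ∈ bs Y, (∀ j ∈ v.support, k < j) → v ∈ bs (fun m => X (n, m))) := by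
  filter_upwards [hp, GC_has (P := P) A, int_ev (P := P) (ι := (ℕ × ℕ) × (ℕ →₀ K))]
    with g hg hA hI
  by_cases h : p₀ ∈ g ∧ ∃ X : ℕ × ℕ → ℕ →₀ K, ev A g = {q | X q.1 = q.2} ∧
      (∀ n, Blk (fun m => X (n, m)) ∧ bs (fun m => X (n, m)) ∈ evF 𝓖 g)
  · obtain ⟨hpg, X, hX, hXn⟩ := h
    have hXi : IntF g.M (fun q : ℕ × ℕ => (fun n m => X (n, m)) q.1 q.2) := by
      refine ⟨?_⟩
      have h3 := hI A hA
      rw [hX] at h3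
      exact h3
    obtain ⟨Y, hYi, h1, h2, h3⟩ := (hg hpg).2.pfil (fun n m => X (n, m)) hXi hXn
    refine ⟨{q | Y q.1 = q.2}, hYi.graph, fun _ X' hX' _ => ⟨Y, rfl, h1, h2, ?_⟩⟩
    have h4 : X' = X := by
      rw [← dpp_fn_eq hX, ← dpp_fn_eq hX']
    rw [h4]
    exact h3
  · exact ⟨∅, int_const False, fun h1 X hX hXn => absurd ⟨h1, X, hX, hXn⟩ h⟩

end gen

/-- `bounded_wit` for the statement in `Q1` (with `ev B g` replaced by `S`): it is decided (`dec_blk`, `dec_mem_bs`, `dec_graph`, `dec_memEvF`), and true for some internal `S` in club many `g` (`IsBlockFilteri.base`; the graph of an internal function is internal; if the hypotheses of the statement fail take `S = ∅`) -/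
theorem q1_ex (hI : (iter cd).Proper) (hp : PPAt cd ⊤ 𝓕 p) (A : (ℕ →₀ K) → Set (iter cd).C)
    (c : (iter cd).C) : ∃ c' B, (iter cd).le ⊤ c' c ∧ (∃ γ, Bd γ B) ∧ Q1 cd p 𝓕 A c' B := by
  exact bounded_wit cd hI (fun B => CIWIT_d1 (P := (iter cd).PP ⊤) (CIWIT_dir cd hp) A B)
    (c := c) (fo_of_eventually (P := (iter cd).PP ⊤)
      (CIWIT_e1 (P := (iter cd).PP ⊤) (CIWIT_dir cd hp) A))

/-- the same with `full_blk_i'` -/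
theorem q2_ex (hI : (iter cd).Proper) (hp : PPAt cd ⊤ 𝓕 p) (A : (ℕ →₀ K) → Set (iter cd).C)
    (c : (iter cd).C) : ∃ c' B, (iter cd).le ⊤ c' c ∧ (∃ γ, Bd γ B) ∧ Q2 cd p 𝓕 A c' B := by
  exact bounded_wit cd hI (fun B => CIWIT_d2 (P := (iter cd).PP ⊤) (CIWIT_dir cd hp) A B)
    (c := c) (fo_of_eventually (P := (iter cd).PP ⊤)
      (CIWIT_e2 (P := (iter cd).PP ⊤) (CIWIT_dir cd hp) A))

/-- the same with `pfil` -/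
theorem q3_ex (hI : (iter cd).Proper) (hp : PPAt cd ⊤ 𝓕 p)
    (A : (ℕ × ℕ) × (ℕ →₀ K) → Set (iter cd).C) (c : (iter cd).C) :
    ∃ c' B, (iter cd).le ⊤ c' c ∧ (∃ γ, Bd γ B) ∧ Q3 cd p 𝓕 A c' B := by
  exact bounded_wit cd hI (fun B => CIWIT_d3 (P := (iter cd).PP ⊤) (CIWIT_dir cd hp) A B)
    (c := c) (fo_of_eventually (P := (iter cd).PP ⊤)
      (CIWIT_e3 (P := (iter cd).PP ⊤) (CIWIT_dir cd hp) A))

end Pool.Agent.CIt
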