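import Pool.Agent.Lib_CI.ReflG
import Pool.Agent.Lib_CI.Wit

/-!
# Piece CIREFLA: the restriction of a filter name to a closure point
-/

set_option autoImplicit false

namespace Pool.Agent.CIt

open Pool.Agent.GGen Pool.Agent.HMod Pool.Agent.SOU Pool.Agent.SOUi Pool.Agent.CSI

variable {K : Type} [Field K] [DecidableEq K] [Countable K] (cd : Codes K)
  (p : (iter cd).C) (𝓕 : FN (ℕ →₀ K) (iter cd).C)

/-- the restriction of the filter name `𝓕` to the stage `β` -/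
def FR (β : Ordinal.{0}) : FN (ℕ →₀ K) (iter cd).C :=
  {q | (∀ v, q.1 v ⊆ DD cd β) ∧ q.2 ∈ DD cd β ∧
    Fo (P := (iter cd).PP ⊤) q.2 (fun g => (p : (iter cd).PP ⊤) ∈ g →
      ev (P := (iter cd).PP ⊤) q.1 g ∈ evF (P := (iter cd).PP ⊤) 𝓕 g)}

/-- closure points -/
structure RPt (β : Ordinal.{0}) : Prop where
  ucof : UCof (β : Stg)
  bd : BdC β p
  q0 : ∀ A : (ℕ →₀ K) → Set (iter cd).C, (∃ γ < β, ∀ i, A i ⊆ DD cd γ) → ∀ c : (iter cd).C,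
    ∃ c' B, (iter cd).le (β : Stg) c' c ∧ BdC β c' ∧ Bd β B ∧ Q0 cd p 𝓕 A c' B
  q1 : ∀ A : (ℕ →₀ K) → Set (iter cd).C, (∃ γ < β, ∀ i, A i ⊆ DD cd γ) → ∀ c : (iter cd).C,
    ∃ c' B, (iter cd).le (β : Stg) c' c ∧ BdC β c' ∧ Bd β B ∧ Q1 cd p 𝓕 A c' B
  q2 : ∀ A : (ℕ →₀ K) → Set (iter cd).C, (∃ γ < β, ∀ i, A i ⊆ DD cd γ) → ∀ c : (iter cd).C,
    ∃ c' B, (iter cd).le (β : Stg) c' c ∧ BdC β c' ∧ Bd β B ∧ Q2 cd p 𝓕 A c' B
  q3 : ∀ A : (ℕ × ℕ) × (ℕ →₀ K) → Set (iter cd).C, (∃ γ < β, ∀ i, A i ⊆ DD cd γ) →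
    ∀ c : (iter cd).C,
    ∃ c' B, (iter cd).le (β : Stg) c' c ∧ BdC β c' ∧ Bd β B ∧ Q3 cd p 𝓕 A c' B

variable {p 𝓕}

/-- `small_DD`: all components are in small sets -/
theorem fr_small (β : Ordinal.{0}) : Small.{0} (FR cd p 𝓕 β) ∧ ∀ q ∈ FR cd p 𝓕 β, SmN q.1 := by
  have hD := small_DD cd β
  refine ⟨?_, fun q hq v => small_subset (hq.1 v)⟩
  have h1 : Small.{0} (Set.range (fun T : ((ℕ →₀ K) → Set (DD cd β)) × DD cd β =>
      (((fun v => Subtype.val '' (T.1 v)), T.2.1) :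
        ((ℕ →₀ K) → Set (iter cd).C) × (iter cd).C))) := small_range _
  refine small_subset (s := Set.range (fun T : ((ℕ →₀ K) → Set (DD cd β)) × DD cd β =>
      (((fun v => Subtype.val '' (T.1 v)), T.2.1) :
        ((ℕ →₀ K) → Set (iter cd).C) × (iter cd).C))) ?_
  rintro ⟨S, c⟩ ⟨hS, hc, _⟩
  refine ⟨(fun v => {d | d.1 ∈ S v}, ⟨c, hc⟩), ?_⟩
  refine Prod.ext ?_ rfl
  funext v
  ext d
  constructor
  · rintro ⟨e, he, rfl⟩
    exact he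
  · intro hd
    exact ⟨⟨d, hS v hd⟩, hd, rfl⟩

theorem fr_bd (β : Ordinal.{0}) : BdF β (FR cd p 𝓕 β) := by
  exact fun q hq => ⟨bd_DD hq.1, bdC_DD hq.2.1⟩

/-- `exists_closure` for the maximum of the functions of `refl_point` for `Q0`, ..., `Q3` (`q0_ex` ...) -/
theorem exists_rpt (hI : (iter cd).Proper) (hp : PPAt cd ⊤ 𝓕 p) (α : Ordinal.{0}) :
    ∃ β, α < β ∧ RPt cd p 𝓕 β := by
  obtain ⟨f0, h0⟩ := refl_point cd (Q0 cd p 𝓕) (fun A c => q0_ex cd hp A c)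
  obtain ⟨f1, h1⟩ := refl_point cd (Q1 cd p 𝓕) (fun A c => q1_ex cd hI hp A c)
  obtain ⟨f2, h2⟩ := refl_point cd (Q2 cd p 𝓕) (fun A c => q2_ex cd hI hp A c)
  obtain ⟨f3, h3⟩ := refl_point cd (Q3 cd p 𝓕) (fun A c => q3_ex cd hI hp A c)
  obtain ⟨γp, hγp⟩ := exists_bdC (cd := cd) p
  obtain ⟨β, hβ, hu, hcl⟩ := exists_closure
    (fun γ => max (max (f0 γ) (f1 γ)) (max (f2 γ) (f3 γ))) (max α γp)
  refine ⟨β, lt_of_le_of_lt (le_max_left _ _) hβ, hu,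
    bdC_mono ((le_max_right α γp).trans hβ.le) hγp, ?_, ?_, ?_, ?_⟩
  · exact h0 β hu fun γ hγ =>
      lt_of_le_of_lt ((le_max_left _ _).trans (le_max_left _ _)) (hcl γ hγ)
  · exact h1 β hu fun γ hγ =>
      lt_of_le_of_lt ((le_max_right _ _).trans (le_max_left _ _)) (hcl γ hγ)
  · exact h2 β hu fun γ hγ =>
      lt_of_le_of_lt ((le_max_left _ _).trans (le_max_right _ _)) (hcl γ hγ)
  · exact h3 β hu fun γ hγ =>
      lt_of_le_of_lt ((le_max_right _ _).trans (le_max_right _ _)) (hcl γ hγ)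

/-- membership in the filter is decided below `p` -/
theorem dec_refla (hp : ∀ᶠ g in GC ((iter cd).PP ⊤), (p : (iter cd).PP ⊤) ∈ g →
      Dir (P := (iter cd).PP ⊤) 𝓕 g) (X : (ℕ →₀ K) → Set (iter cd).C) :
    Dec (P := (iter cd).PP ⊤) (fun g => (p : (iter cd).PP ⊤) ∈ g →
      ev (P := (iter cd).PP ⊤) X g ∈ evF (P := (iter cd).PP ⊤) 𝓕 g) := by
  refine Dec.congr (P := (iter cd).PP ⊤) ((dec_mem (P := (iter cd).PP ⊤) p).imp
    (dec_memEvF (P := (iter cd).PP ⊤) 𝓕 (T := fun i g => i ∈ ev (P := (iter cd).PP ⊤) X g)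
      (dec_ev (P := (iter cd).PP ⊤) X))) ?_
  filter_upwards [hp] with g h1
  exact ⟨fun h2 h3 => (h2 h3).2, fun h2 h3 => ⟨h1 h3, h2 h3⟩⟩

theorem dec_refla' (hp : ∀ᶠ g in GC ((iter cd).PP ⊤), (p : (iter cd).PP ⊤) ∈ g →
      Dir (P := (iter cd).PP ⊤) 𝓕 g) (X : (ℕ →₀ K) → Set (iter cd).C) :
    Dec (P := (iter cd).PP ⊤) (fun g => (p : (iter cd).PP ⊤) ∈ g →
      ev (P := (iter cd).PP ⊤) X g ∉ evF (P := (iter cd).PP ⊤) 𝓕 g) := by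
  refine Dec.congr (P := (iter cd).PP ⊤) ((dec_mem (P := (iter cd).PP ⊤) p).imp
    (dec_memEvF (P := (iter cd).PP ⊤) 𝓕 (T := fun i g => i ∈ ev (P := (iter cd).PP ⊤) X g)
      (dec_ev (P := (iter cd).PP ⊤) X)).not) ?_
  filter_upwards [hp] with g h1
  exact ⟨fun h2 h3 h4 => h2 h3 ⟨h1 h3, h4⟩, fun h2 h3 h4 => h2 h3 h4.2⟩

/-- PROOF. Let `h = res β g`. First part: `X` live: `(X, c) ∈ FR`, `c ∈ h`, so `c ∈ g` (`mem_bd`), `ev X h = ev X g` (`ev_bd`), and `ev X g ∈ evF 𝓕 g` (the statement is decided: `dec_of_mem`). Second part: `S = ev A₀ h` with `A₀` in the hull (`rep_ev` at the stage `β`, `res_club`). `refl_gen` for `Q0` gives `A`, `c' ∈ g`; as `S = ev A g` is in the filter, the second case of `Q0` is impossible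
(`dec_of_mem`), so `(A, canC c') ∈ FR` (`canC_mem`, `canC_le`), and it is live (`canC c' ≥ c'`, `canC` is an operation). -/
theorem fr_mem (hI : (iter cd).Proper) (hp : PPAt cd ⊤ 𝓕 p) {β : Ordinal.{0}}
    (hβ : RPt cd p 𝓕 β) : ∀ᶠ g in GC ((iter cd).PP ⊤), (p : (iter cd).PP ⊤) ∈ g →
      (∀ X, Live (P := (iter cd).PP (β : Stg)) (FR cd p 𝓕 β) ((iter cd).res (β : Stg) g) X →
        ev (P := (iter cd).PP (β : Stg)) X ((iter cd).res (β : Stg) g) ∈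
          evF (P := (iter cd).PP ⊤) 𝓕 g) ∧
      (∀ S : Set (ℕ →₀ K), Int ((iter cd).res (β : Stg) g).M (fun v => v ∈ S) →
        S ∈ evF (P := (iter cd).PP ⊤) 𝓕 g →
          ∃ X, Live (P := (iter cd).PP (β : Stg)) (FR cd p 𝓕 β) ((iter cd).res (β : Stg) g) X ∧
            ev (P := (iter cd).PP (β : Stg)) X ((iter cd).res (β : Stg) g) = S) := by
  have hDir : ∀ᶠ g in GC ((iter cd).PP ⊤), (p : (iter cd).PP ⊤) ∈ g →
      Dir (P := (iter cd).PP ⊤) 𝓕 g := by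
    filter_upwards [hp] with g hg hpg
    exact (hg hpg).1
  have hd1 := dec_refla (cd := cd) (p := p) (𝓕 := 𝓕) hDir
  have hd2 := dec_refla' (cd := cd) (p := p) (𝓕 := 𝓕) hDir
  have k1 : ∀ᶠ g in GC ((iter cd).PP ⊤), ∀ X : (ℕ →₀ K) → Set (iter cd).C, g.has X →
      ∀ c : (iter cd).PP ⊤, Fo (P := (iter cd).PP ⊤) c (fun g => (p : (iter cd).PP ⊤) ∈ g →
        ev (P := (iter cd).PP ⊤) X g ∈ evF (P := (iter cd).PP ⊤) 𝓕 g) → c ∈ g →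
      ((p : (iter cd).PP ⊤) ∈ g →
        ev (P := (iter cd).PP ⊤) X g ∈ evF (P := (iter cd).PP ⊤) 𝓕 g) :=
    GC_normalH fun X => dec_of_mem (hd1 X)
  have k2 : ∀ᶠ g in GC ((iter cd).PP ⊤), ∀ X : (ℕ →₀ K) → Set (iter cd).C, g.has X →
      ∀ c : (iter cd).PP ⊤, Fo (P := (iter cd).PP ⊤) c (fun g => (p : (iter cd).PP ⊤) ∈ g →
        ev (P := (iter cd).PP ⊤) X g ∉ evF (P := (iter cd).PP ⊤) 𝓕 g) → c ∈ g →
      ((p : (iter cd).PP ⊤) ∈ g →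
        ev (P := (iter cd).PP ⊤) X g ∉ evF (P := (iter cd).PP ⊤) 𝓕 g) :=
    GC_normalH fun X => dec_of_mem (hd2 X)
  filter_upwards [k1, k2, res_club (I := iter cd) (le_top : (β : Stg) ≤ ⊤)
    (rep_ev (P := (iter cd).PP (β : Stg)) (ι := ℕ →₀ K)),
    refl_gen cd hI (Q := Q0 cd p 𝓕) hβ.ucof hβ.q0] with g g1 g2 g3 g4 hpg
  obtain ⟨hr, g3⟩ := g3
  constructor
  · rintro X ⟨hX, c, hXc, hc⟩
    have hc' : (c : (iter cd).PP ⊤) ∈ g := (mem_bd (le_top : (β : Stg) ≤ ⊤) hr (bdC_DD hXc.2.1)).2 hc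
    have h1 := g1 X ((isRes_has hr X).1 hX) c hXc.2.2 hc' hpg
    rw [ev_bd (le_top : (β : Stg) ≤ ⊤) hr (bd_DD (cd := cd) hXc.1)] at h1
    exact h1
  · intro S hS hSF
    obtain ⟨A₀, hA₀, hA₀S⟩ := g3 S hS
    obtain ⟨A, c', B, hA, hc', hB, hAD, hcβ, hBβ, hcg, hQ, hev⟩ := g4 A₀ ((isRes_has hr A₀).1 hA₀)
    rw [hA₀S] at hev
    have hQ1 : Fo (P := (iter cd).PP ⊤) c' (fun g => (p : (iter cd).PP ⊤) ∈ g →
        ev (P := (iter cd).PP ⊤) A g ∈ evF (P := (iter cd).PP ⊤) 𝓕 g) := by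
      rcases hQ with hQ | hQ
      · exact hQ
      · have h2 := g2 A hA c' hQ hcg hpg
        rw [hev] at h2
        exact absurd hSF h2
    have hle : (iter cd).le ⊤ (canC cd c') c' := canC_le cd ⊤ c'
    have hle' : (iter cd).le ⊤ c' (canC cd c') := le_canC cd ⊤ c'
    have hmem : (A, canC cd c') ∈ FR cd p 𝓕 β :=
      ⟨hAD, canC_mem cd hcβ, Fo.mono (P := (iter cd).PP ⊤) hQ1 hle⟩
    refine ⟨A, ⟨(isRes_has hr A).2 hA, canC cd c', hmem, ?_⟩, ?_⟩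
    · exact isRes_mem (le_top : (β : Stg) ≤ ⊤) hr (mem_up (P := (iter cd).PP ⊤) hcg hle')
    · rw [← ev_bd (le_top : (β : Stg) ≤ ⊤) hr (bd_DD (cd := cd) hAD)]
      exact hev

/-- from `fr_mem` (`int_ev` at the stage `β`; intersections of internal sets are internal), `mem_evF` -/
theorem fr_dir (hI : (iter cd).Proper) (hp : PPAt cd ⊤ 𝓕 p) {β : Ordinal.{0}}
    (hβ : RPt cd p 𝓕 β) : ∀ᶠ g in GC ((iter cd).PP ⊤), (p : (iter cd).PP ⊤) ∈ g →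
      Dir (P := (iter cd).PP (β : Stg)) (FR cd p 𝓕 β) ((iter cd).res (β : Stg) g) ∧
      ∀ S : Set (ℕ →₀ K),
        S ∈ evF (P := (iter cd).PP (β : Stg)) (FR cd p 𝓕 β) ((iter cd).res (β : Stg) g) ↔
        ∃ S', Int ((iter cd).res (β : Stg) g).M (fun v => v ∈ S') ∧
          S' ∈ evF (P := (iter cd).PP ⊤) 𝓕 g ∧ S' ⊆ S := by
  filter_upwards [fr_mem cd hI hp hβ, hp, res_club (I := iter cd) (le_top : (β : Stg) ≤ ⊤)
    (int_ev (P := (iter cd).PP (β : Stg)) (ι := ℕ →₀ K))] with g g1 g2 g3 hpg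
  obtain ⟨h1, h2⟩ := g1 hpg
  obtain ⟨hr, g3⟩ := g3
  have hdir : Dir (P := (iter cd).PP (β : Stg)) (FR cd p 𝓕 β) ((iter cd).res (β : Stg) g) := by
    constructor
    · obtain ⟨X, hX, _⟩ := h2 Set.univ (int_const True) Filter.univ_mem
      exact ⟨X, hX⟩
    · intro X Y hX hY
      obtain ⟨Z, hZ, hZS⟩ := h2 (ev (P := (iter cd).PP (β : Stg)) X ((iter cd).res (β : Stg) g) ∩
        ev (P := (iter cd).PP (β : Stg)) Y ((iter cd).res (β : Stg) g))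
        (int_and (g3 X hX.1) (g3 Y hY.1)) (Filter.inter_mem (h1 X hX) (h1 Y hY))
      exact ⟨Z, hZ, hZS.le⟩
  refine ⟨hdir, fun S => ?_⟩
  rw [mem_evF (P := (iter cd).PP (β : Stg)) hdir]
  constructor
  · rintro ⟨X, hX, hXS⟩
    exact ⟨_, g3 X hX.1, h1 X hX, hXS⟩
  · rintro ⟨S', hS', hSF, hSS⟩
    obtain ⟨X, hX, hXS⟩ := h2 S' hS' hSF
    exact ⟨X, hX, hXS.le.trans hSS⟩

end Pool.Agent.CIt
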