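import Pool.Agent.Lib_CI.ReflA

/-!
# Piece CIREFLB: the restriction is a (p+)-filter at the closure point
-/

set_option autoImplicit false

namespace Pool.Agent.CIt

open Pool.Agent.GGen Pool.Agent.HMod Pool.Agent.SOU Pool.Agent.SOUi Pool.Agent.CSI

/-- the statements forced by the conditions of the hull, for the names of the hull -/
theorem rb_fo {P : Type 1} [Preorder P] [OrderTop P] {Y Z : Type 1} (T : Y → Z → GG P → Prop) :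
    ∀ᶠ g in GC P, ∀ y, g.has y → ∀ z, g.has z → ∀ r, g.has r → Fo r (T y z) → r ∈ g → T y z g :=
  GC_normalH (T := fun y g => ∀ z, g.has z → ∀ r, g.has r → Fo r (T y z) → r ∈ g → T y z g)
    fun y => GC_normalH (T := fun z g => ∀ r, g.has r → Fo r (T y z) → r ∈ g → T y z g)
      fun z => GC_fo (T y z)

variable {K : Type} [Field K] [DecidableEq K] [Countable K] (cd : Codes K)
  {p : (iter cd).C} {𝓕 : FN (ℕ →₀ K) (iter cd).C}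

variable (p 𝓕) in
/-- the statement of `Q1` -/
def RbT1 (A : (ℕ →₀ K) → Set (iter cd).C) (B : ℕ × (ℕ →₀ K) → Set (iter cd).C)
    (g : GG ((iter cd).PP ⊤)) : Prop :=
  (p : (iter cd).PP ⊤) ∈ g →
    ev (P := (iter cd).PP ⊤) A g ∈ evF (P := (iter cd).PP ⊤) 𝓕 g →
      ∃ X : ℕ → ℕ →₀ K, ev (P := (iter cd).PP ⊤) B g = {q | X q.1 = q.2} ∧ Blk X ∧
        bs X ∈ evF (P := (iter cd).PP ⊤) 𝓕 g ∧ bs X ⊆ ev (P := (iter cd).PP ⊤) A g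

variable (p 𝓕) in
/-- the statement of `Q2` -/
def RbT2 (A : (ℕ →₀ K) → Set (iter cd).C) (B : ℕ × (ℕ →₀ K) → Set (iter cd).C)
    (g : GG ((iter cd).PP ⊤)) : Prop :=
  (p : (iter cd).PP ⊤) ∈ g →
    ev (P := (iter cd).PP ⊤) A g ∉ evF (P := (iter cd).PP ⊤) 𝓕 g →
      ∃ X : ℕ → ℕ →₀ K, ev (P := (iter cd).PP ⊤) B g = {q | X q.1 = q.2} ∧ Blk X ∧
        bs X ∈ evF (P := (iter cd).PP ⊤) 𝓕 g ∧ ∀ Z : ℕ → ℕ →₀ K, IntF g.M Z → Blk Z →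
          bs Z ⊆ bs X → ¬ bs Z ⊆ ev (P := (iter cd).PP ⊤) A g

variable (p 𝓕) in
/-- the statement of `Q3` -/
def RbT3 (A : (ℕ × ℕ) × (ℕ →₀ K) → Set (iter cd).C) (B : ℕ × (ℕ →₀ K) → Set (iter cd).C)
    (g : GG ((iter cd).PP ⊤)) : Prop :=
  (p : (iter cd).PP ⊤) ∈ g →
    ∀ X : ℕ × ℕ → ℕ →₀ K, ev (P := (iter cd).PP ⊤) A g = {q | X q.1 = q.2} →
      (∀ n, Blk (fun m => X (n, m)) ∧
        bs (fun m => X (n, m)) ∈ evF (P := (iter cd).PP ⊤) 𝓕 g) →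
      ∃ Y : ℕ → ℕ →₀ K, ev (P := (iter cd).PP ⊤) B g = {q | Y q.1 = q.2} ∧ Blk Y ∧
        bs Y ∈ evF (P := (iter cd).PP ⊤) 𝓕 g ∧
          ∀ n, ∃ k, ∀ v ∈ bs Y, (∀ j ∈ v.support, k < j) → v ∈ bs (fun m => X (n, m))

/-- PROOF. Let `h = res β g`, `F = evF 𝓕 g`, `F' = evF (FR β) h`; by `fr_dir` a set is in `F'` iff it contains a set of `h.M` which is in `F`. `ne`, `nz` clear. `base`: let `S ∈ F'`; we may assume `S = ev A₀ h ∈ F`. `refl_gen` for `Q1` : `A`, `c' ∈ g`, `B` with `ev A g = S`, and a block sequence `X` with graph `ev B g`, `bs X ∈ F`, `bs X ⊆ S` (`Fo c' ..` applied by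
`dec_of_mem` or `GC_fo`, as `c'` is in the hull). `ev B g = ev B h` (`ev_bd`), so `X` is a sequence of `h.M` (`int_ev` at the stage `β`), `bs X` is internal in `h.M`, so it is in `F'`. `full`: let `D` be a set of `h.M`, `D = ev A₀ h`, `D ∉ F'`, so `D ∉ F`; `refl_gen` for `Q2` gives `X` of `h.M` with `bs X ∈ F`, so `∈ F'`, and no block sequence `Z` of `g.M` with `bs Z ⊆ bs X ∩ D`, so none of
`h.M` (`res_intF`). `pfil`: `refl_gen` for `Q3`. -/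
theorem fr_ppb (hI : (iter cd).Proper) (hp : PPAt cd ⊤ 𝓕 p) {β : Ordinal.{0}}
    (hβ : RPt cd p 𝓕 β) : ∀ᶠ g in GC ((iter cd).PP ⊤), (p : (iter cd).PP ⊤) ∈ g →
      PPb ((iter cd).res (β : Stg) g).M
        (evF (P := (iter cd).PP (β : Stg)) (FR cd p 𝓕 β) ((iter cd).res (β : Stg) g)) := by
  have hle : (β : Stg) ≤ (⊤ : Stg) := le_top
  have hstd := res_club (I := iter cd) hle (gc_std (K := K) (P := (iter cd).PP (β : Stg)))
  have hrep := res_club (I := iter cd) hle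
    (rep_ev (P := (iter cd).PP (β : Stg)) (ι := ℕ →₀ K))
  have hrep3 := res_club (I := iter cd) hle
    (rep_ev (P := (iter cd).PP (β : Stg)) (ι := (ℕ × ℕ) × (ℕ →₀ K)))
  have hint := res_club (I := iter cd) hle
    (int_ev (P := (iter cd).PP (β : Stg)) (ι := ℕ × (ℕ →₀ K)))
  have hp' : ∀ᶠ g in GC ((iter cd).PP ⊤), (p : (iter cd).PP ⊤) ∈ g →
      (Dir (P := (iter cd).PP ⊤) 𝓕 g ∧ IsPPlusi g.M (evF (P := (iter cd).PP ⊤) 𝓕 g)) := hp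
  filter_upwards [fr_dir cd hI hp hβ, hp', refl_gen cd hI hβ.ucof hβ.q1,
    refl_gen cd hI hβ.ucof hβ.q2, refl_gen cd hI hβ.ucof hβ.q3, rb_fo (RbT1 cd p 𝓕),
    rb_fo (RbT2 cd p 𝓕), rb_fo (RbT3 cd p 𝓕), hstd, hrep, hrep3, hint,
    res_intF (I := iter cd) (ι := ℕ) (ι' := ℕ →₀ K) hle]
    with g a1 a2 r1 r2 r3 f1 f2 f3 a3 a4 a5 a6 a7 hpg
  obtain ⟨hdir, hF'⟩ := a1 hpg
  obtain ⟨hD, hPP⟩ := a2 hpg
  obtain ⟨hr, hst⟩ := a3
  have := hst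
  obtain ⟨_, hrep⟩ := a4
  obtain ⟨_, hrep3⟩ := a5
  obtain ⟨_, hint⟩ := a6
  -- the sequences with bounded names are sequences of the smaller model
  have hX : ∀ (B : ℕ × (ℕ →₀ K) → Set (iter cd).C) (X : ℕ → ℕ →₀ K), g.has B → Bd β B →
      ev (P := (iter cd).PP ⊤) B g = {q | X q.1 = q.2} →
        IntF ((iter cd).res (β : Stg) g).M X := by
    intro B X hB hBd he
    have h1 := hint B ((isRes_has hr B).2 hB)
    rw [← ev_bd hle hr hBd, he] at h1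
    exact ⟨h1⟩
  have hup : ∀ X : ℕ → ℕ →₀ K, IntF ((iter cd).res (β : Stg) g).M X →
      bs X ∈ evF (P := (iter cd).PP ⊤) 𝓕 g →
        bs X ∈ evF (P := (iter cd).PP (β : Stg)) (FR cd p 𝓕 β) ((iter cd).res (β : Stg) g) :=
    fun X hXi hXF => (hF' _).2 ⟨bs X, int_bs hXi, hXF, subset_rfl⟩
  refine ⟨?_, ?_, ?_, ?_, ?_⟩
  · refine ⟨fun hb => ?_⟩
    have h1 : (∅ : Set (ℕ →₀ K)) ∈ evF (P := (iter cd).PP (β : Stg)) (FR cd p 𝓕 β)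
        ((iter cd).res (β : Stg) g) := by
      rw [hb]
      exact Filter.mem_bot
    obtain ⟨S', _, h2, h3⟩ := (hF' _).1 h1
    rw [Set.subset_empty_iff.1 h3] at h2
    exact hPP.ne.ne (Filter.empty_mem_iff_bot.1 h2)
  · exact (hF' _).2 ⟨{v : ℕ →₀ K | v ≠ 0}, int_not (int_eqF intF_id (intF_const 0)), hPP.nz,
      subset_rfl⟩
  · intro S hS
    obtain ⟨S', h1, h2, h3⟩ := (hF' _).1 hS
    obtain ⟨A₀, hA₀, rfl⟩ := hrep S' h1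
    obtain ⟨A, c', B, hA, hc', hB, _, _, hBd, hc'g, hQ, he⟩ := r1 A₀ ((isRes_has hr A₀).1 hA₀)
    obtain ⟨X, hX1, hX2, hX3, hX4⟩ := f1 A hA B hB c' hc' hQ hc'g hpg (by rw [he]; exact h2)
    have hXi := hX B X hB hBd hX1
    refine ⟨X, hXi, hX2, hup X hXi hX3, ?_⟩
    rw [he] at hX4
    exact hX4.trans h3
  · intro D hDi hDd
    by_contra hcon
    have hDF : D ∉ evF (P := (iter cd).PP ⊤) 𝓕 g := fun h => hcon ((hF' _).2 ⟨D, hDi, h, subset_rfl⟩)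
    obtain ⟨A₀, hA₀, hA₀D⟩ := hrep D hDi
    obtain ⟨A, c', B, hA, hc', hB, _, _, hBd, hc'g, hQ, he⟩ := r2 A₀ ((isRes_has hr A₀).1 hA₀)
    rw [hA₀D] at he
    obtain ⟨X, hX1, hX2, hX3, hX4⟩ := f2 A hA B hB c' hc' hQ hc'g hpg (by rw [he]; exact hDF)
    have hXi := hX B X hB hBd hX1
    obtain ⟨Z, hZi, hZ, hZX, hZD⟩ := hDd X hXi hX2 (hup X hXi hX3)
    rw [he] at hX4
    exact hX4 Z (a7 Z hZi) hZ hZX hZD
  · intro X hXi hXF
    obtain ⟨A₀, hA₀, hA₀X⟩ := hrep3 {q : (ℕ × ℕ) × (ℕ →₀ K) | X q.1.1 q.1.2 = q.2} hXi.graph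
    obtain ⟨A, c', B, hA, hc', hB, _, _, hBd, hc'g, hQ, he⟩ := r3 A₀ ((isRes_has hr A₀).1 hA₀)
    rw [hA₀X] at he
    obtain ⟨Y, hY1, hY2, hY3, hY4⟩ := f3 A hA B hB c' hc' hQ hc'g hpg (fun q => X q.1 q.2) he
      (fun n => ⟨(hXF n).1, by
        obtain ⟨S', _, h2, h3⟩ := (hF' _).1 (hXF n).2
        exact Filter.mem_of_superset h2 h3⟩)
    have hYi := hX B Y hB hBd hY1
    exact ⟨Y, hYi, hY2, hup Y hYi hY3, hY4⟩

/-- by `fr_ppb`, `ppb_iff`, `fr_dir`, `dec_pp` and `fo_res_down` -/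
theorem fr_pp (hI : (iter cd).Proper) (hp : PPAt cd ⊤ 𝓕 p) {β : Ordinal.{0}}
    (hβ : RPt cd p 𝓕 β) : PPAt cd (β : Stg) (FR cd p 𝓕 β) p := by
  have hle : (β : Stg) ≤ (⊤ : Stg) := le_top
  refine fo_res_down (I := iter cd) hle (dec_pp (P := (iter cd).PP (β : Stg)) (FR cd p 𝓕 β)) ?_
  filter_upwards [fr_ppb cd hI hp hβ, fr_dir cd hI hp hβ,
    res_club (I := iter cd) hle (gc_std (K := K) (P := (iter cd).PP (β : Stg))),
    res_club (I := iter cd) hle (evF_isIFil (P := (iter cd).PP (β : Stg)) (FR cd p 𝓕 β))]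
    with g h1 h2 h3 h4 hpg
  have := h3.2
  obtain ⟨hdir, _⟩ := h2 hpg
  exact ⟨hdir, (ppb_iff (h4.2 hdir)).2 (h1 hpg)⟩

/-- by `fr_mem`, `evF_bd`, `fr_bd` -/
theorem fr_le (hI : (iter cd).Proper) (hp : PPAt cd ⊤ 𝓕 p) {β : Ordinal.{0}}
    (hβ : RPt cd p 𝓕 β) : Fo (P := (iter cd).PP ⊤) p (fun g =>
      evF (P := (iter cd).PP ⊤) 𝓕 g ≤ evF (P := (iter cd).PP ⊤) (FR cd p 𝓕 β) g) := by
  have hle : (β : Stg) ≤ (⊤ : Stg) := le_top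
  filter_upwards [fr_dir cd hI hp hβ, evF_bd (cd := cd) hle (fr_bd cd (p := p) (𝓕 := 𝓕) β)]
    with g h1 h2 hpg S hS
  rw [h2.1] at hS
  obtain ⟨S', _, h3, h4⟩ := ((h1 hpg).2 S).1 hS
  exact Filter.mem_of_superset h3 h4

end Pool.Agent.CIt
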