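import Pool.Agent.Lib_CI.ReflP

/-!
# Piece CIREFLG: reflection in a generic of the last stage
-/

set_option autoImplicit false

namespace Pool.Agent.CIt

open Pool.Agent.GGen Pool.Agent.HMod Pool.Agent.SOU Pool.Agent.SOUi Pool.Agent.CSI

variable {K : Type} [Field K] [DecidableEq K] [Countable K] (cd : Codes K)

/-- equality of the evaluations from `names_reflect` -/
theorem rfg_fo_eq {P : Type 1} [Preorder P] [OrderTop P] {ι : Type} [Countable ι] {X Y : ι → Set P}
    {q : P} (h : ∀ i, ∀ r ≤ q, (∃ s ≤ r, ∃ c ∈ X i, s ≤ c) ↔ ∃ s ≤ r, ∃ c ∈ Y i, s ≤ c) :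
    Fo q (fun g => ev Y g = ev X g) := by
  have h1 : Fo q (fun g => ∀ i, (i ∈ ev X g ↔ i ∈ ev Y g)) := by
    refine fo_all fun i => fo_dense fun r hr => ?_
    obtain ⟨s, hs, h2 | h2⟩ := dec_ev X i r
    · refine ⟨s, hs, ?_⟩
      have h3 : Fo s (fun g => i ∈ ev Y g) := by
        rw [fo_ev_iff] at h2 ⊢
        intro t ht
        exact (h i t (ht.trans (hs.trans hr))).1 (h2 t ht)
      exact (h2.and h3).imp (fo_of_eventually (Filter.Eventually.of_forall fun g hg =>
        iff_of_true hg.1 hg.2))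
    · refine ⟨s, hs, ?_⟩
      have h3 : Fo s (fun g => i ∉ ev Y g) := by
        rw [fo_not_ev_iff] at h2 ⊢
        intro t ht c hc htc
        obtain ⟨u, hu, d, hd, hud⟩ := (h i t (ht.trans (hs.trans hr))).2 ⟨t, le_rfl, c, hc, htc⟩
        exact h2 u (hu.trans ht) d hd hud
      exact (h2.and h3).imp (fo_of_eventually (Filter.Eventually.of_forall fun g hg =>
        iff_of_false hg.1 hg.2))
  refine h1.imp (fo_of_eventually (Filter.Eventually.of_forall fun g hg => ?_))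
  ext i
  exact (hg i).symm

/-- PROOF. Fix `A₀` first (normality `GC_normalH`). Let `D` be the set of the `c'` with `BdC β c'` for which there are `A`, `B` with: `A` over `DD γ` for some `γ < β`, `Bd β B`, `Q A c' B`, and `c'` forces (stage `β`) `ev A = ev A₀`. `D` is dense at the stage `β` : given `c`, `names_reflect` (stage `β`, `UCof`, properness) gives `q ≤_β c`, `γ < β` and a name `Y` with conditions bounded by `γ` such that
`q` forces `ev Y = ev A₀` (stage `β`); by `name_can` for the stage `γ` and `fo_res_up`/`ev_bd` there is `A` over `DD γ` with `ev A = ev Y` (stage `β`); apply `h` to `A`, `q`. The set of the conditions below (at stage `β`) an element of `D` is dense at the last stage (`glue`), so for club many `g` there is `c' ∈ D` of the hull with `c' ∈ g` (`GC_denseBelow'`, `GC_op` for the choice of `c'`; `c'` is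
bounded by `β`); `A`, `B` are chosen by operations from `c'`. -/
theorem refl_gen (hI : (iter cd).Proper) {ι ι' : Type} [Countable ι] [Countable ι']
    {Q : (ι → Set (iter cd).C) → (iter cd).C → (ι' → Set (iter cd).C) → Prop} {β : Ordinal.{0}}
    (hβ : UCof (β : Stg))
    (h : ∀ A : ι → Set (iter cd).C, (∃ γ < β, ∀ i, A i ⊆ DD cd γ) → ∀ c : (iter cd).C,
        ∃ c' B, (iter cd).le (β : Stg) c' c ∧ BdC β c' ∧ Bd β B ∧ Q A c' B) :
    ∀ᶠ g in GC ((iter cd).PP ⊤), ∀ A₀ : ι → Set (iter cd).C, g.has A₀ →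
      ∃ (A : ι → Set (iter cd).C) (c' : (iter cd).C) (B : ι' → Set (iter cd).C),
        g.has A ∧ g.has c' ∧ g.has B ∧ (∀ i, A i ⊆ DD cd β) ∧ BdC β c' ∧ Bd β B ∧
        (c' : (iter cd).PP ⊤) ∈ g ∧ Q A c' B ∧
        ev (P := (iter cd).PP ⊤) A g =
          ev (P := (iter cd).PP (β : Stg)) A₀ ((iter cd).res (β : Stg) g) := by
  classical
  refine GC_normalH fun A₀ => ?_
  -- good data
  let W : (iter cd).C → (ι → Set (iter cd).C) → (ι' → Set (iter cd).C) → Prop := fun c' A B =>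
    (∀ i, A i ⊆ DD cd β) ∧ BdC β c' ∧ Bd β B ∧ Q A c' B ∧
      Fo (P := (iter cd).PP (β : Stg)) c' (fun g => ev (P := (iter cd).PP (β : Stg)) A g =
        ev (P := (iter cd).PP (β : Stg)) A₀ g)
  -- density at the stage `β`
  have hdense : ∀ c : (iter cd).C, ∃ c' A B, W c' A B ∧ (iter cd).le (β : Stg) c' c := by
    intro c
    obtain ⟨q, γ, Y, hγ, hqc, hY, hXY⟩ := names_reflect hI hβ A₀ c
    have hγ' : γ < β := WithTop.coe_lt_coe.1 hγ
    obtain ⟨A, hA, hAY⟩ := name_can (cd := cd) γ Y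
    have hYb : Bd γ Y := fun i c hc => bdC_iff.2 (hY i c hc)
    have hAb : Bd γ A := bd_DD (cd := cd) hA
    have h1 : Fo (P := (iter cd).PP (β : Stg)) q (fun g =>
        ev (P := (iter cd).PP (β : Stg)) Y g = ev (P := (iter cd).PP (β : Stg)) A₀ g) :=
      rfg_fo_eq (P := (iter cd).PP (β : Stg)) (X := A₀) (Y := Y) (q := q) fun i r hr => hXY i r hr
    have h2 : ∀ᶠ g in GC ((iter cd).PP (β : Stg)), ev (P := (iter cd).PP (β : Stg)) A g =
        ev (P := (iter cd).PP (β : Stg)) Y g := by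
      filter_upwards [res_club (I := iter cd) (le_of_lt hγ) hAY] with g hg
      rw [ev_bd (le_of_lt hγ) hg.1 hAb, ev_bd (le_of_lt hγ) hg.1 hYb]
      exact hg.2
    have h3 : Fo (P := (iter cd).PP (β : Stg)) q (fun g =>
        ev (P := (iter cd).PP (β : Stg)) A g = ev (P := (iter cd).PP (β : Stg)) A₀ g) := by
      refine h1.imp (fo_of_eventually ?_)
      filter_upwards [h2] with g hg hg'
      exact hg.trans hg'
    obtain ⟨c', B, h4, h5, h6, h7⟩ := h A ⟨γ, hγ', hA⟩ q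
    exact ⟨c', A, B, ⟨fun i => (hA i).trans (DD_mono cd hγ'.le), h5, h6, h7,
      Fo.mono (P := (iter cd).PP (β : Stg)) h3 h4⟩, (iter cd).le_trans' _ h4 hqc⟩
  -- choice by operations
  have hch : ∀ r : (iter cd).C, ∃ c' A B, (∃ c' A B, W c' A B ∧ (iter cd).le ⊤ r c') →
      W c' A B ∧ (iter cd).le ⊤ r c' := by
    intro r
    by_cases hr : ∃ c' A B, W c' A B ∧ (iter cd).le ⊤ r c'
    · obtain ⟨c', A, B, h1⟩ := hr
      exact ⟨c', A, B, fun _ => h1⟩
    · exact ⟨r, fun _ => ∅, fun _ => ∅, fun h => absurd h hr⟩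
  choose fc fA fB hf using hch
  have h1 : ∀ᶠ g in GC ((iter cd).PP ⊤),
      ∃ n, g.gen.G n ∈ {r : (iter cd).PP ⊤ | ∃ c' A B, W c' A B ∧ (iter cd).le ⊤ r c'} := by
    refine GC_dense (P := (iter cd).PP ⊤) ?_ ?_
    · intro p
      obtain ⟨c', A, B, hW, hle⟩ := hdense p
      refine ⟨(iter cd).glue (β : Stg) c' p, glue_le (c := c') (p := p) hle, c', A, B, hW, ?_⟩
      have h2 : (iter cd).cut (β : Stg) c' = c' := bdC_iff.1 hW.2.1
      rw [← h2]
      refine le_cut_of_le ?_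
      rw [h2]
      exact glue_le_left
    · rintro p ⟨c', A, B, hW, hle⟩ q hq
      exact ⟨c', A, B, hW, (iter cd).le_trans' _ hq hle⟩
  have h2 : ∀ᶠ g in GC ((iter cd).PP (β : Stg)), ∀ A : ι → Set (iter cd).C, g.has A →
      ∀ r : (iter cd).PP (β : Stg), g.has r → Fo (P := (iter cd).PP (β : Stg)) r (fun g =>
        ev (P := (iter cd).PP (β : Stg)) A g = ev (P := (iter cd).PP (β : Stg)) A₀ g) → r ∈ g →
        ev (P := (iter cd).PP (β : Stg)) A g = ev (P := (iter cd).PP (β : Stg)) A₀ g :=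
    GC_normalH fun A => GC_fo (P := (iter cd).PP (β : Stg)) _
  filter_upwards [h1, GC_op (P := (iter cd).PP ⊤) fc, GC_op (P := (iter cd).PP ⊤) fA,
    GC_op (P := (iter cd).PP ⊤) fB, res_club (I := iter cd) (le_top : (β : Stg) ≤ ⊤) h2]
    with g g1 g2 g3 g4 g5
  obtain ⟨n, hn⟩ := g1
  obtain ⟨hr, g5⟩ := g5
  obtain ⟨⟨w1, w2, w3, w4, w5⟩, w6⟩ := hf (g.gen.G n) hn
  have hc := g2 _ (g.cond n)
  have hA := g3 _ (g.cond n)
  have hB := g4 _ (g.cond n)
  have hmem : (fc (g.gen.G n) : (iter cd).PP ⊤) ∈ g := ⟨n, w6⟩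
  refine ⟨fA (g.gen.G n), fc (g.gen.G n), fB (g.gen.G n), hA, hc, hB, w1, w2, w3, hmem, w4, ?_⟩
  rw [ev_bd (le_top : (β : Stg) ≤ ⊤) hr (bd_DD (cd := cd) w1)]
  exact g5 _ ((isRes_has hr _).2 hA) _ ((isRes_has hr _).2 hc) w5
    (isRes_mem (le_top : (β : Stg) ≤ ⊤) hr hmem)

end Pool.Agent.CIt
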