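import Pool.Agent.Lib_CI.Bd
import Pool.Agent.Lib_CSI.Ext
import Mathlib.SetTheory.Cardinal.Regular

/-!
# Piece CIREFLP: closure points
-/

set_option autoImplicit false

namespace Pool.Agent.CIt

open Pool.Agent.GGen Pool.Agent.HMod Pool.Agent.SOU Pool.Agent.SOUi Pool.Agent.CSI

/-- the families of subsets of a small set form a small set -/
theorem reflp_small {ι : Type} (D : Set CC) [Small.{0} D] :
    Small.{0} {S : ι → Set CC | ∀ s, S s ⊆ D} := by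
  have h1 : Small.{0} (Set.range (fun (T : ι → Set D) => fun s => Subtype.val '' (T s))) :=
    small_range _
  refine small_subset (s := Set.range (fun (T : ι → Set D) => fun s => Subtype.val '' (T s))) ?_
  intro S hS
  refine ⟨fun s => {d | d.1 ∈ S s}, ?_⟩
  funext s
  ext c
  constructor
  · rintro ⟨d, hd, rfl⟩
    exact hd
  · intro hc
    exact ⟨⟨c, hS s hc⟩, hc, rfl⟩

/-- a strictly increasing function which outgrows `f` -/
theorem reflp_seq (f : Ordinal.{0} → Ordinal.{0}) (α : Ordinal.{0}) :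
    ∃ h : Ordinal.{0} → Ordinal.{0}, (∀ ξ, α < h ξ) ∧
      ∀ η ξ, η < ξ → h η < h ξ ∧ ∀ γ ≤ h η, f γ < h ξ := by
  have ex : ∀ (ξ : Ordinal.{0}) (g : ∀ η, η < ξ → Ordinal.{0}), ∃ b, α < b ∧
      ∀ η (hη : η < ξ), g η hη < b ∧ ∀ γ ≤ g η hη, f γ < b := by
    intro ξ g
    let T : Type 1 := Σ η : Set.Iio ξ, Set.Iic (g η.1 η.2)
    have hT : Small.{0} T := inferInstance
    obtain ⟨b, hb⟩ := Ordinal.bddAbove_of_small
      (s := Set.range (fun t : T => max (g t.1.1 t.1.2) (f t.2.1)))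
    refine ⟨max α b + 1, lt_of_le_of_lt (le_max_left α b) (lt_add_one _), fun η hη => ⟨?_, ?_⟩⟩
    · have h1 := hb ⟨(⟨⟨η, hη⟩, ⟨g η hη, Set.mem_Iic.2 le_rfl⟩⟩ : T), rfl⟩
      exact lt_of_le_of_lt (((le_max_left _ _).trans h1).trans (le_max_right α b)) (lt_add_one _)
    · intro γ hγ
      have h1 := hb ⟨(⟨⟨η, hη⟩, ⟨γ, Set.mem_Iic.2 hγ⟩⟩ : T), rfl⟩
      exact lt_of_le_of_lt (((le_max_right _ _).trans h1).trans (le_max_right α b)) (lt_add_one _)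
  choose bnd hb using ex
  obtain ⟨h, hh⟩ : ∃ h : Ordinal.{0} → Ordinal.{0}, ∀ ξ, h ξ = bnd ξ (fun η _ => h η) :=
    ⟨(wellFounded_lt (α := Ordinal.{0})).fix (fun ξ ih => bnd ξ ih), fun ξ =>
      (wellFounded_lt (α := Ordinal.{0})).fix_eq (fun ξ ih => bnd ξ ih) ξ⟩
  refine ⟨h, fun ξ => ?_, fun η ξ hη => ?_⟩
  · rw [hh ξ]
    exact (hb ξ _).1
  · rw [hh ξ]
    exact (hb ξ (fun η _ => h η)).2 η hη

/-- closure points of uncountable cofinality. PROOF. Iterate (a strictly increasing version of) `f` `ω₁` times, starting above `α`, with suprema at limits. -/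
theorem exists_closure (f : Ordinal.{0} → Ordinal.{0}) (α : Ordinal.{0}) :
    ∃ β, α < β ∧ UCof (β : Stg) ∧ ∀ γ < β, f γ < β := by
  obtain ⟨h, h0, h1⟩ := reflp_seq f α
  obtain ⟨w, hw0, hw1, hw2⟩ : ∃ w : Ordinal.{0}, 0 < w ∧ (∀ ξ < w, ξ + 1 < w) ∧
      ∀ (O : Set Ordinal.{0}), O.Countable → ∀ e : Ordinal.{0} → Ordinal.{0},
        (∀ γ ∈ O, e γ < w) → ∃ ξ < w, ∀ γ ∈ O, e γ ≤ ξ := by
    refine ⟨Ordinal.omega 1, Ordinal.omega_pos 1, fun ξ hξ =>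
      (Cardinal.isSuccLimit_omega 1).add_one_lt hξ, fun O hO e he => ?_⟩
    have := hO.to_subtype
    refine ⟨⨆ γ : O, e γ.1, Ordinal.iSup_lt_omega_one fun γ => he γ.1 γ.2, fun γ hγ => ?_⟩
    exact Ordinal.le_iSup (fun γ : O => e γ.1) ⟨γ, hγ⟩
  obtain ⟨β, hβ1, hβ2⟩ : ∃ β : Ordinal.{0}, (∀ ξ < w, h ξ < β) ∧
      ∀ γ < β, ∃ ξ < w, γ ≤ h ξ := by
    have hbd : BddAbove (h '' Set.Iio w) := Ordinal.bddAbove_of_small
    refine ⟨sSup (h '' Set.Iio w), fun ξ hξ => ?_, fun γ hγ => ?_⟩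
    · exact lt_of_lt_of_le (h1 ξ (ξ + 1) (lt_add_one ξ)).1 (le_csSup hbd ⟨ξ + 1, hw1 ξ hξ, rfl⟩)
    · obtain ⟨_, ⟨ξ, hξ, rfl⟩, h3⟩ := exists_lt_of_lt_csSup
        (⟨h 0, 0, hw0, rfl⟩ : (h '' Set.Iio w).Nonempty) hγ
      exact ⟨ξ, hξ, h3.le⟩
  refine ⟨β, (h0 0).trans (hβ1 0 hw0), ?_, ?_⟩
  · intro O hO hOβ
    have h2 : ∀ γ : Ordinal.{0}, ∃ ξ, γ ∈ O → ξ < w ∧ γ ≤ h ξ := by
      intro γ
      by_cases hγ : γ ∈ O
      · obtain ⟨ξ, h3, h4⟩ := hβ2 γ (WithTop.coe_lt_coe.1 (hOβ γ hγ))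
        exact ⟨ξ, fun _ => ⟨h3, h4⟩⟩
      · exact ⟨0, fun h => absurd h hγ⟩
    choose e he using h2
    obtain ⟨ξ, hξ, h3⟩ := hw2 O hO e fun γ hγ => (he γ hγ).1
    refine ⟨h (ξ + 1), WithTop.coe_lt_coe.2 (hβ1 _ (hw1 ξ hξ)), fun γ hγ => ?_⟩
    have h4 : e γ < ξ + 1 := lt_of_le_of_lt (h3 γ hγ) (lt_add_one ξ)
    exact lt_of_le_of_lt (he γ hγ).2 (h1 _ _ h4).1
  · intro γ hγ
    obtain ⟨ξ, hξ, h3⟩ := hβ2 γ hγ
    exact ((h1 ξ (ξ + 1) (lt_add_one ξ)).2 γ h3).trans (hβ1 _ (hw1 ξ hξ))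

variable {K : Type} [Field K] [DecidableEq K] [Countable K] (cd : Codes K)

/-- PROOF. For every `γ` the set of the pairs `(A, d)` with `A i ⊆ DD γ`, `d ∈ DD γ` is small (`small_DD`); choose `c'`, `B` for them and an ordinal bounding `c'` (`exists_bdC`) and `B`; let `f γ` be larger than all of them (small sets of ordinals of `Type 0` are bounded). Let `β` be a closure point, `A` over `DD γ`, `c` a condition. `c₀ = canC (cut β c)` is in `DD β` and equivalent to `c` at the stage `β`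
(`canC_le`, `le_canC`). Its support is countable, so by `UCof` it is in `DD γ'` for some `γ ≤ γ' < β`. Take `c'`, `B` for `(A, c₀)` and `γ'`. -/
theorem refl_point {ι ι' : Type} [Countable ι] [Countable ι']
    (Q : (ι → Set (iter cd).C) → (iter cd).C → (ι' → Set (iter cd).C) → Prop)
    (hQ : ∀ A c, ∃ c' B, (iter cd).le ⊤ c' c ∧ (∃ γ, Bd γ B) ∧ Q A c' B) :
    ∃ f : Ordinal.{0} → Ordinal.{0}, ∀ β : Ordinal.{0}, UCof (β : Stg) → (∀ γ < β, f γ < β) →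
      ∀ A : ι → Set (iter cd).C, (∃ γ < β, ∀ i, A i ⊆ DD cd γ) → ∀ c : (iter cd).C,
        ∃ c' B, (iter cd).le (β : Stg) c' c ∧ BdC β c' ∧ Bd β B ∧ Q A c' B := by
  classical
  choose c' B hle hBd hQ' using hQ
  choose gB hgB using hBd
  choose gC hgC using fun (A : ι → Set (iter cd).C) (c : (iter cd).C) => exists_bdC (cd := cd) (c' A c)
  have hf : ∀ γ : Ordinal.{0}, ∃ b : Ordinal.{0}, ∀ A : ι → Set (iter cd).C,
      (∀ i, A i ⊆ DD cd γ) → ∀ d ∈ DD cd γ, gB A d < b ∧ gC A d < b := by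
    intro γ
    have hsm := small_DD cd γ
    have hsm2 : Small.{0} {A : ι → Set CC | ∀ i, A i ⊆ DD cd γ} := reflp_small (DD cd γ)
    obtain ⟨b, hb⟩ := Ordinal.bddAbove_of_small
      (s := Set.range (fun t : {A : ι → Set CC | ∀ i, A i ⊆ DD cd γ} × DD cd γ =>
        max (gB t.1.1 t.2.1) (gC t.1.1 t.2.1)))
    refine ⟨b + 1, fun A hA d hd => ?_⟩
    have h1 : max (gB A d) (gC A d) ≤ b := hb ⟨(⟨A, hA⟩, ⟨d, hd⟩), rfl⟩
    exact ⟨lt_of_le_of_lt ((le_max_left _ _).trans h1) (lt_add_one b),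
      lt_of_le_of_lt ((le_max_right _ _).trans h1) (lt_add_one b)⟩
  choose f hf using hf
  refine ⟨f, fun β hβ hcl A hA c => ?_⟩
  obtain ⟨γ, hγ, hA⟩ := hA
  let c₀ : CC := canC cd ((iter cd).cut (β : Stg) c)
  have hcutx : ∀ γ, β ≤ γ → ((iter cd).cut (β : Stg) c).1 γ = (iter cd).x₀ := fun γ hγ =>
    cut_ge (I := iter cd) (WithTop.coe_le_coe.2 hγ)
  have hc₀ : c₀ ∈ DD cd β := canC_mem cd hcutx
  have hc₀le : (iter cd).le (β : Stg) c₀ c := by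
    refine (iter cd).le_trans' (β : Stg) (q := (iter cd).cut (β : Stg) c) (canC_le cd (β : Stg) _) ?_
    exact le_of_eqOn (I := iter cd) fun γ hγ => cut_lt (I := iter cd) hγ
  obtain ⟨γ', hγ', hsup⟩ := hβ {γ | c₀.1 γ ≠ ∅} c₀.2 (by
    intro γ hγ
    rw [WithTop.coe_lt_coe]
    by_contra hlt
    exact hγ (hc₀.1 γ (not_lt.1 hlt)))
  have hγ'' : γ' < β := WithTop.coe_lt_coe.1 hγ'
  have hc₁ : c₀ ∈ DD cd γ' := by
    refine ⟨fun ε hε => ?_, hc₀.2⟩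
    by_contra hne
    exact absurd (hsup ε hne) (not_lt.2 hε)
  have hm : max γ γ' < β := max_lt hγ hγ''
  obtain ⟨h1, h2⟩ := hf (max γ γ') A (fun i => (hA i).trans (DD_mono cd (le_max_left _ _))) c₀
    (DD_mono cd (le_max_right _ _) hc₁)
  have h3 := hcl _ hm
  refine ⟨c' A c₀, B A c₀, ?_, bdC_mono (h2.trans h3).le (hgC A c₀), ?_, hQ' A c₀⟩
  · exact (iter cd).le_trans' (β : Stg) ((iter cd).le_stage le_top (hle A c₀)) hc₀le
  · exact fun i x hx => bdC_mono (h1.trans h3).le (hgB A c₀ i x hx)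

end Pool.Agent.CIt
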