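import Pool.Agent.Lib_CI.SemD

/-!
# Piece SEMA: the conditions coded by names
-/

set_option autoImplicit false

namespace Pool.Agent.CIt

open Pool.Agent.GGen Pool.Agent.HMod Pool.Agent.SOU Pool.Agent.SOUi

universe u w

section
variable {P : Type u} [Preorder P] [OrderTop P]

theorem sema_of_mem {T : GG P → Prop} (h : Dec T) :
    ∀ᶠ g in GC P, ∀ c, Fo c T → c ∈ g → T g := by
  filter_upwards [h.not.truth] with g h1 c hc hg
  by_contra h2
  obtain ⟨n, hn⟩ := h1 h2
  obtain ⟨r, _, _, h3, h4⟩ := mem_common hg (G_mem g n)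
  refine fo_false (p := r) (((hc.mono h3).and (hn.mono h4)).imp (fo_of_eventually ?_))
  filter_upwards with g' h5
  exact h5.2 h5.1

/-- names with conditions in a dense set `D`. PROOF. As `ev_of_dec` (`Fo.mono`, `Dec.truth'`, `GC_denseBelow'`): if `T i g`, some `q ∈ g` forces `T i`; the set of the `d ∈ D` below `q`, or incompatible with `q`, is dense (predense); take `d ∈ g`. Conversely if `c ∈ g`, `Fo c (T i)` then `T i g`: `T i` is decided, so otherwise some `G n` forces the negation (`Dec.truth` for `Dec.not`), and `c`, `G n` have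
a common lower bound (`mem_common`, `fo_false`). -/
theorem ev_of_dec_dense {ι : Type} [Countable ι] {D : Set P} (hD : ∀ p, ∃ d ∈ D, d ≤ p)
    {T : ι → GG P → Prop} (h : ∀ i, Dec (T i)) :
    ∀ᶠ g in GC P, ev (fun i => {c : P | c ∈ D ∧ Fo c (T i)}) g = {i | T i g} := by
  have h1 : ∀ i, ∀ᶠ g in GC P, ∀ c, Fo c (T i) → c ∈ g → T i g := fun i => sema_of_mem (h i)
  have h2 : ∀ i, ∀ᶠ g in GC P, T i g → ∃ c, (c ∈ D ∧ Fo c (T i)) ∧ c ∈ g := by
    intro i
    filter_upwards [(h i).truth, GC_dense (D := {r : P | (∃ d ∈ D, r ≤ d ∧ Fo d (T i)) ∨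
      ∀ s ≤ r, ¬ Fo s (T i)}) (fun p => by
        by_cases hp : ∃ s ≤ p, Fo s (T i)
        · obtain ⟨s, hs, hsT⟩ := hp
          obtain ⟨d, hd, hds⟩ := hD s
          exact ⟨d, hds.trans hs, Or.inl ⟨d, hd, le_rfl, hsT.mono hds⟩⟩
        · exact ⟨p, le_rfl, Or.inr fun s hs hsT => hp ⟨s, hs, hsT⟩⟩) (fun p hp q hq => by
        rcases hp with ⟨d, hd, hpd, hdT⟩ | hp
        · exact Or.inl ⟨d, hd, hq.trans hpd, hdT⟩
        · exact Or.inr fun s hs => hp s (hs.trans hq))] with g h3 h4 hT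
    obtain ⟨m, hm⟩ := h3 hT
    obtain ⟨n, ⟨d, hd, hnd, hdT⟩ | hn⟩ := h4
    · exact ⟨d, ⟨hd, hdT⟩, n, hnd⟩
    · exact absurd (hm.mono (g.gen.anti (le_max_right n m))) (hn _ (g.gen.anti (le_max_left n m)))
  filter_upwards [eventually_countable_forall.2 h1, eventually_countable_forall.2 h2] with g h3 h4
  ext i
  constructor
  · rintro ⟨c, hc, hg⟩
    exact h3 i c hc.2 hg
  · intro hi
    exact h4 i hi

/-- the same as `GC_fo` without restriction to the hull, for decided properties -/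
theorem dec_of_mem {T : GG P → Prop} (h : Dec T) : ∀ᶠ g in GC P, ∀ c, Fo c T → c ∈ g → T g :=
  sema_of_mem h

end

variable {K : Type} [Field K] [DecidableEq K] [Countable K] {P : Type u} [Preorder P] [OrderTop P]
  {t : Task K P} {S S' : Node → Set P} {g : GG P}

omit [DecidableEq K] in
theorem gc_std [DecidableEq K] : ∀ᶠ g in GC P, Std g.M K := GC_club (club_Std K)

theorem evG_sub : EvG t S g ⊆ Full := by
  unfold EvG
  split_ifs with h
  · exact fun s hs => (isCdT_iff.1 h.2.2).2.1 s hs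
  · exact subset_rfl

/-- the name of the empty set -/
theorem evG_empty (h : ∀ s, S s = ∅) : EvG t S g = Full := by
  refine if_neg fun h1 => ?_
  obtain ⟨s, c, hc, _⟩ := (isCdT_iff.1 h1.2.2).1
  rw [h s] at hc
  exact hc

theorem evG_inactive (h : ¬ Act t) : EvG t S g = Full :=
  if_neg fun h1 => h h1.1

theorem evG_notMem (h : t.1 ∉ g) : EvG t S g = Full :=
  if_neg fun h1 => h h1.2.1

theorem evG_eq (h : Act t) (hp : t.1 ∈ g) (hS : IsCdT (tF t g) (ev S g)) : EvG t S g = ev S g :=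
  if_pos ⟨h, hp, hS⟩

theorem evG_congr (h : ev S g = ev S' g) : EvG t S g = EvG t S' g := by
  unfold EvG
  rw [h]

/-- the full tree is a condition of the model (`CdI.exists_top_i`, the proof of `Cd.exists_top`) -/
theorem full_cd {𝔐 : HM.{w}} [Std 𝔐 K] {F : Filter (ℕ →₀ K)} (hF : IsBlockFilteri 𝔐 F) :
    Int 𝔐 (fun s => s ∈ Full) ∧ IsCdT F Full := by
  classical
  constructor
  · refine int_congr (p := fun t : Node => t.2 ⊆ TypB t.1) (fun t => Iff.rfl) ?_
    exact int_comp2 (R := fun a b : Finset Typ => a ⊆ b) (Std.subT (𝔐 := 𝔐) (K := K))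
      (intF_snd' intF_id) (intF_comp (Std.TypB (𝔐 := 𝔐) (K := K)) (intF_fst' intF_id))
  refine ⟨{ T := {t | t.2 ⊆ TypB t.1}
            ne := ⟨(0, ∅), Finset.empty_subset _⟩
            val := fun s hs => hs
            down := fun t _ m _ => Finset.inter_subset_right
            act := ?_ }, rfl⟩
  intro s hs
  filter_upwards [bf_tail_i hF s.1, bf_ne_i hF] with y hy1 hy2
  intro π
  have hs' : s.2 ⊆ TypB s.1 := hs
  have hfin : (TT s.1 y ∩ π).Finite := (TT_finite s.1 y).subset Set.inter_subset_left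
  have hhi : Hi (max s.1 (mx y.support + 1)) y.support := by
    intro j hj
    exact lt_of_lt_of_le (Nat.lt_succ_of_le (le_mx hj)) (le_max_right _ _)
  have hsub : TT s.1 y ⊆ ↑(TypB (max s.1 (mx y.support + 1))) :=
    TT_subset_TypB (le_max_left _ _) hhi
  have hnot : ∀ ϑ ∈ TT s.1 y, ϑ ∉ TypB s.1 := fun ϑ hϑ => TT_not_TypB hy2 hy1 hϑ
  refine ⟨(max s.1 (mx y.support + 1), s.2 ∪ hfin.toFinset), ?_, ⟨le_max_left _ _, ?_⟩, hhi, ?_⟩
  · change s.2 ∪ hfin.toFinset ⊆ TypB (max s.1 (mx y.support + 1))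
    refine Finset.union_subset (hs'.trans (TypB_mono (le_max_left _ _))) ?_
    intro ϑ hϑ
    exact Finset.mem_coe.1 (hsub (hfin.mem_toFinset.1 hϑ).1)
  · change (s.2 ∪ hfin.toFinset) ∩ TypB s.1 = s.2
    ext ϑ
    rw [Finset.mem_inter, Finset.mem_union, Set.Finite.mem_toFinset]
    constructor
    · rintro ⟨h1 | h1, h2⟩
      · exact h1
      · exact absurd h2 (hnot ϑ h1.1)
    · intro h1
      exact ⟨Or.inl h1, hs' h1⟩
  · intro ϑ hϑ
    change ϑ ∈ s.2 ∪ hfin.toFinset ↔ ϑ ∈ π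
    rw [Finset.mem_union, Set.Finite.mem_toFinset]
    constructor
    · rintro (h1 | h1)
      · exact absurd (hs' h1) (hnot ϑ hϑ)
      · exact h1.2
    · intro h1
      exact Or.inr ⟨hϑ, h1⟩

theorem evG_cd (h : Act t) :
    ∀ᶠ g in GC P, t.1 ∈ g → ∀ S : Node → Set P, g.has S → CdG t g (EvG t S g) := by
  filter_upwards [h, gc_std (K := K) (P := P), int_ev (P := P) (ι := Node)] with g h1 h2 h3 hp S hS
  have hF := (h1 hp).2.toIsFulli.toIsBlockFilteri
  by_cases h4 : IsCdT (tF t g) (ev S g)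
  · rw [evG_eq h hp h4]
    exact ⟨h3 S hS, h4⟩
  · have h5 : EvG t S g = Full := if_neg fun h6 => h4 h6.2.2
    rw [h5]
    exact full_cd hF

/-- every condition of the model has a name (`rep_ev`) -/
theorem cd_rep (h : Act t) : ∀ᶠ g in GC P, t.1 ∈ g → ∀ T, CdG t g T →
    ∃ S : Node → Set P, g.has S ∧ ev S g = T ∧ EvG t S g = T := by
  filter_upwards [rep_ev (P := P) (ι := Node)] with g h1 hp T hT
  obtain ⟨S, hS, hST⟩ := h1 T hT.1
  refine ⟨S, hS, hST, ?_⟩
  rw [← hST] at hT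
  rw [evG_eq h hp hT.2, hST]

/-- a condition contained in the part of a tree below the node `n` contains `n` -/
theorem cd_sub_at {T T' : Set Node} {𝔐 : HM.{w}} [Std 𝔐 K] {F : Filter (ℕ →₀ K)}
    (hF : IsBlockFilteri 𝔐 F) (hi : Int 𝔐 (fun s => s ∈ T')) (hT : IsCdT F T') {n : Node}
    (hn : n ∈ T) (hTn : ∀ s ∈ T, s.2 ⊆ TypB s.1) (h : T' ⊆ {u ∈ T | Cmp n u}) : n ∈ T' := by
  obtain ⟨p, hp⟩ := hT
  subst hp
  obtain ⟨t, ht, htn⟩ := CdI.exists_level_i (K := K) (⟨p, hi⟩ : CdI 𝔐 F) hF n.1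
  have ht' : t ∈ p.T := ht
  have h2 : t = n := by
    refine Prod.ext htn ?_
    rcases (h ht').2 with h1 | h1
    · have h3 := h1.2
      rw [← htn, Finset.inter_eq_left.2 (p.val t ht')] at h3
      exact h3
    · have h3 := h1.2
      rw [htn, Finset.inter_eq_left.2 (hTn n hn)] at h3
      exact h3.symm
  rw [← h2]
  exact ht'

/-- the part of a condition of the model below a node is a condition (`CdI.exists_at_i`) -/
theorem cd_at (h : Act t) : ∀ᶠ g in GC P, t.1 ∈ g → ∀ T, CdG t g T → ∀ s ∈ T,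
    CdG t g {u ∈ T | Cmp s u} := by
  filter_upwards [gc_std (K := K) (P := P)] with g h2 hp T hT s hs
  obtain ⟨hi, p, hpT⟩ := hT
  subst hpT
  obtain ⟨q, hq⟩ := CdI.exists_at_i (K := K) (⟨p, hi⟩ : CdI g.M (tF t g)) hs
  have h3 : q.1.T = {u ∈ p.T | Cmp s u} := hq
  refine ⟨?_, q.1, h3⟩
  rw [← h3]
  exact q.2

end Pool.Agent.CIt
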