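import Pool.Agent.Lib_GG.Mix
import Pool.Agent.Lib_MP_a0d45a_int.CBi
import Pool.Agent.Lib_MP_a0d45a_int.Forci

/-!
# Lib_CI: semantics of one iterand over a ground forcing notion `P`: definitions

A TASK `t = (p, 𝓕)` is a condition and a filter name on the vectors. It is ACTIVE if `p` forces that `𝓕` is (generates) a (p+)-filter of the model. A shallow name
`S` of a set of nodes codes the condition `EvG t S g` of the forcing for the filter (the full tree if this makes no sense).
-/

set_option autoImplicit false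

namespace Pool.Agent.CIt

open Pool.Agent.GGen Pool.Agent.HMod Pool.Agent.SOU Pool.Agent.SOUi

universe u

variable {K : Type} [Field K] [DecidableEq K] [Countable K] {P : Type u} [Preorder P] [OrderTop P]

/-- the full tree -/
def Full : Set Node := {s | s.2 ⊆ TypB s.1}

/-- tasks -/
abbrev Task (K : Type) [Field K] (P : Type u) : Type u := P × FN (ℕ →₀ K) P

/-- the filter of the task -/
noncomputable abbrev tF (t : Task K P) (g : GG P) : Filter (ℕ →₀ K) := evF t.2 g

/-- active tasks -/
def Act (t : Task K P) : Prop := Fo t.1 (fun g => Dir t.2 g ∧ IsPPlusi g.M (tF t g))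

open Classical in
/-- the condition coded by the name `S` -/
noncomputable def EvG (t : Task K P) (S : Node → Set P) (g : GG P) : Set Node :=
  if Act t ∧ t.1 ∈ g ∧ IsCdT (tF t g) (ev S g) then ev S g else Full

/-- `R` is an internal condition -/
def CdG (t : Task K P) (g : GG P) (R : Set Node) : Prop :=
  Int g.M (fun s => s ∈ R) ∧ IsCdT (tF t g) R

/-- the good names found by the properness theorem: below the condition `(c n₀).2`; for every `k` the conditions `(c m).2` with `R k m` and `(c m).1 ∈ g` are predense -/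
def GoodP (t : Task K P) (c : ℕ → P × (Node → Set P)) (R : ℕ → ℕ → Prop) (n₀ : ℕ)
    (S : Node → Set P) (g : GG P) : Prop :=
  CdG t g (ev S g) ∧ ev S g ⊆ EvG t (c n₀).2 g ∧ ∀ k, ∀ T, CdG t g T → T ⊆ ev S g →
    ∃ m, R k m ∧ (c m).1 ∈ g ∧ ∃ T', CdG t g T' ∧ T' ⊆ T ∧ T' ⊆ EvG t (c m).2 g

/-- the name `Z` of a set of numbers (or finite sets) for the two step iteration, evaluated by `g`: the condition `T` is below some element of `Z b` -/
def ZQ {ι : Type*} (t : Task K P) (Z : ι → Set (P × (Node → Set P))) (g : GG P) (b : ι) (T : Set Node) : Prop :=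
  ∃ q ∈ Z b, g.has q ∧ q.1 ∈ g ∧ T ⊆ EvG t q.2 g

def FrInG {ι : Type*} (t : Task K P) (Z : ι → Set (P × (Node → Set P))) (g : GG P) (b : ι) (T : Set Node) : Prop :=
  ∀ R, CdG t g R → R ⊆ T → ∃ R', CdG t g R' ∧ R' ⊆ R ∧ ZQ t Z g b R'

def FrOutG {ι : Type*} (t : Task K P) (Z : ι → Set (P × (Node → Set P))) (g : GG P) (b : ι) (T : Set Node) : Prop :=
  ∀ R, CdG t g R → R ⊆ T → ¬ ZQ t Z g b R

/-- `T` forces that `v` is in the generic set of vectors -/
def WIn (T : Set Node) (v : ℕ →₀ K) : Prop := ∀ s ∈ T, Hi s.1 v.support → ty v ∈ s.2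

/-- `T` forces that `v` is not in the generic set of vectors -/
def WOut (t : Task K P) (g : GG P) (T : Set Node) (v : ℕ →₀ K) : Prop :=
  ∀ R, CdG t g R → R ⊆ T → ¬ WIn R v

end Pool.Agent.CIt
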