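import Pool.Agent.Lib_CI.Ax

/-!
# Piece SMALL: canonical conditions; the stages `β` (an ordinal) are small up to equivalence
-/

set_option autoImplicit false

namespace Pool.Agent.CIt

open Pool.Agent.GGen Pool.Agent.HMod Pool.Agent.SOU Pool.Agent.SOUi Pool.Agent.CSI

/-! ### auxiliary: conditions with values in small sets -/

/-- the conditions with support below `β` and values in the ranges of the functions `cn γ` -/
def smDG (β : Ordinal.{0}) (cn : Ordinal.{0} → XX → XX) : Set CC :=
  {p | (∀ γ, β ≤ γ → p.1 γ = ∅) ∧ ∀ γ, p.1 γ ∈ Set.range (cn γ)}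

theorem small_smDG (β : Ordinal.{0}) (cn : Ordinal.{0} → XX → XX)
    (h : ∀ γ, γ < β → Small.{0} (Set.range (cn γ))) : Small.{0} (smDG β cn) := by
  have h1 : ∀ γ : Set.Iio β, Small.{0} (Set.range (cn γ.1)) := fun γ => h γ.1 γ.2
  have h2 : Small.{0} (∀ γ : Set.Iio β, Set.range (cn γ.1)) := inferInstance
  refine small_of_injective
    (f := fun (p : smDG β cn) => fun γ : Set.Iio β => (⟨p.1.1 γ.1, p.2.2 γ.1⟩ : Set.range (cn γ.1))) ?_
  intro p q hpq
  apply Subtype.ext
  apply Subtype.ext
  funext γ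
  by_cases hγ : γ < β
  · have h3 := congrFun hpq ⟨γ, hγ⟩
    exact congrArg Subtype.val h3
  · rw [p.2.1 γ (not_lt.1 hγ), q.2.1 γ (not_lt.1 hγ)]

open Classical in
/-- values `cn γ (p γ)` below `β`, trivial above -/
noncomputable def smCut (β : Ordinal.{0}) (cn : Ordinal.{0} → XX → XX) (h0 : ∀ γ, cn γ ∅ = ∅)
    (p : CC) : CC :=
  ⟨fun γ => if γ < β then cn γ (p.1 γ) else ∅, p.2.mono fun γ hγ => fun h => hγ (by
    simp only [h, h0, ite_self])⟩

theorem smCut_mem (β : Ordinal.{0}) (cn : Ordinal.{0} → XX → XX) (h0 : ∀ γ, cn γ ∅ = ∅)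
    (p : CC) : smCut β cn h0 p ∈ smDG β cn := by
  constructor
  · intro γ hγ
    exact if_neg (not_lt.2 hγ)
  · intro γ
    by_cases hγ : γ < β
    · exact ⟨p.1 γ, (if_pos hγ).symm⟩
    · exact ⟨∅, (h0 γ).trans (if_neg hγ).symm⟩

theorem smCut_val {β : Ordinal.{0}} (cn : Ordinal.{0} → XX → XX) (h0 : ∀ γ, cn γ ∅ = ∅)
    (p : CC) {γ : Ordinal.{0}} (hγ : γ < β) : (smCut β cn h0 p).1 γ = cn γ (p.1 γ) := if_pos hγ

/-- the subsets of a small set form a small set -/
theorem small_names (D : Set CC) [Small.{0} D] :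
    Small.{0} {S : Node → Set CC | ∀ s, S s ⊆ D} := by
  have h1 : Small.{0} (Set.range (fun (T : Node → Set D) => fun s => Subtype.val '' (T s))) :=
    small_range _
  refine small_subset (s := Set.range (fun (T : Node → Set D) => fun s => Subtype.val '' (T s))) ?_
  intro S hS
  refine ⟨fun s => {d | d.1 ∈ S s}, ?_⟩
  funext s
  ext c
  constructor
  · rintro ⟨d, hd, rfl⟩
    exact hd
  · intro hc
    exact ⟨⟨c, hS s hc⟩, hc, rfl⟩

variable {K : Type} [Field K] [DecidableEq K] [Countable K] (cd : Codes K)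

open Classical in
/-- a code of a small-valued name -/
noncomputable def smCode (S : Node → Set CC) : XX := if h : SmN S then (cd.surj S h).choose else ∅

omit [DecidableEq K] [Countable K] in
theorem smCode_spec {S : Node → Set CC} (h : SmN S) : cd.dec (smCode cd S) = S := by
  rw [smCode, dif_pos h]
  exact (cd.surj S h).choose_spec

/-- canonical codes. PROOF. It is enough to find for every `β` a function `f : XX → XX` with the properties; by strong induction on `β`, so we may choose `can γ` for all `γ < β`. `β = 0` : `f x` depends only on `decB x`, and `BS` is small (`BS.le` is reflexive). `β ≠ 0` : let `D` be the set of the conditions `p` with `p γ = ∅` for `β ≤ γ` and `p γ` in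
the range of `can γ` for `γ < β`. `D` is small (functions from `Iio β` to a small set), and every condition is equivalent at stage `β` to an element of `D` (replace `p γ` by `can γ (p γ)` for `γ < β`; the support stays countable since `can γ ∅ = ∅`). For `x ≠ ∅` let `S_x s = {c ∈ D | Fo c (s ∈ ev (dec x) g)}` (forcing over `(preS cd β).T`) and `f x` a code of the name `S_x`
(depending only on `S_x`; `cd.surj`). The set of the names with values in the subsets of `D` is small. `ev_of_dec_dense`, `dec_ev` : `ev (dec (f x)) g = ev (dec x) g` for club many `g`, so `EvG` is the same (`evG_congr`); `atC_iff`. -/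
theorem exists_can : ∃ can : Ordinal.{0} → XX → XX, ∀ β, can β ∅ = ∅ ∧
    Small.{0} (Set.range (can β)) ∧
      ∀ r x, AtC cd β r x (can β x) ∧ AtC cd β r (can β x) x := by
  classical
  suffices h : ∀ β : Ordinal.{0}, ∃ f : XX → XX, f ∅ = ∅ ∧ Small.{0} (Set.range f) ∧
      ∀ r x, AtC cd β r x (f x) ∧ AtC cd β r (f x) x by
    choose f hf using h
    exact ⟨f, hf⟩
  intro β
  induction β using WellFoundedLT.induction with
  | _ β ih =>
  by_cases hβ : β = 0
  · subst hβ
    refine ⟨fun x => if x = ∅ then ∅ else Function.surjInv cd.surjB (cd.decB x), if_pos rfl, ?_, ?_⟩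
    · refine small_subset
        (s := Set.range (fun o : Option BS => o.elim ∅ (Function.surjInv cd.surjB))) ?_
      rintro _ ⟨x, rfl⟩
      by_cases hx : x = ∅
      · exact ⟨none, (if_pos hx).symm⟩
      · exact ⟨some (cd.decB x), (if_neg hx).symm⟩
    · intro r x
      rw [atC_zero, atC_zero]
      have h1 : cd.decB (if x = ∅ then ∅ else Function.surjInv cd.surjB (cd.decB x)) = cd.decB x := by
        by_cases hx : x = ∅
        · rw [if_pos hx, hx]
        · rw [if_neg hx]
          exact Function.surjInv_eq cd.surjB _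
      rw [h1]
      exact ⟨BS.le_refl' _, BS.le_refl' _⟩
  · choose! cn hcn using ih
    let cn' : Ordinal.{0} → XX → XX := fun γ => if γ < β then cn γ else fun _ => ∅
    have hlt : ∀ γ, γ < β → cn' γ = cn γ := fun γ hγ => if_pos hγ
    have h0 : ∀ γ, cn' γ ∅ = ∅ := by
      intro γ
      by_cases hγ : γ < β
      · rw [hlt γ hγ]
        exact (hcn γ hγ).1
      · have h1 : cn' γ = fun _ => ∅ := if_neg hγ
        rw [h1]
    have hsm : Small.{0} (smDG β cn') := by
      refine small_smDG β cn' fun γ hγ => ?_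
      rw [hlt γ hγ]
      exact (hcn γ hγ).2.1
    let D : Set (preS cd (β : Stg)).T := smDG β cn'
    have hdense : ∀ p : (preS cd (β : Stg)).T, ∃ d ∈ D, d ≤ p := by
      intro p
      refine ⟨smCut β cn' h0 p, smCut_mem β cn' h0 p, ?_⟩
      intro γ hγ
      have hγ' : γ < β := WithTop.coe_lt_coe.1 hγ
      rw [smCut_val cn' h0 p hγ', hlt γ hγ']
      exact ((hcn γ hγ').2.2 _ _).2
    let Sx : XX → Node → Set CC := fun x s =>
      {c | c ∈ smDG β cn' ∧ Fo (P := (preS cd (β : Stg)).T) c
        (fun g => s ∈ ev (P := (preS cd (β : Stg)).T) (cd.dec x) g)}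
    have hSxD : ∀ x s, Sx x s ⊆ smDG β cn' := fun x s c hc => hc.1
    have hSm : ∀ x, SmN (Sx x) := fun x s => small_subset (hSxD x s)
    have hev : ∀ x, ∀ᶠ g in GC (preS cd (β : Stg)).T,
        ev (P := (preS cd (β : Stg)).T) (Sx x) g = ev (P := (preS cd (β : Stg)).T) (cd.dec x) g := by
      intro x
      have h1 := ev_of_dec_dense (P := (preS cd (β : Stg)).T) (ι := Node) (D := D) hdense
        (T := fun s g => s ∈ ev (P := (preS cd (β : Stg)).T) (cd.dec x) g)
        (fun s => dec_ev (P := (preS cd (β : Stg)).T) (cd.dec x) s)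
      filter_upwards [h1] with g hg
      exact hg
    refine ⟨fun x => if x = ∅ then ∅ else smCode cd (Sx x), if_pos rfl, ?_, ?_⟩
    · have h2 : Small.{0} {S : Node → Set CC | ∀ s, S s ⊆ smDG β cn'} := small_names (smDG β cn')
      have h4 : Small.{0} (Option {S : Node → Set CC | ∀ s, S s ⊆ smDG β cn'}) :=
        (small_congr (Equiv.optionEquivSumPUnit.{0, 1} _)).2 inferInstance
      refine small_subset
        (s := Set.range (fun o : Option {S : Node → Set CC | ∀ s, S s ⊆ smDG β cn'} =>
          o.elim ∅ (fun S => smCode cd S.1))) ?_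
      rintro _ ⟨x, rfl⟩
      by_cases hx : x = ∅
      · exact ⟨none, (if_pos hx).symm⟩
      · exact ⟨some ⟨Sx x, hSxD x⟩, (if_neg hx).symm⟩
    · intro r x
      by_cases hx : x = ∅
      · simp only [if_pos hx]
        rw [hx]
        exact ⟨atC_refl cd β r ∅, atC_refl cd β r ∅⟩
      · simp only [if_neg hx]
        rw [atC_iff cd hβ, atC_iff cd hβ]
        have h3 : cd.dec (smCode cd (Sx x)) = Sx x := smCode_spec cd (hSm x)
        constructor
        · filter_upwards [hev x] with g hg _
          rw [h3]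
          exact (evG_congr (P := (preS cd (β : Stg)).T) hg.symm).subset
        · filter_upwards [hev x] with g hg _
          rw [h3]
          exact (evG_congr (P := (preS cd (β : Stg)).T) hg).subset

/-- the canonical code -/
noncomputable def can : Ordinal.{0} → XX → XX := (exists_can cd).choose

theorem can_empty (β : Ordinal.{0}) : can cd β ∅ = ∅ := ((exists_can cd).choose_spec β).1

theorem small_can (β : Ordinal.{0}) : Small.{0} (Set.range (can cd β)) :=
  ((exists_can cd).choose_spec β).2.1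

theorem le_can (β : Ordinal.{0}) (r : CC) (x : XX) : AtC cd β r x (can cd β x) :=
  (((exists_can cd).choose_spec β).2.2 r x).1

theorem can_le (β : Ordinal.{0}) (r : CC) (x : XX) : AtC cd β r (can cd β x) x :=
  (((exists_can cd).choose_spec β).2.2 r x).2

/-- the canonical conditions of the stage `β` -/
def DD (β : Ordinal.{0}) : Set CC :=
  {p | (∀ γ, β ≤ γ → p.1 γ = ∅) ∧ ∀ γ, p.1 γ ∈ Set.range (can cd γ)}

theorem small_DD (β : Ordinal.{0}) : Small.{0} (DD cd β) :=
  small_smDG β (can cd) fun γ _ => small_can cd γ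

theorem DD_mono {β γ : Ordinal.{0}} (h : β ≤ γ) : DD cd β ⊆ DD cd γ :=
  fun _ hp => ⟨fun δ hδ => hp.1 δ (h.trans hδ), hp.2⟩

/-- the canonical condition equivalent to `p` -/
noncomputable def canC (p : CC) : CC :=
  ⟨fun γ => can cd γ (p.1 γ), p.2.mono fun γ hγ => fun h => hγ (by
    simp only [h, can_empty])⟩

theorem canC_mem {β : Ordinal.{0}} {p : CC} (hp : ∀ γ, β ≤ γ → p.1 γ = ∅) : canC cd p ∈ DD cd β := by
  constructor
  · intro γ hγ
    change can cd γ (p.1 γ) = ∅
    rw [hp γ hγ, can_empty]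
  · intro γ
    exact ⟨p.1 γ, rfl⟩

theorem canC_le (δ : Stg) (p : CC) : LeOf (AtC cd) δ (canC cd p) p :=
  fun γ _ => can_le cd γ _ _

theorem le_canC (δ : Stg) (p : CC) : LeOf (AtC cd) δ p (canC cd p) :=
  fun γ _ => le_can cd γ _ _

/-- every condition is equivalent at stage `β` to a canonical condition of stage `β` -/
theorem exists_DD (β : Ordinal.{0}) (p : CC) : ∃ d ∈ DD cd β,
    LeOf (AtC cd) (β : Stg) d p ∧ LeOf (AtC cd) (β : Stg) p d := by
  refine ⟨smCut β (can cd) (can_empty cd) p, smCut_mem β (can cd) (can_empty cd) p, ?_, ?_⟩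
  · intro γ hγ
    rw [smCut_val (can cd) (can_empty cd) p (WithTop.coe_lt_coe.1 hγ)]
    exact can_le cd γ _ _
  · intro γ hγ
    rw [smCut_val (can cd) (can_empty cd) p (WithTop.coe_lt_coe.1 hγ)]
    exact le_can cd γ _ _

/-- names with canonical conditions (`ev_of_dec_dense`) -/
theorem name_DD {ι : Type} [Countable ι] (β : Ordinal.{0})
    {T : ι → GG (preS cd (β : Stg)).T → Prop} (hT : ∀ i, Dec (T i)) :
    ∃ S : ι → Set CC, (∀ i, S i ⊆ DD cd β) ∧
      ∀ᶠ g in GC (preS cd (β : Stg)).T, ev (P := (preS cd (β : Stg)).T) S g = {i | T i g} := by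
  let D : Set (preS cd (β : Stg)).T := DD cd β
  have hdense : ∀ p : (preS cd (β : Stg)).T, ∃ d ∈ D, d ≤ p := by
    intro p
    obtain ⟨d, hd, h1, _⟩ := exists_DD cd β p
    exact ⟨d, hd, h1⟩
  exact ⟨fun i => {c | c ∈ DD cd β ∧ Fo (P := (preS cd (β : Stg)).T) c (T i)},
    fun i c hc => hc.1,
    ev_of_dec_dense (P := (preS cd (β : Stg)).T) (D := D) hdense hT⟩

/-- codes of decided sets of nodes -/
theorem code_of_dec (β : Ordinal.{0}) {T : Node → GG (preS cd (β : Stg)).T → Prop}
    (hT : ∀ s, Dec (T s)) : ∃ x, ∀ᶠ g in GC (preS cd (β : Stg)).T,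
      ev (P := (preS cd (β : Stg)).T) (cd.dec x) g = {s | T s g} := by
  obtain ⟨S, hS, h⟩ := name_DD cd β hT
  have hsm := small_DD cd β
  obtain ⟨x, hx⟩ := cd.surj S (fun s => small_subset (hS s))
  refine ⟨x, ?_⟩
  rw [hx]
  exact h

end Pool.Agent.CIt
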